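import Pool.Agent.LBL.Itv

/-!
# Project LBL (architect helper40), module Asm: nerves that are order complexes
-/

namespace LBL

open SCG SCP SCS Finset

variable {P : Type} [PartialOrder P]

/-- above the lower end -/
def Lo (a : Option P) (x : P) : Prop := ∀ g ∈ a, g < x

/-- below the upper end -/
def Up (b : Option P) (x : P) : Prop := ∀ f ∈ b, x < f

theorem exists_gap_chain {V : Type} [DecidableEq V] (φ : V → P) (r : P → ℕ) (N : ℕ) :
    ∀ (n : ℕ) (K : Finset V) (b : Option P), K.card = n →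
      (∀ x ∈ K, ∀ y ∈ K, x ≠ y → φ x < φ y ∨ φ y < φ x) → (∀ x ∈ K, Up b (φ x)) →
      Even (b.elim N r + K.card) →
      ∃ a b' : Option P, (∀ g ∈ a, ∃ k ∈ K, φ k = g) ∧ (b' = b ∨ ∃ k ∈ K, b' = some (φ k)) ∧
        Even (b'.elim N r + a.elim 0 r) ∧ (∀ g ∈ a, ∀ f ∈ b', g < f) ∧
        ∀ k ∈ K, (∃ g ∈ a, φ k ≤ g) ∨ ∃ f ∈ b', f ≤ φ k := by
  intro n
  induction n with
  | zero =>
    intro K b hK _ _ he
    rw [card_eq_zero] at hK
    subst hK
    refine ⟨none, b, fun g hg => absurd hg (by simp), Or.inl rfl, ?_, fun g hg => absurd hg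
      (by simp), fun k hk => absurd hk (Finset.notMem_empty k)⟩
    simpa using he
  | succ n ih =>
    intro K b hK hch hub he
    have hne : K.Nonempty := by
      rw [← card_pos, hK]
      omega
    obtain ⟨m, hm, hmax⟩ : ∃ m ∈ K, ∀ k ∈ K, φ k ≤ φ m := by
      obtain ⟨m, hm, h1⟩ := exists_maximal_image hne
      refine ⟨m, hm, fun k hk => ?_⟩
      by_cases hkm : k = m
      · rw [hkm]
      · rcases hch k hk m hm hkm with h2 | h2
        · exact h2.le
        · exact absurd h2 (h1 k hk)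
    by_cases hpar : Even (b.elim N r + r (φ m))
    · refine ⟨some (φ m), b, ?_, Or.inl rfl, hpar, ?_, fun k hk => Or.inl ⟨φ m, rfl, hmax k hk⟩⟩
      · intro g hg
        rw [Option.mem_def, Option.some.injEq] at hg
        exact ⟨m, hm, hg⟩
      · intro g hg f hf
        rw [Option.mem_def, Option.some.injEq] at hg
        rw [← hg]
        exact hub m hm f hf
    · obtain ⟨a, b', h1, h2, h3, h4, h5⟩ := ih (K.erase m) (some (φ m)) (by
        rw [card_erase_of_mem hm, hK]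
        rfl) (fun x hx y hy => hch x (mem_of_mem_erase hx) y (mem_of_mem_erase hy)) (by
        intro x hx f hf
        rw [Option.mem_def, Option.some.injEq] at hf
        rw [← hf]
        have hx' := mem_erase.1 hx
        rcases hch x hx'.2 m hm hx'.1 with h2 | h2
        · exact h2
        · exact absurd (hmax x hx'.2) h2.not_ge) (by
        rw [card_erase_of_mem hm, hK]
        rw [hK] at he
        change Even (r (φ m) + (n + 1 - 1))
        rw [Nat.add_sub_cancel]
        rw [Nat.even_iff] at he hpar ⊢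
        omega)
      have hb' : ∃ f ∈ b', f ≤ φ m := by
        rcases h2 with rfl | ⟨k, hk, rfl⟩
        · exact ⟨φ m, rfl, le_rfl⟩
        · exact ⟨φ k, rfl, hmax k (mem_of_mem_erase hk)⟩
      refine ⟨a, b', fun g hg => ?_, ?_, h3, h4, fun k hk => ?_⟩
      · obtain ⟨k, hk, e⟩ := h1 g hg
        exact ⟨k, mem_of_mem_erase hk, e⟩
      · rcases h2 with rfl | ⟨k, hk, rfl⟩
        · exact Or.inr ⟨m, hm, rfl⟩
        · exact Or.inr ⟨k, mem_of_mem_erase hk, rfl⟩
      · by_cases hkm : k = m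
        · rw [hkm]
          exact Or.inr hb'
        · exact h5 k (mem_erase.2 ⟨hkm, hk⟩)
where
  exists_maximal_image {V : Type} {φ : V → P} {K : Finset V} (hne : K.Nonempty) :
      ∃ m ∈ K, ∀ k ∈ K, ¬ φ m < φ k := by
    classical
    obtain ⟨q, hq⟩ := (K.image φ).exists_maximal (hne.image φ)
    obtain ⟨m, hm, rfl⟩ := mem_image.1 hq.1
    exact ⟨m, hm, fun k hk => hq.not_gt (mem_image_of_mem φ hk)⟩

/-- The spherical sets of odd size have a factor for which the Coxeter complex is fine. -/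
def Loc {V : Type} (M : CoxeterMatrix V) : Prop :=
  ∀ K : Finset V, (∀ x ∈ K, ∀ y ∈ K, M x y ≠ 0) → Odd K.card →
    ∃ K₁ ⊆ K, K₁.Nonempty ∧ (∀ s ∈ K₁, ∀ t ∈ K, t ∉ K₁ → M s t = 2) ∧
      ∃ (_ : Fintype (Vx (sub M K₁))) (_ : LinearOrder (Vx (sub M K₁))), NoHom (Xm (sub M K₁))

theorem sph_empty {V : Type} {M : CoxeterMatrix V} : Sph M ∅ := by
  unfold Sph WT
  rw [coe_empty, Set.image_empty, Subgroup.closure_empty]
  exact Set.finite_singleton 1

theorem ra_sph {V : Type} {M : CoxeterMatrix V} {C : Finset V}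
    (hC : ∀ x ∈ C, ∀ y ∈ C, ra M x y ≠ 0) : Sph (ra M) C := by
  classical
  have h1 := sph_add (G := ra M) (C₁ := ∅) sph_empty C (fun c hc y hy hyc => by
    rw [empty_union] at hy
    refine ra_ne hyc.symm fun h0 => hC c hc y hy (ra_zero h0))
  rwa [empty_union] at h1

/-- Reduction, in terms of even simplices. -/
theorem red_even {V : Type} [Fintype V] [LinearOrder V] (M : CoxeterMatrix V)
    (hM : ∀ K : Finset V, (∀ x ∈ K, ∀ y ∈ K, M x y ≠ 0) → Sph M K) (hL : Loc M)
    (h : ∀ K : Finset V, (∀ x ∈ K, ∀ y ∈ K, M x y ≠ 0) → Even K.card →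
      NoHom (sub (ra M) (Nb M K))) : NoHom M := by
  refine red_nohom M hM fun K hK => ?_
  rcases Nat.even_or_odd K.card with h1 | h1
  · exact Or.inl (h K hK h1)
  · exact Or.inr (hL K hK h1)

/-- The theorem for order complexes. -/
theorem poset_red {V : Type} [Fintype V] [LinearOrder V] (M : CoxeterMatrix V)
    (hM : ∀ K : Finset V, (∀ x ∈ K, ∀ y ∈ K, M x y ≠ 0) → Sph M K) (hL : Loc M)
    (φ : V → P) (hi : Function.Injective φ) (Q : Finset P) (hQ : ∀ τ, τ ∈ Q ↔ ∃ v, φ v = τ)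
    (hc : ∀ x y, x ≠ y → (M x y ≠ 0 ↔ φ x < φ y ∨ φ y < φ x)) (r : P → ℕ) (N : ℕ) (hN : Even N)
    (hI : ∀ a b : Option P, (∀ g ∈ a, g ∈ Q) → (∀ f ∈ b, f ∈ Q) → (∀ g ∈ a, ∀ f ∈ b, g < f) →
      Even (b.elim N r + a.elim 0 r) →
      ZG (cmM P) ((open Classical in Q.filter fun x => Lo a x ∧ Up b x))) : NoHom M := by
  classical
  refine red_even M hM hL fun K hK hKe => ?_
  rw [← zg_iff_nohom]
  obtain ⟨a, b, h1, h2, h3, h4, h5⟩ := exists_gap_chain φ r N K.card K none rfl (by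
    intro x hx y hy hxy
    exact (hc x y hxy).1 (hK x hx y hy)) (fun x _ f hf => absurd hf (by simp)) (by
    change Even (N + K.card)
    exact hN.add hKe)
  have haK : ∀ g ∈ a, ∃ k ∈ K, φ k = g := h1
  have hbK : ∀ f ∈ b, ∃ k ∈ K, φ k = f := by
    intro f hf
    rcases h2 with rfl | ⟨k, hk, rfl⟩
    · exact absurd hf (by simp)
    · rw [Option.mem_def, Option.some.injEq] at hf
      exact ⟨k, hk, hf⟩
  have hZ := hI a b (fun g hg => by
      obtain ⟨k, -, e⟩ := haK g hg
      exact (hQ g).2 ⟨k, e⟩) (fun f hf => by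
      obtain ⟨k, -, e⟩ := hbK f hf
      exact (hQ f).2 ⟨k, e⟩) h4 h3
  obtain ⟨A, hA⟩ : ∃ A, A = (Nb M K).filter fun x => Lo a (φ x) ∧ Up b (φ x) := ⟨_, rfl⟩
  obtain ⟨B, hB⟩ : ∃ B, B = (Nb M K).filter fun x => ¬ (Lo a (φ x) ∧ Up b (φ x)) := ⟨_, rfl⟩
  have hAB : Nb M K = A ∪ B := by
    rw [hA, hB, filter_union_filter_not_eq]
  have hcomp : ∀ x ∈ Nb M K, ∀ k ∈ K, φ x < φ k ∨ φ k < φ x := by
    intro x hx k hk
    have h6 := mem_Nb.1 hx
    exact (hc x k (fun e => h6.1 (e ▸ hk))).1 (h6.2 k hk)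
  have him : A.image φ = Q.filter fun x => Lo a x ∧ Up b x := by
    ext y
    rw [mem_image, mem_filter, hQ]
    constructor
    · rintro ⟨x, hx, rfl⟩
      rw [hA, mem_filter] at hx
      exact ⟨⟨x, rfl⟩, hx.2⟩
    · rintro ⟨⟨x, rfl⟩, h6, h7⟩
      refine ⟨x, ?_, rfl⟩
      rw [hA, mem_filter, mem_Nb]
      have h8 : ∀ k ∈ K, φ k < φ x ∨ φ x < φ k := by
        intro k hk
        rcases h5 k hk with ⟨g, hg, h9⟩ | ⟨f, hf, h9⟩
        · exact Or.inl (h9.trans_lt (h6 g hg))
        · exact Or.inr ((h7 f hf).trans_le h9)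
      refine ⟨⟨fun hx => ?_, fun k hk => ?_⟩, h6, h7⟩
      · rcases h8 x hx with h9 | h9 <;> exact lt_irrefl _ h9
      · have hne : x ≠ k := by
          rintro rfl
          rcases h8 x hk with h9 | h9 <;> exact lt_irrefl _ h9
        exact (hc x k hne).2 (h8 k hk).symm
  rw [hAB]
  refine zg_join ?_ ?_ (fun C _ hC => ra_sph hC) ?_
  · rw [hA, hB]
    exact disjoint_filter_filter_not _ _ _
  · intro z hz x hx
    rw [hB, mem_filter, not_and_or] at hz
    rw [hA, mem_filter] at hx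
    have h6 : φ z < φ x ∨ φ x < φ z := by
      rcases hz.2 with h7 | h7
      · unfold Lo at h7
        push Not at h7
        obtain ⟨g, hg, h8⟩ := h7
        obtain ⟨k, hk, rfl⟩ := haK g hg
        exact Or.inl (((hcomp z hz.1 k hk).resolve_right h8).trans (hx.2.1 _ hg))
      · unfold Up at h7
        push Not at h7
        obtain ⟨f, hf, h8⟩ := h7
        obtain ⟨k, hk, rfl⟩ := hbK f hf
        exact Or.inr ((hx.2.2 _ hf).trans ((hcomp z hz.1 k hk).resolve_left h8))
    have hne : z ≠ x := by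
      rintro rfl
      exact h6.elim (lt_irrefl _) (lt_irrefl _)
    exact ra_ne hne ((hc z x hne).2 h6)
  · rw [zg_image (G' := cmM P) φ (fun x _ y _ e => hi e), him]
    · exact hZ
    · intro x _ y _
      by_cases hxy : x = y
      · rw [hxy, (cmM P).diagonal, (ra M).diagonal]
      · by_cases h0 : M x y = 0
        · have h6 : ¬ (φ x < φ y ∨ φ y < φ x) := fun h7 => (hc x y hxy).2 h7 h0
          rw [not_or] at h6
          rw [ra_zero h0, cmM_zero (fun e => hxy (hi e)) h6.1 h6.2]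
        · rw [ra_ne hxy h0, cmM_two ((hc x y hxy).1 h0)]

end LBL
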