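import Pool.Agent.LBL.Dna

/-!
# Project LBL (architect helper40), module Dnb: the vanishing for the Coxeter complex of type D
-/

namespace LBL

open SCG Finset

variable {κ : Type}

theorem ew_congr {n : ℕ} {pos : κ → ℕ} {p p' : ℕ → ℤ} (hn : 2 ≤ n) (hpl : ∀ x, pos x < n)
    (h : ∀ i < n, p i = p' i) : ew n pos p = ew n pos p' := by
  ext x
  unfold ew
  by_cases h1 : pos x + 1 < n
  · rw [if_pos h1, if_pos h1, h _ (hpl x), h _ h1]
  · rw [if_neg h1, if_neg h1, h _ (show n - 2 < n by omega), h _ (show n - 1 < n by omega)]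

theorem zc_congr {n : ℕ} {p p' : ℕ → ℤ} (h : ∀ i < n, p i = p' i) : zc n p = zc n p' := by
  unfold zc
  congr 1
  ext i
  rw [mem_filter, mem_filter, mem_range]
  constructor
  · rintro ⟨h1, h2⟩
    exact ⟨h1, (h i h1) ▸ h2⟩
  · rintro ⟨h1, h2⟩
    exact ⟨h1, (h i h1).trans h2⟩

theorem zc_sp {n : ℕ} {p : ℕ → ℤ} {σ : Equiv.Perm ℕ} {ε : ℕ → ℤ}
    (hσ : ∀ i, σ i < n ↔ i < n) (hε : ∀ i, ε i = 1 ∨ ε i = -1) :
    zc n (fun i => ε i * p (σ i)) = zc n p := by
  have h0 : ∀ i (x : ℤ), ε i * x = 0 ↔ x = 0 := by
    intro i x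
    rcases hε i with h1 | h1 <;> rw [h1] <;> simp
  unfold zc
  refine card_bij (fun i _ => σ i) ?_ (fun i _ j _ e => σ.injective e) ?_
  · intro i hi
    rw [mem_filter, mem_range, h0] at hi
    rw [mem_filter, mem_range]
    exact ⟨(hσ i).2 hi.1, hi.2⟩
  · intro i hi
    rw [mem_filter, mem_range] at hi
    refine ⟨σ.symm i, ?_, Equiv.apply_symm_apply _ _⟩
    rw [mem_filter, mem_range, h0, ← hσ, Equiv.apply_symm_apply]
    exact hi

theorem gd_sp {n : ℕ} {p : ℕ → ℤ} (hp : Gd n p) {σ : Equiv.Perm ℕ} {ε : ℕ → ℤ}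
    (hσ : ∀ i, σ i < n ↔ i < n) (hε : ∀ i, ε i = 1 ∨ ε i = -1) :
    Gd n fun i => ε i * p (σ i) := by
  intro i hi
  change ε i * p (σ i) = 1 ∨ ε i * p (σ i) = 0 ∨ ε i * p (σ i) = -1
  rcases hε i with h1 | h1 <;> rcases hp (σ i) ((hσ i).2 hi) with h2 | h2 | h2 <;>
    rw [h1, h2] <;> norm_num

theorem gd_bp (n k : ℕ) : Gd n (bp n k) := by
  intro i _
  unfold bp
  split_ifs <;> norm_num

theorem zc_bp {n k : ℕ} (hk : k < n) (hn : 3 ≤ n) : zc n (bp n k) ≠ 1 ∧ zc n (bp n k) ≠ n := by
  by_cases h1 : k + 2 < n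
  · have h2 : (range n).filter (fun i => bp n k i = 0) = range n \ range (k + 1) := by
      ext i
      rw [mem_filter, mem_sdiff, mem_range, mem_range]
      unfold bp
      rw [if_pos h1]
      constructor
      · rintro ⟨h3, h4⟩
        refine ⟨h3, fun h5 => ?_⟩
        rw [if_pos (by omega)] at h4
        norm_num at h4
      · rintro ⟨h3, h4⟩
        exact ⟨h3, if_neg (by omega)⟩
    unfold zc
    rw [h2, card_sdiff_of_subset (range_subset_range.2 (by omega)), card_range, card_range]
    omega
  · have h2 : (range n).filter (fun i => bp n k i = 0) = ∅ := by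
      rw [filter_eq_empty_iff]
      intro i _
      unfold bp
      split_ifs <;> norm_num
    unfold zc
    rw [h2, card_empty]
    omega

namespace Ds

variable {m : CoxeterMatrix κ} {n : ℕ} {c : ℕ → κ} {pos : κ → ℕ} (h : Ds m n c pos)

include h

theorem ew_inj {p p' : ℕ → ℤ} (e : ew n pos p = ew n pos p') : ∀ i < n, p i = p' i := by
  have hn := h.hn
  have h1 : ∀ j, j + 1 < n → p j - p (j + 1) = p' j - p' (j + 1) := by
    intro j hj
    have h2 := congrFun e (c j)
    rwa [h.ew_c _ (by omega), h.ew_c _ (by omega), if_pos hj, if_pos hj] at h2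
  have h2 : p (n - 2) + p (n - 1) = p' (n - 2) + p' (n - 1) := by
    have h3 := congrFun e (c (n - 1))
    rwa [h.ew_c _ (by omega), h.ew_c _ (by omega), if_neg (by omega), if_neg (by omega)] at h3
  have h3 := h1 (n - 2) (by omega)
  rw [show n - 2 + 1 = n - 1 by omega] at h3
  have key : ∀ d i, i + d + 1 = n → p i = p' i := by
    intro d
    induction d with
    | zero =>
      intro i hi
      rw [show i = n - 1 by omega]
      omega
    | succ d ih =>
      intro i hi
      have h4 := ih (i + 1) (by omega)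
      have h5 := h1 i (by omega)
      omega
  intro i hi
  exact key (n - 1 - i) i (by omega)

theorem exists_sp (g : m.Group) : ∃ (σ : Equiv.Perm ℕ) (ε : ℕ → ℤ), (∀ i, σ i < n ↔ i < n) ∧
    (∀ i, ε i = 1 ∨ ε i = -1) ∧
    ∀ p, ac h.sl g (ew n pos p) = ew n pos fun i => ε i * p (σ i) := by
  have hn := h.hn
  obtain ⟨η, rfl, -⟩ := exists_red g
  induction η with
  | nil =>
    refine ⟨1, fun _ => 1, fun i => Iff.rfl, fun _ => Or.inl rfl, fun p => ?_⟩
    rw [wp_nil, ac_one]
    congr 1
    funext i
    rw [one_mul]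
    rfl
  | cons s η ih =>
    obtain ⟨σ, ε, h1, h2, h3⟩ := ih
    obtain ⟨k, hk⟩ : ∃ k, k = pos s := ⟨_, rfl⟩
    have hkn : k < n := hk ▸ h.pl s
    have hs : s = c k := by rw [hk, h.cp]
    by_cases h4 : k + 1 < n
    · refine ⟨σ * Equiv.swap k (k + 1), fun i => ε (Equiv.swap k (k + 1) i), fun i => ?_,
        fun i => h2 _, fun p => ?_⟩
      · rw [Equiv.Perm.mul_apply, h1, Equiv.swap_apply_def]
        split_ifs <;> omega
      · rw [wp_cons, ac_mul, h3, ac_gn, hs, h.act_c _ h4]
        rfl
    · refine ⟨σ * Equiv.swap (n - 2) (n - 1), fun i => (if i + 2 = n ∨ i + 1 = n then -1 else 1) *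
        ε (Equiv.swap (n - 2) (n - 1) i), fun i => ?_, fun i => ?_, fun p => ?_⟩
      · rw [Equiv.Perm.mul_apply, h1, Equiv.swap_apply_def]
        split_ifs <;> omega
      · change (if i + 2 = n ∨ i + 1 = n then -1 else 1) * ε (Equiv.swap (n - 2) (n - 1) i) = 1 ∨
          (if i + 2 = n ∨ i + 1 = n then -1 else 1) * ε (Equiv.swap (n - 2) (n - 1) i) = -1
        rcases h2 (Equiv.swap (n - 2) (n - 1) i) with h5 | h5 <;> rw [h5] <;> split_ifs <;> norm_num
      · have h5 : k = n - 1 := by omega
        rw [wp_cons, ac_mul, h3, ac_gn, hs, h5, h.act_y]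
        congr 1
        funext i
        rw [mul_assoc]
        rfl

/-- the weights of the vertices -/
theorem fw : Fw fun x : κ => ew n pos (bp n (pos x)) := by
  have hn := h.hn
  constructor
  · intro x
    have h1 := h.pl x
    change 0 < ew n pos (bp n (pos x)) x
    unfold ew bp
    split_ifs <;> omega
  · intro x y hxy
    have h1 := h.pl x
    have h3 := h.pl y
    have h2 : pos y ≠ pos x := by
      intro e
      apply hxy
      rw [← h.cp y, e, h.cp]
    change ew n pos (bp n (pos x)) y = 0
    unfold ew bp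
    split_ifs <;> omega

/-- dominant vectors are basic -/
theorem basic {p : ℕ → ℤ} (hp : Gd n p) (h1 : zc n p ≠ 1) (h2 : zc n p ≠ n)
    (hd : ∀ t, 0 ≤ ew n pos p t) : ∃ k < n, ∀ i < n, p i = bp n k i := by
  have hn := h.hn
  have h3 : ∀ j, j + 1 < n → p (j + 1) ≤ p j := by
    intro j hj
    have h4 := hd (c j)
    rw [h.ew_c _ (by omega), if_pos hj] at h4
    omega
  have h4 : 0 ≤ p (n - 2) + p (n - 1) := by
    have h5 := hd (c (n - 1))
    rwa [h.ew_c _ (by omega), if_neg (by omega)] at h5
  have hmono : ∀ d i, i + d < n → p (i + d) ≤ p i := by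
    intro d
    induction d with
    | zero => exact fun i _ => le_rfl
    | succ d ih =>
      intro i hi
      exact (h3 (i + d) hi).trans (ih i (by omega))
  have hmono' : ∀ i j, i ≤ j → j < n → p j ≤ p i := by
    intro i j hij hj
    have := hmono (j - i) i (by omega)
    rwa [show i + (j - i) = j by omega] at this
  rcases hp (n - 1) (by omega) with h5 | h5 | h5
  · refine ⟨n - 1, by omega, fun i hi => ?_⟩
    unfold bp
    rw [if_neg (by omega), if_neg (by omega)]
    have h6 := hmono' i (n - 1) (by omega) (by omega)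
    rcases hp i hi with h7 | h7 | h7 <;> omega
  · have hpos : ∀ i < n, 0 ≤ p i := fun i hi => by
      have := hmono' i (n - 1) (by omega) (by omega)
      omega
    have h6 : p 0 = 1 := by
      rcases hp 0 (by omega) with h7 | h7 | h7
      · exact h7
      · exfalso
        apply h2
        unfold zc
        rw [filter_true_of_mem, card_range]
        intro i hi
        rw [mem_range] at hi
        have h8 := hmono' 0 i (Nat.zero_le i) hi
        have h9 := hpos i hi
        omega
      · have := hpos 0 (by omega)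
        omega
    obtain ⟨k, hk, hk1, hk2⟩ : ∃ k, k + 1 < n ∧ p k = 1 ∧ p (k + 1) ≠ 1 := by
      by_contra hcon
      push Not at hcon
      have h7 : ∀ k, k < n → p k = 1 := by
        intro k
        induction k with
        | zero => exact fun _ => h6
        | succ k ih => exact fun hk => hcon k hk (ih (by omega))
      have := h7 (n - 1) (by omega)
      omega
    have hk3 : p (k + 1) = 0 := by
      rcases hp (k + 1) hk with h7 | h7 | h7
      · exact absurd h7 hk2
      · exact h7
      · have := hpos (k + 1) hk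
        omega
    have hlo : ∀ i, i ≤ k → p i = 1 := by
      intro i hi
      have := hmono' i k hi (by omega)
      rcases hp i (by omega) with h7 | h7 | h7 <;> omega
    have hhi : ∀ i, k < i → i < n → p i = 0 := by
      intro i hi hin
      have := hmono' (k + 1) i (by omega) hin
      have := hpos i hin
      omega
    have hk4 : k + 2 < n := by
      by_contra h7
      apply h1
      unfold zc
      rw [card_eq_one]
      refine ⟨n - 1, ?_⟩
      ext i
      rw [mem_filter, mem_range, mem_singleton]
      constructor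
      · rintro ⟨h8, h9⟩
        by_contra h10
        have := hlo i (by omega)
        omega
      · rintro rfl
        exact ⟨by omega, h5⟩
    refine ⟨k, by omega, fun i hi => ?_⟩
    unfold bp
    rw [if_pos hk4]
    split_ifs with h7
    · exact hlo i h7
    · exact hhi i (by omega) hi
  · refine ⟨n - 2, by omega, fun i hi => ?_⟩
    unfold bp
    rw [if_neg (by omega), if_pos (by omega)]
    have h6 : p (n - 2) = 1 := by
      rcases hp (n - 2) (by omega) with h7 | h7 | h7 <;> omega
    split_ifs with h7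
    · have h8 := hmono' i (n - 2) (by omega) (by omega)
      rcases hp i hi with h9 | h9 | h9 <;> omega
    · rw [show i = n - 1 by omega, h5]

/-- The Coxeter complex of type `D n`, `n` odd. -/
theorem nohom [Finite κ] (hf : Finite m.Group) (ho : Odd n) :
    ∃ (_ : Fintype (Vx m)) (_ : LinearOrder (Vx m)), NoHom (Xm m) := by
  classical
  have hn := h.hn
  have i0 : Fintype κ := Fintype.ofFinite _
  have i1 : Fintype (Vx m) := Fintype.ofFinite _
  obtain ⟨i2, -⟩ := exists_order (Vx m) fun _ => True
  refine ⟨i1, i2, ?_⟩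
  have w := h.fw
  obtain ⟨P, hP⟩ : ∃ P : Vx m → ℕ → ℤ, ∀ v, Gd n (P v) ∧ zc n (P v) ≠ 1 ∧ zc n (P v) ≠ n ∧
      ∀ i g, v = vx m i g → ac h.sl g (ew n pos (bp n (pos i))) = ew n pos (P v) := by
    have h1 : ∀ v : Vx m, ∃ p : ℕ → ℤ, Gd n p ∧ zc n p ≠ 1 ∧ zc n p ≠ n ∧
        ∀ i g, v = vx m i g → ac h.sl g (ew n pos (bp n (pos i))) = ew n pos p := by
      intro v
      obtain ⟨g, hg⟩ := vx_surj v
      obtain ⟨σ, ε, h1, h2, h3⟩ := h.exists_sp g
      have h4 := zc_bp (h.pl v.1) hn
      refine ⟨_, gd_sp (gd_bp n (pos v.1)) h1 h2, ?_, ?_, fun i g' hg' => ?_⟩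
      · rw [zc_sp h1 h2]
        exact h4.1
      · rw [zc_sp h1 h2]
        exact h4.2
      · rw [← h3]
        exact (w.eq_iff h.sl).2 (hg'.symm.trans hg)
    exact ⟨fun v => Classical.choose (h1 v), fun v => Classical.choose_spec (h1 v)⟩
  have hPinj : ∀ u v, pr n (P u) = pr n (P v) → u = v := by
    intro u v e
    obtain ⟨g, hg⟩ := vx_surj u
    obtain ⟨g', hg'⟩ := vx_surj v
    have h1 := (hP u).2.2.2 _ g hg
    have h2 := (hP v).2.2.2 _ g' hg'
    rw [hg, hg']
    refine (w.eq_iff h.sl).1 (h1.trans (Eq.trans ?_ h2.symm))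
    exact ew_congr (by omega) h.pl (pr_inj (hP u).1 (hP v).1 e)
  have hmem : ∀ v, pr n (P v) ∈ Sv (∅ : Finset (Finset (Fin n) × Finset (Fin n))) := by
    intro v
    obtain ⟨h1, h2, h3, -⟩ := hP v
    rw [mem_Sv, pr_card h1]
    refine ⟨pr_sub, h2, fun h4 => h3 ?_, Finset.notMem_empty _⟩
    rw [← pr_card h1, h4, sdiff_empty, card_univ, Fintype.card_fin]
  rw [nohom_iff, vv_iff_zg]
  rw [zg_image (G' := rm (rl ∅)) (fun v => pr n (P v)) (fun u _ v _ => hPinj u v)]
  · have hdm := dm_zg (ι := Fin n) (by rwa [Fintype.card_fin]) (by rw [Fintype.card_fin]; omega)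
      _ ∅ ⟨fun q hq => absurd hq (Finset.notMem_empty _), fun q hq => absurd hq
        (Finset.notMem_empty _)⟩ rfl
    convert hdm using 1
    ext q
    rw [mem_image]
    constructor
    · rintro ⟨v, -, rfl⟩
      exact hmem v
    · intro hq
      rw [mem_Sv] at hq
      obtain ⟨h1, h2, h3, -⟩ := hq
      obtain ⟨p, hp⟩ : ∃ p : ℕ → ℤ, ∀ i (hi : i < n), p i = if (⟨i, hi⟩ : Fin n) ∈ q.1 then 1
          else if (⟨i, hi⟩ : Fin n) ∈ q.2 then 0 else -1 :=
        ⟨fun i => if hi : i < n then (if (⟨i, hi⟩ : Fin n) ∈ q.1 then 1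
          else if (⟨i, hi⟩ : Fin n) ∈ q.2 then 0 else -1) else 0, fun i hi => dif_pos hi⟩
      have hgd : Gd n p := by
        intro i hi
        rw [hp i hi]
        split_ifs
        · exact Or.inl rfl
        · exact Or.inr (Or.inl rfl)
        · exact Or.inr (Or.inr rfl)
      have hpr : pr n p = q := by
        refine Prod.ext ?_ ?_
        · ext i
          rw [mem_pr1, hp i.1 i.2]
          constructor
          · intro h4
            by_contra h5
            rw [if_neg h5] at h4
            split_ifs at h4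
            norm_num at h4
          · exact fun h4 => if_pos h4
        · ext i
          rw [mem_pr2, hp i.1 i.2]
          constructor
          · intro h4
            by_contra h5
            rw [if_neg (fun h6 => h5 (h1 h6)), if_neg h5] at h4
            exact h4 rfl
          · intro h4
            by_cases h5 : (⟨i.1, i.2⟩ : Fin n) ∈ q.1
            · rw [if_pos h5]
              norm_num
            · rw [if_neg h5, if_pos h4]
              norm_num
      have hz := pr_card hgd
      rw [hpr] at hz
      have hzn : zc n p ≠ n := by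
        intro h4
        apply h3
        have h5 : q.2 \ q.1 = univ := by
          rw [← card_eq_iff_eq_univ, hz, h4, Fintype.card_fin]
        have h6 : q.2 = univ := univ_subset_iff.1 (h5 ▸ sdiff_subset)
        have h7 : q.1 = ∅ := by
          rw [eq_empty_iff_forall_notMem]
          intro i hi
          have h8 : i ∈ q.2 \ q.1 := by
            rw [h5]
            exact mem_univ i
          exact (mem_sdiff.1 h8).2 hi
        exact Prod.ext h7 h6
      obtain ⟨g, hg⟩ := exists_dom h.sl hf (ew n pos p)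
      obtain ⟨σ, ε, h4, h5, h6⟩ := h.exists_sp g
      rw [h6] at hg
      obtain ⟨k, hk, hk2⟩ := h.basic (gd_sp hgd h4 h5) (by rw [zc_sp h4 h5, ← hz]; exact h2)
        (by rw [zc_sp h4 h5]; exact hzn) hg
      have h7 : ac h.sl g (ew n pos p) = ew n pos (bp n k) := by
        rw [h6]
        exact ew_congr (by omega) h.pl hk2
      refine ⟨vx m (c k) g⁻¹, mem_univ _, ?_⟩
      have h8 := (hP (vx m (c k) g⁻¹)).2.2.2 _ _ rfl
      rw [h.pc k hk, ← h7, ac_inv] at h8
      have h9 := h.ew_inj h8
      change pr n (P (vx m (c k) g⁻¹)) = q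
      rw [← hpr]
      refine Prod.ext ?_ ?_
      · ext i
        rw [mem_pr1, mem_pr1, h9 i i.2]
      · ext i
        rw [mem_pr2, mem_pr2, h9 i i.2]
  · intro u _ v _
    by_cases huv : u = v
    · rw [huv, (Xm m).diagonal, (rm (rl ∅)).diagonal]
    · have hne : pr n (P u) ≠ pr n (P v) := fun e => huv (hPinj u v e)
      have hiff : (rl ∅ (pr n (P u)) (pr n (P v)) ∨ rl ∅ (pr n (P v)) (pr n (P u))) ↔
          Xm m u v ≠ 0 := by
        rw [rl_iff (hP u).1 (hP v).1 hne]
        constructor
        · intro h1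
          obtain ⟨g, hg⟩ := vx_surj u
          obtain ⟨g', hg'⟩ := vx_surj v
          obtain ⟨z, hz1, hz2⟩ := w.cch h.sl hf
            (fun a b => ∃ p p', Gd n p ∧ Gd n p' ∧ MR n p p' ∧ a = ew n pos p ∧ b = ew n pos p')
            (fun g a b ⟨p, p', h2, h3, h4, h5, h6⟩ => by
              obtain ⟨σ, ε, h7, h8, h9⟩ := h.exists_sp g
              rw [h5, h6, h9, h9]
              exact ⟨_, _, gd_sp h2 h7 h8, gd_sp h3 h7 h8, mr_sp h4 h7 h8, rfl, rfl⟩)
            (fun a b s ⟨p, p', h2, h3, h4, h5, h6⟩ => by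
              rw [h5, h6]
              unfold ew
              by_cases h7 : pos s + 1 < n
              · rw [if_pos h7, if_pos h7]
                exact (mr_mul h2 h3 h4 (by omega) h7 (by omega)).1
              · rw [if_neg h7, if_neg h7]
                exact (mr_mul h2 h3 h4 (by omega) (by omega) (by omega)).2)
            (i := u.1) (j := v.1) (g := g) (g' := g')
            ⟨P u, P v, (hP u).1, (hP v).1, h1, (hP u).2.2.2 _ g hg, (hP v).2.2.2 _ g' hg'⟩
          have h2 : u.1 ≠ v.1 := by
            intro e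
            apply huv
            rw [hg, hz1, hg', hz2, e]
          rw [hg, hz1, hg', hz2, xm_two h2 z]
          norm_num
        · intro h0
          obtain ⟨h1, g, h2, h3⟩ := xm_ne huv h0
          have h4 := (hP u).2.2.2 _ g h2
          have h5 := (hP v).2.2.2 _ g h3
          obtain ⟨σ, ε, h6, h7, h8⟩ := h.exists_sp g
          rw [h8] at h4 h5
          have h9 := h.ew_inj h4
          have h10 := h.ew_inj h5
          have h11 : pos u.1 ≠ pos v.1 := by
            intro e
            apply h1
            rw [← h.cp u.1, e, h.cp]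
          have h12 := mr_sp (mr_bp (h.pl u.1) (h.pl v.1) h11) h6 h7
          rcases h12 with h13 | h13 | ⟨h13, h14, l, hl, h15⟩
          · left
            intro i hi h16
            rw [← h9 i hi] at h16 ⊢
            rw [← h10 i hi]
            exact h13 i hi h16
          · right; left
            intro i hi h16
            rw [← h10 i hi] at h16 ⊢
            rw [← h9 i hi]
            exact h13 i hi h16
          · right; right
            refine ⟨fun i hi => ?_, fun i hi => ?_, l, hl, fun i hi hil => ?_⟩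
            · rw [← h9 i hi]
              exact h13 i hi
            · rw [← h10 i hi]
              exact h14 i hi
            · rw [← h9 i hi, ← h10 i hi]
              exact h15 i hi hil
      change rm (rl ∅) (pr n (P u)) (pr n (P v)) = Xm m u v
      by_cases h1 : rl ∅ (pr n (P u)) (pr n (P v)) ∨ rl ∅ (pr n (P v)) (pr n (P u))
      · rw [rm_two hne h1]
        obtain ⟨h2, g, h3, h4⟩ := xm_ne huv (hiff.1 h1)
        rw [h3, h4]
        exact (xm_two h2 g).symm
      · rw [rm_zero hne h1]
        by_contra h2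
        exact h1 (hiff.2 (Ne.symm h2))

end Ds

end LBL
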