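import Pool.Agent.LBL.Clb
import Pool.Agent.LBL.Dnb

/-!
# Project LBL (architect helper40), module Brc: branched diagrams of finite Coxeter groups
-/

namespace LBL

open SCG Finset

variable {κ : Type} [Fintype κ] {m : CoxeterMatrix κ}

/-- no node of degree four -/
theorem deg_four (hf : Finite m.Group) {b x y z u : κ} (hx : Aj m b x) (hy : Aj m b y)
    (hz : Aj m b z) (hu : Aj m b u) (hxy : x ≠ y) (hxz : x ≠ z) (hxu : x ≠ u) (hyz : y ≠ z)
    (hyu : y ≠ u) (hzu : z ≠ u) : False := by
  classical
  obtain ⟨X, hX⟩ : ∃ X : κ → ℝ, ∀ t, X t = if t = b then 2 else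
      if t ∈ ({x, y, z, u} : Finset κ) then 1 else 0 := ⟨_, fun _ => rfl⟩
  have hb : X b = 2 := by rw [hX, if_pos rfl]
  have h1 : ∀ t ∈ ({x, y, z, u} : Finset κ), X t = 1 := by
    intro t ht
    have hne : t ≠ b := by
      rintro rfl
      simp only [mem_insert, mem_singleton] at ht
      rcases ht with ht | ht | ht | ht
      · exact hx.1 ht
      · exact hy.1 ht
      · exact hz.1 ht
      · exact hu.1 ht
    rw [hX, if_neg hne, if_pos ht]
  have hadj : ∀ t ∈ ({x, y, z, u} : Finset κ), Aj m b t := by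
    intro t ht
    simp only [mem_insert, mem_singleton] at ht
    rcases ht with rfl | rfl | rfl | rfl
    · exact hx
    · exact hy
    · exact hz
    · exact hu
  have h0 : ∀ t, 0 ≤ X t := by
    intro t
    rw [hX]
    split_ifs <;> norm_num
  have hcard : ({x, y, z, u} : Finset κ).card = 4 := by
    rw [card_insert_of_notMem, card_insert_of_notMem, card_pair hzu]
    · simp only [mem_insert, mem_singleton, not_or]
      exact ⟨hyz, hyu⟩
    · simp only [mem_insert, mem_singleton, not_or]
      exact ⟨hxy, hxz, hxu⟩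
  refine no_null hf h0 ⟨b, by rw [hb]; norm_num⟩ fun t ht => ?_
  by_cases htb : t = b
  · subst htb
    have h2 := row_le (m := m) h0 (s := t) (N := {x, y, z, u}) fun h3 => (hadj t h3).1 rfl
    have h3 : ∑ s ∈ ({x, y, z, u} : Finset κ), kk m t s * X s ≤
        ∑ s ∈ ({x, y, z, u} : Finset κ), (-1 : ℝ) := by
      refine sum_le_sum fun s hs => ?_
      rw [h1 s hs, mul_one]
      exact kk_one (hadj s hs)
    rw [sum_const, hcard] at h3
    rw [hb] at h2
    norm_num at h3
    linarith
  · have hmem : t ∈ ({x, y, z, u} : Finset κ) := by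
      by_contra h2
      rw [hX, if_neg htb, if_neg h2] at ht
      exact lt_irrefl _ ht
    have h2 := row_le (m := m) h0 (s := t) (N := {b}) (by
      rw [mem_singleton]
      exact htb)
    rw [sum_singleton, h1 t hmem, hb] at h2
    have h3 := kk_one (hadj t hmem).symm
    linarith

/-- one of the neighbours of a branch node is a leaf -/
theorem br_leaf (hf : Finite m.Group) {b : κ} {x : Fin 3 → κ} (hx : ∀ i, Aj m b (x i))
    (hinj : ∀ i j, x i = x j → i = j) : ∃ i, ∀ t, Aj m (x i) t → t = b := by
  classical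
  by_contra hcon
  push Not at hcon
  choose y hy hyb using hcon
  -- distinctness
  have hbx : ∀ i, b ≠ x i := fun i => (hx i).1
  have hyx : ∀ i, y i ≠ x i := fun i => (hy i).1.symm
  have key : ∀ i j, i ≠ j → y i ≠ x j ∧ y i ≠ y j := by
    intro i j hij
    obtain ⟨w, hw⟩ : ∃ w : ℕ → κ, w 0 = y i ∧ w 1 = x i ∧ w 2 = b ∧ w 3 = x j ∧ w 4 = y j := by
      refine ⟨fun n => if n = 0 then y i else if n = 1 then x i else if n = 2 then b else
        if n = 3 then x j else y j, ?_, ?_, ?_, ?_, ?_⟩ <;> simp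
    obtain ⟨w0, w1, w2, w3, w4⟩ := hw
    have h1 := nb_inj hf (k := 4) (w := w) (by
      intro a ha
      have h2 : a = 0 ∨ a = 1 ∨ a = 2 ∨ a = 3 := by omega
      rcases h2 with rfl | rfl | rfl | rfl
      · rw [w0, w1]
        exact (hy i).symm
      · rw [w1, w2]
        exact (hx i).symm
      · rw [w2, w3]
        exact hx j
      · rw [w3, w4]
        exact hy j) (by
      intro a ha
      have h2 : a = 0 ∨ a = 1 ∨ a = 2 := by omega
      rcases h2 with rfl | rfl | rfl
      · rw [w0, w2]
        exact hyb i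
      · rw [w1, w3]
        exact fun e => hij (hinj i j e)
      · rw [w2, w4]
        exact (hyb j).symm)
    constructor
    · have := h1 0 3 (by omega) (by omega)
      rwa [w0, w3] at this
    · have := h1 0 4 (by omega) (by omega)
      rwa [w0, w4] at this
  have hyy : ∀ i j, y i = y j → i = j := by
    intro i j e
    by_contra hij
    exact (key i j hij).2 e
  have hyx' : ∀ i j, y i ≠ x j := by
    intro i j
    by_cases hij : i = j
    · rw [← hij]
      exact hyx i
    · exact (key i j hij).1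
  obtain ⟨X, hX⟩ : ∃ X : κ → ℝ, ∀ t, X t = if t = b then 3 else if ∃ i, x i = t then 2 else
      if ∃ i, y i = t then 1 else 0 := ⟨_, fun _ => rfl⟩
  have vb : X b = 3 := by rw [hX, if_pos rfl]
  have vx : ∀ i, X (x i) = 2 := by
    intro i
    rw [hX, if_neg (hbx i).symm, if_pos ⟨i, rfl⟩]
  have vy : ∀ i, X (y i) = 1 := by
    intro i
    rw [hX, if_neg (hyb i), if_neg, if_pos ⟨i, rfl⟩]
    rintro ⟨j, e⟩
    exact hyx' i j e.symm
  have h0 : ∀ t, 0 ≤ X t := by
    intro t
    rw [hX]
    split_ifs <;> norm_num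
  refine no_null hf h0 ⟨b, by rw [vb]; norm_num⟩ fun t ht => ?_
  by_cases h1 : t = b
  · subst h1
    have h2 := row_le (m := m) h0 (s := t) (N := univ.image x) (by
      rw [mem_image]
      rintro ⟨i, -, e⟩
      exact hbx i e.symm)
    have h3 : ∑ s ∈ univ.image x, kk m t s * X s ≤ ∑ s ∈ univ.image x, (-2 : ℝ) := by
      refine sum_le_sum fun s hs => ?_
      obtain ⟨i, -, rfl⟩ := mem_image.1 hs
      rw [vx i]
      have := kk_one (hx i)
      linarith
    rw [sum_const, card_image_of_injective _ fun i j e => hinj i j e, card_univ,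
      Fintype.card_fin] at h3
    rw [vb] at h2
    norm_num at h3
    linarith
  · by_cases h2 : ∃ i, x i = t
    · obtain ⟨i, rfl⟩ := h2
      have h3 := row_le (m := m) h0 (s := x i) (N := {b, y i}) (by
        rw [mem_insert, mem_singleton, not_or]
        exact ⟨(hbx i).symm, (hyx i).symm⟩)
      rw [sum_pair (hyb i).symm, vx, vb, vy] at h3
      have h4 := kk_one (hx i).symm
      have h5 := kk_one (hy i)
      linarith
    · by_cases h3 : ∃ i, y i = t
      · obtain ⟨i, rfl⟩ := h3
        have h3 := row_le (m := m) h0 (s := y i) (N := {x i}) (by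
          rw [mem_singleton]
          exact hyx i)
        rw [sum_singleton, vx, vy] at h3
        have h5 := kk_one (hy i).symm
        linarith
      · rw [hX, if_neg h1, if_neg h2, if_neg h3] at ht
        exact absurd ht (lt_irrefl _)

/-- paths -/
theorem exists_walk (hcon : ∀ A : Finset κ, A.Nonempty → A ≠ univ → ∃ a ∈ A, ∃ b, b ∉ A ∧ Aj m a b)
    {b b' : κ} (hbb : b ≠ b') : ∃ (k : ℕ) (w : ℕ → κ), 0 < k ∧ w 0 = b ∧ w k = b' ∧
      (∀ i < k, Aj m (w i) (w (i + 1))) ∧ ∀ i j, i ≤ k → j ≤ k → w i = w j → i = j := by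
  classical
  let G : SimpleGraph κ := {
    Adj := Aj m
    symm := ⟨fun a b h => h.symm⟩
    loopless := ⟨fun a h => h.1 rfl⟩ }
  have hreach : G.Reachable b b' := by
    by_contra h1
    obtain ⟨a, ha, c, hc, hac⟩ := hcon (univ.filter fun t => G.Reachable b t)
      ⟨b, mem_filter.2 ⟨mem_univ _, SimpleGraph.Reachable.refl b⟩⟩ (by
        intro e
        have h2 := mem_univ b'
        rw [← e, mem_filter] at h2
        exact h1 h2.2)
    rw [mem_filter] at ha hc
    exact hc ⟨mem_univ _, ha.2.trans (SimpleGraph.Adj.reachable (G := G) hac)⟩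
  obtain ⟨p, hp⟩ := hreach.exists_isPath
  refine ⟨p.length, p.getVert, ?_, p.getVert_zero, p.getVert_length, fun i hi =>
    p.adj_getVert_succ hi, fun i j hi hj e => hp.getVert_injOn hi hj e⟩
  rw [Nat.pos_iff_ne_zero]
  intro h1
  exact hbb (SimpleGraph.Walk.eq_of_length_eq_zero h1)

end LBL
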