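import Pool.Agent.LBL.Brc

/-!
# Project LBL (architect helper40), module Brd: there is at most one branch node
-/

namespace LBL

open SCG Finset

variable {κ : Type} [Fintype κ] {m : CoxeterMatrix κ}

/-- a node with three neighbours -/
def Br3 (m : CoxeterMatrix κ) (b : κ) : Prop :=
  ∃ x : Fin 3 → κ, (∀ i, Aj m b (x i)) ∧ ∀ i j, x i = x j → i = j

omit [Fintype κ] in
theorem Br3.pick {b : κ} (h : Br3 m b) (v : κ) : ∃ u₁ u₂, Aj m b u₁ ∧ Aj m b u₂ ∧ u₁ ≠ u₂ ∧
    u₁ ≠ v ∧ u₂ ≠ v := by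
  obtain ⟨x, hx, hinj⟩ := h
  have h01 : x 0 ≠ x 1 := fun e => absurd (hinj _ _ e) (by decide)
  have h02 : x 0 ≠ x 2 := fun e => absurd (hinj _ _ e) (by decide)
  have h12 : x 1 ≠ x 2 := fun e => absurd (hinj _ _ e) (by decide)
  by_cases h0 : x 0 = v
  · exact ⟨x 1, x 2, hx 1, hx 2, h12, fun e => h01 (h0.trans e.symm), fun e => h02 (h0.trans e.symm)⟩
  · by_cases h1 : x 1 = v
    · exact ⟨x 0, x 2, hx 0, hx 2, h02, h0, fun e => h12 (h1.trans e.symm)⟩
    · exact ⟨x 0, x 1, hx 0, hx 1, h01, h0, h1⟩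

theorem br_uniq (hf : Finite m.Group)
    (hcon : ∀ A : Finset κ, A.Nonempty → A ≠ univ → ∃ a ∈ A, ∃ b, b ∉ A ∧ Aj m a b)
    {b b' : κ} (hb : Br3 m b) (hb' : Br3 m b') : b = b' := by
  classical
  by_contra hbb
  obtain ⟨k, w, hk, w0, wk, hadj, hinj⟩ := exists_walk hcon hbb
  obtain ⟨u₁, u₂, hu₁, hu₂, hu, hv₁, hv₂⟩ := hb.pick (w 1)
  obtain ⟨r₁, r₂, hr₁, hr₂, hr, hs₁, hs₂⟩ := hb'.pick (w (k - 1))
  -- the extended walk
  have ext : ∀ u r, Aj m b u → Aj m b' r → u ≠ w 1 → r ≠ w (k - 1) →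
      (∀ i ≤ k, w i ≠ u) ∧ (∀ i ≤ k, w i ≠ r) ∧ u ≠ r := by
    intro u r hu hr hu1 hr1
    obtain ⟨W, hW⟩ : ∃ W : ℕ → κ, ∀ i, W i = if i = 0 then u else if i ≤ k + 1 then w (i - 1)
        else r := ⟨_, fun _ => rfl⟩
    have W0 : W 0 = u := by rw [hW, if_pos rfl]
    have W1 : ∀ i ≤ k, W (i + 1) = w i := by
      intro i hi
      rw [hW, if_neg (by omega), if_pos (by omega), Nat.add_sub_cancel]
    have W2 : W (k + 2) = r := by rw [hW, if_neg (by omega), if_neg (by omega)]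
    have h1 := nb_inj hf (k := k + 2) (w := W) (by
      intro i hi
      rcases Nat.eq_zero_or_pos i with rfl | hi0
      · rw [W0, W1 0 (by omega), w0]
        exact hu.symm
      · obtain ⟨j, rfl⟩ : ∃ j, i = j + 1 := ⟨i - 1, by omega⟩
        rw [W1 j (by omega)]
        by_cases hjk : j = k
        · rw [hjk, wk, show k + 1 + 1 = k + 2 by ring, W2]
          exact hr
        · rw [W1 (j + 1) (by omega)]
          exact hadj j (by omega)) (by
      intro i hi
      rcases Nat.eq_zero_or_pos i with rfl | hi0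
      · rw [W0, W1 1 (by omega)]
        exact hu1
      · obtain ⟨j, rfl⟩ : ∃ j, i = j + 1 := ⟨i - 1, by omega⟩
        rw [W1 j (by omega)]
        by_cases hjk : j + 1 = k
        · rw [show j + 1 + 2 = k + 2 by omega, W2, show j = k - 1 by omega]
          exact hr1.symm
        · rw [show j + 1 + 2 = (j + 2) + 1 by ring, W1 (j + 2) (by omega)]
          intro e
          have := hinj _ _ (by omega) (by omega) e
          omega)
    refine ⟨fun i hi e => ?_, fun i hi e => ?_, fun e => ?_⟩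
    · refine h1 0 (i + 1) (by omega) (by omega) ?_
      rw [W0, W1 i hi, e]
    · refine h1 (i + 1) (k + 2) (by omega) le_rfl ?_
      rw [W2, W1 i hi, e]
    · refine h1 0 (k + 2) (by omega) le_rfl ?_
      rw [W0, W2, e]
  have e11 := ext u₁ r₁ hu₁ hr₁ hv₁ hs₁
  have e12 := ext u₁ r₂ hu₁ hr₂ hv₁ hs₂
  have e21 := ext u₂ r₁ hu₂ hr₁ hv₂ hs₁
  have e22 := ext u₂ r₂ hu₂ hr₂ hv₂ hs₂
  obtain ⟨X, hX⟩ : ∃ X : κ → ℝ, ∀ t, X t = if ∃ i ≤ k, w i = t then 2 else
      if t = u₁ ∨ t = u₂ ∨ t = r₁ ∨ t = r₂ then 1 else 0 := ⟨_, fun _ => rfl⟩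
  have Xw : ∀ i ≤ k, X (w i) = 2 := fun i hi => by rw [hX, if_pos ⟨i, hi, rfl⟩]
  have X1 : ∀ t, (∀ i ≤ k, w i ≠ t) → (t = u₁ ∨ t = u₂ ∨ t = r₁ ∨ t = r₂) → X t = 1 := by
    intro t h1 h2
    rw [hX, if_neg, if_pos h2]
    rintro ⟨i, hi, e⟩
    exact h1 i hi e
  have xu₁ := X1 u₁ e11.1 (Or.inl rfl)
  have xu₂ := X1 u₂ e21.1 (Or.inr (Or.inl rfl))
  have xr₁ := X1 r₁ e11.2.1 (Or.inr (Or.inr (Or.inl rfl)))
  have xr₂ := X1 r₂ e12.2.1 (Or.inr (Or.inr (Or.inr rfl)))
  have h0 : ∀ t, 0 ≤ X t := by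
    intro t
    rw [hX]
    split_ifs <;> norm_num
  have leaf : ∀ t s, Aj m t s → X t = 1 → X s = 2 → ∑ u, kk m t u * X u ≤ 0 := by
    intro t s hts h1 h2
    have h3 := row_le (m := m) h0 (s := t) (N := {s}) (by
      rw [mem_singleton]
      exact hts.1)
    rw [sum_singleton, h1, h2] at h3
    have := kk_one hts
    linarith
  have tri : ∀ t u v v', Aj m t u → Aj m t v → Aj m t v' → u ≠ v → u ≠ v' → v ≠ v' → X t = 2 →
      X u = 2 → X v = 1 → X v' = 1 → ∑ u, kk m t u * X u ≤ 0 := by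
    intro t u v v' htu htv htv' huv huv' hvv' h1 h2 h3 h4
    have h5 := row_le (m := m) h0 (s := t) (N := {u, v, v'}) (by
      rw [mem_insert, mem_insert, mem_singleton, not_or, not_or]
      exact ⟨htu.1, htv.1, htv'.1⟩)
    rw [sum_insert (by
      rw [mem_insert, mem_singleton, not_or]
      exact ⟨huv, huv'⟩), sum_pair hvv', h1, h2, h3, h4] at h5
    have := kk_one htu
    have := kk_one htv
    have := kk_one htv'
    linarith
  refine no_null hf h0 ⟨w 0, by rw [Xw 0 (by omega)]; norm_num⟩ fun t ht => ?_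
  by_cases h1 : ∃ i ≤ k, w i = t
  · obtain ⟨i, hi, rfl⟩ := h1
    rcases Nat.eq_zero_or_pos i with rfl | hi0
    · refine tri (w 0) (w 1) u₁ u₂ (hadj 0 hk) (w0 ▸ hu₁) (w0 ▸ hu₂) hv₁.symm hv₂.symm hu
        (Xw 0 (by omega)) (Xw 1 (by omega)) xu₁ xu₂
    · by_cases hik : i = k
      · have h2 : Aj m (w i) (w (k - 1)) := by
          have := (hadj (k - 1) (by omega)).symm
          rwa [show k - 1 + 1 = i by omega] at this
        have h3 : w i = b' := by rw [hik, wk]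
        refine tri (w i) (w (k - 1)) r₁ r₂ h2 (h3 ▸ hr₁) (h3 ▸ hr₂) hs₁.symm hs₂.symm hr
          (Xw i hi) (Xw (k - 1) (by omega)) xr₁ xr₂
      · have h2 : Aj m (w i) (w (i - 1)) := by
          have := (hadj (i - 1) (by omega)).symm
          rwa [show i - 1 + 1 = i by omega] at this
        have h3 := hadj i (by omega)
        have h4 := row_le (m := m) h0 (s := w i) (N := {w (i - 1), w (i + 1)}) (by
          rw [mem_insert, mem_singleton, not_or]
          exact ⟨h2.1, h3.1⟩)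
        rw [sum_pair (fun e => by
          have := hinj _ _ (by omega) (by omega) e
          omega), Xw i hi, Xw (i - 1) (by omega), Xw (i + 1) (by omega)] at h4
        have := kk_one h2
        have := kk_one h3
        linarith
  · by_cases h2 : t = u₁ ∨ t = u₂ ∨ t = r₁ ∨ t = r₂
    · rcases h2 with rfl | rfl | rfl | rfl
      · exact leaf _ _ hu₁.symm xu₁ (w0 ▸ Xw 0 (by omega))
      · exact leaf _ _ hu₂.symm xu₂ (w0 ▸ Xw 0 (by omega))
      · exact leaf _ _ hr₁.symm xr₁ (wk ▸ Xw k le_rfl)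
      · exact leaf _ _ hr₂.symm xr₂ (wk ▸ Xw k le_rfl)
    · rw [hX, if_neg h1, if_neg h2] at ht
      exact absurd ht (lt_irrefl _)

/-- A numbering of the nodes of a branched diagram: a path `f 0, ..., f (N - 1)` and a node `x` joined to
`f i`. -/
structure Br (m : CoxeterMatrix κ) (N : ℕ) (f : ℕ → κ) (x : κ) (i : ℕ) : Prop where
  inj : ∀ a < N, ∀ b < N, f a = f b → a = b
  ne : ∀ a < N, f a ≠ x
  sur : ∀ t, t = x ∨ ∃ a < N, f a = t
  adj : ∀ a b, a < N → b < N → (Aj m (f a) (f b) ↔ a + 1 = b ∨ b + 1 = a)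
  adx : ∀ a < N, (Aj m x (f a) ↔ a = i)
  hi : 1 ≤ i
  hi2 : i + 1 < N

theorem exists_br (hf : Finite m.Group)
    (hcon : ∀ A : Finset κ, A.Nonempty → A ≠ univ → ∃ a ∈ A, ∃ b, b ∉ A ∧ Aj m a b)
    {b : κ} (hb : Br3 m b) : ∃ (N : ℕ) (f : ℕ → κ) (x : κ) (i : ℕ), N + 1 = Fintype.card κ ∧
      Br m N f x i := by
  classical
  obtain ⟨x', hx', hinj'⟩ := hb
  obtain ⟨i₀, hi₀⟩ := br_leaf hf hx' hinj'
  obtain ⟨x, hx⟩ : ∃ x, x = x' i₀ := ⟨_, rfl⟩
  have hbx : Aj m b x := hx ▸ hx' i₀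
  have hleaf : ∀ t, Aj m x t → t = b := by
    rw [hx]
    exact hi₀
  obtain ⟨y, z, hy, hz, hyz, hyx, hzx⟩ := Br3.pick ⟨x', hx', hinj'⟩ x
  have hdeg : ∀ a u v w : κ, a ≠ x → u ≠ x → v ≠ x → w ≠ x → Aj m a u → Aj m a v → Aj m a w →
      u = v ∨ v = w ∨ u = w := by
    intro a u v w _ hu hv hw h1 h2 h3
    by_contra h4
    rw [not_or, not_or] at h4
    have h5 : Br3 m a := by
      refine ⟨fun j => if j = 0 then u else if j = 1 then v else w, ?_, ?_⟩
      · intro j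
        dsimp only
        split_ifs
        · exact h1
        · exact h2
        · exact h3
      · intro j l e
        dsimp only at e
        have hj : j = 0 ∨ j = 1 ∨ j = 2 := by omega
        have hl : l = 0 ∨ l = 1 ∨ l = 2 := by omega
        rcases hj with rfl | rfl | rfl <;> rcases hl with rfl | rfl | rfl <;> simp at e ⊢
        · exact h4.1 e
        · exact h4.2.2 e
        · exact h4.1 e.symm
        · exact h4.2.1 e
        · exact h4.2.2 e.symm
        · exact h4.2.1 e.symm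
    have h6 := br_uniq hf hcon h5 ⟨x', hx', hinj'⟩
    subst h6
    exact deg_four hf h1 h2 h3 hbx h4.1 h4.2.2 hu h4.2.1 hv hw
  have hxb : b ≠ x := hbx.1
  obtain ⟨v0, hv0, hv0'⟩ := exists_leaf hf (A := univ.erase x) ⟨b, mem_erase.2 ⟨hxb, mem_univ _⟩⟩
  have hv0x : v0 ≠ x := (mem_erase.1 hv0).1
  obtain ⟨f', -, hfi, hfs, hfa⟩ := exists_path (κ := {t // t ≠ x})
    (adj := fun a b => Aj m a.1 b.1) (fun a b h => h.symm) (fun a h => h.1 rfl) (v0 := ⟨v0, hv0x⟩)
    (fun t t' h1 h2 => Subtype.ext (hv0' t.1 (mem_erase.2 ⟨t.2, mem_univ _⟩) t'.1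
      (mem_erase.2 ⟨t'.2, mem_univ _⟩) h1 h2))
    (fun a u v w h1 h2 h3 => by
      rcases hdeg a.1 u.1 v.1 w.1 a.2 u.2 v.2 w.2 h1 h2 h3 with h4 | h4 | h4
      · exact Or.inl (Subtype.ext h4)
      · exact Or.inr (Or.inl (Subtype.ext h4))
      · exact Or.inr (Or.inr (Subtype.ext h4)))
    (by
      intro A hne hA
      by_cases hbA : (⟨b, hxb⟩ : {t // t ≠ x}) ∈ A
      · obtain ⟨a, ha, c, hc, hac⟩ := hcon (insert x (A.image Subtype.val)) (insert_nonempty _ _) (by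
          intro e
          apply hA
          ext t
          refine ⟨fun _ => mem_univ _, fun _ => ?_⟩
          have h1 := mem_univ t.1
          rw [← e, mem_insert, mem_image] at h1
          rcases h1 with h1 | ⟨s, hs, h1⟩
          · exact absurd h1 t.2
          · rwa [Subtype.ext h1] at hs)
        rw [mem_insert, not_or] at hc
        rw [mem_insert] at ha
        rcases ha with rfl | ha
        · exfalso
          apply hc.2
          rw [hleaf c hac]
          exact mem_image.2 ⟨_, hbA, rfl⟩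
        · obtain ⟨a', ha', rfl⟩ := mem_image.1 ha
          exact ⟨a', ha', ⟨c, hc.1⟩, fun h1 => hc.2 (mem_image.2 ⟨_, h1, rfl⟩), hac⟩
      · obtain ⟨a, ha, c, hc, hac⟩ := hcon (A.image Subtype.val) (hne.image _) (by
          intro e
          have h1 := mem_univ x
          rw [← e, mem_image] at h1
          obtain ⟨s, hs, h1⟩ := h1
          exact s.2 h1)
        obtain ⟨a', ha', rfl⟩ := mem_image.1 ha
        have hcx : c ≠ x := by
          rintro rfl
          have h1 := hleaf _ hac.symm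
          apply hbA
          have h2 : a' = ⟨b, hxb⟩ := Subtype.ext h1
          rwa [h2] at ha'
        exact ⟨a', ha', ⟨c, hcx⟩, fun h1 => hc (mem_image.2 ⟨_, h1, rfl⟩), hac⟩)
  obtain ⟨N, hN⟩ : ∃ N, N = Fintype.card {t // t ≠ x} := ⟨_, rfl⟩
  rw [← hN] at hfi hfs hfa
  have hcard : N + 1 = Fintype.card κ := by
    have h1 : Fintype.card {t // t ≠ x} = Fintype.card κ - 1 := by
      rw [Fintype.card_subtype_compl, Fintype.card_subtype_eq]
    have h2 : 0 < Fintype.card κ := Fintype.card_pos_iff.2 ⟨x⟩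
    omega
  obtain ⟨i, hi, hib⟩ := hfs ⟨b, hxb⟩
  obtain ⟨j, hj, hjy⟩ := hfs ⟨y, hyx⟩
  obtain ⟨l, hl, hlz⟩ := hfs ⟨z, hzx⟩
  have h1 := (hfa i j hi hj).1 (by
    rw [hib, hjy]
    exact hy)
  have h2 := (hfa i l hi hl).1 (by
    rw [hib, hlz]
    exact hz)
  have h3 : j ≠ l := by
    rintro rfl
    rw [hjy] at hlz
    exact hyz (congrArg Subtype.val hlz)
  refine ⟨N, fun a => (f' a).1, x, i, hcard, ?_, ?_, ?_, ?_, ?_, by omega, by omega⟩
  · exact fun a ha b hb e => hfi a ha b hb (Subtype.ext e)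
  · exact fun a _ => (f' a).2
  · intro t
    by_cases htx : t = x
    · exact Or.inl htx
    · right
      obtain ⟨a, ha, e⟩ := hfs ⟨t, htx⟩
      exact ⟨a, ha, congrArg Subtype.val e⟩
  · exact hfa
  · intro a ha
    constructor
    · intro h4
      have h5 := hleaf _ h4
      refine hfi a ha i hi (Subtype.ext ?_)
      rw [hib, h5]
    · rintro rfl
      rw [hib]
      exact hbx.symm

end LBL
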