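import Pool.Agent.LBL.Brd

/-!
# Project LBL (architect helper40), module Bre: branched diagrams of odd rank are of type D or E7
-/

namespace LBL

open SCG Finset

variable {κ : Type} [Fintype κ] {m : CoxeterMatrix κ} {N : ℕ} {f : ℕ → κ} {x : κ} {i : ℕ}

namespace Br

/-- The null vector test for branched diagrams. -/
theorem null (h : Br m N f x i) (hf : Finite m.Group) {a w : ℕ → ℝ} {ax wx : ℝ}
    (ha : ∀ j, j + 1 < N → kk m (f j) (f (j + 1)) ≤ -a j) (hax : kk m x (f i) ≤ -ax)
    (hw : ∀ j, 0 ≤ w j) (hwx : 0 ≤ wx) (hne : ∃ j < N, 0 < w j)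
    (hr : ∀ j < N, 0 < w j → 2 * w j ≤ (if 0 < j then a (j - 1) * w (j - 1) else 0) +
      (if j + 1 < N then a j * w (j + 1) else 0) + (if j = i then ax * wx else 0))
    (hrx : 2 * wx ≤ ax * w i) : False := by
  classical
  have hi := h.hi
  have hi2 := h.hi2
  obtain ⟨X, hX⟩ : ∃ X : κ → ℝ, X x = wx ∧ ∀ j < N, X (f j) = w j := by
    refine ⟨fun t => if t = x then wx else if hj : ∃ j < N, f j = t then w (Classical.choose hj)
      else 0, if_pos rfl, fun j hj => ?_⟩
    have h1 : ∃ l < N, f l = f j := ⟨j, hj, rfl⟩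
    change (if f j = x then wx else if hj : ∃ l < N, f l = f j then w (Classical.choose hj)
      else 0) = w j
    rw [if_neg (h.ne j hj), dif_pos h1]
    have h2 := Classical.choose_spec h1
    rw [h.inj _ h2.1 j hj h2.2]
  obtain ⟨Xx, Xf⟩ := hX
  have h0 : ∀ t, 0 ≤ X t := by
    intro t
    rcases h.sur t with rfl | ⟨j, hj, rfl⟩
    · rw [Xx]
      exact hwx
    · rw [Xf j hj]
      exact hw j
  have hne' : ∀ a b, a < N → b < N → a ≠ b → f a ≠ f b := fun a b ha hb hab e =>
    hab (h.inj a ha b hb e)
  refine no_null hf h0 ?_ fun t ht => ?_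
  · obtain ⟨j, hj, h1⟩ := hne
    exact ⟨f j, by rw [Xf j hj]; exact h1⟩
  rcases h.sur t with rfl | ⟨j, hj, rfl⟩
  · have h1 := row_le (m := m) h0 (s := t) (N := {f i}) (by
      rw [mem_singleton]
      exact (h.ne i (by omega)).symm)
    rw [sum_singleton, Xx, Xf i (by omega)] at h1
    have h2 := mul_le_mul_of_nonneg_right hax (hw i)
    linarith
  · rw [Xf j hj] at ht
    have h1 := hr j hj ht
    have hL : 0 < j → kk m (f j) (f (j - 1)) * w (j - 1) ≤ -(a (j - 1) * w (j - 1)) := by
      intro h2
      have h3 : kk m (f j) (f (j - 1)) ≤ -a (j - 1) := by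
        rw [kk_symm]
        have := ha (j - 1) (by omega)
        rwa [show j - 1 + 1 = j by omega] at this
      have := mul_le_mul_of_nonneg_right h3 (hw (j - 1))
      linarith
    have hR : j + 1 < N → kk m (f j) (f (j + 1)) * w (j + 1) ≤ -(a j * w (j + 1)) := by
      intro h2
      have := mul_le_mul_of_nonneg_right (ha j h2) (hw (j + 1))
      linarith
    by_cases h2 : j = i
    · subst h2
      rw [if_pos rfl, if_pos (by omega), if_pos (by omega)] at h1
      have h3 := row_le (m := m) h0 (s := f j) (N := {x, f (j - 1), f (j + 1)}) (by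
        rw [mem_insert, mem_insert, mem_singleton, not_or, not_or]
        exact ⟨h.ne j hj, hne' _ _ hj (by omega) (by omega), hne' _ _ hj (by omega) (by omega)⟩)
      rw [sum_insert (by
        rw [mem_insert, mem_singleton, not_or]
        exact ⟨(h.ne _ (by omega)).symm, (h.ne _ (by omega)).symm⟩),
        sum_pair (hne' _ _ (by omega) (by omega) (by omega)), Xf j hj, Xx, Xf _ (by omega),
        Xf _ (by omega), kk_symm m (f j) x] at h3
      have h4 := mul_le_mul_of_nonneg_right hax hwx
      have := hL (by omega)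
      have := hR (by omega)
      linarith
    · rw [if_neg h2] at h1
      by_cases h3 : 0 < j
      · rw [if_pos h3] at h1
        by_cases h4 : j + 1 < N
        · rw [if_pos h4] at h1
          have h5 := row_le (m := m) h0 (s := f j) (N := {f (j - 1), f (j + 1)}) (by
            rw [mem_insert, mem_singleton, not_or]
            exact ⟨hne' _ _ hj (by omega) (by omega), hne' _ _ hj (by omega) (by omega)⟩)
          rw [sum_pair (hne' _ _ (by omega) (by omega) (by omega)), Xf j hj, Xf _ (by omega),
            Xf _ (by omega)] at h5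
          have := hL h3
          have := hR h4
          linarith
        · rw [if_neg h4] at h1
          have h5 := row_le (m := m) h0 (s := f j) (N := {f (j - 1)}) (by
            rw [mem_singleton]
            exact hne' _ _ hj (by omega) (by omega))
          rw [sum_singleton, Xf j hj, Xf _ (by omega)] at h5
          have := hL h3
          linarith
      · rw [if_neg h3] at h1
        have h4 : j + 1 < N := by omega
        rw [if_pos h4] at h1
        have h5 := row_le (m := m) h0 (s := f j) (N := {f (j + 1)}) (by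
          rw [mem_singleton]
          exact hne' _ _ hj (by omega) (by omega))
        rw [sum_singleton, Xf j hj, Xf _ (by omega)] at h5
        have := hR h4
        linarith

theorem edge (h : Br m N f x i) {j : ℕ} (hj : j + 1 < N) : Aj m (f j) (f (j + 1)) :=
  (h.adj j (j + 1) (by omega) hj).2 (Or.inl rfl)

theorem edgex (h : Br m N f x i) : Aj m x (f i) :=
  (h.adx i (by have := h.hi2; omega)).2 rfl

omit [Fintype κ] in
theorem rev (h : Br m N f x i) : Br m N (fun j => f (N - 1 - j)) x (N - 1 - i) := by
  have hi := h.hi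
  have hi2 := h.hi2
  refine ⟨fun a ha b hb e => ?_, fun a ha => h.ne _ (by omega), fun t => ?_, fun a b ha hb => ?_,
    fun a ha => ?_, by omega, by omega⟩
  · have := h.inj _ (show N - 1 - a < N by omega) _ (show N - 1 - b < N by omega) e
    omega
  · rcases h.sur t with h1 | ⟨a, ha, e⟩
    · exact Or.inl h1
    · refine Or.inr ⟨N - 1 - a, by omega, ?_⟩
      change f (N - 1 - (N - 1 - a)) = t
      rw [show N - 1 - (N - 1 - a) = a by omega, e]
  · change Aj m (f (N - 1 - a)) (f (N - 1 - b)) ↔ _
    rw [h.adj _ _ (by omega) (by omega)]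
    omega
  · change Aj m x (f (N - 1 - a)) ↔ _
    rw [h.adx _ (by omega)]
    omega

/-- windows -/
theorem win (h : Br m N f x i) (hf : Finite m.Group) {b L p : ℕ} (hb : b + L < N) (hp : b + p = i)
    (hpL : p ≤ L) {v : ℕ → ℝ} {vx : ℝ} (hv : ∀ j, 0 ≤ v j) (hvx : 0 ≤ vx) (hv0 : 0 < v 0)
    (hL : ∀ j, L < j → v j = 0)
    (hr : ∀ j ≤ L, 2 * v j ≤ (if 0 < j then v (j - 1) else 0) + (if j < L then v (j + 1) else 0) +
      (if j = p then vx else 0)) (hrx : 2 * vx ≤ v p) : False := by
  obtain ⟨w, hw⟩ : ∃ w : ℕ → ℝ, ∀ k, w k = if k < b then 0 else v (k - b) := ⟨_, fun _ => rfl⟩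
  have hwj : ∀ j, w (b + j) = v j := by
    intro j
    rw [hw, if_neg (by omega), Nat.add_sub_cancel_left]
  have hw0 : ∀ k, 0 ≤ w k := by
    intro k
    rw [hw]
    split_ifs
    · exact le_rfl
    · exact hv _
  refine h.null hf (a := fun _ => 1) (w := w) (ax := 1) (wx := vx) (fun j hj => kk_one (h.edge hj))
    (kk_one h.edgex) hw0 hvx ⟨b, by omega, ?_⟩ ?_ ?_
  · have := hwj 0
    rw [Nat.add_zero] at this
    rw [this]
    exact hv0
  · intro k hk hpos
    have hbk : b ≤ k := by
      by_contra h1
      rw [hw, if_pos (by omega)] at hpos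
      exact lt_irrefl _ hpos
    obtain ⟨j, rfl⟩ : ∃ j, k = b + j := ⟨k - b, by omega⟩
    rw [hwj] at hpos ⊢
    have hjL : j ≤ L := by
      by_contra h1
      rw [hL j (by omega)] at hpos
      exact lt_irrefl _ hpos
    refine (hr j hjL).trans (add_le_add (add_le_add ?_ ?_) ?_)
    · by_cases h1 : 0 < j
      · rw [if_pos h1, if_pos (by omega), show b + j - 1 = b + (j - 1) by omega, hwj, one_mul]
      · rw [if_neg h1]
        split_ifs with h2
        · have := hw0 (b + j - 1)
          linarith
        · exact le_rfl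
    · by_cases h1 : j < L
      · rw [if_pos h1, if_pos (by omega), add_assoc, hwj, one_mul]
      · rw [if_neg h1]
        split_ifs with h2
        · have := hw0 (b + j + 1)
          linarith
        · exact le_rfl
    · by_cases h1 : j = p
      · rw [if_pos h1, if_pos (by omega), one_mul]
      · rw [if_neg h1, if_neg (by omega)]
  · rw [← hp, hwj, one_mul]
    exact hrx

/-- no bigger label at the right of the branch -/
theorem lab_right (h : Br m N f x i) (hf : Finite m.Group) {j : ℕ} (hij : i ≤ j) (hj : j + 1 < N) :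
    m (f j) (f (j + 1)) = 3 := by
  by_contra h3
  have hsq : √2 * √2 = 2 := Real.mul_self_sqrt (by norm_num)
  have hsp : 0 < √2 := Real.sqrt_pos.2 (by norm_num)
  have hi := h.hi
  obtain ⟨w, hw⟩ : ∃ w : ℕ → ℝ, ∀ k, w k = if k + 1 = i then 1 else
      if i ≤ k ∧ k ≤ j then 2 else if k = j + 1 then √2 else 0 := ⟨_, fun _ => rfl⟩
  have w1 : w (i - 1) = 1 := by rw [hw, if_pos (by omega)]
  have w2 : ∀ k, i ≤ k → k ≤ j → w k = 2 := fun k h1 h2 => by
    rw [hw, if_neg (by omega), if_pos ⟨h1, h2⟩]
  have w3 : w (j + 1) = √2 := by rw [hw, if_neg (by omega), if_neg (by omega), if_pos rfl]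
  have hw0 : ∀ k, 0 ≤ w k := by
    intro k
    rw [hw]
    split_ifs <;> positivity
  refine h.null hf (a := fun k => if k = j then √2 else 1) (w := w) (ax := 1) (wx := 1) ?_
    (kk_one h.edgex) hw0 zero_le_one ⟨i, by omega, by rw [w2 i le_rfl hij]; norm_num⟩ ?_ ?_
  · intro k hk
    change kk m (f k) (f (k + 1)) ≤ -(if k = j then √2 else 1)
    split_ifs with h1
    · subst h1
      exact kk_sqrt (h.edge hk) h3
    · exact kk_one (h.edge hk)
  · intro k hk hpos
    by_cases h1 : k + 1 = i
    · obtain rfl : k = i - 1 := by omega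
      rw [w1, if_pos (show i - 1 + 1 < N by omega), show i - 1 + 1 = i by omega, w2 i le_rfl hij,
        if_neg (show ¬ i - 1 = j by omega), if_neg (show ¬ i - 1 = i by omega)]
      have : 0 ≤ (if 0 < i - 1 then (if i - 1 - 1 = j then √2 else 1) * w (i - 1 - 1) else 0) := by
        split_ifs
        · exact mul_nonneg hsp.le (hw0 _)
        · exact mul_nonneg zero_le_one (hw0 _)
        · exact le_rfl
      linarith
    · by_cases h2 : i ≤ k ∧ k ≤ j
      · have e3 : (if k + 1 < N then (if k = j then √2 else 1) * w (k + 1) else 0) = 2 := by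
          rw [if_pos (by omega)]
          by_cases h4 : k = j
          · subst h4
            rw [if_pos rfl, w3, hsq]
          · rw [if_neg h4, w2 (k + 1) (by omega) (by omega), one_mul]
        rw [w2 k h2.1 h2.2, e3, if_pos (show 0 < k by omega), if_neg (show ¬ k - 1 = j by omega)]
        by_cases h4 : k = i
        · rw [if_pos h4, h4, w1]
          norm_num
        · rw [if_neg h4, w2 (k - 1) (by omega) (by omega)]
          norm_num
      · have h4 : k = j + 1 := by
          by_contra h4
          rw [hw, if_neg h1, if_neg h2, if_neg h4] at hpos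
          exact lt_irrefl _ hpos
        subst h4
        rw [w3, if_pos (show 0 < j + 1 by omega), Nat.add_sub_cancel, if_pos rfl, w2 j hij le_rfl,
          if_neg (show ¬ j + 1 = i by omega)]
        have : 0 ≤ (if j + 1 + 1 < N then (if j + 1 = j then √2 else 1) * w (j + 1 + 1) else 0) := by
          split_ifs
          · exact mul_nonneg hsp.le (hw0 _)
          · exact mul_nonneg zero_le_one (hw0 _)
          · exact le_rfl
        linarith
  · rw [w2 i le_rfl hij]
    norm_num

theorem lab (h : Br m N f x i) (hf : Finite m.Group) {j : ℕ} (hj : j + 1 < N) :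
    m (f j) (f (j + 1)) = 3 := by
  by_cases h1 : i ≤ j
  · exact h.lab_right hf h1 hj
  · have h2 := h.rev.lab_right hf (j := N - 2 - j) (by omega) (by omega)
    change m (f (N - 1 - (N - 2 - j))) (f (N - 1 - (N - 2 - j + 1))) = 3 at h2
    rwa [show N - 1 - (N - 2 - j) = j + 1 by omega, show N - 1 - (N - 2 - j + 1) = j by omega,
      m.symmetric] at h2

theorem labx (h : Br m N f x i) (hf : Finite m.Group) : m x (f i) = 3 := by
  by_contra h3
  have hsq : √2 * √2 = 2 := Real.mul_self_sqrt (by norm_num)
  have hsp : 0 < √2 := Real.sqrt_pos.2 (by norm_num)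
  have hi := h.hi
  have hi2 := h.hi2
  obtain ⟨w, hw⟩ : ∃ w : ℕ → ℝ, ∀ k, w k = if k + 1 = i ∨ k = i + 1 then 1 else
      if k = i then 2 else 0 := ⟨_, fun _ => rfl⟩
  have w1 : w (i - 1) = 1 := by rw [hw, if_pos (by omega)]
  have w2 : w i = 2 := by rw [hw, if_neg (by omega), if_pos rfl]
  have w3 : w (i + 1) = 1 := by rw [hw, if_pos (by omega)]
  have hw0 : ∀ k, 0 ≤ w k := by
    intro k
    rw [hw]
    split_ifs <;> norm_num
  refine h.null hf (a := fun _ => 1) (w := w) (ax := √2) (wx := √2)
    (fun j hj => kk_one (h.edge hj)) (kk_sqrt h.edgex h3) hw0 hsp.le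
    ⟨i, by omega, by rw [w2]; norm_num⟩ ?_ ?_
  · intro k hk hpos
    by_cases h1 : k = i
    · subst h1
      rw [if_pos rfl, if_pos (by omega), if_pos hi2, w1, w2, w3, hsq]
      norm_num
    · have h2 : k + 1 = i ∨ k = i + 1 := by
        by_contra h2
        rw [hw, if_neg h2, if_neg h1] at hpos
        exact lt_irrefl _ hpos
      rw [if_neg h1]
      rcases h2 with h2 | h2
      · obtain rfl : k = i - 1 := by omega
        rw [w1, if_pos (show i - 1 + 1 < N by omega), show i - 1 + 1 = i by omega, w2]
        have : 0 ≤ (if 0 < i - 1 then 1 * w (i - 1 - 1) else 0) := by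
          split_ifs
          · exact mul_nonneg zero_le_one (hw0 _)
          · exact le_rfl
        linarith
      · subst h2
        rw [w3, if_pos (show 0 < i + 1 by omega), Nat.add_sub_cancel, w2]
        have : 0 ≤ (if i + 1 + 1 < N then 1 * w (i + 1 + 1) else 0) := by
          split_ifs
          · exact mul_nonneg zero_le_one (hw0 _)
          · exact le_rfl
        linarith
  · rw [w2]
    linarith

/-- no arms of length three and three -/
theorem no_e7 (h : Br m N f x i) (hf : Finite m.Group) (h1 : 3 ≤ i) (h2 : i + 3 < N) : False := by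
  refine h.win hf (b := i - 3) (L := 6) (p := 3) (by omega) (by omega) (by omega)
    (v := fun j => if j = 0 then 1 else if j = 1 then 2 else if j = 2 then 3 else
      if j = 3 then 4 else if j = 4 then 3 else if j = 5 then 2 else if j = 6 then 1 else 0)
    (vx := 2) ?_ ?_ ?_ ?_ ?_ ?_
  · intro j
    split_ifs <;> norm_num
  · norm_num
  · norm_num
  · intro j hj
    rw [if_neg (by omega), if_neg (by omega), if_neg (by omega), if_neg (by omega),
      if_neg (by omega), if_neg (by omega), if_neg (by omega)]
  · intro j hj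
    interval_cases j <;> norm_num
  · norm_num

/-- no arms of length two and five -/
theorem no_e8 (h : Br m N f x i) (hf : Finite m.Group) (h1 : 2 ≤ i) (h2 : i + 5 < N) : False := by
  refine h.win hf (b := i - 2) (L := 7) (p := 2) (by omega) (by omega) (by omega)
    (v := fun j => if j = 0 then 2 else if j = 1 then 4 else if j = 2 then 6 else
      if j = 3 then 5 else if j = 4 then 4 else if j = 5 then 3 else if j = 6 then 2 else
      if j = 7 then 1 else 0)
    (vx := 3) ?_ ?_ ?_ ?_ ?_ ?_
  · intro j
    split_ifs <;> norm_num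
  · norm_num
  · norm_num
  · intro j hj
    rw [if_neg (by omega), if_neg (by omega), if_neg (by omega), if_neg (by omega),
      if_neg (by omega), if_neg (by omega), if_neg (by omega), if_neg (by omega)]
  · intro j hj
    interval_cases j <;> norm_num
  · norm_num

/-- type D -/
theorem exists_ds (h : Br m N f x i) (hf : Finite m.Group) (h1 : i = 1) :
    ∃ (c : ℕ → κ) (pos : κ → ℕ), Ds m (N + 1) c pos := by
  classical
  subst h1
  have hi2 := h.hi2
  obtain ⟨c, hc⟩ : ∃ c : ℕ → κ, ∀ a, c a = if a < N then f (N - 1 - a) else x :=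
    ⟨_, fun _ => rfl⟩
  have hc1 : ∀ a < N, c a = f (N - 1 - a) := fun a ha => by rw [hc, if_pos ha]
  have hc2 : c N = x := by rw [hc, if_neg (lt_irrefl _)]
  have hinj : ∀ a b, a < N + 1 → b < N + 1 → c a = c b → a = b := by
    intro a b ha hb e
    by_cases h3 : a < N
    · by_cases h4 : b < N
      · rw [hc1 a h3, hc1 b h4] at e
        have := h.inj _ (by omega) _ (by omega) e
        omega
      · rw [show b = N by omega, hc2, hc1 a h3] at e
        exact absurd e (h.ne _ (by omega))
    · by_cases h4 : b < N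
      · rw [show a = N by omega, hc2, hc1 b h4] at e
        exact absurd e.symm (h.ne _ (by omega))
      · omega
  have hsur : ∀ t, ∃ a < N + 1, c a = t := by
    intro t
    rcases h.sur t with rfl | ⟨a, ha, e⟩
    · exact ⟨N, by omega, hc2⟩
    · refine ⟨N - 1 - a, by omega, ?_⟩
      rw [hc1 _ (by omega), show N - 1 - (N - 1 - a) = a by omega, e]
  choose pos hpl hpc using hsur
  refine ⟨c, pos, by omega, hpl, hpc, fun a ha => hinj _ _ (hpl _) ha (hpc _), fun a b hab hb => ?_⟩
  by_cases h3 : b < N
  · rw [hc1 a (by omega), hc1 b h3]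
    by_cases h4 : b = a + 1
    · rw [if_pos (Or.inl ⟨by omega, h4⟩)]
      have h5 := h.lab hf (j := N - 1 - b) (by omega)
      rwa [show N - 1 - b + 1 = N - 1 - a by omega, m.symmetric] at h5
    · rw [if_neg (by omega)]
      by_contra h5
      have h6 := (h.adj (N - 1 - a) (N - 1 - b) (by omega) (by omega)).1 ⟨fun e => by
        have := h.inj _ (by omega) _ (by omega) e
        omega, h5⟩
      omega
  · have h4 : b = N := by omega
    rw [h4, hc2, hc1 a (by omega)]
    by_cases h5 : a + 3 = N + 1
    · rw [if_pos (Or.inr ⟨rfl, h5⟩), m.symmetric, show N - 1 - a = 1 by omega]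
      exact h.labx hf
    · rw [if_neg (by omega), m.symmetric]
      by_contra h6
      have h7 := (h.adx (N - 1 - a) (by omega)).1 ⟨(h.ne _ (by omega)).symm, h6⟩
      omega

/-- Branched diagrams of odd rank. -/
theorem cases (h : Br m N f x i) (hf : Finite m.Group) (hN : Even N) :
    (∃ (c : ℕ → κ) (pos : κ → ℕ), Ds m (N + 1) c pos) ∨
      ∃ f' : ℕ → κ, Br m 6 f' x 2 ∧ N = 6 := by
  have hi := h.hi
  have hi2 := h.hi2
  rw [Nat.even_iff] at hN
  by_cases h1 : i = 1
  · exact Or.inl (h.exists_ds hf h1)
  · by_cases h2 : N - 1 - i = 1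
    · exact Or.inl (h.rev.exists_ds hf h2)
    · by_cases h3 : 3 ≤ i ∧ i + 3 < N
      · exact absurd (h.no_e7 hf h3.1 h3.2) not_false
      · by_cases h4 : i = 2
        · have h5 : ¬ i + 5 < N := fun h5 => h.no_e8 hf (by omega) h5
          have h6 : N = 6 := by omega
          subst h6 h4
          exact Or.inr ⟨f, h, rfl⟩
        · have h5 : ¬ (N - 1 - i) + 5 < N := fun h5 => h.rev.no_e8 hf (by omega) h5
          have h6 : N = 6 := by omega
          have h7 : N - 1 - i = 2 := by omega
          have h8 := h.rev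
          rw [h7] at h8
          subst h6
          exact Or.inr ⟨_, h8, rfl⟩

end Br

end LBL
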