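import Pool.Agent.LBL.Dok

/-!
# Project LBL (architect helper40), module Ok: vanishing for the local systems
-/

namespace LBL

open SCG SNG SCS Finset

/-- An order compatible with a function. -/
theorem exists_lex {U κ : Type} [Fintype U] [LinearOrder κ] (f : U → κ) :
    ∃ i : LinearOrder U, ∀ a b, f a < f b → i.lt a b := by
  classical
  let fU : U → κ ×ₗ Fin (Fintype.card U) := fun u => toLex (f u, Fintype.equivFin _ u)
  have hfU : Function.Injective fU := by
    intro u v huv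
    exact (Fintype.equivFin _).injective (congrArg (fun z => (ofLex z).2) huv)
  refine ⟨LinearOrder.lift' fU hfU, fun a b hab => ?_⟩
  change fU a < fU b
  rw [Prod.Lex.lt_iff]
  exact Or.inl hab

/-- The local system of a spherical system, from the right-angled system of the Coxeter complex. -/
theorem ok_zg {κ : Type} [Fintype κ] (m : CoxeterMatrix κ) (hf : Sph m univ)
    [Fintype (Vx m)] (h : ZG (Xm m) univ) : ZG (Bg m ∅) univ := by
  classical
  have hm : ∀ x y, m x y ≠ 0 := fun x y => sph_ne hf (mem_univ x) (mem_univ y)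
  obtain ⟨Θ, ι, h1, h2, h3⟩ := exists_theta m hm
  obtain ⟨iκ, -⟩ := exists_order κ fun _ => True
  obtain ⟨iV, hV1, hV2⟩ : ∃ iV : LinearOrder (κ ⊕ κ),
      (∀ x s, iV.lt (Sum.inl x) (Sum.inr s)) ∧ ∀ s t, iV.lt (Sum.inr s) (Sum.inr t) ↔ iκ.lt s t :=
    ⟨inferInstanceAs (LinearOrder (κ ⊕ₗ κ)), fun x s => Sum.Lex.inl_lt_inr x s,
      fun s t => Sum.Lex.inr_lt_inr_iff⟩
  obtain ⟨iU, hU⟩ := exists_lex (U := Vx m) Sigma.fst
  have D : @Dt κ (κ ⊕ κ) (Vx m) _ iκ iV iU m (Bg m ∅) (Xm m) Sum.inl Sum.inr (vx m) Sigma.fst Θ ι := by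
    refine ⟨hf, Sum.inl_injective, Sum.inr_injective, fun x s e => ?_, ?_, ?_, ?_, ?_, ?_, ?_, ?_,
      ?_, fun i g h => vx_eq, fun i g => rfl, vx_surj, fun i j g hij => xm_two hij g,
      fun u v huv h0 => xm_ne huv h0, ?_, h1, h2, h3⟩
    · exact absurd e (by simp)
    · rintro (x | s)
      · exact Or.inl ⟨x, rfl⟩
      · exact Or.inr ⟨s, rfl⟩
    · intro x y
      by_cases hxy : x = y
      · rw [hxy, (Bg m ∅).diagonal, m.diagonal]
      · exact bg_ll hxy (hm x y) (Finset.notMem_empty x) (Finset.notMem_empty y)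
    · exact fun x s hxs => bg_lr hxs (hm x s)
    · exact fun x => bg_lr0 (Or.inl rfl)
    · exact fun s t hst => bg_rr hst (hm s t)
    · exact fun C hC => bg_flag (fun K _ => sph_mono (subset_univ _) hf) ∅ C hC
    · exact hV1
    · exact hV2
    · exact hU
  refine (@zg_iff (κ ⊕ κ) _ iV (Bg m ∅) univ).2 ?_
  exact @Dt.hh_bot κ (κ ⊕ κ) (Vx m) _ iκ iV iU m (Bg m ∅) (Xm m) Sum.inl Sum.inr (vx m) Sigma.fst
    Θ ι D _ _ ((@zg_iff (Vx m) _ iU (Xm m) univ).1 h)

/-- The same inside a bigger system. -/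
theorem local_zg {V : Type} [DecidableEq V] {M : CoxeterMatrix V} {K : Finset V} (hK : Sph M K)
    [Fintype (Vx (sub M K))] (h : ZG (Xm (sub M K)) univ) : ZG (Bg M ∅) (K.disjSum K) := by
  classical
  have h0 : Sph (sub M K) univ := by
    rw [← sph_iff (M := M) (M' := sub M K) (Function.Embedding.subtype fun x => x ∈ K)
      (fun _ _ => rfl), map_univ_sub]
    exact hK
  have h1 := ok_zg (sub M K) h0 h
  have h2 : K.disjSum K = (univ : Finset ({x // x ∈ K} ⊕ {x // x ∈ K})).image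
      (Sum.map Subtype.val Subtype.val) := by
    ext v
    rw [mem_image]
    rcases v with x | x
    · rw [Finset.inl_mem_disjSum]
      constructor
      · exact fun hx => ⟨Sum.inl ⟨x, hx⟩, mem_univ _, rfl⟩
      · rintro ⟨u | u, -, hu⟩
        · have h3 := Sum.inl_injective hu
          rw [← h3]
          exact u.2
        · exact absurd hu (by simp)
    · rw [Finset.inr_mem_disjSum]
      constructor
      · exact fun hx => ⟨Sum.inr ⟨x, hx⟩, mem_univ _, rfl⟩
      · rintro ⟨u | u, -, hu⟩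
        · exact absurd hu (by simp)
        · have h3 := Sum.inr_injective hu
          rw [← h3]
          exact u.2
  have hcl : ∀ x y : {x // x ∈ K}, M x.1 y.1 ≠ 0 := fun x y => sph_ne hK x.2 y.2
  rw [h2, ← zg_image (G := Bg (sub M K) ∅) (G' := Bg M ∅) (Sum.map Subtype.val Subtype.val)]
  · exact h1
  · intro u _ v _ huv
    exact (Sum.map_injective.2 ⟨Subtype.val_injective, Subtype.val_injective⟩) huv
  · intro u _ v _
    rcases u with x | x <;> rcases v with y | y
    · change Bg M ∅ (Sum.inl x.1) (Sum.inl y.1) = Bg (sub M K) ∅ (Sum.inl x) (Sum.inl y)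
      by_cases hxy : x = y
      · rw [hxy, (Bg M ∅).diagonal, (Bg (sub M K) ∅).diagonal]
      · rw [bg_ll (fun e => hxy (Subtype.ext e)) (hcl x y) (Finset.notMem_empty _)
          (Finset.notMem_empty _), bg_ll hxy (hcl x y) (Finset.notMem_empty _)
          (Finset.notMem_empty _)]
        rfl
    · change Bg M ∅ (Sum.inl x.1) (Sum.inr y.1) = Bg (sub M K) ∅ (Sum.inl x) (Sum.inr y)
      by_cases hxy : x = y
      · rw [hxy, bg_lr0 (Or.inl rfl), bg_lr0 (Or.inl rfl)]
      · rw [bg_lr (fun e => hxy (Subtype.ext e)) (hcl x y), bg_lr hxy (hcl x y)]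
    · change Bg M ∅ (Sum.inr x.1) (Sum.inl y.1) = Bg (sub M K) ∅ (Sum.inr x) (Sum.inl y)
      rw [(Bg M ∅).symmetric, (Bg (sub M K) ∅).symmetric]
      by_cases hxy : y = x
      · rw [hxy, bg_lr0 (Or.inl rfl), bg_lr0 (Or.inl rfl)]
      · rw [bg_lr (fun e => hxy (Subtype.ext e)) (hcl y x), bg_lr hxy (hcl y x)]
    · change Bg M ∅ (Sum.inr x.1) (Sum.inr y.1) = Bg (sub M K) ∅ (Sum.inr x) (Sum.inr y)
      by_cases hxy : x = y
      · rw [hxy, (Bg M ∅).diagonal, (Bg (sub M K) ∅).diagonal]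
      · rw [bg_rr (fun e => hxy (Subtype.ext e)) (hcl x y), bg_rr hxy (hcl x y)]

/-- One vertex. -/
theorem local_one {V : Type} [DecidableEq V] {M : CoxeterMatrix V} (s : V) :
    ZG (Bg M ∅) (({s} : Finset V).disjSum {s}) := by
  have h1 : ({s} : Finset V).disjSum {s} = insert (Sum.inl s) (insert (Sum.inr s) ∅) := by
    ext v
    rcases v with x | x <;> simp
  rw [h1]
  exact zg_susp (Finset.notMem_empty _) (Finset.notMem_empty _) (by simp) (bg_lr0 (Or.inl rfl))
    fun y hy => absurd hy (Finset.notMem_empty y)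

/-- The reduction theorem: a Coxeter system whose nerve is a flag complex.  For every simplex `K`
(including the empty one) assume that the homology vanishes for the right-angled system of the link of
`K`, or for the right-angled system of the Coxeter complex of a factor `K₁` of `K`. -/
theorem red_nohom {V : Type} [Fintype V] [LinearOrder V] (M : CoxeterMatrix V)
    (hM : ∀ K : Finset V, (∀ x ∈ K, ∀ y ∈ K, M x y ≠ 0) → Sph M K)
    (h : ∀ K : Finset V, (∀ x ∈ K, ∀ y ∈ K, M x y ≠ 0) → NoHom (sub (ra M) (Nb M K)) ∨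
      ∃ K₁ ⊆ K, K₁.Nonempty ∧ (∀ s ∈ K₁, ∀ t ∈ K, t ∉ K₁ → M s t = 2) ∧
        ∃ (_ : Fintype (Vx (sub M K₁))) (_ : LinearOrder (Vx (sub M K₁))),
          NoHom (Xm (sub M K₁))) : NoHom M := by
  rw [nohom_iff, vv_iff_zg]
  refine red hM fun K hK => ?_
  rcases h K hK with h1 | ⟨K₁, h1, h2, h3, iF, iO, h4⟩
  · exact Or.inl (zg_iff_nohom.2 h1)
  · refine Or.inr ⟨K₁, h1, h2, h3, ?_⟩
    refine local_zg (hM K₁ fun x hx y hy => hK x (h1 hx) y (h1 hy)) ?_
    rw [nohom_iff, vv_iff_zg] at h4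
    exact h4

end LBL
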