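import Pool.Agent.LBL.Noh
import Pool.Agent.LBL.Ok

/-!
# Project LBL (architect helper40), module Cert: checking of certificates for the vanishing

`QM L`: generators with numbers; the numbers below 6 are the nodes of E6, with their labels; the other
labels are 2 or infinite, given by the list `L` of bit masks.  `chk c L S`: the certificate `c` shows the
vanishing for the generators of the mask `S` (suspensions, local systems of odd special subgroups, joins,
contractions of edges).
-/

namespace LBL

open SCG SNG SCS Finset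

/-- odd rank below seven -/
theorem bg_univ {κ : Type} [Fintype κ] [DecidableEq κ] {m : CoxeterMatrix κ} (hf : Sph m univ)
    (hodd : Odd (Fintype.card κ)) (h7 : Fintype.card κ < 7) : ZG (Bg m ∅) univ := by
  classical
  obtain ⟨K₁, -, h2, h3, h5⟩ := exists_comp m (K := univ) (by rwa [card_univ])
  have hsK : Sph m K₁ := sph_mono (subset_univ _) hf
  have hfin : Finite (sub m K₁).Group := finite_sub hsK
  have hc : Fintype.card {x // x ∈ K₁} = K₁.card := Fintype.card_coe K₁
  rcases nohom_or hfin (sub_con h5) (by rw [hc]; exact h2) with ⟨i1, i2, h6⟩ | ⟨-, h6⟩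
  · rw [nohom_iff, vv_iff_zg] at h6
    have h8 : ZG (Bg m ∅) (K₁.disjSum K₁) := local_zg hsK h6
    have e : (univ : Finset (κ ⊕ κ)) = K₁.disjSum K₁ ∪ K₁ᶜ.disjSum K₁ᶜ := by
      ext v
      rcases v with x | x
      · simp only [mem_univ, mem_union, Finset.inl_mem_disjSum, mem_compl, true_iff]
        exact em _
      · simp only [mem_univ, mem_union, Finset.inr_mem_disjSum, mem_compl, true_iff]
        exact em _
    rw [e]
    refine zg_join ?_ ?_ (fun C _ hC => bg_flag (fun K _ => sph_mono (subset_univ _) hf) ∅ C hC) h8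
    · rw [Finset.disjoint_left]
      intro v hv hv'
      rcases v with x | x
      · rw [Finset.inl_mem_disjSum] at hv hv'
        exact (mem_compl.1 hv') hv
      · rw [Finset.inr_mem_disjSum] at hv hv'
        exact (mem_compl.1 hv') hv
    · have h9 : ∀ x ∈ K₁, ∀ y, y ∉ K₁ → m y x = 2 := by
        intro x hx y hy
        rw [m.symmetric]
        exact h3 x hx y (mem_univ _) hy
      intro b hb a ha
      rcases b with y | y
      · rw [Finset.inl_mem_disjSum, mem_compl] at hb
        rcases a with x | x
        · rw [Finset.inl_mem_disjSum] at ha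
          have hne : y ≠ x := fun e => hb (e ▸ ha)
          rw [bg_ll hne (by rw [h9 x ha y hb]; norm_num)
            (Finset.notMem_empty _) (Finset.notMem_empty _)]
          exact h9 x ha y hb
        · rw [Finset.inr_mem_disjSum] at ha
          have hne : y ≠ x := fun e => hb (e ▸ ha)
          exact bg_lr hne (by rw [h9 x ha y hb]; norm_num)
      · rw [Finset.inr_mem_disjSum, mem_compl] at hb
        rcases a with x | x
        · rw [Finset.inl_mem_disjSum] at ha
          have hne : x ≠ y := fun e => hb (e ▸ ha)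
          rw [(Bg m ∅).symmetric]
          exact bg_lr hne (by rw [m.symmetric, h9 x ha y hb]; norm_num)
        · rw [Finset.inr_mem_disjSum] at ha
          have hne : y ≠ x := fun e => hb (e ▸ ha)
          exact bg_rr hne (by rw [h9 x ha y hb]; norm_num)
  · exfalso
    have h8 := card_le_univ K₁
    omega

namespace E7

/-- the labels of E7 -/
def w7 (x y : ℕ) : ℕ := if x = y then 1 else
  if (min x y, max x y) ∈ [(0, 1), (1, 2), (2, 3), (3, 4), (2, 5), (4, 6)] then 3 else 2

theorem w7_comm (x y : ℕ) : w7 x y = w7 y x := by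
  unfold w7
  rw [min_comm, max_comm]
  simp only [eq_comm]

theorem w7_self (x : ℕ) : w7 x x = 1 := if_pos rfl

theorem w7_ne {x y : ℕ} (h : x ≠ y) : w7 x y ≠ 1 := by
  unfold w7
  rw [if_neg h]
  split_ifs <;> norm_num

/-- the labels -/
def qf (L : List ℕ) (x y : ℕ) : ℕ := if x = y then 1 else
  if x < 6 ∧ y < 6 then w7 x y else
  if (L.getD (max x y) 0).testBit (min x y) then 2 else 0

theorem qf_comm (L : List ℕ) (x y : ℕ) : qf L x y = qf L y x := by
  unfold qf
  rw [min_comm, max_comm, w7_comm]
  simp only [eq_comm, and_comm]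

theorem qf_self (L : List ℕ) (x : ℕ) : qf L x x = 1 := if_pos rfl

theorem qf_wall {L : List ℕ} {x y : ℕ} (hx : x < 6) (hy : y < 6) : qf L x y = w7 x y := by
  unfold qf
  by_cases h : x = y
  · rw [if_pos h, h, w7_self]
  · rw [if_neg h, if_pos ⟨hx, hy⟩]

theorem qf_gen {L : List ℕ} {x y : ℕ} (h : x ≠ y) (hx : 6 ≤ x) (h0 : qf L x y ≠ 0) :
    qf L x y = 2 := by
  unfold qf at h0 ⊢
  rw [if_neg h, if_neg (by omega)] at h0 ⊢
  split_ifs at h0 ⊢
  · rfl
  · exact absurd rfl h0

/-- The Coxeter matrix. -/
def QM (L : List ℕ) : CoxeterMatrix ℕ where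
  M := Matrix.of (qf L)
  isSymm := by
    ext x y
    exact qf_comm L y x
  diagonal x := qf_self L x
  off_diagonal x y h := by
    change qf L x y ≠ 1
    unfold qf
    rw [if_neg h]
    split_ifs
    · exact w7_ne h
    · norm_num
    · norm_num

theorem qm_apply (L : List ℕ) (x y : ℕ) : QM L x y = qf L x y := rfl

theorem qm_walls {L L' : List ℕ} (h : Sph (QM L) (range 6)) : Sph (QM L') (range 6) := by
  have h1 : ∀ L'', Sph (QM L'') (range 6) ↔ Sph (sub (QM L) (range 6)) univ := by
    intro L''
    rw [← sph_iff (M := QM L'') (M' := sub (QM L) (range 6))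
      (Function.Embedding.subtype fun x => x ∈ range 6), map_univ_sub]
    intro x y
    change qf L'' x.1 y.1 = qf L x.1 y.1
    rw [qf_wall (mem_range.1 x.2) (mem_range.1 y.2), qf_wall (mem_range.1 x.2) (mem_range.1 y.2)]
  exact (h1 L').2 ((h1 L).1 h)

/-- cliques are spherical -/
theorem qm_flag {L : List ℕ} (h : Sph (QM L) (range 6)) (C : Finset ℕ)
    (hC : ∀ x ∈ C, ∀ y ∈ C, QM L x y ≠ 0) : Sph (QM L) C := by
  have h1 : Sph (QM L) (C.filter fun x => x < 6) :=
    sph_mono (fun x hx => mem_range.2 (mem_filter.1 hx).2) h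
  have h2 := sph_add h1 (C.filter fun x => ¬ x < 6) (by
    intro c hc y hy hne
    rw [filter_union_filter_not_eq] at hy
    rw [mem_filter] at hc
    exact qf_gen hne.symm (not_lt.1 hc.2) (hC c hc.1 y hy))
  rwa [filter_union_filter_not_eq] at h2

/-- the set of a mask -/
def fs (S : ℕ) : Finset ℕ := (range 40).filter fun x => S.testBit x

theorem mem_fs {S x : ℕ} : x ∈ fs S ↔ x < 40 ∧ S.testBit x = true := by
  unfold fs
  rw [mem_filter, mem_range]

/-- Certificates. -/
inductive Ct : Type
  | susp (a b : ℕ) : Ct
  | bg (K : ℕ) (o : List ℕ) : Ct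
  | join (A : ℕ) (c : Ct) : Ct
  | contr (s t : ℕ) (L' : List ℕ) (lk S' : ℕ) (c1 c2 : Ct) : Ct

def alln (n : ℕ) (p : ℕ → Bool) : Bool := (List.range n).all p

theorem alln_iff {n : ℕ} {p : ℕ → Bool} : alln n p = true ↔ ∀ x < n, p x = true := by
  unfold alln
  rw [List.all_eq_true]
  simp only [List.mem_range]

/-- the label after the contraction -/
def qc (L : List ℕ) (s t x y : ℕ) : ℕ := if x = y then 1 else
  if x = s then (if qf L s y = 2 ∨ qf L t y = 2 then 2 else 0)
  else if y = s then (if qf L s x = 2 ∨ qf L t x = 2 then 2 else 0) else qf L x y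

/-- The checker. -/
def chk : Ct → List ℕ → ℕ → Bool
  | Ct.susp a b, L, S => S.testBit a && S.testBit b && decide (a < 40) && decide (b < 40) &&
      decide (a ≠ b) && qf L a b == 0 &&
      alln 40 fun y => !S.testBit y || y == a || y == b || (qf L a y == 2 && qf L b y == 2)
  | Ct.bg K o, L, S => decide (((Finset.range 6).filter fun k => K.testBit k).card % 2 = 1) &&
      (alln 6 fun k => !K.testBit k || (decide (6 ≤ o.getD k 0) && alln 6 fun k' => !K.testBit k' ||
        (qf L k (o.getD k' 0) == (if k = k' then 0 else 2) &&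
          (k == k' || (o.getD k 0 != o.getD k' 0 && qf L (o.getD k 0) (o.getD k' 0) == 2))))) &&
      alln 40 fun x => (alln 6 fun k => !K.testBit k || decide (o.getD k 0 < 40)) &&
        S.testBit x == ((decide (x < 6) && K.testBit x) ||
          (List.range 6).any fun k => K.testBit k && o.getD k 0 == x)
  | Ct.join A c, L, S => (alln 40 fun x => !A.testBit x || (S.testBit x &&
      alln 40 fun y => !S.testBit y || A.testBit y || qf L y x == 2)) && chk c L A
  | Ct.contr s t L' lk S' c1 c2, L, S => S.testBit s && S.testBit t && decide (s < 40) &&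
      decide (t < 40) && decide (s ≠ t) && qf L s t != 0 &&
      (alln 40 fun x => !S.testBit x || x == s || qf L s x == 2 || qf L s x == 0) &&
      (alln 40 fun x => !S.testBit x || x == t || qf L t x == 2 || qf L t x == 0) &&
      (alln 40 fun x => lk.testBit x == (S.testBit x && x != s && x != t && qf L s x != 0 &&
        qf L t x != 0)) &&
      (alln 40 fun x => !S.testBit x || x == s || x == t || qf L s x == 0 || qf L t x != 0 ||
        alln 40 fun y => !S.testBit y || y == s || y == t || qf L t y == 0 || qf L s y != 0 ||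
          x == y || qf L x y == 0) &&
      (alln 40 fun x => S'.testBit x == (S.testBit x && x != t)) &&
      (alln 40 fun x => !S'.testBit x || alln 40 fun y => !S'.testBit y ||
        qf L' x y == qc L s t x y) && chk c1 L lk && chk c2 L' S'

end E7

end LBL
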