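import Pool.Agent.LBL.Cert

/-!
# Project LBL (architect helper40), module Ceru: the checker is sound
-/

namespace LBL

open SCG SNG SCS Finset

namespace E7

theorem sound_susp {L : List ℕ} {S a b : ℕ} (h : chk (Ct.susp a b) L S = true) :
    ZG (QM L) (fs S) := by
  classical
  simp only [chk, Bool.and_eq_true, decide_eq_true_eq, beq_iff_eq, alln_iff, Bool.or_eq_true,
    Bool.not_eq_true'] at h
  obtain ⟨⟨⟨⟨⟨⟨ha, hb⟩, ha'⟩, hb'⟩, hne⟩, h0⟩, h1⟩ := h
  have e : fs S = insert a (insert b (((fs S).erase a).erase b)) := by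
    ext x
    simp only [mem_insert, mem_erase]
    constructor
    · intro hx
      by_cases h2 : x = a
      · exact Or.inl h2
      · by_cases h3 : x = b
        · exact Or.inr (Or.inl h3)
        · exact Or.inr (Or.inr ⟨h3, h2, hx⟩)
    · rintro (rfl | rfl | h2)
      · exact mem_fs.2 ⟨ha', ha⟩
      · exact mem_fs.2 ⟨hb', hb⟩
      · exact h2.2.2
  rw [e]
  refine zg_susp ?_ ?_ hne h0 fun y hy => ?_
  · simp
  · simp
  · rw [mem_erase, mem_erase, mem_fs] at hy
    rcases h1 y hy.2.2.1 with ((h2 | h2) | h2) | h2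
    · rw [hy.2.2.2] at h2
      exact absurd h2 (by decide)
    · exact absurd h2 hy.2.1
    · exact absurd h2 hy.1
    · exact h2

theorem sound_join {L : List ℕ} {S A : ℕ} {c : Ct} (hW : Sph (QM []) (range 6))
    (h : chk (Ct.join A c) L S = true) (ih : chk c L A = true → ZG (QM L) (fs A)) :
    ZG (QM L) (fs S) := by
  classical
  simp only [chk, Bool.and_eq_true, beq_iff_eq, alln_iff, Bool.or_eq_true,
    Bool.not_eq_true'] at h
  obtain ⟨h1, h2⟩ := h
  have hA : fs A ⊆ fs S := by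
    intro x hx
    rw [mem_fs] at hx ⊢
    rcases h1 x hx.1 with h3 | h3
    · rw [hx.2] at h3
      exact absurd h3 (by decide)
    · exact ⟨hx.1, h3.1⟩
  have e : fs S = fs A ∪ (fs S \ fs A) := (union_sdiff_of_subset hA).symm
  rw [e]
  refine zg_join disjoint_sdiff (fun b hb a ha => ?_) (fun C _ hC => qm_flag (qm_walls hW) C hC)
    (ih h2)
  rw [mem_sdiff, mem_fs, mem_fs] at hb
  rw [mem_fs] at ha
  rcases h1 a ha.1 with h3 | h3
  · rw [ha.2] at h3
    exact absurd h3 (by decide)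
  · rcases h3.2 b hb.1.1 with (h4 | h4) | h4
    · rw [hb.1.2] at h4
      exact absurd h4 (by decide)
    · exact absurd ⟨hb.1.1, h4⟩ hb.2
    · exact h4

theorem sound_bg {L : List ℕ} {S K : ℕ} {o : List ℕ} (hW : Sph (QM []) (range 6))
    (h : chk (Ct.bg K o) L S = true) : ZG (QM L) (fs S) := by
  classical
  simp only [chk, Bool.and_eq_true, beq_iff_eq, alln_iff, Bool.or_eq_true, decide_eq_true_eq,
    Bool.not_eq_true', bne_iff_ne] at h
  obtain ⟨⟨hodd, h1⟩, h2⟩ := h
  obtain ⟨Kf, hKf⟩ : ∃ Kf : Finset ℕ, Kf = (range 6).filter fun k => K.testBit k := ⟨_, rfl⟩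
  rw [← hKf] at hodd
  have hmem : ∀ k, k ∈ Kf ↔ k < 6 ∧ K.testBit k = true := by
    intro k
    rw [hKf, mem_filter, mem_range]
  have hs6 : Kf ⊆ range 6 := by
    intro k hk
    exact mem_range.2 ((hmem k).1 hk).1
  have ho6 : ∀ k ∈ Kf, 6 ≤ o.getD k 0 := by
    intro k hk
    rw [hmem] at hk
    rcases h1 k hk.1 with h3 | h3
    · rw [hk.2] at h3
      exact absurd h3 (by decide)
    · exact h3.1
  have ho40 : ∀ k ∈ Kf, o.getD k 0 < 40 := by
    intro k hk
    rw [hmem] at hk
    rcases (h2 0 (by norm_num)).1 k hk.1 with h3 | h3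
    · rw [hk.2] at h3
      exact absurd h3 (by decide)
    · exact h3
  have hlab : ∀ k ∈ Kf, ∀ k' ∈ Kf, qf L k (o.getD k' 0) = (if k = k' then 0 else 2) ∧
      (k = k' ∨ (o.getD k 0 ≠ o.getD k' 0 ∧ qf L (o.getD k 0) (o.getD k' 0) = 2)) := by
    intro k hk k' hk'
    rw [hmem] at hk hk'
    rcases h1 k hk.1 with h3 | h3
    · rw [hk.2] at h3
      exact absurd h3 (by decide)
    · rcases h3.2 k' hk'.1 with h4 | h4
      · rw [hk'.2] at h4
        exact absurd h4 (by decide)
      · exact h4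
  have hsph : Sph (QM L) Kf := sph_mono hs6 (qm_walls hW)
  have hsph' : Sph (sub (QM L) Kf) univ := by
    rw [← sph_iff (M := QM L) (M' := sub (QM L) Kf) (Function.Embedding.subtype fun x => x ∈ Kf)
      (fun _ _ => rfl), map_univ_sub]
    exact hsph
  have hcard : Fintype.card {x // x ∈ Kf} = Kf.card := Fintype.card_coe Kf
  have hle : Kf.card ≤ 6 := (card_le_card hs6).trans (by rw [card_range])
  have h3 := bg_univ hsph' (by rw [hcard]; exact Nat.odd_iff.2 hodd) (by omega)
  have h4 := (zg_image (G := Bg (sub (QM L) Kf) ∅) (G' := QM L) (S := univ)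
    (Sum.elim (fun k => k.1) fun k => o.getD k.1 0) ?_ ?_).1 h3
  · convert h4 using 1
    ext x
    rw [mem_fs, mem_image]
    constructor
    · rintro ⟨hx, hx'⟩
      have h5 := (h2 x hx).2
      rw [hx', eq_comm, Bool.or_eq_true, Bool.and_eq_true, decide_eq_true_eq,
        List.any_eq_true] at h5
      rcases h5 with h5 | ⟨k, hk, h5⟩
      · exact ⟨Sum.inl ⟨x, (hmem x).2 h5⟩, mem_univ _, rfl⟩
      · rw [Bool.and_eq_true, beq_iff_eq] at h5
        exact ⟨Sum.inr ⟨k, (hmem k).2 ⟨List.mem_range.1 hk, h5.1⟩⟩, mem_univ _, h5.2⟩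
    · rintro ⟨u, -, hu⟩
      rcases u with ⟨k, hk⟩ | ⟨k, hk⟩
      · change k = x at hu
        subst hu
        have h6 := (hmem k).1 hk
        refine ⟨by omega, ?_⟩
        rw [(h2 k (by omega)).2, Bool.or_eq_true, Bool.and_eq_true, decide_eq_true_eq]
        exact Or.inl h6
      · change o.getD k 0 = x at hu
        subst hu
        have h6 := (hmem k).1 hk
        refine ⟨ho40 k hk, ?_⟩
        rw [(h2 _ (ho40 k hk)).2, Bool.or_eq_true, List.any_eq_true]
        refine Or.inr ⟨k, List.mem_range.2 h6.1, ?_⟩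
        rw [Bool.and_eq_true, beq_iff_eq]
        exact ⟨h6.2, rfl⟩
  · intro u _ v _ huv
    rcases u with ⟨x, hx⟩ | ⟨x, hx⟩ <;> rcases v with ⟨y, hy⟩ | ⟨y, hy⟩
    · change x = y at huv
      subst huv
      rfl
    · change x = o.getD y 0 at huv
      have := ho6 y hy
      have := ((hmem x).1 hx).1
      omega
    · change o.getD x 0 = y at huv
      have := ho6 x hx
      have := ((hmem y).1 hy).1
      omega
    · change o.getD x 0 = o.getD y 0 at huv
      rcases (hlab x hx y hy).2 with h5 | h5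
      · subst h5
        rfl
      · exact absurd huv h5.1
  · have hcl : ∀ x y : {x // x ∈ Kf}, sub (QM L) Kf x y ≠ 0 := fun x y => sph_ne hsph x.2 y.2
    intro u _ v _
    rcases u with x | x <;> rcases v with y | y
    · change qf L x.1 y.1 = _
      by_cases hxy : x = y
      · rw [hxy, qf_self, (Bg (sub (QM L) Kf) ∅).diagonal]
      · rw [bg_ll hxy (hcl x y) (Finset.notMem_empty _) (Finset.notMem_empty _)]
        rfl
    · change qf L x.1 (o.getD y.1 0) = _
      rw [(hlab x.1 x.2 y.1 y.2).1]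
      by_cases hxy : x = y
      · rw [if_pos (congrArg _ hxy), bg_lr0 (Or.inl hxy)]
      · rw [if_neg fun e => hxy (Subtype.ext e), bg_lr hxy (hcl x y)]
    · change qf L (o.getD x.1 0) y.1 = _
      rw [qf_comm, (hlab y.1 y.2 x.1 x.2).1, (Bg (sub (QM L) Kf) ∅).symmetric]
      by_cases hxy : y = x
      · rw [if_pos (congrArg _ hxy), bg_lr0 (Or.inl hxy)]
      · rw [if_neg fun e => hxy (Subtype.ext e), bg_lr hxy (hcl y x)]
    · change qf L (o.getD x.1 0) (o.getD y.1 0) = _
      by_cases hxy : x = y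
      · rw [hxy, qf_self, (Bg (sub (QM L) Kf) ∅).diagonal]
      · rw [bg_rr hxy (hcl x y)]
        exact ((hlab x.1 x.2 y.1 y.2).2.resolve_left fun e => hxy (Subtype.ext e)).2

theorem cm_qc (L : List ℕ) (s t x y : ℕ) : cM (QM L) s t x y = qc L s t x y := by
  have h1 : ∀ y, s ≠ y → cM (QM L) s t s y = if qf L s y = 2 ∨ qf L t y = 2 then 2 else 0 := by
    intro y hy
    rw [cM_left _ hy]
    change (@ite ℕ (qf L s y = 2 ∨ qf L t y = 2) _ 2 0) = _
    by_cases h : qf L s y = 2 ∨ qf L t y = 2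
    · rw [if_pos h]
    · rw [if_neg h]
  unfold qc
  by_cases hxy : x = y
  · rw [hxy, (cM (QM L) s t).diagonal, if_pos rfl]
  · rw [if_neg hxy]
    by_cases hx : x = s
    · subst hx
      rw [if_pos rfl, h1 y hxy]
    · rw [if_neg hx]
      by_cases hy : y = s
      · subst hy
        rw [if_pos rfl, (cM (QM L) y t).symmetric, h1 x (Ne.symm hxy)]
      · rw [if_neg hy, cM_ne _ hx hy, qm_apply]

theorem sound_contr {L L' : List ℕ} {S s t lk S' : ℕ} {c1 c2 : Ct}
    (h : chk (Ct.contr s t L' lk S' c1 c2) L S = true)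
    (ih1 : chk c1 L lk = true → ZG (QM L) (fs lk))
    (ih2 : chk c2 L' S' = true → ZG (QM L') (fs S')) : ZG (QM L) (fs S) := by
  classical
  simp only [chk, Bool.and_eq_true, beq_iff_eq, alln_iff, Bool.or_eq_true, decide_eq_true_eq,
    Bool.not_eq_true', bne_iff_ne] at h
  obtain ⟨⟨⟨⟨⟨⟨⟨⟨⟨⟨⟨⟨⟨hs, ht⟩, hs'⟩, ht'⟩, hne⟩, hst⟩, h1⟩, h2⟩, h3⟩, h4⟩, h5⟩, h6⟩, h7⟩, h8⟩ := h
  have hS : ∀ {x}, x ∈ fs S → ¬ S.testBit x = false := by
    intro x hx h9
    rw [(mem_fs.1 hx).2] at h9
    exact absurd h9 (by decide)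
  have hadj : ∀ x y, (gr (QM L)).Adj x y ↔ x ≠ y ∧ qf L x y ≠ 0 := fun _ _ => Iff.rfl
  refine zg_contr (s := s) (t := t) (mem_fs.2 ⟨hs', hs⟩) (mem_fs.2 ⟨ht', ht⟩) ⟨hne, hst⟩
    ?_ ?_ ?_ ?_ ?_
  · intro x hx hxs
    rcases h1 x (mem_fs.1 hx).1 with ((h9 | h9) | h9) | h9
    · exact absurd h9 (hS hx)
    · exact absurd h9 hxs
    · exact Or.inl h9
    · exact Or.inr h9
  · intro x hx hxt
    rcases h2 x (mem_fs.1 hx).1 with ((h9 | h9) | h9) | h9
    · exact absurd h9 (hS hx)
    · exact absurd h9 hxt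
    · exact Or.inl h9
    · exact Or.inr h9
  · intro x hx y hy h10 h11 h12 h13 h14 h15 h16
    rw [hadj] at h10 h11 h12 h13 h16
    have hx0 : qf L t x = 0 := by
      by_contra h0
      exact h12 ⟨h14.symm, h0⟩
    have hy0 : qf L s y = 0 := by
      by_contra h0
      exact h13 ⟨h15.symm, h0⟩
    rcases h4 x (mem_fs.1 hx).1 with ((((h9 | h9) | h9) | h9) | h9) | h9
    · exact hS hx h9
    · exact h10.1 h9.symm
    · exact h14 h9
    · exact h10.2 h9
    · exact h9 hx0
    · rcases h9 y (mem_fs.1 hy).1 with (((((h9 | h9) | h9) | h9) | h9) | h9) | h9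
      · exact hS hy h9
      · exact h15 h9
      · exact h11.1 h9.symm
      · exact h11.2 h9
      · exact h9 hy0
      · exact h16.1 h9
      · exact h16.2 h9
  · have e : ck (fs S) (gr (QM L)) s t = fs lk := by
      ext x
      rw [mem_ck, mem_fs, mem_fs, hadj, hadj]
      constructor
      · rintro ⟨⟨h9, h10⟩, h11, h12⟩
        refine ⟨h9, ?_⟩
        rw [h3 x h9]
        simp only [Bool.and_eq_true, bne_iff_ne]
        exact ⟨⟨⟨⟨h10, h11.1.symm⟩, h12.1.symm⟩, h11.2⟩, h12.2⟩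
      · rintro ⟨h9, h10⟩
        rw [h3 x h9] at h10
        simp only [Bool.and_eq_true, bne_iff_ne] at h10
        exact ⟨⟨h9, h10.1.1.1.1⟩, ⟨h10.1.1.1.2.symm, h10.1.2⟩, ⟨h10.1.1.2.symm, h10.2⟩⟩
    rw [e]
    exact ih1 h7
  · have e : (fs S).erase t = fs S' := by
      ext x
      rw [mem_erase, mem_fs, mem_fs]
      constructor
      · rintro ⟨h9, h10, h11⟩
        refine ⟨h10, ?_⟩
        rw [h5 x h10]
        simp only [Bool.and_eq_true, bne_iff_ne]
        exact ⟨h11, h9⟩
      · rintro ⟨h9, h10⟩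
        rw [h5 x h9] at h10
        simp only [Bool.and_eq_true, bne_iff_ne] at h10
        exact ⟨h10.2, h9, h10.1⟩
    rw [e]
    have h9 := (zg_image (G := QM L') (G' := cM (QM L) s t) (S := fs S') id
      (fun x _ y _ hxy => hxy) (fun x hx y hy => ?_)).1 (ih2 h8)
    · rwa [image_id] at h9
    · rw [id, id, cm_qc, qm_apply]
      have hx' := mem_fs.1 hx
      have hy' := mem_fs.1 hy
      rcases h6 x hx'.1 with h10 | h10
      · rw [hx'.2] at h10
        exact absurd h10 (by decide)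
      · rcases h10 y hy'.1 with h11 | h11
        · rw [hy'.2] at h11
          exact absurd h11 (by decide)
        · exact h11.symm

/-- The checker is sound. -/
theorem chk_sound (hW : Sph (QM []) (range 6)) : ∀ (c : Ct) (L : List ℕ) (S : ℕ),
    chk c L S = true → ZG (QM L) (fs S) := by
  intro c
  induction c with
  | susp a b => exact fun L S h => sound_susp h
  | bg K o => exact fun L S h => sound_bg hW h
  | join A c ih => exact fun L S h => sound_join hW h (ih L A)
  | contr s t L' lk S' c1 c2 ih1 ih2 => exact fun L S h => sound_contr h (ih1 L lk) (ih2 L' S')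

end E7

end LBL
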