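import Pool.Agent.LBL.Frm

/-!
# Project LBL (architect helper40), module Cla: diagrams of finite Coxeter groups, basic tools
-/

namespace LBL

open SCG Finset

variable {κ : Type} {m : CoxeterMatrix κ}

/-- Adjacency in the Coxeter diagram. -/
def Aj (m : CoxeterMatrix κ) (s t : κ) : Prop := s ≠ t ∧ m s t ≠ 2

theorem Aj.symm {s t : κ} (h : Aj m s t) : Aj m t s :=
  ⟨h.1.symm, by rw [m.symmetric]; exact h.2⟩

theorem kk_nonpos {s t : κ} (h : s ≠ t) : kk m s t ≤ 0 := by
  unfold kk
  have h1 : m s t ≠ 1 := m.off_diagonal s t h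
  have h2 : 0 ≤ Real.cos (Real.pi / (m s t : ℝ)) := by
    apply Real.cos_nonneg_of_mem_Icc
    have hp := Real.pi_pos
    constructor
    · have h3 : 0 ≤ Real.pi / (m s t : ℝ) := by positivity
      linarith
    · rcases Nat.eq_zero_or_pos (m s t) with h3 | h3
      · rw [h3, Nat.cast_zero, div_zero]
        positivity
      · have h4 : (2 : ℝ) ≤ (m s t : ℝ) := by
          have : 2 ≤ m s t := by omega
          exact_mod_cast this
        exact div_le_div_of_nonneg_left hp.le (by norm_num) h4
  linarith

theorem kk_le {s t : κ} {q : ℕ} (hq : 0 < q) (h1 : m s t = 0 ∨ q ≤ m s t) :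
    kk m s t ≤ -2 * Real.cos (Real.pi / (q : ℝ)) := by
  unfold kk
  have hp := Real.pi_pos
  have hq' : (0 : ℝ) < (q : ℝ) := by exact_mod_cast hq
  have h3 : Real.cos (Real.pi / (q : ℝ)) ≤ Real.cos (Real.pi / (m s t : ℝ)) := by
    apply Real.cos_le_cos_of_nonneg_of_le_pi
    · positivity
    · rw [div_le_iff₀ hq']
      have h4 : (1 : ℝ) ≤ (q : ℝ) := by exact_mod_cast hq
      nlinarith
    · rcases h1 with h1 | h1
      · rw [h1, Nat.cast_zero, div_zero]
        positivity
      · have h4 : (q : ℝ) ≤ (m s t : ℝ) := by exact_mod_cast h1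
        exact div_le_div_of_nonneg_left hp.le hq' h4
  linarith

theorem kk_one {s t : κ} (h : Aj m s t) : kk m s t ≤ -1 := by
  have h1 : m s t ≠ 1 := m.off_diagonal s t h.1
  have h2 := h.2
  have h3 := kk_le (m := m) (s := s) (t := t) (q := 3) (by norm_num) (by omega)
  rw [show ((3 : ℕ) : ℝ) = 3 by norm_num, Real.cos_pi_div_three] at h3
  linarith

theorem kk_sqrt {s t : κ} (h : Aj m s t) (h3 : m s t ≠ 3) : kk m s t ≤ -√2 := by
  have h1 : m s t ≠ 1 := m.off_diagonal s t h.1
  have h2 := h.2
  have h4 := kk_le (m := m) (s := s) (t := t) (q := 4) (by norm_num) (by omega)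
  rw [show ((4 : ℕ) : ℝ) = 4 by norm_num, Real.cos_pi_div_four] at h4
  linarith

section null

variable [Fintype κ]

theorem no_null (hf : Finite m.Group) {x : κ → ℝ} (h0 : ∀ s, 0 ≤ x s) (hne : ∃ s, 0 < x s)
    (h : ∀ s, 0 < x s → ∑ t, kk m s t * x t ≤ 0) : False := by
  obtain ⟨s, hs⟩ := hne
  have h1 := frm_pos hf (x := x) (fun e => by
    rw [e] at hs
    exact lt_irrefl _ hs)
  have h2 : ∑ s, ∑ t, kk m s t * x s * x t ≤ 0 := by
    refine sum_nonpos fun s _ => ?_
    have h3 : ∑ t, kk m s t * x s * x t = x s * ∑ t, kk m s t * x t := by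
      rw [mul_sum]
      exact sum_congr rfl fun t _ => by ring
    rw [h3]
    rcases (h0 s).eq_or_lt with h4 | h4
    · rw [← h4, zero_mul]
    · exact mul_nonpos_of_nonneg_of_nonpos h4.le (h s h4)
  linarith

theorem row_le {x : κ → ℝ} (h0 : ∀ s, 0 ≤ x s) {s : κ} {N : Finset κ} (hs : s ∉ N) :
    ∑ t, kk m s t * x t ≤ 2 * x s + ∑ t ∈ N, kk m s t * x t := by
  classical
  have h1 : ∑ t ∈ insert s N, kk m s t * x t = 2 * x s + ∑ t ∈ N, kk m s t * x t := by
    rw [sum_insert hs, kk_self]
  rw [← h1, ← sum_add_sum_compl (insert s N)]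
  have h2 : ∑ t ∈ (insert s N)ᶜ, kk m s t * x t ≤ 0 := by
    refine sum_nonpos fun t ht => ?_
    rw [mem_compl, mem_insert, not_or] at ht
    exact mul_nonpos_of_nonpos_of_nonneg (kk_nonpos (Ne.symm ht.1)) (h0 t)
  linarith

/-- Every nonempty set of nodes has a node with at most one neighbour in the set. -/
theorem exists_leaf (hf : Finite m.Group) {A : Finset κ} (hA : A.Nonempty) :
    ∃ s ∈ A, ∀ t ∈ A, ∀ t' ∈ A, Aj m s t → Aj m s t' → t = t' := by
  classical
  by_contra hcon
  push Not at hcon
  obtain ⟨x, hx⟩ : ∃ x : κ → ℝ, ∀ s, x s = if s ∈ A then 1 else 0 := ⟨_, fun _ => rfl⟩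
  have hxA : ∀ s ∈ A, x s = 1 := fun s hs => by rw [hx, if_pos hs]
  have h0 : ∀ s, 0 ≤ x s := by
    intro s
    rw [hx]
    split_ifs <;> norm_num
  refine no_null hf h0 ?_ ?_
  · obtain ⟨s, hs⟩ := hA
    exact ⟨s, by rw [hxA s hs]; norm_num⟩
  · intro s hs
    have hsA : s ∈ A := by
      by_contra h1
      rw [hx, if_neg h1] at hs
      exact lt_irrefl _ hs
    obtain ⟨t, ht, t', ht', h1, h2, hne⟩ := hcon s hsA
    have h3 := row_le (m := m) h0 (s := s) (N := {t, t'}) (by
      rw [mem_insert, mem_singleton, not_or]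
      exact ⟨h1.1, h2.1⟩)
    rw [sum_pair hne, hxA s hsA, hxA t ht, hxA t' ht'] at h3
    have h4 := kk_one h1
    have h5 := kk_one h2
    linarith

/-- Walks without backtracking are injective. -/
theorem nb_inj (hf : Finite m.Group) {k : ℕ} {w : ℕ → κ} (ha : ∀ i < k, Aj m (w i) (w (i + 1)))
    (hb : ∀ i, i + 2 ≤ k → w i ≠ w (i + 2)) : ∀ i j, i < j → j ≤ k → w i ≠ w j := by
  classical
  have key : ∀ d i, i + (d + 1) ≤ k → w i ≠ w (i + (d + 1)) := by
    intro d
    induction d using Nat.strong_induction_on with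
    | _ d ih =>
      intro i hi e
      have hdist : ∀ a b, a < b → i ≤ a → b < i + (d + 1) → w a ≠ w b := by
        intro a b hab h1 h2
        have h3 := ih (b - a - 1) (by omega) a (by omega)
        rwa [show a + (b - a - 1 + 1) = b by omega] at h3
      have hd : 2 ≤ d := by
        rcases Nat.lt_or_ge d 2 with h1 | h1
        · exfalso
          have h2 : d = 0 ∨ d = 1 := by omega
          rcases h2 with rfl | rfl
          · exact (ha i (by omega)).1 e
          · exact hb i (by omega) e
        · exact h1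
      obtain ⟨s, hs, h1⟩ := exists_leaf hf (A := (range (d + 1)).image fun a => w (i + a))
        ⟨w (i + 0), mem_image_of_mem _ (mem_range.2 (by omega))⟩
      obtain ⟨a, ha', rfl⟩ := mem_image.1 hs
      rw [mem_range] at ha'
      have hmem : ∀ b, b < d + 1 → w (i + b) ∈ (range (d + 1)).image fun a => w (i + a) :=
        fun b hb' => mem_image_of_mem _ (mem_range.2 hb')
      rcases Nat.eq_zero_or_pos a with rfl | hapos
      · -- the first vertex
        have h2 := h1 _ (hmem 1 (by omega)) _ (hmem d (by omega)) (by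
          have := ha i (by omega)
          rwa [Nat.add_zero]) (by
          have := (ha (i + d) (by omega)).symm
          rw [show i + d + 1 = i + (d + 1) by ring, ← e] at this
          rwa [Nat.add_zero])
        exact hdist (i + 1) (i + d) (by omega) (by omega) (by omega) h2
      · by_cases had : a = d
        · subst had
          have h2 := h1 _ (hmem (a - 1) (by omega)) _ (hmem 0 (by omega)) (by
            have := (ha (i + (a - 1)) (by omega)).symm
            rwa [show i + (a - 1) + 1 = i + a by omega] at this) (by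
            have := ha (i + a) (by omega)
            rw [show i + a + 1 = i + (a + 1) by ring, ← e] at this
            rwa [Nat.add_zero])
          exact hdist (i + 0) (i + (a - 1)) (by omega) (by omega) (by omega) h2.symm
        · have h2 := h1 _ (hmem (a - 1) (by omega)) _ (hmem (a + 1) (by omega)) (by
            have := (ha (i + (a - 1)) (by omega)).symm
            rwa [show i + (a - 1) + 1 = i + a by omega] at this) (by
            have := ha (i + a) (by omega)
            rwa [show i + a + 1 = i + (a + 1) by ring] at this)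
          exact hdist (i + (a - 1)) (i + (a + 1)) (by omega) (by omega) (by omega) h2
  intro i j hij hj
  have h1 := key (j - i - 1) i (by omega)
  rwa [show i + (j - i - 1 + 1) = j by omega] at h1

end null

/-- Numbering of a path. -/
theorem exists_path [Fintype κ] {adj : κ → κ → Prop} (hs : ∀ a b, adj a b → adj b a)
    (hirr : ∀ a, ¬ adj a a) {v0 : κ} (hv0 : ∀ t t', adj v0 t → adj v0 t' → t = t')
    (hdeg : ∀ b x y z, adj b x → adj b y → adj b z → x = y ∨ y = z ∨ x = z)
    (hcon : ∀ A : Finset κ, A.Nonempty → A ≠ univ → ∃ a ∈ A, ∃ b, b ∉ A ∧ adj a b) :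
    ∃ f : ℕ → κ, f 0 = v0 ∧ (∀ i < Fintype.card κ, ∀ j < Fintype.card κ, f i = f j → i = j) ∧
      (∀ x, ∃ i < Fintype.card κ, f i = x) ∧
      ∀ i j, i < Fintype.card κ → j < Fintype.card κ →
        (adj (f i) (f j) ↔ i + 1 = j ∨ j + 1 = i) := by
  classical
  -- neighbours of the inner vertices of a partial path
  have hnb : ∀ (k : ℕ) (f : ℕ → κ), f 0 = v0 → (∀ i < k, ∀ j < k, f i = f j → i = j) →
      (∀ i, i + 1 < k → adj (f i) (f (i + 1))) → ∀ i, i + 1 < k → ∀ z, adj (f i) z →
        z = f (i + 1) ∨ (0 < i ∧ z = f (i - 1)) := by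
    intro k f h0 hinj hadj i hi z hz
    rcases Nat.eq_zero_or_pos i with rfl | hip
    · left
      rw [h0] at hz
      have h1 := hadj 0 hi
      rw [h0] at h1
      exact hv0 _ _ hz h1
    · have h1 := hadj i hi
      have h2 : adj (f i) (f (i - 1)) := by
        have := hs _ _ (hadj (i - 1) (by omega))
        rwa [show i - 1 + 1 = i by omega] at this
      rcases hdeg (f i) z (f (i + 1)) (f (i - 1)) hz h1 h2 with h3 | h3 | h3
      · exact Or.inl h3
      · have := hinj (i + 1) hi (i - 1) (by omega) h3
        omega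
      · exact Or.inr ⟨hip, h3⟩
  have key : ∀ k, 1 ≤ k → k ≤ Fintype.card κ → ∃ f : ℕ → κ, f 0 = v0 ∧
      (∀ i < k, ∀ j < k, f i = f j → i = j) ∧ ∀ i, i + 1 < k → adj (f i) (f (i + 1)) := by
    intro k hk
    induction k, hk using Nat.le_induction with
    | base =>
      intro _
      refine ⟨fun _ => v0, rfl, fun i hi j hj _ => by omega, fun i hi => by omega⟩
    | succ k hk ih =>
      intro hkc
      obtain ⟨f, h0, hinj, hadj⟩ := ih (by omega)
      obtain ⟨a, ha, b, hb, hab⟩ := hcon ((range k).image f)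
        ⟨f 0, mem_image_of_mem _ (mem_range.2 (by omega))⟩ (by
        intro e
        have h1 := card_image_le (s := range k) (f := f)
        rw [e, card_univ, card_range] at h1
        omega)
      obtain ⟨i, hi, rfl⟩ := mem_image.1 ha
      rw [mem_range] at hi
      have hbn : ∀ j < k, f j ≠ b := fun j hj e => hb (mem_image.2 ⟨j, mem_range.2 hj, e⟩)
      have hik : i + 1 = k := by
        by_contra h1
        rcases hnb k f h0 hinj hadj i (by omega) b hab with h2 | ⟨h2, h3⟩
        · exact hbn (i + 1) (by omega) h2.symm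
        · exact hbn (i - 1) (by omega) h3.symm
      obtain ⟨g, hg⟩ : ∃ g : ℕ → κ, ∀ j, g j = if j < k then f j else b := ⟨_, fun _ => rfl⟩
      have hgk : ∀ j < k, g j = f j := fun j hj => by rw [hg, if_pos hj]
      have hgb : g k = b := by rw [hg, if_neg (lt_irrefl _)]
      refine ⟨g, by rw [hgk 0 (by omega), h0], ?_, ?_⟩
      · intro j hj l hl e
        rcases Nat.lt_or_ge j k with h1 | h1
        · rcases Nat.lt_or_ge l k with h2 | h2
          · rw [hgk j h1, hgk l h2] at e
            exact hinj j h1 l h2 e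
          · have h3 : l = k := by omega
            rw [h3, hgb, hgk j h1] at e
            exact absurd e (hbn j h1)
        · have h3 : j = k := by omega
          rcases Nat.lt_or_ge l k with h2 | h2
          · rw [h3, hgb, hgk l h2] at e
            exact absurd e.symm (hbn l h2)
          · omega
      · intro j hj
        rcases Nat.lt_or_ge (j + 1) k with h1 | h1
        · rw [hgk j (by omega), hgk (j + 1) h1]
          exact hadj j h1
        · have h3 : j + 1 = k := by omega
          have h4 : j = i := by omega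
          rw [h3, hgb, h4, hgk i hi]
          exact hab
  have hc : 1 ≤ Fintype.card κ := Fintype.card_pos_iff.2 ⟨v0⟩
  obtain ⟨f, h0, hinj, hadj⟩ := key _ hc le_rfl
  have hsurj : ∀ x, ∃ i < Fintype.card κ, f i = x := by
    intro x
    have h1 : (range (Fintype.card κ)).image f = univ := by
      apply eq_univ_of_card
      rw [card_image_of_injOn, card_range]
      intro i hi j hj e
      exact hinj i (mem_range.1 (mem_coe.1 hi)) j (mem_range.1 (mem_coe.1 hj)) e
    have h2 := mem_univ x
    rw [← h1, mem_image] at h2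
    obtain ⟨i, hi, e⟩ := h2
    exact ⟨i, mem_range.1 hi, e⟩
  refine ⟨f, h0, hinj, hsurj, ?_⟩
  have hone : ∀ i j, i < j → j < Fintype.card κ → adj (f i) (f j) → i + 1 = j := by
    intro i j hij hj h1
    rcases hnb _ f h0 hinj hadj i (by omega) _ h1 with h2 | ⟨h2, h3⟩
    · exact (hinj _ hj _ (by omega) h2).symm
    · have := hinj _ hj _ (by omega) h3
      omega
  intro i j hi hj
  constructor
  · intro h1
    rcases Nat.lt_trichotomy i j with h2 | h2 | h2
    · exact Or.inl (hone i j h2 hj h1)
    · subst h2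
      exact absurd h1 (hirr _)
    · exact Or.inr (hone j i h2 hi (hs _ _ h1))
  · rintro (rfl | rfl)
    · exact hadj i hj
    · exact hs _ _ (hadj j hi)

end LBL
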