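import Pool.Agent.LBL.Linb
import Pool.Agent.LBL.Ok
import Pool.Agent.SCG.Fin

/-!
# Project LBL (architect helper40), module Linc: the shelling, and the vanishing for linear diagrams
-/

namespace LBL

open SCG SCS Finset

variable {κ : Type} {m : CoxeterMatrix κ} {n : ℕ} {c : ℕ → κ} {pos : κ → ℕ}

namespace Ls

variable (h : Ls m n c pos)

include h

theorem last_notMem (hn : 0 < n) : c (n - 1) ∉ ({x | pos x ≠ n - 1} : Set κ) := by
  intro h1
  exact h1 (h.pc (n - 1) (by omega))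

theorem eq_last {x : κ} (hx : ¬ pos x ≠ n - 1) : x = c (n - 1) := by
  rw [← h.cp x, not_not.1 hx]

theorem comm_last {x : κ} (hn : 0 < n) (hx : pos x + 1 ≠ n - 1) :
    gn m (c (n - 1)) * gn m x = gn m x * gn m (c (n - 1)) := by
  by_cases h1 : pos x = n - 1
  · rw [h.eq_last (not_not.2 h1)]
  · have h2 := h.pl x
    conv_lhs => rw [← h.cp x]
    conv_rhs => rw [← h.cp x]
    exact h.comm (by omega) h2 (Or.inr (by omega))

/-- The elements of the stabilizer of a ridge. -/
theorem ridge_mem (hn : 0 < n) {p : m.Group} (hp : p ∈ WT m {x | pos x + 1 ≠ n - 1}) :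
    p ∈ WT m {x | pos x ≠ n - 1} ∨ gn m (c (n - 1)) * p ∈ WT m {x | pos x ≠ n - 1} := by
  obtain ⟨η, h1, rfl⟩ := exists_word hp
  clear hp
  induction η with
  | nil => exact Or.inl (one_mem _)
  | cons s η ih =>
    have hs : pos s + 1 ≠ n - 1 := h1 s List.mem_cons_self
    have h2 := ih fun t ht => h1 t (List.mem_cons_of_mem _ ht)
    rw [wp_cons]
    by_cases h3 : pos s = n - 1
    · rw [h.eq_last (not_not.2 h3), ← mul_assoc, gn_mul_self, one_mul]
      exact h2.symm
    · have h4 : gn m s ∈ WT m {x | pos x ≠ n - 1} := gn_mem h3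
      rcases h2 with h2 | h2
      · exact Or.inl (mul_mem h4 h2)
      · right
        rw [← mul_assoc, h.comm_last hn hs, mul_assoc]
        exact mul_mem h4 h2

/-- The decomposition of the stabilizer of a vertex. -/
theorem decomp {k : ℕ} {p : m.Group} (hp : p ∈ WT m {x | pos x ≠ k}) :
    ∃ b ∈ WT m {x | k < pos x}, ∃ a ∈ WT m {x | pos x < k}, p = b * a := by
  have hcomm : ∀ s, pos s < k → ∀ b ∈ WT m {x | k < pos x}, gn m s * b = b * gn m s := by
    intro s hs b hb
    obtain ⟨η, h1, rfl⟩ := exists_word hb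
    clear hb
    induction η with
    | nil => rw [wp_nil, mul_one, one_mul]
    | cons t η ih =>
      have ht : k < pos t := h1 t List.mem_cons_self
      have h2 : gn m s * gn m t = gn m t * gn m s := by
        have h3 := h.comm (h.pl s) (h.pl t) (Or.inl (by omega))
        rwa [h.cp, h.cp] at h3
      rw [wp_cons, ← mul_assoc, h2, mul_assoc, ih fun u hu => h1 u (List.mem_cons_of_mem _ hu),
        mul_assoc]
  obtain ⟨η, h1, rfl⟩ := exists_word hp
  clear hp
  induction η with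
  | nil => exact ⟨1, one_mem _, 1, one_mem _, by rw [wp_nil, one_mul]⟩
  | cons s η ih =>
    have hs : pos s ≠ k := h1 s List.mem_cons_self
    obtain ⟨b, hb, a, ha, e⟩ := ih fun t ht => h1 t (List.mem_cons_of_mem _ ht)
    rw [wp_cons, e]
    rcases lt_or_gt_of_ne hs with h2 | h2
    · refine ⟨b, hb, gn m s * a, mul_mem (gn_mem h2) ha, ?_⟩
      rw [← mul_assoc, hcomm s h2 b hb, mul_assoc]
    · exact ⟨gn m s * b, mul_mem (gn_mem h2) hb, a, ha, by rw [mul_assoc]⟩

theorem top_sub {z g : m.Group} (hn : 0 < n)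
    (hz : ∀ j < n - 1, g • cz m c j ∈ Ff m c z (n - 1)) :
    g⁻¹ * z ∈ WT m {x | pos x ≠ n - 1} ∨
      gn m (c (n - 1)) * (g⁻¹ * z) ∈ WT m {x | pos x ≠ n - 1} := by
  obtain ⟨w, h3, h4⟩ : ∃ w, g⁻¹ * w ∈ WT m {x | pos x + 1 ≠ n - 1} ∧
      z⁻¹ * w ∈ WT m {x | pos x ≠ n - 1} := by
    by_cases h1 : n = 1
    · refine ⟨z, ?_, by rw [inv_mul_cancel]; exact one_mem _⟩
      have h2 : ({x | pos x + 1 ≠ n - 1} : Set κ) = Set.univ :=
        Set.eq_univ_of_forall fun x => by
          change pos x + 1 ≠ n - 1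
          omega
      rw [h2]
      obtain ⟨η, h3, -⟩ := exists_red (g⁻¹ * z)
      rw [← h3]
      exact wp_mem fun s _ => Set.mem_univ s
    · have h2 : Ff m c g (n - 2) ⊆ Ff m c z (n - 1) := by
        intro x hx
        obtain ⟨j, hj, rfl⟩ := mem_Ff.1 hx
        exact hz j (by omega)
      obtain ⟨-, w, h3, h4⟩ := (h.Ff_sub (by omega) (by omega)).1 h2
      refine ⟨w, WT_mono (fun x hx => ?_) h3, h4⟩
      have hx' : pos x ≠ n - 2 := hx
      change pos x + 1 ≠ n - 1
      omega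
  have h5 := h.ridge_mem hn h3
  have e1 : g⁻¹ * z = g⁻¹ * w * (z⁻¹ * w)⁻¹ := by group
  rw [e1]
  rcases h5 with h5 | h5
  · exact Or.inl (mul_mem h5 (inv_mem h4))
  · right
    rw [← mul_assoc]
    exact mul_mem h5 (inv_mem h4)

/-- A vertex of a facet can be moved to the last place. -/
theorem exists_last (_ : 0 < n) {g : m.Group} {x : X0 m c} (hx : x ∈ Ff m c g (n - 1)) :
    ∃ g', g⁻¹ * g' ∈ WT m {x | pos x ≠ n - 1} ∧ g' • cz m c (n - 1) = x := by
  obtain ⟨i, hi, rfl⟩ := mem_Ff.1 hx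
  obtain ⟨v, hv, e⟩ := h.exists_to hi (by omega)
  refine ⟨g * v⁻¹, ?_, ?_⟩
  · rw [inv_mul_cancel_left]
    exact inv_mem (WT_mono h.lt_ne hv)
  · rw [← e, mul_smul, inv_smul_smul]

theorem Ff_congr {k : ℕ} (hk : k < n) {g g' : m.Group} (hg : g⁻¹ * g' ∈ WT m {x | pos x ≠ k}) :
    Ff m c g' k = Ff m c g k := by
  have h1 := h.Ff_mul hk hg g
  rwa [mul_inv_cancel_left] at h1

theorem mem_erase_last (hn : 0 < n) {g : m.Group} {y : X0 m c} (hy : y ∈ Ff m c g (n - 1))
    (hne : y ≠ g • cz m c (n - 1)) : ∃ j < n - 1, g • cz m c j = y := by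
  obtain ⟨j, hj, rfl⟩ := mem_Ff.1 hy
  refine ⟨j, ?_, rfl⟩
  rcases hj.lt_or_eq with h1 | h1
  · exact h1
  · exact absurd (by rw [h1]) hne

theorem last_smul (hn : 0 < n) {g : m.Group} {j : ℕ} (hj : j < n - 1) :
    (g * gn m (c (n - 1))) • cz m c j = g • cz m c j := by
  rw [mul_smul, h.s_gt (by omega) (by omega)]

theorem last_ne (hn : 0 < n) {g : m.Group} :
    ¬ g⁻¹ * (g * gn m (c (n - 1))) ∈ WT m {x | pos x ≠ n - 1} := by
  rw [inv_mul_cancel_left, gn_mem_iff]
  exact h.last_notMem hn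

/-- The shelling of the facets. -/
theorem exists_shell (hf : Finite m.Group) (hn : 0 < n) [DecidableEq (X0 m c)] :
    ∃ (N : ℕ) (r : Fin N → m.Group), 0 < N ∧ ShS n N (fun i => Ff m c (r i) (n - 1)) ∧
      ∀ g, ∃ i, (r i)⁻¹ * g ∈ WT m {x | pos x ≠ n - 1} := by
  classical
  obtain ⟨Y, hY⟩ : ∃ Y : Set κ, Y = {x | pos x ≠ n - 1} := ⟨_, rfl⟩
  have hsY : c (n - 1) ∉ Y := by
    rw [hY]
    exact h.last_notMem hn
  have hfin : Finite (m.Group ⧸ WT m Y) := inferInstance
  have hft : Fintype (m.Group ⧸ WT m Y) := Fintype.ofFinite _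
  obtain ⟨iQ, hQ⟩ := exists_lex fun q : m.Group ⧸ WT m Y => ln m (mn m Y q.out)
  obtain ⟨e⟩ : Nonempty (Fin (Fintype.card (m.Group ⧸ WT m Y)) ≃o (m.Group ⧸ WT m Y)) :=
    ⟨Fintype.orderIsoFinOfCardEq _ rfl⟩
  obtain ⟨N, hN⟩ : ∃ N, N = Fintype.card (m.Group ⧸ WT m Y) := ⟨_, rfl⟩
  rw [← hN] at e
  obtain ⟨r, hr⟩ : ∃ r : Fin N → m.Group, ∀ i, r i = (e i).out := ⟨_, fun _ => rfl⟩
  have hr1 : ∀ i, ((r i : m.Group) : m.Group ⧸ WT m Y) = e i := by
    intro i
    rw [hr]
    exact Quotient.out_eq' (e i)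
  have hrinj : ∀ i j, (r i)⁻¹ * r j ∈ WT m Y → i = j := by
    intro i j hij
    have h1 := QuotientGroup.eq.2 hij
    rw [hr1, hr1] at h1
    exact e.injective h1
  have hrex : ∀ g, ∃ i, (r i)⁻¹ * g ∈ WT m Y := by
    intro g
    refine ⟨e.symm (g : m.Group ⧸ WT m Y), ?_⟩
    rw [← QuotientGroup.eq, hr1, OrderIso.apply_symm_apply]
  have hmono : ∀ i j, i ≤ j → ln m (mn m Y (r i)) ≤ ln m (mn m Y (r j)) := by
    intro i j hij
    by_contra hcon
    rw [not_le] at hcon
    rw [hr, hr] at hcon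
    have h1 := hQ (e j) (e i) hcon
    have h2 : e j < e i := h1
    rw [e.lt_iff_lt] at h2
    exact absurd hij (not_le.2 h2)
  refine ⟨N, r, ?_, ?_, by rw [← hY]; exact hrex⟩
  · rw [hN]
    exact Fintype.card_pos_iff.2 ⟨((1 : m.Group) : m.Group ⧸ WT m Y)⟩
  have hcong : ∀ g g' : m.Group, g⁻¹ * g' ∈ WT m Y → Ff m c g' (n - 1) = Ff m c g (n - 1) := by
    intro g g' hg
    rw [hY] at hg
    exact h.Ff_congr (by omega) hg
  refine ⟨fun i => ?_, fun i j hij => ?_, fun i x hx => ?_, fun i j hij => ?_⟩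
  · change (Ff m c (r i) (n - 1)).card = n
    rw [h.Ff_card (by omega)]
    omega
  · apply hrinj
    rw [hY]
    exact (h.Ff_eq (by omega) (by omega) hij).2
  · change x ∈ Ff m c (r i) (n - 1) at hx
    obtain ⟨g', hg', hgx⟩ := h.exists_last hn hx
    rw [← hY] at hg'
    obtain ⟨k, hk⟩ := hrex (g' * gn m (c (n - 1)))
    have hki : k ≠ i := by
      rintro rfl
      refine h.last_ne hn (g := g') ?_
      rw [← hY]
      have h1 := mul_mem (inv_mem hg') hk
      rw [mul_inv_rev, inv_inv, mul_assoc, mul_inv_cancel_left] at h1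
      exact h1
    have hsub : (Ff m c (r i) (n - 1)).erase x ⊆ Ff m c (r k) (n - 1) := by
      intro y hy
      rw [mem_erase, ← hcong _ _ hg'] at hy
      obtain ⟨j, hj, rfl⟩ := h.mem_erase_last hn hy.2 (by rw [hgx]; exact hy.1)
      rw [← hcong _ _ hk, mem_Ff]
      exact ⟨j, by omega, h.last_smul hn hj⟩
    refine ⟨k, ⟨hki, hsub⟩, fun k' hk' => ?_⟩
    have h1 := h.top_sub (z := r k') (g := g') hn (by
      intro j hj
      apply hk'.2
      change g' • cz m c j ∈ (Ff m c (r i) (n - 1)).erase x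
      rw [mem_erase, ← hcong _ _ hg', ← hgx]
      refine ⟨fun e1 => ?_, mem_Ff.2 ⟨j, by omega, rfl⟩⟩
      have h2 := h.cz_inj (by omega) (by omega) (MulAction.injective g' e1)
      omega)
    rw [← hY] at h1
    rcases h1 with h1 | h1
    · exfalso
      apply hk'.1
      symm
      apply hrinj
      have h2 := mul_mem hg' h1
      rwa [mul_assoc, mul_inv_cancel_left] at h2
    · symm
      apply hrinj
      have h2 := mul_mem hk h1
      have e1 : (r k)⁻¹ * (g' * gn m (c (n - 1))) * (gn m (c (n - 1)) * (g'⁻¹ * r k')) =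
          (r k)⁻¹ * r k' := by
        calc (r k)⁻¹ * (g' * gn m (c (n - 1))) * (gn m (c (n - 1)) * (g'⁻¹ * r k'))
            = (r k)⁻¹ * g' * (gn m (c (n - 1)) * gn m (c (n - 1))) * g'⁻¹ * r k' := by group
          _ = _ := by
              rw [gn_mul_self]
              group
      rwa [e1] at h2
  · obtain ⟨B, q, h1, h2, ⟨b, hb, h3⟩, h4⟩ : ∃ (B : Set κ) (q : m.Group), (r j)⁻¹ * q ∈ WT m Y ∧
        c (n - 1) ∈ B ∧ (∃ b ∈ WT m B, (r i)⁻¹ * (q * b) ∈ WT m Y) ∧ ∀ b ∈ WT m B,
          Ff m c (r i) (n - 1) ∩ Ff m c (r j) (n - 1) ⊆ Ff m c (q * b) (n - 1) := by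
      rcases (Ff m c (r i) (n - 1) ∩ Ff m c (r j) (n - 1)).eq_empty_or_nonempty with h5 | h5
      · refine ⟨Set.univ, r j, ?_, Set.mem_univ _, ⟨(r j)⁻¹ * r i, ?_, ?_⟩, fun b _ => ?_⟩
        · rw [inv_mul_cancel]
          exact one_mem _
        · obtain ⟨η, h6, -⟩ := exists_red ((r j)⁻¹ * r i)
          rw [← h6]
          exact wp_mem fun s _ => Set.mem_univ s
        · rw [mul_inv_cancel_left, inv_mul_cancel]
          exact one_mem _
        · rw [h5]
          exact empty_subset _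
      · obtain ⟨k, hk, v, hv, e1⟩ := h.exists_sub (l := n - 1) (by omega) inter_subset_right h5
        have hvY : v ∈ WT m Y := by
          rw [hY]
          exact WT_mono h.lt_ne hv
        have h6 : Ff m c (r j * v) k ⊆ Ff m c (r i) (n - 1) := by
          rw [← e1]
          exact inter_subset_left
        obtain ⟨-, z, h7, h8⟩ := (h.Ff_sub (by omega) (by omega)).1 h6
        rw [← hY] at h8
        have hk1 : k < n - 1 := by
          rcases hk.lt_or_eq with h9 | h9
          · exact h9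
          · exfalso
            rw [h9, ← hY] at h7
            refine absurd (hrinj i j ?_) hij.ne
            have h10 := mul_mem h8 (inv_mem (mul_mem hvY h7))
            have e3 : (r i)⁻¹ * z * (v * ((r j * v)⁻¹ * z))⁻¹ = (r i)⁻¹ * r j := by group
            rwa [e3] at h10
        obtain ⟨b, hb, a, ha, e2⟩ := h.decomp h7
        refine ⟨{x | k < pos x}, r j * v, ?_, ?_, ⟨b, hb, ?_⟩, fun b' hb' => ?_⟩
        · rw [inv_mul_cancel_left]
          exact hvY
        · change k < pos (c (n - 1))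
          rw [h.pc _ (by omega)]
          exact hk1
        · have haY : a ∈ WT m Y := by
            rw [hY]
            exact WT_mono (fun x hx => ne_of_lt (lt_trans (show pos x < k from hx) hk1)) ha
          have h10 := mul_mem h8 (inv_mem haY)
          have e3 : (r i)⁻¹ * z * a⁻¹ = (r i)⁻¹ * (r j * v * b) := by
            have e4 : z = r j * v * (b * a) := by rw [← e2, mul_inv_cancel_left]
            rw [e4]
            group
          rwa [e3] at h10
        · rw [e1, ← h.Ff_mul (k := k) (by omega) (WT_mono h.gt_ne hb') (r j * v)]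
          exact Ff_mono (by omega)
    obtain ⟨q', hq'⟩ : ∃ q', q' = mn m (B ∩ Y) q := ⟨_, rfl⟩
    have h5 : q⁻¹ * q' ∈ WT m (B ∩ Y) := by
      rw [hq']
      exact mn_mem _ q
    have h5B : q⁻¹ * q' ∈ WT m B := WT_mono Set.inter_subset_left h5
    have h5Y : q⁻¹ * q' ∈ WT m Y := WT_mono Set.inter_subset_right h5
    have h6 : (r j)⁻¹ * q' ∈ WT m Y := by
      have h7 := mul_mem h1 h5Y
      rwa [mul_assoc, mul_inv_cancel_left] at h7
    by_cases h7 : ∀ t ∈ B, ln m q' < ln m (q' * gn m t)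
    · exfalso
      have h8 : mn m B q' = q' := mn_self h7
      have h9 : ∀ y ∈ WT m B, ln m (q' * y) = ln m q' + ln m y := by
        intro y hy
        rw [← h8]
        exact mn_add _ hy
      have h10 : (q'⁻¹ * (q * b)) ∈ WT m B := by
        have h11 := mul_mem (inv_mem h5B) hb
        have e1 : (q⁻¹ * q')⁻¹ * b = q'⁻¹ * (q * b) := by group
        rwa [e1] at h11
      have h12 := mn_path' (Y := Y) h9 h10 (by
        rw [mul_inv_cancel_left, ← mn_congr h3, ← mn_congr h6]
        exact hmono i j hij.le)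
      refine absurd (hrinj i j ?_) hij.ne
      have h13 := mul_mem h3 (inv_mem (mul_mem h6 h12))
      have e1 : (r i)⁻¹ * (q * b) * ((r j)⁻¹ * q' * (q'⁻¹ * (q * b)))⁻¹ = (r i)⁻¹ * r j := by group
      rwa [e1] at h13
    · push Not at h7
      obtain ⟨t, htB, ht⟩ := h7
      have htY : t ∉ Y := by
        intro htY
        have h8 := mn_out (M := m) (Y := B ∩ Y) q ⟨htB, htY⟩
        rw [← hq'] at h8
        omega
      have htc : t = c (n - 1) := by
        refine h.eq_last ?_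
        rw [hY] at htY
        exact htY
      rw [htc] at ht
      obtain ⟨k, hk⟩ := hrex (q' * gn m (c (n - 1)))
      refine ⟨k, ?_, q' • cz m c (n - 1), ?_, ?_, ?_⟩
      · by_contra hcon
        rw [not_lt] at hcon
        have h8 := hmono j k hcon
        rw [mn_congr hk, mn_congr h6] at h8
        have h9 := mn_up (M := m) (Y := Y) (x := q' * gn m (c (n - 1))) (s := c (n - 1)) hsY (by
          rw [mul_assoc, gn_mul_self, mul_one]
          rcases ln_mul_gn q' (c (n - 1)) with h9 | h9 <;> omega)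
        rw [mul_assoc, gn_mul_self, mul_one] at h9
        omega
      · rw [← hcong _ _ h6]
        exact mem_Ff.2 ⟨n - 1, le_rfl, rfl⟩
      · intro y hy
        change y ∈ (Ff m c (r j) (n - 1)).erase (q' • cz m c (n - 1)) at hy
        rw [mem_erase, ← hcong _ _ h6] at hy
        obtain ⟨i', hi', rfl⟩ := h.mem_erase_last hn hy.2 hy.1
        change q' • cz m c i' ∈ Ff m c (r k) (n - 1)
        rw [← hcong _ _ hk, mem_Ff]
        exact ⟨i', by omega, h.last_smul hn hi'⟩
      · change Ff m c (r i) (n - 1) ∩ Ff m c (r j) (n - 1) ⊆ Ff m c (r k) (n - 1)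
        rw [← hcong _ _ hk]
        have h8 := h4 (q⁻¹ * (q' * gn m (c (n - 1)))) (by
          rw [← mul_assoc]
          exact mul_mem h5B (gn_mem h2))
        rwa [mul_inv_cancel_left] at h8

theorem compl_eq (i : κ) : ({i}ᶜ : Set κ) = {x | pos x ≠ pos i} := by
  ext x
  constructor
  · intro hx e
    apply hx
    change x = i
    rw [← h.cp x, ← h.cp i, e]
  · intro hx e
    exact hx (congrArg pos e)

/-- The vanishing for the Coxeter complex of a finite group with linear diagram of odd rank. -/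
theorem nohom [Finite κ] (hf : Finite m.Group) (ho : Odd n) :
    ∃ (_ : Fintype (Vx m)) (_ : LinearOrder (Vx m)), NoHom (Xm m) := by
  classical
  have hn : 0 < n := ho.pos
  have i1 : Fintype (Vx m) := Fintype.ofFinite _
  obtain ⟨i2, -⟩ := exists_order (Vx m) fun _ => True
  refine ⟨i1, i2, ?_⟩
  obtain ⟨N, r, hN, hsh, hr⟩ := h.exists_shell hf hn
  obtain ⟨φ, hφ⟩ : ∃ φ : Vx m → Finset (X0 m c), ∀ i g, φ (vx m i g) = Ff m c g (pos i) := by
    refine ⟨fun v => Ff m c (Classical.choose (vx_surj v)) (pos v.1), fun i g => ?_⟩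
    have h1 := Classical.choose_spec (vx_surj (vx m i g))
    change Ff m c (Classical.choose (vx_surj (vx m i g))) (pos i) = _
    have h2 := vx_eq.1 h1
    rw [h.compl_eq] at h2
    exact h.Ff_congr (h.pl i) h2
  have hφ' : ∀ v : Vx m, ∃ g, v = vx m v.1 g ∧ φ v = Ff m c g (pos v.1) := by
    intro v
    obtain ⟨g, hg⟩ := vx_surj v
    refine ⟨g, hg, ?_⟩
    rw [← hφ, ← hg]
  refine shell_nohom hsh ho hN (Xm m) φ ?_ ?_ ?_ ?_
  · intro u v huv
    obtain ⟨g, hg, h1⟩ := hφ' u
    obtain ⟨g', hg', h2⟩ := hφ' v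
    rw [h1, h2] at huv
    obtain ⟨h3, h4⟩ := h.Ff_eq (h.pl _) (h.pl _) huv
    have h5 : u.1 = v.1 := by rw [← h.cp u.1, h3, h.cp]
    rw [hg, hg', ← h5, vx_eq, h.compl_eq]
    exact h4
  · intro τ
    constructor
    · rintro ⟨v, rfl⟩
      obtain ⟨g, -, h1⟩ := hφ' v
      rw [h1]
      constructor
      · rw [← card_pos, h.Ff_card (h.pl _)]
        omega
      · obtain ⟨i, hi⟩ := hr g
        refine ⟨i, ?_⟩
        change Ff m c g (pos v.1) ⊆ Ff m c (r i) (n - 1)
        rw [← h.Ff_congr (by omega) hi]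
        exact Ff_mono (by
          have := h.pl v.1
          omega)
    · rintro ⟨hne, i, hi⟩
      obtain ⟨k, hk, v, hv, e⟩ := h.exists_sub (l := n - 1) (by omega) hi hne
      refine ⟨vx m (c k) (r i * v), ?_⟩
      rw [hφ, h.pc k (by omega), e]
  · intro x y hxy h1 h2
    by_contra h0
    obtain ⟨h3, g, hx, hy⟩ := xm_ne hxy h0
    have h4 : pos x.1 ≠ pos y.1 := by
      intro e
      apply h3
      rw [← h.cp x.1, e, h.cp]
    rw [hx, hy, hφ, hφ] at h1 h2
    have key : ∀ i j : κ, pos i < pos j → Ff m c g (pos i) ⊂ Ff m c g (pos j) := by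
      intro i j hij
      refine ⟨Ff_mono hij.le, fun h5 => ?_⟩
      have h6 := card_le_card h5
      rw [h.Ff_card (h.pl _), h.Ff_card (h.pl _)] at h6
      omega
    rcases lt_or_gt_of_ne h4 with h5 | h5
    · exact h1 (key _ _ h5)
    · exact h2 (key _ _ h5)
  · intro x y hxy _
    obtain ⟨g, hg, h1⟩ := hφ' x
    obtain ⟨g', hg', h2⟩ := hφ' y
    rw [h1, h2] at hxy
    obtain ⟨h3, z, h4, h5⟩ := (h.Ff_sub (h.pl _) (h.pl _)).1 hxy.1
    have h6 : x.1 ≠ y.1 := by
      intro e
      apply hxy.2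
      rw [e] at h4 ⊢
      refine (h.Ff_sub (h.pl _) (h.pl _)).2 ⟨le_rfl, z, h5, h4⟩
    have e1 : x = vx m x.1 z := by
      conv_lhs => rw [hg]
      rw [vx_eq, h.compl_eq]
      exact h4
    have e2 : y = vx m y.1 z := by
      conv_lhs => rw [hg']
      rw [vx_eq, h.compl_eq]
      exact h5
    rw [e1, e2]
    exact xm_two h6 z

end Ls

end LBL
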