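import Pool.Agent.LBL.Cla
import Pool.Agent.LBL.Linc

/-!
# Project LBL (architect helper40), module Clb: linear diagrams of finite Coxeter groups
-/

namespace LBL

open SCG Finset

variable {κ : Type} [Fintype κ] {m : CoxeterMatrix κ}

/-- A numbering of the nodes of a linear diagram. -/
structure Nu (m : CoxeterMatrix κ) (n : ℕ) (f : ℕ → κ) (pos : κ → ℕ) : Prop where
  cp : ∀ x, f (pos x) = x
  pl : ∀ x, pos x < n
  pc : ∀ j < n, pos (f j) = j
  adj : ∀ i j, i < n → j < n → (Aj m (f i) (f j) ↔ i + 1 = j ∨ j + 1 = i)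

theorem Nu.inj {n : ℕ} {f : ℕ → κ} {pos : κ → ℕ} (h : Nu m n f pos) {i j : ℕ} (hi : i < n)
    (hj : j < n) (e : f i = f j) : i = j := by
  rw [← h.pc i hi, ← h.pc j hj, e]

/-- The null vector test for linear diagrams. -/
theorem Nu.null {n : ℕ} {f : ℕ → κ} {pos : κ → ℕ} (h : Nu m n f pos) (hf : Finite m.Group)
    {a w : ℕ → ℝ} (ha : ∀ i, i + 1 < n → kk m (f i) (f (i + 1)) ≤ -a i) (hw : ∀ i, 0 ≤ w i)
    (hne : ∃ i < n, 0 < w i)
    (hr : ∀ i < n, 0 < w i → 2 * w i ≤ (if 0 < i then a (i - 1) * w (i - 1) else 0) +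
      (if i + 1 < n then a i * w (i + 1) else 0)) : False := by
  classical
  refine no_null hf (x := fun v => w (pos v)) (fun s => hw _) ?_ ?_
  · obtain ⟨i, hi, h1⟩ := hne
    exact ⟨f i, by rw [h.pc i hi]; exact h1⟩
  · intro s hs
    obtain ⟨i, hi⟩ : ∃ i, i = pos s := ⟨_, rfl⟩
    have hin : i < n := by
      rw [hi]
      exact h.pl s
    have hsi : s = f i := by rw [hi, h.cp]
    have h1 := hr i hin (by rw [hi]; exact hs)
    have hL : ∀ j, j < n → w (pos (f j)) = w j := fun j hj => by rw [h.pc j hj]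
    have hne' : ∀ j, j < n → j ≠ i → f i ≠ f j := fun j hj hji e => hji (h.inj hin hj e).symm
    by_cases h2 : 0 < i
    · have hk1 : kk m (f i) (f (i - 1)) ≤ -a (i - 1) := by
        rw [kk_symm]
        have := ha (i - 1) (by omega)
        rwa [show i - 1 + 1 = i by omega] at this
      have hm1 := mul_le_mul_of_nonneg_right hk1 (hw (i - 1))
      rw [if_pos h2] at h1
      by_cases h3 : i + 1 < n
      · have hm2 := mul_le_mul_of_nonneg_right (ha i h3) (hw (i + 1))
        rw [if_pos h3] at h1
        have h4 := row_le (m := m) (x := fun v => w (pos v)) (fun s => hw _) (s := s)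
          (N := {f (i - 1), f (i + 1)}) (by
            rw [hsi, mem_insert, mem_singleton, not_or]
            exact ⟨hne' _ (by omega) (by omega), hne' _ (by omega) (by omega)⟩)
        rw [sum_pair (fun e => by
          have := h.inj (by omega) (by omega) e
          omega), hL _ (by omega), hL _ h3, ← hi, hsi] at h4
        rw [hsi]
        linarith
      · rw [if_neg h3] at h1
        have h4 := row_le (m := m) (x := fun v => w (pos v)) (fun s => hw _) (s := s)
          (N := {f (i - 1)}) (by
            rw [hsi, mem_singleton]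
            exact hne' _ (by omega) (by omega))
        rw [sum_singleton, hL _ (by omega), ← hi, hsi] at h4
        rw [hsi]
        linarith
    · rw [if_neg h2] at h1
      by_cases h3 : i + 1 < n
      · have hm2 := mul_le_mul_of_nonneg_right (ha i h3) (hw (i + 1))
        rw [if_pos h3] at h1
        have h4 := row_le (m := m) (x := fun v => w (pos v)) (fun s => hw _) (s := s)
          (N := {f (i + 1)}) (by
            rw [hsi, mem_singleton]
            exact hne' _ (by omega) (by omega))
        rw [sum_singleton, hL _ h3, ← hi, hsi] at h4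
        rw [hsi]
        linarith
      · rw [if_neg h3] at h1
        have h4 : 0 < w i := by
          rw [hi]
          exact hs
        linarith

/-- two bigger labels -/
theorem Nu.no_two {n : ℕ} {f : ℕ → κ} {pos : κ → ℕ} (h : Nu m n f pos) (hf : Finite m.Group)
    {i j : ℕ} (hij : i < j) (hj : j + 1 < n) (h3i : m (f i) (f (i + 1)) ≠ 3)
    (h3j : m (f j) (f (j + 1)) ≠ 3) : False := by
  have hsq : √2 * √2 = 2 := Real.mul_self_sqrt (by norm_num)
  have hsp : 0 < √2 := Real.sqrt_pos.2 (by norm_num)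
  refine h.null hf (a := fun k => if k = i ∨ k = j then √2 else 1)
    (w := fun k => if k = i ∨ k = j + 1 then 1 else if i < k ∧ k < j + 1 then √2 else 0)
    ?_ ?_ ⟨i, by omega, ?_⟩ ?_
  · intro k hk
    have hadj : Aj m (f k) (f (k + 1)) := (h.adj k (k + 1) (by omega) hk).2 (Or.inl rfl)
    change kk m (f k) (f (k + 1)) ≤ -(if k = i ∨ k = j then √2 else 1)
    split_ifs with h1
    · rcases h1 with rfl | rfl
      · exact kk_sqrt hadj h3i
      · exact kk_sqrt hadj h3j
    · exact kk_one hadj
  · intro k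
    split_ifs <;> positivity
  · rw [if_pos (Or.inl rfl)]
    exact one_pos
  · intro k hk hpos
    by_cases h1 : k = i
    · subst h1
      rw [if_pos (Or.inl rfl), if_pos (show k + 1 < n by omega), if_neg (show ¬ (k + 1 = k ∨ k + 1 = j + 1) by omega),
        if_pos (show k < k + 1 ∧ k + 1 < j + 1 by omega), if_pos (Or.inl rfl), hsq]
      split_ifs <;> linarith
    · by_cases h2 : k = j + 1
      · subst h2
        rw [if_pos (Or.inr rfl), if_pos (show 0 < j + 1 by omega), Nat.add_sub_cancel,
          if_pos (Or.inr rfl), if_neg (show ¬ (j = i ∨ j = j + 1) by omega),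
          if_pos (show i < j ∧ j < j + 1 by omega), hsq]
        have h3 : 0 ≤ (if j + 1 + 1 < n then (if j + 1 = i ∨ j + 1 = j then √2 else 1) *
            (if j + 1 + 1 = i ∨ j + 1 + 1 = j + 1 then 1 else
              if i < j + 1 + 1 ∧ j + 1 + 1 < j + 1 then √2 else 0) else 0) := by
          split_ifs <;> positivity
        linarith
      · by_cases h3 : i < k ∧ k < j + 1
        · rw [if_neg (show ¬ (k = i ∨ k = j + 1) by omega), if_pos h3, if_pos (show 0 < k by omega),
            if_pos (show k + 1 < n by omega)]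
          have e1 : (if k - 1 = i ∨ k - 1 = j then √2 else 1) *
              (if k - 1 = i ∨ k - 1 = j + 1 then (1 : ℝ) else
                if i < k - 1 ∧ k - 1 < j + 1 then √2 else 0) = √2 := by
            by_cases h4 : k - 1 = i
            · rw [if_pos (Or.inl h4), if_pos (Or.inl h4), mul_one]
            · rw [if_neg (show ¬ (k - 1 = i ∨ k - 1 = j) by omega),
                if_neg (show ¬ (k - 1 = i ∨ k - 1 = j + 1) by omega),
                if_pos (show i < k - 1 ∧ k - 1 < j + 1 by omega), one_mul]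
          have e2 : (if k = i ∨ k = j then √2 else 1) *
              (if k + 1 = i ∨ k + 1 = j + 1 then (1 : ℝ) else
                if i < k + 1 ∧ k + 1 < j + 1 then √2 else 0) = √2 := by
            by_cases h4 : k = j
            · rw [if_pos (Or.inr h4), if_pos (Or.inr (by omega)), mul_one]
            · rw [if_neg (show ¬ (k = i ∨ k = j) by omega),
                if_neg (show ¬ (k + 1 = i ∨ k + 1 = j + 1) by omega),
                if_pos (show i < k + 1 ∧ k + 1 < j + 1 by omega), one_mul]
          rw [e1, e2]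
          linarith
        · rw [if_neg (show ¬ (k = i ∨ k = j + 1) by omega), if_neg h3] at hpos
          exact absurd hpos (lt_irrefl _)

theorem Nu.win {n : ℕ} {f : ℕ → κ} {pos : κ → ℕ} (h : Nu m n f pos) (hf : Finite m.Group)
    {b L : ℕ} (hb : b + L < n) {v a : ℕ → ℝ} (hv : ∀ j, 0 ≤ v j) (hv0 : 0 < v 0)
    (hL : ∀ j, L < j → v j = 0) (ha : ∀ j < L, kk m (f (b + j)) (f (b + j + 1)) ≤ -a j)
    (hr : ∀ j ≤ L, 2 * v j ≤ (if 0 < j then a (j - 1) * v (j - 1) else 0) +
      (if j < L then a j * v (j + 1) else 0)) : False := by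
  obtain ⟨w, hw⟩ : ∃ w : ℕ → ℝ, ∀ k, w k = if k < b then 0 else v (k - b) := ⟨_, fun _ => rfl⟩
  obtain ⟨c, hc⟩ : ∃ c : ℕ → ℝ, ∀ k, c k = if b ≤ k ∧ k < b + L then a (k - b) else 0 :=
    ⟨_, fun _ => rfl⟩
  have hwj : ∀ j, w (b + j) = v j := by
    intro j
    rw [hw, if_neg (by omega), Nat.add_sub_cancel_left]
  have hcj : ∀ j < L, c (b + j) = a j := by
    intro j hj
    rw [hc, if_pos (by omega), Nat.add_sub_cancel_left]
  have hc0 : ∀ k, ¬ (b ≤ k ∧ k < b + L) → c k = 0 := fun k hk => by rw [hc, if_neg hk]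
  refine h.null hf (a := c) (w := w) ?_ ?_ ⟨b, by omega, ?_⟩ ?_
  · intro k hk
    by_cases h1 : b ≤ k ∧ k < b + L
    · obtain ⟨j, rfl⟩ : ∃ j, k = b + j := ⟨k - b, by omega⟩
      rw [hcj j (by omega)]
      exact ha j (by omega)
    · rw [hc0 k h1, neg_zero]
      refine kk_nonpos fun e => ?_
      have := h.inj (by omega) hk e
      omega
  · intro k
    rw [hw]
    split_ifs
    · exact le_rfl
    · exact hv _
  · have := hwj 0
    rw [Nat.add_zero] at this
    rw [this]
    exact hv0
  · intro k hk hpos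
    have hbk : b ≤ k := by
      by_contra h1
      rw [hw, if_pos (by omega)] at hpos
      exact lt_irrefl _ hpos
    obtain ⟨j, rfl⟩ : ∃ j, k = b + j := ⟨k - b, by omega⟩
    rw [hwj] at hpos ⊢
    have hjL : j ≤ L := by
      by_contra h1
      rw [hL j (by omega)] at hpos
      exact lt_irrefl _ hpos
    refine (hr j hjL).trans (add_le_add ?_ ?_)
    · by_cases h1 : 0 < j
      · rw [if_pos h1, if_pos (by omega)]
        have e1 : b + j - 1 = b + (j - 1) := by omega
        rw [e1, hwj, hcj _ (by omega)]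
      · rw [if_neg h1]
        split_ifs with h2
        · rw [hc0 _ (by omega), zero_mul]
        · exact le_rfl
    · by_cases h1 : j < L
      · rw [if_pos h1, if_pos (by omega), add_assoc, hwj, hcj _ h1]
      · rw [if_neg h1]
        split_ifs with h2
        · rw [hc0 _ (by omega), zero_mul]
        · exact le_rfl

/-- a bigger label in the middle -/
theorem Nu.no_mid {n : ℕ} {f : ℕ → κ} {pos : κ → ℕ} (h : Nu m n f pos) (hf : Finite m.Group)
    {i : ℕ} (hi : 0 < i) (hi2 : i + 2 < n) (hn : n ≠ 4) (h3 : m (f i) (f (i + 1)) ≠ 3) : False := by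
  have hsq : √2 * √2 = 2 := Real.mul_self_sqrt (by norm_num)
  have hsp : 0 < √2 := Real.sqrt_pos.2 (by norm_num)
  have hadj : ∀ k, k + 1 < n → Aj m (f k) (f (k + 1)) := fun k hk =>
    (h.adj k (k + 1) (by omega) hk).2 (Or.inl rfl)
  by_cases h1 : i + 3 < n
  · obtain ⟨b, rfl⟩ : ∃ b, i = b + 1 := ⟨i - 1, by omega⟩
    refine h.win hf (b := b) (L := 4) (by omega)
      (v := fun j => if j = 0 then 2 else if j = 1 then 4 else if j = 2 then 3 * √2 else
        if j = 3 then 2 * √2 else if j = 4 then √2 else 0)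
      (a := fun j => if j = 1 then √2 else 1) ?_ ?_ ?_ ?_ ?_
    · intro j
      split_ifs <;> positivity
    · norm_num
    · intro j hj
      rw [if_neg (by omega), if_neg (by omega), if_neg (by omega), if_neg (by omega),
        if_neg (by omega)]
    · intro j hj
      by_cases h2 : j = 1
      · subst h2
        rw [if_pos rfl]
        exact kk_sqrt (hadj (b + 1) (by omega)) h3
      · rw [if_neg h2]
        exact kk_one (hadj (b + j) (by omega))
    · intro j hj
      interval_cases j <;> norm_num <;> nlinarith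
  · obtain ⟨b, rfl⟩ : ∃ b, i = b + 2 := ⟨i - 2, by omega⟩
    refine h.win hf (b := b) (L := 4) (by omega)
      (v := fun j => if j = 0 then √2 else if j = 1 then 2 * √2 else if j = 2 then 3 * √2 else
        if j = 3 then 4 else if j = 4 then 2 else 0)
      (a := fun j => if j = 2 then √2 else 1) ?_ ?_ ?_ ?_ ?_
    · intro j
      split_ifs <;> positivity
    · rw [if_pos rfl]
      exact hsp
    · intro j hj
      rw [if_neg (by omega), if_neg (by omega), if_neg (by omega), if_neg (by omega),
        if_neg (by omega)]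
    · intro j hj
      by_cases h2 : j = 2
      · subst h2
        rw [if_pos rfl]
        exact kk_sqrt (hadj (b + 2) (by omega)) h3
      · rw [if_neg h2]
        exact kk_one (hadj (b + j) (by omega))
    · intro j hj
      interval_cases j <;> norm_num <;> nlinarith

theorem Nu.rev {n : ℕ} {f : ℕ → κ} {pos : κ → ℕ} (h : Nu m n f pos) :
    Nu m n (fun i => f (n - 1 - i)) fun x => n - 1 - pos x := by
  refine ⟨fun x => ?_, fun x => ?_, fun j hj => ?_, fun i j hi hj => ?_⟩
  · have h1 := h.pl x
    change f (n - 1 - (n - 1 - pos x)) = x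
    rw [show n - 1 - (n - 1 - pos x) = pos x by omega, h.cp]
  · have h1 := h.pl x
    change n - 1 - pos x < n
    omega
  · change n - 1 - pos (f (n - 1 - j)) = j
    rw [h.pc _ (by omega)]
    omega
  · change Aj m (f (n - 1 - i)) (f (n - 1 - j)) ↔ _
    rw [h.adj _ _ (by omega) (by omega)]
    omega

theorem Nu.ls {n : ℕ} {f : ℕ → κ} {pos : κ → ℕ} (h : Nu m n f pos)
    (h3 : ∀ i, i + 2 < n → m (f i) (f (i + 1)) = 3) : Ls m n f pos := by
  refine ⟨h.cp, h.pl, h.pc, fun i j hij hj => ?_, h3, fun i hi => ?_⟩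
  · by_contra h1
    have h2 := (h.adj i j (by omega) hj).1 ⟨fun e => by
      have := h.inj (by omega) hj e
      omega, h1⟩
    omega
  · exact ((h.adj i (i + 1) (by omega) hi).2 (Or.inl rfl)).2

/-- Finite Coxeter groups with linear diagram of odd rank. -/
theorem Nu.exists_ls {n : ℕ} {f : ℕ → κ} {pos : κ → ℕ} (h : Nu m n f pos) (hf : Finite m.Group)
    (hn : n ≠ 4) : ∃ (c : ℕ → κ) (p : κ → ℕ), Ls m n c p := by
  by_cases h1 : ∀ i, i + 2 < n → m (f i) (f (i + 1)) = 3
  · exact ⟨f, pos, h.ls h1⟩
  · push Not at h1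
    obtain ⟨i, hi, h3⟩ := h1
    have hi0 : i = 0 := by
      by_contra h2
      exact h.no_mid hf (by omega) hi hn h3
    subst hi0
    refine ⟨_, _, h.rev.ls fun j hj => ?_⟩
    change m (f (n - 1 - j)) (f (n - 1 - (j + 1))) = 3
    by_contra h2
    refine h.no_two hf (i := 0) (j := n - 1 - (j + 1)) (by omega) (by omega) h3 ?_
    rw [show n - 1 - (j + 1) + 1 = n - 1 - j by omega, m.symmetric]
    exact h2

/-- Connected diagrams without branches. -/
theorem exists_nu {v0 : κ} (hv0 : ∀ t t', Aj m v0 t → Aj m v0 t' → t = t')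
    (hdeg : ∀ b x y z, Aj m b x → Aj m b y → Aj m b z → x = y ∨ y = z ∨ x = z)
    (hcon : ∀ A : Finset κ, A.Nonempty → A ≠ univ → ∃ a ∈ A, ∃ b, b ∉ A ∧ Aj m a b) :
    ∃ (f : ℕ → κ) (pos : κ → ℕ), f 0 = v0 ∧ Nu m (Fintype.card κ) f pos := by
  obtain ⟨f, h0, h1, h2, h3⟩ := exists_path (fun a b h => h.symm) (fun a h => h.1 rfl) hv0 hdeg hcon
  choose pos hpl hpc using h2
  exact ⟨f, pos, h0, hpc, hpl, fun j hj => h1 _ (hpl _) _ hj (hpc _), h3⟩

end LBL
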