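import Pool.Agent.SCG.Exch
import Pool.Agent.SCG.Geo

/-!
# Project LBL (architect helper40), module Cos: minimal coset representatives in Coxeter groups

`ln M g`: the length; `mn M Y g`: the element of minimal length in the coset `g W_Y`;
`helly`: pairwise intersecting cosets of special subgroups have a common element.
-/

namespace LBL

open SCG

variable {V : Type} {M : CoxeterMatrix V}

/-- the length -/
noncomputable def ln (M : CoxeterMatrix V) (g : M.Group) : ℕ := M.toCoxeterSystem.length g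

/-- the product of a word -/
noncomputable def wp (M : CoxeterMatrix V) (η : List V) : M.Group := M.toCoxeterSystem.wordProd η

theorem wp_nil : wp M [] = 1 := M.toCoxeterSystem.wordProd_nil

theorem wp_cons (s : V) (η : List V) : wp M (s :: η) = gn M s * wp M η :=
  M.toCoxeterSystem.wordProd_cons s η

theorem wp_append (η η' : List V) : wp M (η ++ η') = wp M η * wp M η' :=
  M.toCoxeterSystem.wordProd_append η η'

theorem ln_wp_le (η : List V) : ln M (wp M η) ≤ η.length :=
  M.toCoxeterSystem.length_wordProd_le η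

theorem ln_one : ln M 1 = 0 := M.toCoxeterSystem.length_one

theorem ln_inv (g : M.Group) : ln M g⁻¹ = ln M g := M.toCoxeterSystem.length_inv g

theorem ln_eq_zero {g : M.Group} : ln M g = 0 ↔ g = 1 := M.toCoxeterSystem.length_eq_zero_iff

theorem ln_gn (s : V) : ln M (gn M s) = 1 := M.toCoxeterSystem.length_simple s

theorem ln_mul_le (g h : M.Group) : ln M (g * h) ≤ ln M g + ln M h :=
  M.toCoxeterSystem.length_mul_le g h

theorem ln_mul_gn (g : M.Group) (s : V) :
    ln M (g * gn M s) = ln M g + 1 ∨ ln M (g * gn M s) + 1 = ln M g :=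
  M.toCoxeterSystem.length_mul_simple g s

theorem ln_gn_mul (g : M.Group) (s : V) :
    ln M (gn M s * g) = ln M g + 1 ∨ ln M (gn M s * g) + 1 = ln M g :=
  M.toCoxeterSystem.length_simple_mul g s

theorem exists_red (g : M.Group) : ∃ η : List V, wp M η = g ∧ η.length = ln M g := by
  obtain ⟨ω, h1, h2⟩ := M.toCoxeterSystem.exists_isReduced g
  refine ⟨ω, h2.symm, ?_⟩
  rw [h2]
  exact h1.symm

theorem gn_mem {Y : Set V} {s : V} (h : s ∈ Y) : gn M s ∈ WT M Y :=
  Subgroup.subset_closure ⟨s, h, rfl⟩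

theorem WT_mono {Y Y' : Set V} (h : Y ⊆ Y') : WT M Y ≤ WT M Y' :=
  Subgroup.closure_mono (Set.image_mono h)

theorem wp_mem {Y : Set V} {η : List V} (h : ∀ s ∈ η, s ∈ Y) : wp M η ∈ WT M Y := by
  induction η with
  | nil =>
    rw [wp_nil]
    exact one_mem _
  | cons s η ih =>
    rw [wp_cons]
    exact mul_mem (gn_mem (h s List.mem_cons_self)) (ih fun t ht => h t (List.mem_cons_of_mem _ ht))

theorem exists_word {Y : Set V} {g : M.Group} (h : g ∈ WT M Y) :
    ∃ η : List V, (∀ s ∈ η, s ∈ Y) ∧ wp M η = g := by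
  unfold WT at h
  induction h using Subgroup.closure_induction with
  | mem x hx =>
    obtain ⟨s, hs, rfl⟩ := hx
    refine ⟨[s], fun t ht => ?_, ?_⟩
    · rw [List.mem_singleton.1 ht]
      exact hs
    · rw [wp_cons, wp_nil, mul_one]
  | one => exact ⟨[], fun t ht => absurd ht List.not_mem_nil, wp_nil⟩
  | mul x y _ _ hx hy =>
    obtain ⟨η, h1, rfl⟩ := hx
    obtain ⟨η', h2, rfl⟩ := hy
    refine ⟨η ++ η', fun t ht => ?_, wp_append _ _⟩
    rcases List.mem_append.1 ht with h3 | h3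
    · exact h1 t h3
    · exact h2 t h3
  | inv x _ hx =>
    obtain ⟨η, h1, rfl⟩ := hx
    refine ⟨η.reverse, fun t ht => h1 t (List.mem_reverse.1 ht), ?_⟩
    exact M.toCoxeterSystem.wordProd_reverse η

/-- a shortest word with letters in `Y` -/
theorem exists_min_word {Y : Set V} {g : M.Group} (h : g ∈ WT M Y) :
    ∃ η : List V, (∀ s ∈ η, s ∈ Y) ∧ wp M η = g ∧
      ∀ η' : List V, (∀ s ∈ η', s ∈ Y) → wp M η' = g → η.length ≤ η'.length := by
  classical
  have h1 : ∃ n, ∃ η : List V, ((∀ s ∈ η, s ∈ Y) ∧ wp M η = g) ∧ η.length = n := by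
    obtain ⟨η, h2, h3⟩ := exists_word h
    exact ⟨_, η, ⟨h2, h3⟩, rfl⟩
  obtain ⟨η, ⟨h2, h3⟩, h4⟩ := Nat.find_spec h1
  refine ⟨η, h2, h3, fun η' h5 h6 => ?_⟩
  rw [h4]
  exact Nat.find_min' h1 ⟨η', ⟨h5, h6⟩, rfl⟩

/-- The main length argument. -/
theorem add_len {Y : Set V} {v : M.Group} (hv : ∀ y ∈ WT M Y, ln M v ≤ ln M (y * v)) :
    ∀ η : List V, (∀ s ∈ η, s ∈ Y) →
      (∀ η' : List V, (∀ s ∈ η', s ∈ Y) → wp M η' = wp M η → η.length ≤ η'.length) →
      ln M (wp M η * v) = η.length + ln M v := by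
  intro η
  induction η with
  | nil =>
    intro _ _
    rw [wp_nil, one_mul, List.length_nil, zero_add]
  | cons s η ih =>
    intro h1 h2
    have h3 : ∀ t ∈ η, t ∈ Y := fun t ht => h1 t (List.mem_cons_of_mem _ ht)
    have h4 : ∀ η' : List V, (∀ s ∈ η', s ∈ Y) → wp M η' = wp M η → η.length ≤ η'.length := by
      intro η' h5 h6
      have h7 := h2 (s :: η') (by
        intro t ht
        rcases List.mem_cons.1 ht with rfl | ht
        · exact h1 t List.mem_cons_self
        · exact h5 t ht) (by rw [wp_cons, wp_cons, h6])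
      rw [List.length_cons, List.length_cons] at h7
      omega
    have h5 := ih h3 h4
    obtain ⟨ω, h6, h7⟩ := exists_red v
    have h8 : wp M (η ++ ω) = wp M η * v := by rw [wp_append, h6]
    rw [wp_cons, mul_assoc]
    rcases ln_gn_mul (wp M η * v) s with h9 | h9
    · rw [h9, h5, List.length_cons]
      omega
    · exfalso
      obtain ⟨p, hp, hex⟩ := exchange M.toCoxeterSystem (ω := η ++ ω) (i := s) (by
        change ln M (gn M s * wp M (η ++ ω)) < ln M (wp M (η ++ ω))
        rw [h8]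
        omega)
      change gn M s * wp M (η ++ ω) = wp M ((η ++ ω).eraseIdx p) at hex
      by_cases hpl : p < η.length
      · rw [List.eraseIdx_append_of_lt_length hpl, h8, wp_append, h6, ← mul_assoc] at hex
        have h10 := mul_right_cancel hex
        have h11 := h2 (η.eraseIdx p) (fun t ht => h3 t (List.mem_of_mem_eraseIdx ht)) (by
          rw [wp_cons, h10])
        rw [List.length_eraseIdx_of_lt hpl, List.length_cons] at h11
        omega
      · rw [List.eraseIdx_append_of_length_le (not_lt.1 hpl), h8, wp_append] at hex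
        rw [List.length_append] at hp
        have h10 : (wp M η)⁻¹ * gn M s * wp M η * v = wp M (ω.eraseIdx (p - η.length)) := by
          calc (wp M η)⁻¹ * gn M s * wp M η * v = (wp M η)⁻¹ * (gn M s * (wp M η * v)) := by group
            _ = _ := by rw [hex, inv_mul_cancel_left]
        have h11 := hv _ (mul_mem (mul_mem (inv_mem (wp_mem h3)) (gn_mem (M := M)
          (h1 s List.mem_cons_self))) (wp_mem h3))
        rw [h10] at h11
        have h12 := h11.trans (ln_wp_le _)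
        rw [List.length_eraseIdx_of_lt (by omega)] at h12
        omega

/-- Elements of `W_Y` have reduced words with letters in `Y`. -/
theorem exists_red_word {Y : Set V} {g : M.Group} (h : g ∈ WT M Y) :
    ∃ η : List V, (∀ s ∈ η, s ∈ Y) ∧ wp M η = g ∧ η.length = ln M g := by
  obtain ⟨η, h1, h2, h3⟩ := exists_min_word h
  refine ⟨η, h1, h2, ?_⟩
  have h4 := add_len (Y := Y) (v := (1 : M.Group)) (fun y _ => by
    rw [ln_one]
    exact Nat.zero_le _) η h1 (fun η' h5 h6 => h3 η' h5 (h6.trans h2))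
  rw [mul_one, h2, ln_one] at h4
  omega

/-- the shortest element of a coset -/
theorem exists_mn (Y : Set V) (g : M.Group) :
    ∃ m : M.Group, g⁻¹ * m ∈ WT M Y ∧ ∀ y ∈ WT M Y, ln M (m * y) = ln M m + ln M y := by
  classical
  have h1 : ∃ n, ∃ m : M.Group, g⁻¹ * m ∈ WT M Y ∧ ln M m = n :=
    ⟨_, g, by rw [inv_mul_cancel]; exact one_mem _, rfl⟩
  obtain ⟨m, h2, h3⟩ := Nat.find_spec h1
  have h4 : ∀ y ∈ WT M Y, ln M m ≤ ln M (m * y) := by
    intro y hy
    rw [h3]
    refine Nat.find_min' h1 ⟨m * y, ?_, rfl⟩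
    rw [← mul_assoc]
    exact mul_mem h2 hy
  refine ⟨m, h2, fun y hy => ?_⟩
  obtain ⟨η, h5, h6, h7⟩ := exists_min_word (inv_mem hy)
  have h8 := add_len (Y := Y) (v := m⁻¹) (fun y' hy' => by
    rw [ln_inv, ← ln_inv (y' * m⁻¹), mul_inv_rev, inv_inv]
    exact h4 _ (inv_mem hy')) η h5 (fun η' h9 h10 => h7 η' h9 (h10.trans h6))
  rw [h6, ln_inv, ← ln_inv (y⁻¹ * m⁻¹), mul_inv_rev, inv_inv, inv_inv] at h8
  have h9 : η.length = ln M y := by
    have h10 := add_len (Y := Y) (v := (1 : M.Group)) (fun y _ => by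
      rw [ln_one]
      exact Nat.zero_le _) η h5 (fun η' h11 h12 => h7 η' h11 (h12.trans h6))
    rw [mul_one, h6, ln_one, ln_inv] at h10
    omega
  omega

/-- The shortest element of the coset `g W_Y`. -/
noncomputable def mn (M : CoxeterMatrix V) (Y : Set V) (g : M.Group) : M.Group :=
  (exists_mn Y g).choose

theorem mn_mem (Y : Set V) (g : M.Group) : g⁻¹ * mn M Y g ∈ WT M Y :=
  (exists_mn Y g).choose_spec.1

theorem mn_mem' (Y : Set V) (g : M.Group) : (mn M Y g)⁻¹ * g ∈ WT M Y := by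
  have h := inv_mem (mn_mem (M := M) Y g)
  rwa [mul_inv_rev, inv_inv] at h

theorem mn_add {Y : Set V} (g : M.Group) {y : M.Group} (hy : y ∈ WT M Y) :
    ln M (mn M Y g * y) = ln M (mn M Y g) + ln M y :=
  (exists_mn Y g).choose_spec.2 y hy

theorem mn_uniq {Y : Set V} {m m' : M.Group} (h : m⁻¹ * m' ∈ WT M Y)
    (h1 : ∀ y ∈ WT M Y, ln M (m * y) = ln M m + ln M y)
    (h2 : ∀ y ∈ WT M Y, ln M (m' * y) = ln M m' + ln M y) : m = m' := by
  have h3 := h1 _ h
  have h4 := h2 _ (inv_mem h)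
  rw [mul_inv_cancel_left] at h3
  have h5 : m' * (m⁻¹ * m')⁻¹ = m := by group
  rw [h5, ln_inv] at h4
  have h6 : ln M (m⁻¹ * m') = 0 := by omega
  rw [ln_eq_zero] at h6
  exact inv_mul_eq_one.1 h6

theorem mn_mul {Y : Set V} (g : M.Group) {y : M.Group} (hy : y ∈ WT M Y) :
    mn M Y (g * y) = mn M Y g := by
  refine mn_uniq (Y := Y) ?_ (fun z hz => mn_add _ hz) (fun z hz => mn_add _ hz)
  have h1 := mn_mem' Y (g * y)
  have h2 := mn_mem (M := M) Y g
  have h3 : (mn M Y (g * y))⁻¹ * mn M Y g = (mn M Y (g * y))⁻¹ * (g * y) * (y⁻¹ * (g⁻¹ * mn M Y g)) := by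
    group
  rw [h3]
  exact mul_mem h1 (mul_mem (inv_mem hy) h2)

theorem mn_congr {Y : Set V} {g h : M.Group} (hy : g⁻¹ * h ∈ WT M Y) : mn M Y g = mn M Y h := by
  have h1 := mn_mul g hy
  rw [mul_inv_cancel_left] at h1
  exact h1.symm

theorem ln_eq_add (Y : Set V) (g : M.Group) :
    ln M g = ln M (mn M Y g) + ln M ((mn M Y g)⁻¹ * g) := by
  have h := mn_add g (mn_mem' Y g)
  rwa [mul_inv_cancel_left] at h

theorem mn_le (Y : Set V) (g : M.Group) : ln M (mn M Y g) ≤ ln M g := by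
  have h := ln_eq_add Y g
  omega

/-- An element without descents in `Y` is the shortest of its coset. -/
theorem mn_self {Y : Set V} {g : M.Group} (h : ∀ s ∈ Y, ln M g < ln M (g * gn M s)) :
    mn M Y g = g := by
  by_contra hne
  obtain ⟨η, h1, h2, h3⟩ := exists_red_word (inv_mem (mn_mem' Y g))
  cases η with
  | nil =>
    rw [wp_nil] at h2
    exact hne (inv_mul_eq_one.1 (inv_eq_one.1 h2.symm))
  | cons s η =>
    rw [wp_cons] at h2
    have hs := h1 s List.mem_cons_self
    have h4 : g * gn M s = mn M Y g * (wp M η)⁻¹ := by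
      have h5 : (mn M Y g)⁻¹ * g = (wp M η)⁻¹ * gn M s := by
        rw [← inv_inv ((mn M Y g)⁻¹ * g), ← h2, mul_inv_rev, gn_inv]
      calc g * gn M s = mn M Y g * ((mn M Y g)⁻¹ * g) * gn M s := by group
        _ = mn M Y g * (wp M η)⁻¹ * (gn M s * gn M s) := by rw [h5]; group
        _ = _ := by rw [gn_mul_self, mul_one]
    have h5 := mn_add g (Y := Y) (y := (wp M η)⁻¹)
      (inv_mem (wp_mem fun t ht => h1 t (List.mem_cons_of_mem _ ht)))
    rw [← h4, ln_inv] at h5
    have h6 := ln_wp_le (M := M) η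
    have h7 := h s hs
    have h8 := ln_eq_add Y g
    rw [ln_inv, List.length_cons] at h3
    omega

theorem mn_out {Y : Set V} (g : M.Group) {s : V} (hs : s ∈ Y) :
    ln M (mn M Y g) < ln M (mn M Y g * gn M s) := by
  rw [mn_add g (gn_mem hs), ln_gn]
  exact Nat.lt_succ_self _

theorem mn_lt {Y : Set V} {g : M.Group} {s : V} (hs : s ∈ Y) (h : ln M (g * gn M s) < ln M g) :
    ln M (mn M Y g) < ln M g := by
  rw [← mn_mul g (gn_mem hs)]
  exact (mn_le _ _).trans_lt h

theorem mn_mn (Y : Set V) (g : M.Group) : mn M Y (mn M Y g) = mn M Y g :=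
  mn_self fun _ hs => mn_out g hs

theorem gn_inj {s t : V} (h : gn M s = gn M t) : s = t := by
  by_contra hne
  have h1 := orderOf_gn M hne
  rw [h, gn_mul_self, orderOf_one] at h1
  exact M.off_diagonal s t hne h1.symm

theorem gn_mem_iff {Y : Set V} {s : V} : gn M s ∈ WT M Y ↔ s ∈ Y := by
  constructor
  · intro h
    obtain ⟨η, h1, h2, h3⟩ := exists_red_word h
    rw [ln_gn] at h3
    obtain ⟨t, rfl⟩ := List.length_eq_one_iff.1 h3
    rw [wp_cons, wp_nil, mul_one] at h2
    rw [← gn_inj h2]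
    exact h1 t List.mem_cons_self
  · exact gn_mem

/-- All reduced words of an element of `W_Y` have letters in `Y`. -/
theorem red_word {Y : Set V} : ∀ (η : List V), wp M η ∈ WT M Y → η.length = ln M (wp M η) →
    ∀ s ∈ η, s ∈ Y := by
  intro η
  induction η with
  | nil => exact fun _ _ s hs => absurd hs List.not_mem_nil
  | cons s η ih =>
    intro h1 h2
    have h3 : η.length = ln M (wp M η) := by
      have h4 := ln_wp_le (M := M) η
      have h5 := ln_mul_le (gn M s) (wp M η)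
      rw [← wp_cons, ln_gn, ← h2, List.length_cons] at h5
      omega
    have hs : s ∈ Y := by
      obtain ⟨ω, h4, h5, h6⟩ := exists_red_word h1
      have h7 : gn M s * wp M (s :: η) = wp M η := by
        rw [wp_cons, ← mul_assoc, gn_mul_self, one_mul]
      obtain ⟨p, hp, hex⟩ := exchange M.toCoxeterSystem (ω := ω) (i := s) (by
        change ln M (gn M s * wp M ω) < ln M (wp M ω)
        rw [h5, h7, ← h2, ← h3, List.length_cons]
        exact Nat.lt_succ_self _)
      change gn M s * wp M ω = wp M (ω.eraseIdx p) at hex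
      rw [← gn_mem_iff (M := M)]
      have h8 : gn M s = wp M (ω.eraseIdx p) * (wp M ω)⁻¹ := by rw [← hex, mul_inv_cancel_right]
      rw [h8]
      exact mul_mem (wp_mem fun t ht => h4 t (List.mem_of_mem_eraseIdx ht)) (inv_mem (wp_mem h4))
    intro t ht
    rcases List.mem_cons.1 ht with rfl | ht
    · exact hs
    · refine ih ?_ h3 t ht
      have h4 : wp M η = gn M s * wp M (s :: η) := by
        rw [wp_cons, ← mul_assoc, gn_mul_self, one_mul]
      rw [h4]
      exact mul_mem (gn_mem hs) h1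

/-- Reduced factorisations stay in `W_Y`. -/
theorem mem_of_red {Y : Set V} {p y : M.Group} (h : p * y ∈ WT M Y)
    (hl : ln M (p * y) = ln M p + ln M y) : p ∈ WT M Y ∧ y ∈ WT M Y := by
  obtain ⟨η, h1, h2⟩ := exists_red p
  obtain ⟨ω, h3, h4⟩ := exists_red y
  have h5 : wp M (η ++ ω) = p * y := by rw [wp_append, h1, h3]
  have h6 := red_word (M := M) (Y := Y) (η ++ ω) (by rw [h5]; exact h) (by
    rw [h5, hl, List.length_append, h2, h4])
  constructor
  · rw [← h1]
    exact wp_mem fun t ht => h6 t (List.mem_append_left _ ht)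
  · rw [← h3]
    exact wp_mem fun t ht => h6 t (List.mem_append_right _ ht)

theorem mn_mem_WT {Y J : Set V} {u : M.Group} (h : u ∈ WT M J) : mn M Y u ∈ WT M J := by
  have h1 := mem_of_red (M := M) (Y := J) (p := mn M Y u) (y := (mn M Y u)⁻¹ * u)
    (by rw [mul_inv_cancel_left]; exact h) (by
      rw [mul_inv_cancel_left]
      exact ln_eq_add Y u)
  exact h1.1

/-- Intersections of special subgroups. -/
theorem mem_iInter {ι : Type} {J : ι → Set V} {A : Set ι} {g : M.Group} :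
    g ∈ WT M (⋂ i ∈ A, J i) ↔ ∀ i ∈ A, g ∈ WT M (J i) := by
  constructor
  · intro h i hi
    exact WT_mono (Set.biInter_subset_of_mem hi) h
  · intro h
    obtain ⟨η, h1, h2⟩ := exists_red g
    rw [← h1]
    refine wp_mem fun s hs => ?_
    rw [Set.mem_iInter₂]
    intro i hi
    refine red_word η (by rw [h1]; exact h i hi) (by rw [h1, h2]) s hs

theorem mem_inter {Y J : Set V} {g : M.Group} :
    g ∈ WT M (Y ∩ J) ↔ g ∈ WT M Y ∧ g ∈ WT M J := by
  constructor
  · intro h
    exact ⟨WT_mono Set.inter_subset_left h, WT_mono Set.inter_subset_right h⟩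
  · rintro ⟨h3, h4⟩
    obtain ⟨η, h1, h2⟩ := exists_red g
    rw [← h1]
    exact wp_mem fun s hs => ⟨red_word η (by rw [h1]; exact h3) (by rw [h1, h2]) s hs,
      red_word η (by rw [h1]; exact h4) (by rw [h1, h2]) s hs⟩

/-- Three pairwise intersecting cosets have a common element. -/
theorem helly3 {I J K : Set V} {x y z a b c : M.Group} (h1 : x⁻¹ * a ∈ WT M I)
    (h2 : y⁻¹ * a ∈ WT M J) (h3 : x⁻¹ * b ∈ WT M I) (h4 : z⁻¹ * b ∈ WT M K)
    (h5 : y⁻¹ * c ∈ WT M J) (h6 : z⁻¹ * c ∈ WT M K) :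
    ∃ p, x⁻¹ * p ∈ WT M I ∧ y⁻¹ * p ∈ WT M J ∧ z⁻¹ * p ∈ WT M K := by
  have ha : c⁻¹ * a ∈ WT M J := by
    have h7 := mul_mem (inv_mem h5) h2
    have h8 : (y⁻¹ * c)⁻¹ * (y⁻¹ * a) = c⁻¹ * a := by group
    rwa [h8] at h7
  have hb : c⁻¹ * b ∈ WT M K := by
    have h7 := mul_mem (inv_mem h6) h4
    have h8 : (z⁻¹ * c)⁻¹ * (z⁻¹ * b) = c⁻¹ * b := by group
    rwa [h8] at h7
  have hab : mn M I (c⁻¹ * a) = mn M I (c⁻¹ * b) := by
    refine mn_congr ?_
    have h7 := mul_mem (inv_mem h1) h3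
    have h8 : (x⁻¹ * a)⁻¹ * (x⁻¹ * b) = (c⁻¹ * a)⁻¹ * (c⁻¹ * b) := by group
    rwa [h8] at h7
  have hpJ := mn_mem_WT (Y := I) ha
  have hpK := mn_mem_WT (Y := I) hb
  rw [← hab] at hpK
  refine ⟨c * mn M I (c⁻¹ * a), ?_, ?_, ?_⟩
  · have h7 := mul_mem h1 (mn_mem (M := M) I (c⁻¹ * a))
    have h8 : x⁻¹ * a * ((c⁻¹ * a)⁻¹ * mn M I (c⁻¹ * a)) = x⁻¹ * (c * mn M I (c⁻¹ * a)) := by group
    rwa [h8] at h7
  · rw [← mul_assoc]
    exact mul_mem h5 hpJ
  · rw [← mul_assoc]
    exact mul_mem h6 hpK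

/-- Pairwise intersecting cosets of special subgroups have a common element. -/
theorem helly_aux {ι : Type} [DecidableEq ι] (J : ι → Set V) (x : ι → M.Group) (A : Finset ι) :
    ∀ (K : Set V) (z : M.Group), (∀ i ∈ A, ∃ g, (x i)⁻¹ * g ∈ WT M (J i) ∧ z⁻¹ * g ∈ WT M K) →
      (∀ i ∈ A, ∀ j ∈ A, ∃ g, (x i)⁻¹ * g ∈ WT M (J i) ∧ (x j)⁻¹ * g ∈ WT M (J j)) →
      ∃ g, (∀ i ∈ A, (x i)⁻¹ * g ∈ WT M (J i)) ∧ z⁻¹ * g ∈ WT M K := by
  induction A using Finset.induction_on with
  | empty =>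
    intro K z _ _
    exact ⟨z, fun i hi => absurd hi (Finset.notMem_empty i), by
      rw [inv_mul_cancel]
      exact one_mem _⟩
  | insert a A ha ih =>
    intro K z h1 h2
    obtain ⟨q1, h3, h4⟩ := ih (J a) (x a)
      (fun i hi => h2 i (Finset.mem_insert_of_mem hi) a (Finset.mem_insert_self _ _))
      fun i hi j hj => h2 i (Finset.mem_insert_of_mem hi) j (Finset.mem_insert_of_mem hj)
    obtain ⟨q2, h5, h6⟩ := ih K z (fun i hi => h1 i (Finset.mem_insert_of_mem hi))
      fun i hi j hj => h2 i (Finset.mem_insert_of_mem hi) j (Finset.mem_insert_of_mem hj)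
    obtain ⟨q3, h7, h8⟩ := h1 a (Finset.mem_insert_self _ _)
    have h9 : q1⁻¹ * q2 ∈ WT M (⋂ i ∈ (A : Set ι), J i) := by
      rw [mem_iInter]
      intro i hi
      have h10 := mul_mem (inv_mem (h3 i hi)) (h5 i hi)
      have h11 : ((x i)⁻¹ * q1)⁻¹ * ((x i)⁻¹ * q2) = q1⁻¹ * q2 := by group
      rwa [h11] at h10
    obtain ⟨p, h10, h11, h12⟩ := helly3 (x := q1) (y := x a) (z := z) (a := q1) (b := q2) (c := q3)
      (I := ⋂ i ∈ (A : Set ι), J i) (J := J a) (K := K) (by
        rw [inv_mul_cancel]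
        exact one_mem _) h4 h9 h6 h7 h8
    refine ⟨p, ?_, h12⟩
    intro i hi
    rcases Finset.mem_insert.1 hi with rfl | hi
    · exact h11
    · have h13 := mul_mem (h3 i hi) (mem_iInter.1 h10 i hi)
      have h14 : (x i)⁻¹ * q1 * (q1⁻¹ * p) = (x i)⁻¹ * p := by group
      rwa [h14] at h13

/-- Pairwise intersecting cosets of special subgroups have a common element. -/
theorem helly {ι : Type} [DecidableEq ι] (J : ι → Set V) (x : ι → M.Group) (A : Finset ι)
    (h : ∀ i ∈ A, ∀ j ∈ A, ∃ g, (x i)⁻¹ * g ∈ WT M (J i) ∧ (x j)⁻¹ * g ∈ WT M (J j)) :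
    ∃ g, ∀ i ∈ A, (x i)⁻¹ * g ∈ WT M (J i) := by
  have hu : ∀ g : M.Group, g ∈ WT M (Set.univ : Set V) := by
    intro g
    obtain ⟨η, h1, -⟩ := exists_red g
    rw [← h1]
    exact wp_mem fun s _ => Set.mem_univ s
  obtain ⟨g, h1, -⟩ := helly_aux J x A Set.univ 1 (fun i hi => by
    obtain ⟨g, h2, -⟩ := h i hi i hi
    exact ⟨g, h2, hu _⟩) h
  exact ⟨g, h1⟩

end LBL
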