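import Pool.Agent.SNG.Core

/-!
# Project LBL (architect helper40), module Sg: signs
-/

namespace LBL

open SNG Finset

variable {V : Type} [LinearOrder V]

theorem sg_insert {T : Finset V} {s t : V} (hs : s ∉ T) :
    sg (insert s T) t = if s < t then - sg T t else sg T t := by
  unfold sg
  rw [Finset.filter_insert]
  split_ifs with h
  · rw [Finset.card_insert_of_notMem (fun h1 => hs (Finset.mem_filter.1 h1).1), pow_succ]
    ring
  · rfl

theorem sg_sq (T : Finset V) (s : V) : sg T s * sg T s = 1 := by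
  unfold sg
  rw [← mul_pow]
  norm_num

theorem sg_swap {T : Finset V} {s t : V} (hs : s ∉ T) (ht : t ∉ T) (hst : s ≠ t) :
    sg T s * sg (insert s T) t = - (sg T t * sg (insert t T) s) := by
  rw [sg_insert hs, sg_insert ht]
  rcases lt_or_gt_of_ne hst with h | h
  · rw [if_pos h, if_neg (not_lt.2 h.le)]
    ring
  · rw [if_neg (not_lt.2 h.le), if_pos h]
    ring

theorem sg_congr {T T' : Finset V} {s : V} (h : ∀ x, x < s → (x ∈ T ↔ x ∈ T')) :
    sg T s = sg T' s := by
  unfold sg
  have e : T.filter (· < s) = T'.filter (· < s) := by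
    ext x
    rw [mem_filter, mem_filter]
    constructor
    · rintro ⟨h1, h2⟩
      exact ⟨(h x h2).1 h1, h2⟩
    · rintro ⟨h1, h2⟩
      exact ⟨(h x h2).2 h1, h2⟩
  rw [e]

variable [Fintype V] {P : Type} [Group P]

theorem bdry_sub (f h : Finset V → P → ℝ) (T : Finset V) (g : P) :
    bdry (fun T g => f T g - h T g) T g = bdry f T g - bdry h T g := by
  unfold bdry
  rw [← Finset.sum_sub_distrib]
  exact Finset.sum_congr rfl fun s _ => by ring

theorem bdry_add (f h : Finset V → P → ℝ) (T : Finset V) (g : P) :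
    bdry (fun T g => f T g + h T g) T g = bdry f T g + bdry h T g := by
  unfold bdry
  rw [← Finset.sum_add_distrib]
  exact Finset.sum_congr rfl fun s _ => by ring

theorem bdry_zero (T : Finset V) (g : P) : bdry (fun _ _ => 0) T g = 0 := by
  unfold bdry
  exact Finset.sum_eq_zero fun s _ => mul_zero _

theorem bdry_bdry (f : Finset V → P → ℝ) (T : Finset V) (g : P) :
    bdry (fun T g => bdry f T g) T g = 0 := by
  classical
  let F : V → V → ℝ := fun s t => if s ∉ T ∧ t ∉ T ∧ s ≠ t then
    sg T s * sg (insert s T) t * f (insert t (insert s T)) g else 0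
  have hFp : ∀ s t, (s ∉ T ∧ t ∉ T ∧ s ≠ t) →
      F s t = sg T s * sg (insert s T) t * f (insert t (insert s T)) g := fun s t h => if_pos h
  have hFn : ∀ s t, ¬ (s ∉ T ∧ t ∉ T ∧ s ≠ t) → F s t = 0 := fun s t h => if_neg h
  have h1 : bdry (fun T g => bdry f T g) T g = ∑ s : V, ∑ t : V, F s t := by
    unfold bdry
    rw [← Finset.sum_subset (Finset.subset_univ Tᶜ)]
    · refine Finset.sum_congr rfl fun s hs => ?_
      have hs' : s ∉ T := by simpa using hs
      rw [Finset.mul_sum, ← Finset.sum_subset (Finset.subset_univ (insert s T)ᶜ)]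
      · refine Finset.sum_congr rfl fun t ht => ?_
        have ht' : t ≠ s ∧ t ∉ T := by simpa [not_or] using ht
        rw [hFp s t ⟨hs', ht'.2, ht'.1.symm⟩]
        ring
      · intro t _ ht
        have ht' : t = s ∨ t ∈ T := by
          by_contra h3
          exact ht (by simpa [not_or] using h3)
        refine hFn s t ?_
        rintro ⟨_, h4, h5⟩
        rcases ht' with h6 | h6
        · exact h5 h6.symm
        · exact h4 h6
    · intro s _ hs
      have hs' : s ∈ T := by
        by_contra h3
        exact hs (by simpa using h3)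
      exact Finset.sum_eq_zero fun t _ => hFn s t fun h4 => h4.1 hs'
  have h2 : ∀ s t, F s t = - F t s := by
    intro s t
    by_cases h3 : s ∉ T ∧ t ∉ T ∧ s ≠ t
    · rw [hFp s t h3, hFp t s ⟨h3.2.1, h3.1, h3.2.2.symm⟩, sg_swap h3.1 h3.2.1 h3.2.2,
        Finset.insert_comm t s T]
      ring
    · rw [hFn s t h3, hFn t s fun h5 => h3 ⟨h5.2.1, h5.1, h5.2.2.symm⟩, neg_zero]
  have h3 : ∑ s : V, ∑ t : V, F s t = - ∑ s : V, ∑ t : V, F s t := by
    conv_lhs => rw [Finset.sum_comm]
    rw [← Finset.sum_neg_distrib]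
    refine Finset.sum_congr rfl fun s _ => ?_
    rw [← Finset.sum_neg_distrib]
    exact Finset.sum_congr rfl fun t _ => h2 t s
  rw [h1]
  linarith

end LBL
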