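import Pool.Agent.LBL.Pl
import Pool.Agent.LBL.Cos
import Pool.Agent.LBL.Sg
import Pool.Agent.SCG.Chn2
import Pool.Agent.SCG.Cone1

/-!
# Project LBL (architect helper40), module Ctx: a spherical set `T` with labels `2` and `∞` to the rest

`TU T X`: the elements of `T` with label `2` to all elements of `X` outside `T`.
`Pa M T`: the operator of averaging over the group generated by `TU T X` on the chains with support
disjoint from `T`.
-/

namespace LBL

open SCG SNG SCS Finset

section basic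

variable {V : Type} {M : CoxeterMatrix V}

/-- The elements of `T` with label `2` to the elements of `X` outside of `T`. -/
def TU [DecidableEq V] (M : CoxeterMatrix V) (T X : Finset V) : Finset V :=
  T.filter fun t => ∀ u ∈ X, u ∉ T → M t u = 2

theorem mem_TU [DecidableEq V] {T X : Finset V} {t : V} :
    t ∈ TU M T X ↔ t ∈ T ∧ ∀ u ∈ X, u ∉ T → M t u = 2 := by
  unfold TU
  rw [mem_filter]

theorem TU_sub [DecidableEq V] (T X : Finset V) : TU M T X ⊆ T := filter_subset _ _

theorem TU_congr [DecidableEq V] {T X X' : Finset V} (h : X \ T = X' \ T) :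
    TU M T X = TU M T X' := by
  ext t
  rw [mem_TU, mem_TU]
  have h1 : ∀ u, (u ∈ X ∧ u ∉ T) ↔ (u ∈ X' ∧ u ∉ T) := by
    intro u
    rw [← mem_sdiff, ← mem_sdiff, h]
  refine and_congr_right fun _ => ?_
  constructor
  · intro h2 u hu hu'
    exact h2 u ((h1 u).2 ⟨hu, hu'⟩).1 hu'
  · intro h2 u hu hu'
    exact h2 u ((h1 u).1 ⟨hu, hu'⟩).1 hu'

theorem TU_mono [DecidableEq V] {T X X' : Finset V} (h : X ⊆ X') : TU M T X' ⊆ TU M T X := by
  intro t ht
  rw [mem_TU] at ht ⊢
  exact ⟨ht.1, fun u hu hu' => ht.2 u (h hu) hu'⟩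

/-- Elements of special subgroups with label `2` between the generators commute. -/
theorem comm_WT {A : Set V} {u : V} (h : ∀ t ∈ A, M t u = 2) {x : M.Group} (hx : x ∈ WT M A) :
    gn M u * x = x * gn M u := by
  unfold WT at hx
  induction hx using Subgroup.closure_induction with
  | mem y hy =>
    obtain ⟨t, ht, rfl⟩ := hy
    exact (gn_comm (h t ht)).symm
  | one => rw [one_mul, mul_one]
  | mul a b _ _ ha hb => rw [← mul_assoc, ha, mul_assoc, hb, mul_assoc]
  | inv a _ ha =>
    calc gn M u * a⁻¹ = a⁻¹ * (a * gn M u) * a⁻¹ := by group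
      _ = a⁻¹ * gn M u := by rw [← ha]; group

theorem comm_WT' {A B : Set V} (h : ∀ t ∈ A, ∀ u ∈ B, M t u = 2) {x y : M.Group}
    (hx : x ∈ WT M A) (hy : y ∈ WT M B) : y * x = x * y := by
  unfold WT at hy
  induction hy using Subgroup.closure_induction with
  | mem z hz =>
    obtain ⟨u, hu, rfl⟩ := hz
    exact comm_WT (fun t ht => h t ht u hu) hx
  | one => rw [one_mul, mul_one]
  | mul a b _ _ ha hb => rw [mul_assoc, hb, ← mul_assoc, ha, mul_assoc]
  | inv a _ ha =>
    calc a⁻¹ * x = a⁻¹ * (x * a) * a⁻¹ := by group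
      _ = x * a⁻¹ := by rw [← ha]; group

/-- The union of commuting spherical sets is spherical. -/
theorem sph_union [DecidableEq V] {A B : Finset V} (hA : Sph M A) (hB : Sph M B)
    (h : ∀ t ∈ A, ∀ u ∈ B, M t u = 2) : Sph M (A ∪ B) := by
  have h1 : (WT M ((A ∪ B : Finset V) : Set V) : Set M.Group) ⊆
      (fun q : M.Group × M.Group => q.1 * q.2) ''
        ((WT M (A : Set V) : Set M.Group) ×ˢ (WT M (B : Set V) : Set M.Group)) := by
    intro x hx
    obtain ⟨η, h2, rfl⟩ := exists_word hx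
    clear hx
    induction η with
    | nil => exact ⟨(1, 1), ⟨one_mem _, one_mem _⟩, by rw [wp_nil]; exact one_mul _⟩
    | cons s η ih =>
      obtain ⟨⟨a, b⟩, ⟨ha, hb⟩, hab⟩ := ih fun t ht => h2 t (List.mem_cons_of_mem _ ht)
      have hs := h2 s List.mem_cons_self
      rw [Finset.coe_union] at hs
      change a * b = wp M η at hab
      rw [wp_cons, ← hab]
      rcases hs with hs | hs
      · exact ⟨(gn M s * a, b), ⟨mul_mem (gn_mem hs) ha, hb⟩, mul_assoc _ _ _⟩
      · refine ⟨(a, gn M s * b), ⟨ha, mul_mem (gn_mem hs) hb⟩, ?_⟩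
        change a * (gn M s * b) = gn M s * (a * b)
        rw [← mul_assoc, ← mul_assoc, comm_WT (A := (A : Set V)) (fun t ht => h t ht s hs) ha]
  exact ((hA.prod hB).image _).subset h1

/-- The finite group generated by `J` as a finite set. -/
noncomputable def wf (M : CoxeterMatrix V) (J : Finset V) : Finset M.Group :=
  open Classical in if h : Sph M J then h.toFinset else {1}

theorem mem_wf {J : Finset V} (h : Sph M J) {x : M.Group} : x ∈ wf M J ↔ x ∈ WT M (J : Set V) := by
  unfold wf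
  rw [dif_pos h, Set.Finite.mem_toFinset]
  rfl

theorem wf_pos {J : Finset V} (h : Sph M J) : 0 < (wf M J).card :=
  Finset.card_pos.2 ⟨1, (mem_wf h).2 (one_mem _)⟩

theorem wf_mono {J J' : Finset V} (h : Sph M J') (hJ : J ⊆ J') : wf M J ⊆ wf M J' := by
  intro x hx
  rw [mem_wf (sph_mono hJ h)] at hx
  rw [mem_wf h]
  exact WT_mono (by exact_mod_cast hJ) hx

/-- invariance of sums over `W_J` -/
theorem sum_wf {J : Finset V} (h : Sph M J) (F : M.Group → ℝ) {y : M.Group}
    (hy : y ∈ WT M (J : Set V)) : ∑ x ∈ wf M J, F (y * x) = ∑ x ∈ wf M J, F x := by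
  refine Finset.sum_nbij' (fun x => y * x) (fun x => y⁻¹ * x) ?_ ?_ ?_ ?_ ?_
  · intro x hx
    rw [mem_wf h] at hx ⊢
    exact mul_mem hy hx
  · intro x hx
    rw [mem_wf h] at hx ⊢
    exact mul_mem (inv_mem hy) hx
  · intro x _
    exact inv_mul_cancel_left _ _
  · intro x _
    exact mul_inv_cancel_left _ _
  · intro x _
    rfl

theorem sum_wf' {J : Finset V} (h : Sph M J) (F : M.Group → ℝ) {y : M.Group}
    (hy : y ∈ WT M (J : Set V)) : ∑ x ∈ wf M J, F (x * y) = ∑ x ∈ wf M J, F x := by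
  refine Finset.sum_nbij' (fun x => x * y) (fun x => x * y⁻¹) ?_ ?_ ?_ ?_ ?_
  · intro x hx
    rw [mem_wf h] at hx ⊢
    exact mul_mem hx hy
  · intro x hx
    rw [mem_wf h] at hx ⊢
    exact mul_mem hx (inv_mem hy)
  · intro x _
    exact mul_inv_cancel_right _ _
  · intro x _
    exact inv_mul_cancel_right _ _
  · intro x _
    rfl

end basic

variable {V : Type} [Fintype V] [LinearOrder V]

/-- The assumptions on `T`. -/
structure Tc (M : CoxeterMatrix V) (T : Finset V) : Prop where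
  sph : Sph M T
  two : ∀ t ∈ T, ∀ u, u ∉ T → M t u = 2 ∨ M t u = 0
  lt : ∀ t ∈ T, ∀ u, u ∉ T → t < u

variable {M : CoxeterMatrix V} {T : Finset V}

omit [Fintype V] in
theorem Tc.sphJ (h : Tc M T) (X : Finset V) : Sph M (TU M T X) := sph_mono (TU_sub T X) h.sph

omit [Fintype V] in
theorem Tc.sub_TU (h : Tc M T) {X : Finset V} (hX : Sph M X) : X ∩ T ⊆ TU M T X := by
  intro t ht
  rw [Finset.mem_inter] at ht
  rw [mem_TU]
  refine ⟨ht.2, fun u hu hu' => ?_⟩
  rcases h.two t ht.2 u hu' with h1 | h1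
  · exact h1
  · exact absurd h1 (sph_ne hX ht.1 hu)

omit [Fintype V] in
theorem Tc.sph_of (h : Tc M T) {X Y : Finset V} (hY : Y ⊆ TU M T X) (hX : Sph M (X \ T)) :
    Sph M (Y ∪ (X \ T)) := by
  refine sph_union (sph_mono (hY.trans (TU_sub T X)) h.sph) hX fun t ht u hu => ?_
  rw [mem_sdiff] at hu
  exact (mem_TU.1 (hY ht)).2 u hu.1 hu.2

omit [Fintype V] in
/-- commutation -/
theorem TU_comm {X : Finset V} {u : V} (hu : u ∈ X) (huT : u ∉ T) {x : M.Group}
    (hx : x ∈ WT M (TU M T X : Set V)) : gn M u * x = x * gn M u :=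
  comm_WT (fun _ ht => (mem_TU.1 ht).2 u hu huT) hx

open Classical in
omit [Fintype V] in
theorem exists_Pa (M : CoxeterMatrix V) (T : Finset V) : ∃ P : HW M →L[ℝ] HW M, ∀ f X g,
    P f (X, g) = if Disjoint X T ∧ Sph M T then
      ((wf M (TU M T X)).card : ℝ)⁻¹ * ∑ x ∈ wf M (TU M T X), f (X, g * x) else 0 := by
  obtain ⟨P, hP⟩ := exists_op (α := Finset V × M.Group) (β := Finset V × M.Group) (wf M T)
    (φ := fun x q => (q.1, q.2 * x))
    (c := fun x q => if Disjoint q.1 T ∧ Sph M T ∧ x ∈ wf M (TU M T q.1) then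
      ((wf M (TU M T q.1)).card : ℝ)⁻¹ else 0) (B := fun _ => 1) (by
      intro x q
      split_ifs with h
      · rw [abs_of_nonneg (by positivity)]
        have h1 : 1 ≤ (wf M (TU M T q.1)).card := Finset.card_pos.2 ⟨x, h.2.2⟩
        have h2 : (1 : ℝ) ≤ ((wf M (TU M T q.1)).card : ℝ) := by exact_mod_cast h1
        exact inv_le_one_of_one_le₀ h2
      · rw [abs_zero]
        exact zero_le_one) (by
      intro x q q' _ _ h
      have h1 := congrArg Prod.fst h
      have h2 := congrArg Prod.snd h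
      exact Prod.ext h1 (mul_right_cancel h2))
  refine ⟨P, fun f X g => ?_⟩
  rw [hP]
  by_cases h : Disjoint X T ∧ Sph M T
  · rw [if_pos h, Finset.mul_sum]
    have h1 := wf_mono h.2 (TU_sub (M := M) T X)
    rw [← Finset.sum_subset h1]
    · refine Finset.sum_congr rfl fun x hx => ?_
      rw [if_pos ⟨h.1, h.2, hx⟩]
    · intro x _ hx
      rw [if_neg fun h2 => hx h2.2.2, zero_mul]
  · rw [if_neg h]
    exact Finset.sum_eq_zero fun x _ => by rw [if_neg fun h2 => h ⟨h2.1, h2.2.1⟩, zero_mul]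

/-- The averaging operator. -/
noncomputable def Pa (M : CoxeterMatrix V) (T : Finset V) : HW M →L[ℝ] HW M :=
  (exists_Pa M T).choose

theorem Pa_apply (h : Tc M T) (f : HW M) {X : Finset V} (hX : Disjoint X T) (g : M.Group) :
    Pa M T f (X, g) =
      ((wf M (TU M T X)).card : ℝ)⁻¹ * ∑ x ∈ wf M (TU M T X), f (X, g * x) := by
  classical
  have h1 := (exists_Pa M T).choose_spec f X g
  rw [if_pos ⟨hX, h.sph⟩] at h1
  exact h1

theorem Pa_zero (M : CoxeterMatrix V) (T : Finset V) (f : HW M) {X : Finset V}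
    (hX : ¬ Disjoint X T) (g : M.Group) : Pa M T f (X, g) = 0 := by
  classical
  have h1 := (exists_Pa M T).choose_spec f X g
  rw [if_neg fun h2 => hX h2.1] at h1
  exact h1

/-- The average is invariant. -/
theorem Pa_inv (h : Tc M T) (f : HW M) (X : Finset V) (g : M.Group) {y : M.Group}
    (hy : y ∈ WT M (TU M T X : Set V)) : Pa M T f (X, g * y) = Pa M T f (X, g) := by
  by_cases hX : Disjoint X T
  · rw [Pa_apply h f hX, Pa_apply h f hX]
    congr 1
    simp only [mul_assoc]
    exact sum_wf (h.sphJ X) (fun x => f (X, g * x)) hy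
  · rw [Pa_zero M T f hX, Pa_zero M T f hX]

/-- Chains invariant under the averaging. -/
theorem Pa_eq (h : Tc M T) {f : HW M} (h0 : ∀ X, ¬ Disjoint X T → ∀ g, f (X, g) = 0)
    (h1 : ∀ X, Disjoint X T → ∀ g, ∀ y ∈ WT M (TU M T X : Set V), f (X, g * y) = f (X, g)) :
    Pa M T f = f := by
  refine ell_ext fun q => ?_
  obtain ⟨X, g⟩ := q
  by_cases hX : Disjoint X T
  · rw [Pa_apply h f hX]
    have h2 : ∑ x ∈ wf M (TU M T X), f (X, g * x) = ∑ _x ∈ wf M (TU M T X), f (X, g) :=
      Finset.sum_congr rfl fun x hx => h1 X hX g x ((mem_wf (h.sphJ X)).1 hx)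
    rw [h2, Finset.sum_const, nsmul_eq_mul, ← mul_assoc, inv_mul_cancel₀, one_mul]
    have h3 := wf_pos (h.sphJ X)
    positivity
  · rw [Pa_zero M T f hX, h0 X hX]

theorem Pa_Pa (h : Tc M T) (f : HW M) : Pa M T (Pa M T f) = Pa M T f :=
  Pa_eq h (fun _ hX g => Pa_zero M T f hX g) fun X _ g _ hy => Pa_inv h f X g hy

theorem Pa_mem (h : Tc M T) {j : ℕ} {f : HW M} (hf : f ∈ CC M univ j) :
    Pa M T f ∈ CC M univ j := by
  rw [mem_CC] at hf ⊢
  refine ⟨fun X hX g => ?_, fun X s hs g => ?_⟩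
  · by_cases h1 : Disjoint X T
    · rw [Pa_apply h f h1]
      have h2 : ∑ x ∈ wf M (TU M T X), f (X, g * x) = 0 :=
        Finset.sum_eq_zero fun x _ => hf.1 X hX _
      rw [h2, mul_zero]
    · exact Pa_zero M T f h1 g
  · by_cases h1 : Disjoint X T
    · rw [Pa_apply h f h1, Pa_apply h f h1, ← mul_neg, ← Finset.sum_neg_distrib]
      congr 1
      refine Finset.sum_congr rfl fun x hx => ?_
      rw [mul_assoc, TU_comm hs (Finset.disjoint_left.1 h1 hs) ((mem_wf (h.sphJ X)).1 hx),
        ← mul_assoc, hf.2 X s hs]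
    · rw [Pa_zero M T f h1, Pa_zero M T f h1, neg_zero]

/-- The average of the boundary. -/
theorem Pa_bD (h : Tc M T) {j : ℕ} {f : HW M} (hf : f ∈ CC M univ j) {X : Finset V}
    (hX : Disjoint X T) (g : M.Group) : Pa M T (bD M f) (X, g) =
      ∑ s ∈ (X ∪ T)ᶜ, sg X s * (((wf M (TU M T X)).card : ℝ)⁻¹ *
        ∑ x ∈ wf M (TU M T X), f (insert s X, g * x)) := by
  rw [Pa_apply h _ hX]
  have h1 : ∀ x, bD M f (X, g * x) = ∑ s ∈ Xᶜ, sg X s * f (insert s X, g * x) := fun x =>
    bD_apply f X (g * x)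
  simp only [h1]
  rw [Finset.sum_comm, Finset.mul_sum]
  have h2 : (X ∪ T)ᶜ ⊆ Xᶜ := by
    intro s hs
    rw [mem_compl, mem_union] at hs
    rw [mem_compl]
    exact fun h3 => hs (Or.inl h3)
  rw [← Finset.sum_subset h2]
  · refine Finset.sum_congr rfl fun s _ => ?_
    rw [← Finset.mul_sum]
    ring
  · intro s hs hs'
    have hsT : s ∈ T := by
      rw [mem_compl] at hs
      rw [mem_compl, mem_union, not_not] at hs'
      exact hs'.resolve_left hs
    rw [← Finset.mul_sum]
    have h3 : ∑ x ∈ wf M (TU M T X), f (insert s X, g * x) = 0 := by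
      rw [mem_CC] at hf
      by_cases h4 : s ∈ TU M T X
      · have h5 := sum_wf' (h.sphJ X) (fun x => f (insert s X, g * x)) (y := gn M s)
          (gn_mem (by exact_mod_cast h4))
        have h6 : ∀ x, f (insert s X, g * (x * gn M s)) = - f (insert s X, g * x) := by
          intro x
          rw [← mul_assoc]
          exact hf.2 _ s (Finset.mem_insert_self _ _) _
        simp only [h6] at h5
        rw [Finset.sum_neg_distrib] at h5
        linarith
      · refine Finset.sum_eq_zero fun x _ => hf.1 _ ?_ _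
        rintro ⟨-, h5, -⟩
        apply h4
        have h6 := h.sub_TU h5 (Finset.mem_inter.2 ⟨Finset.mem_insert_self _ _, hsT⟩)
        rwa [TU_congr (X' := X)] at h6
        rw [Finset.insert_sdiff_of_mem _ hsT]
    rw [h3]
    ring

theorem Pa_d_Pa (h : Tc M T) {j : ℕ} {f : HW M} (hf : f ∈ CC M univ j) :
    Pa M T (bD M (Pa M T f)) = Pa M T (bD M f) := by
  refine ell_ext fun q => ?_
  obtain ⟨X, g⟩ := q
  by_cases hX : Disjoint X T
  · rw [Pa_bD h (Pa_mem h hf) hX, Pa_bD h hf hX]
    refine Finset.sum_congr rfl fun s hs => ?_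
    rw [mem_compl, mem_union, not_or] at hs
    have hsX : Disjoint (insert s X) T := by
      rw [Finset.disjoint_insert_left]
      exact ⟨hs.2, hX⟩
    congr 2
    have h1 : ∀ x, Pa M T f (insert s X, g * x) = ((wf M (TU M T (insert s X))).card : ℝ)⁻¹ *
        ∑ y ∈ wf M (TU M T (insert s X)), f (insert s X, g * x * y) := fun x =>
      Pa_apply h f hsX _
    simp only [h1]
    rw [← Finset.mul_sum, Finset.sum_comm]
    have h2 : ∀ y ∈ wf M (TU M T (insert s X)),
        ∑ x ∈ wf M (TU M T X), f (insert s X, g * x * y) =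
          ∑ x ∈ wf M (TU M T X), f (insert s X, g * x) := by
      intro y hy
      simp only [mul_assoc]
      refine sum_wf' (h.sphJ X) (fun x => f (insert s X, g * x)) ?_
      rw [mem_wf (h.sphJ _)] at hy
      exact WT_mono (by exact_mod_cast TU_mono (Finset.subset_insert s X)) hy
    rw [Finset.sum_congr rfl h2, Finset.sum_const, nsmul_eq_mul, ← mul_assoc, inv_mul_cancel₀,
      one_mul]
    have h3 := wf_pos (h.sphJ (insert s X))
    positivity
  · rw [Pa_zero M T _ hX, Pa_zero M T _ hX]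

end LBL
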