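import Pool.Agent.LBL.Rm

/-!
# Project LBL (architect helper40), module Dm: the Coxeter complex of type D, combinatorially

Faces of the cube are pairs `A ⊆ B` of finite sets (`A`: coordinates equal to one, complement of `B`:
coordinates equal to zero).  The vertices of the Coxeter complex of type `D` are the faces of dimension
different from one.  The faces of dimension at least two are contracted one by one into their lower vertex,
by increasing dimension; the result is a suspension.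
-/

namespace LBL

open SCG Finset

variable {ι : Type} [Fintype ι] [DecidableEq ι]

/-- the relation, when the faces in `C` have been contracted -/
def rl (C : Finset (Finset ι × Finset ι)) (p q : Finset ι × Finset ι) : Prop :=
  (q.1 ⊆ p.1 ∧ p.2 ⊆ q.2 ∧ p ≠ q) ∨
    (p.1 = p.2 ∧ q.1 = q.2 ∧ p.1 ⊂ q.1 ∧ ((q.1 \ p.1).card = 1 ∨ (p.1, q.1) ∈ C))

/-- the faces to be contracted -/
def Vd (q : Finset ι × Finset ι) : Prop :=
  q.1 ⊆ q.2 ∧ 2 ≤ (q.2 \ q.1).card ∧ q ≠ (∅, univ)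

/-- the contracted faces, by increasing dimension -/
structure Pr (C : Finset (Finset ι × Finset ι)) : Prop where
  vd : ∀ q ∈ C, Vd q
  lo : ∀ q ∈ C, ∀ r, Vd r → (r.2 \ r.1).card < (q.2 \ q.1).card → r ∈ C

/-- the remaining vertices -/
def Sv (C : Finset (Finset ι × Finset ι)) : Finset (Finset ι × Finset ι) :=
  univ.filter fun q => q.1 ⊆ q.2 ∧ (q.2 \ q.1).card ≠ 1 ∧ q ≠ (∅, univ) ∧ q ∉ C

theorem mem_Sv {C : Finset (Finset ι × Finset ι)} {q : Finset ι × Finset ι} :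
    q ∈ Sv C ↔ q.1 ⊆ q.2 ∧ (q.2 \ q.1).card ≠ 1 ∧ q ≠ (∅, univ) ∧ q ∉ C := by
  unfold Sv
  rw [mem_filter]
  exact ⟨fun h => h.2, fun h => ⟨mem_univ _, h⟩⟩

theorem card_lt {A B A' B' : Finset ι} (h : A ⊆ B) (h1 : A' ⊆ A) (h2 : B ⊆ B')
    (h3 : A' ≠ A ∨ B ≠ B') : (B \ A).card < (B' \ A').card := by
  refine card_lt_card ⟨sdiff_subset_sdiff h2 h1, fun h4 => ?_⟩
  rcases h3 with h3 | h3
  · apply h3
    refine Finset.Subset.antisymm h1 fun i hi => ?_
    by_contra h5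
    have h6 := h4 (mem_sdiff.2 ⟨h2 (h hi), h5⟩)
    exact (mem_sdiff.1 h6).2 hi
  · apply h3
    refine Finset.Subset.antisymm h2 fun i hi => ?_
    by_contra h5
    have h6 := h4 (mem_sdiff.2 ⟨hi, fun h7 => h5 (h (h1 h7))⟩)
    exact h5 (mem_sdiff.1 h6).1

theorem diag_eq {q : Finset ι × Finset ι} (h : q.1 = q.2) : q = (q.1, q.1) :=
  Prod.ext rfl h.symm

section step

variable {C : Finset (Finset ι × Finset ι)} {A B : Finset ι}

/-- a minimal face which is not yet contracted -/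
structure Mi (C : Finset (Finset ι × Finset ι)) (A B : Finset ι) : Prop where
  vd : Vd (A, B)
  nm : (A, B) ∉ C
  lo : ∀ r, Vd r → (r.2 \ r.1).card < (B \ A).card → r ∈ C
  hi : ∀ q ∈ C, (q.2 \ q.1).card ≤ (B \ A).card

theorem Mi.sub (h : Mi C A B) : A ⊆ B := h.vd.1

theorem Mi.two (h : Mi C A B) : 2 ≤ (B \ A).card := h.vd.2.1

theorem Mi.ne (h : Mi C A B) : A ≠ B := by
  intro e
  have h1 := h.two
  rw [e, Finset.sdiff_self, card_empty] at h1
  omega

theorem Mi.pair (h : Mi C A B) {D E : Finset ι} (h1 : D ⊂ E) (h2 : A ⊆ D) (h3 : E ⊆ B)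
    (h4 : A ≠ D ∨ E ≠ B) : (E \ D).card = 1 ∨ (D, E) ∈ C := by
  by_cases h5 : (E \ D).card = 1
  · exact Or.inl h5
  · right
    have h6 : (E \ D).card ≠ 0 := by
      intro h7
      rw [card_eq_zero, sdiff_eq_empty_iff_subset] at h7
      exact h1.2 h7
    refine h.lo (D, E) ⟨h1.1, ?_, ?_⟩ (card_lt h1.1 h2 h3 h4)
    · change 2 ≤ (E \ D).card
      omega
    · intro h7
      have h8 : D = ∅ := congrArg Prod.fst h7
      have h9 : E = univ := congrArg Prod.snd h7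
      have h10 : A = ∅ := subset_empty.1 (h8 ▸ h2)
      have h11 : B = univ := univ_subset_iff.1 (h9 ▸ h3)
      exact h.vd.2.2 (Prod.ext h10 h11)

/-- the faces below -/
theorem Mi.below (h : Mi C A B) {y : Finset ι × Finset ι} (hy : y ∈ Sv C) (h1 : A ⊆ y.1)
    (h2 : y.2 ⊆ B) (h3 : y ≠ (A, B)) : y.1 = y.2 := by
  rw [mem_Sv] at hy
  by_contra h4
  have h5 : (y.2 \ y.1).card ≠ 0 := by
    intro h6
    rw [card_eq_zero, sdiff_eq_empty_iff_subset] at h6
    exact h4 (Finset.Subset.antisymm hy.1 h6)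
  refine hy.2.2.2 (h.lo y ⟨hy.1, by omega, hy.2.2.1⟩ (card_lt hy.1 h1 h2 ?_))
  by_contra h6
  rw [not_or, not_not, not_not] at h6
  exact h3 (Prod.ext h6.1.symm h6.2)

theorem Mi.no_up (h : Mi C A B) {D E : Finset ι} (h1 : D ⊆ A) (h2 : B ⊆ E)
    (h3 : D ≠ A ∨ B ≠ E) : ¬ ((E \ D).card = 1 ∨ (D, E) ∈ C) := by
  have h4 := card_lt h.sub h1 h2 h3
  have h5 := h.two
  rintro (h6 | h6)
  · omega
  · have h7 := h.hi _ h6
    change (E \ D).card ≤ _ at h7
    omega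

theorem Mi.t_iff (h : Mi C A B) {y : Finset ι × Finset ι} (hy : y ∈ Sv C) (hs : y ≠ (A, A))
    (ht : y ≠ (A, B)) : (rl C (A, B) y ∨ rl C y (A, B)) ↔
      (y.1 ⊆ A ∧ B ⊆ y.2) ∨ (y.1 = y.2 ∧ A ⊂ y.1 ∧ y.1 ⊆ B) := by
  constructor
  · rintro ((⟨h1, h2, -⟩ | ⟨h1, -⟩) | (⟨h1, h2, -⟩ | ⟨-, h1, -⟩))
    · exact Or.inl ⟨h1, h2⟩
    · exact absurd h1 h.ne
    · right
      have h3 := h.below hy h1 h2 ht
      refine ⟨h3, ⟨h1, fun h4 => hs ?_⟩, h3 ▸ h2⟩
      have h5 : y.1 = A := Finset.Subset.antisymm h4 h1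
      exact Prod.ext h5 (h3 ▸ h5)
    · exact absurd h1 h.ne
  · rintro (⟨h1, h2⟩ | ⟨h1, h2, h3⟩)
    · exact Or.inl (Or.inl ⟨h1, h2, ht.symm⟩)
    · exact Or.inr (Or.inl ⟨h2.1, h1 ▸ h3, ht⟩)

theorem Mi.s_iff (h : Mi C A B) {y : Finset ι × Finset ι} (hy : y ∈ Sv C) (hs : y ≠ (A, A)) :
    (rl C (A, A) y ∨ rl C y (A, A)) ↔ (y.1 ⊆ A ∧ A ⊆ y.2) ∨
      (y.1 = y.2 ∧ A ⊂ y.1 ∧ ((y.1 \ A).card = 1 ∨ (A, y.1) ∈ C)) ∨
      (y.1 = y.2 ∧ y.1 ⊂ A ∧ ((A \ y.1).card = 1 ∨ (y.1, A) ∈ C)) := by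
  constructor
  · rintro ((⟨h1, h2, -⟩ | ⟨-, h1, h2, h3⟩) | (⟨h1, h2, -⟩ | ⟨h1, -, h2, h3⟩))
    · exact Or.inl ⟨h1, h2⟩
    · exact Or.inr (Or.inl ⟨h1, h2, h3⟩)
    · exfalso
      apply hs
      have h3 := (mem_Sv.1 hy).1
      exact Prod.ext (Finset.Subset.antisymm (h3.trans h2) h1)
        (Finset.Subset.antisymm h2 (h1.trans h3))
    · exact Or.inr (Or.inr ⟨h1, h2, h3⟩)
  · rintro (⟨h1, h2⟩ | ⟨h1, h2, h3⟩ | ⟨h1, h2, h3⟩)
    · exact Or.inl (Or.inl ⟨h1, h2, hs.symm⟩)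
    · exact Or.inl (Or.inr ⟨rfl, h1, h2, h3⟩)
    · exact Or.inr (Or.inr ⟨h1, rfl, h2, h3⟩)

theorem Mi.sq (h : Mi C A B) {x y : Finset ι × Finset ι} (hx : x ∈ Sv C) (hy : y ∈ Sv C)
    (hxs : x ≠ (A, A)) (hxt : x ≠ (A, B)) (hys : y ≠ (A, A)) (hyt : y ≠ (A, B))
    (h1 : rl C (A, A) x ∨ rl C x (A, A)) (h2 : rl C (A, B) y ∨ rl C y (A, B))
    (h3 : ¬ (rl C (A, B) x ∨ rl C x (A, B))) (h4 : ¬ (rl C (A, A) y ∨ rl C y (A, A))) :
    ¬ (rl C x y ∨ rl C y x) := by
  rw [h.s_iff hx hxs] at h1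
  rw [h.t_iff hy hys hyt] at h2
  rw [h.t_iff hx hxs hxt] at h3
  rw [h.s_iff hy hys] at h4
  rw [not_or] at h3 h4
  have hyB : y.1 = B ∧ y.2 = B := by
    rcases h2 with ⟨h5, h6⟩ | ⟨h5, h6, h7⟩
    · exact absurd ⟨h5, h.sub.trans h6⟩ h4.1
    · have h8 : y.1 = B := by
        by_contra h8
        exact (not_or.1 h4.2).1 ⟨h5, h6, h.pair h6 (Finset.Subset.refl A) h7 (Or.inr h8)⟩
      exact ⟨h8, h5 ▸ h8⟩
  have hxx := (mem_Sv.1 hx).1
  have key : ¬ (x.1 = B ∧ x.2 = B) := by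
    rintro ⟨h5, h6⟩
    refine h3.2 ⟨h5.trans h6.symm, ?_, h5.subset⟩
    rw [h5]
    exact ⟨h.sub, fun h7 => h.ne (Finset.Subset.antisymm h.sub h7)⟩
  have hc : (x.1 ⊆ B ∧ B ⊆ x.2) ∨ (x.1 = x.2 ∧ x.1 ⊂ B ∧ ((B \ x.1).card = 1 ∨ (x.1, B) ∈ C)) ∨
      (x.1 = x.2 ∧ B ⊂ x.1 ∧ ((x.1 \ B).card = 1 ∨ (B, x.1) ∈ C)) → False := by
    intro h5
    rcases h1 with ⟨h6, h7⟩ | ⟨h6, h7, h8⟩ | ⟨h6, h7, h8⟩
    · rcases h5 with ⟨h9, h10⟩ | ⟨h9, -⟩ | ⟨h9, -⟩
      · exact h3.1 ⟨h6, h10⟩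
      · have h10 : x.1 = A := Finset.Subset.antisymm h6 (h9 ▸ h7)
        exact hxs (Prod.ext h10 (h9 ▸ h10))
      · have h10 : x.1 = A := Finset.Subset.antisymm h6 (h9 ▸ h7)
        exact hxs (Prod.ext h10 (h9 ▸ h10))
    · rcases h5 with ⟨h9, h10⟩ | ⟨-, h9, -⟩ | ⟨-, h9, -⟩
      · have h11 : x.1 = B := Finset.Subset.antisymm h9 (h6 ▸ h10)
        exact key ⟨h11, h6 ▸ h11⟩
      · exact h3.2 ⟨h6, h7, h9.1⟩
      · exact h.no_up (Finset.Subset.refl A) h9.1 (Or.inr fun e => h9.2 e.symm.subset) h8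
    · rcases h5 with ⟨h9, h10⟩ | ⟨-, h9, h10⟩ | ⟨-, h9, -⟩
      · exact h7.2 (h.sub.trans (h6 ▸ h10))
      · exact h.no_up h7.1 (Finset.Subset.refl B) (Or.inl fun e => h7.2 e.symm.subset) h10
      · exact h9.2 (h7.1.trans h.sub)
  intro h5
  apply hc
  rcases h5 with (⟨h6, h7, -⟩ | ⟨h6, -, h7, h8⟩) | (⟨h6, h7, -⟩ | ⟨-, h6, h7, h8⟩)
  · rw [hyB.1] at h6
    rw [hyB.2] at h7
    exact absurd ⟨Finset.Subset.antisymm (hxx.trans h7) h6,
      Finset.Subset.antisymm h7 (h6.trans hxx)⟩ key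
  · rw [hyB.1] at h7 h8
    exact Or.inr (Or.inl ⟨h6, h7, h8⟩)
  · rw [hyB.1] at h6
    rw [hyB.2] at h7
    exact Or.inl ⟨h6, h7⟩
  · rw [hyB.1] at h7 h8
    exact Or.inr (Or.inr ⟨h6, h7, h8⟩)

/-- the part of the link below -/
def L1 (A B : Finset ι) : Finset (Finset ι × Finset ι) :=
  univ.filter fun q => q.1 = q.2 ∧ A ⊂ q.1 ∧ q.1 ⊂ B

/-- the part of the link above -/
def L2 (A B : Finset ι) : Finset (Finset ι × Finset ι) :=
  univ.filter fun q => q.1 ⊆ A ∧ B ⊆ q.2 ∧ q ≠ (A, B) ∧ q ≠ (∅, univ)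

theorem mem_L1 {q : Finset ι × Finset ι} : q ∈ L1 A B ↔ q.1 = q.2 ∧ A ⊂ q.1 ∧ q.1 ⊂ B := by
  unfold L1
  rw [mem_filter]
  exact ⟨fun h => h.2, fun h => ⟨mem_univ _, h⟩⟩

theorem mem_L2 {q : Finset ι × Finset ι} :
    q ∈ L2 A B ↔ q.1 ⊆ A ∧ B ⊆ q.2 ∧ q ≠ (A, B) ∧ q ≠ (∅, univ) := by
  unfold L2
  rw [mem_filter]
  exact ⟨fun h => h.2, fun h => ⟨mem_univ _, h⟩⟩

theorem diag_mem (hC : Pr C) (hn : (∅ : Finset ι) ≠ univ) {D : Finset ι} : (D, D) ∈ Sv C := by
  rw [mem_Sv]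
  refine ⟨Finset.Subset.refl D, ?_, ?_, ?_⟩
  · change (D \ D).card ≠ 1
    rw [Finset.sdiff_self, card_empty]
    norm_num
  · intro h
    have h1 : D = ∅ := congrArg Prod.fst h
    have h2 : D = univ := congrArg Prod.snd h
    exact hn (h1.symm.trans h2)
  · intro h
    have h1 := (hC.vd _ h).2.1
    change 2 ≤ (D \ D).card at h1
    rw [Finset.sdiff_self, card_empty] at h1
    omega

theorem Mi.mem_link (h : Mi C A B) (hC : Pr C) (hn : (∅ : Finset ι) ≠ univ)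
    (x : Finset ι × Finset ι) : x ∈ L1 A B ∪ L2 A B ↔ x ∈ Sv C ∧ x ≠ (A, A) ∧ x ≠ (A, B) ∧
      (rl C (A, A) x ∨ rl C x (A, A)) ∧ (rl C (A, B) x ∨ rl C x (A, B)) := by
  rw [mem_union, mem_L1, mem_L2]
  constructor
  · rintro (⟨h1, h2, h3⟩ | ⟨h1, h2, h3, h4⟩)
    · have h4 : x ≠ (A, A) := fun e => h2.2 (by rw [e])
      have h5 : x ≠ (A, B) := by
        intro e
        rw [e] at h1
        exact h.ne h1
      have h6 : x ∈ Sv C := by
        rw [diag_eq h1]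
        exact diag_mem hC hn
      refine ⟨h6, h4, h5, ?_, ?_⟩
      · rw [h.s_iff h6 h4]
        exact Or.inr (Or.inl ⟨h1, h2, h.pair h2 (Finset.Subset.refl A) h3.1
          (Or.inr fun e => h3.2 e.symm.subset)⟩)
      · rw [h.t_iff h6 h4 h5]
        exact Or.inr ⟨h1, h2, h3.1⟩
    · have h5 : x ≠ (A, A) := by
        rintro rfl
        exact h.ne (Finset.Subset.antisymm h.sub h2)
      have h7 : (B \ A).card < (x.2 \ x.1).card := by
        refine card_lt h.sub h1 h2 ?_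
        by_contra h8
        rw [not_or, not_not, not_not] at h8
        exact h3 (Prod.ext h8.1 h8.2.symm)
      have h8 := h.two
      have h6 : x ∈ Sv C := by
        rw [mem_Sv]
        refine ⟨h1.trans (h.sub.trans h2), by omega, h4, fun h9 => ?_⟩
        have := h.hi x h9
        omega
      refine ⟨h6, h5, h3, ?_, ?_⟩
      · rw [h.s_iff h6 h5]
        exact Or.inl ⟨h1, h.sub.trans h2⟩
      · rw [h.t_iff h6 h5 h3]
        exact Or.inl ⟨h1, h2⟩
  · rintro ⟨h1, h2, h3, h4, h5⟩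
    rw [h.t_iff h1 h2 h3] at h5
    rcases h5 with ⟨h5, h6⟩ | ⟨h5, h6, h7⟩
    · exact Or.inr ⟨h5, h6, h3, (mem_Sv.1 h1).2.2.1⟩
    · left
      refine ⟨h5, h6, ⟨h7, fun h8 => ?_⟩⟩
      have h9 : x.1 = B := Finset.Subset.antisymm h7 h8
      rw [h.s_iff h1 h2] at h4
      rcases h4 with ⟨h10, h11⟩ | ⟨-, -, h10⟩ | ⟨-, h10, -⟩
      · exact h6.2 h10
      · rw [h9] at h10
        have h11 := h.two
        rcases h10 with h10 | h10
        · omega
        · exact h.nm h10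
      · exact h6.2 h10.1

theorem Mi.disj (h : Mi C A B) : Disjoint (L1 A B) (L2 A B) := by
  rw [Finset.disjoint_left]
  intro x hx hx'
  rw [mem_L1] at hx
  rw [mem_L2] at hx'
  exact hx.2.1.2 hx'.1

theorem Mi.join (h : Mi C A B) {x y : Finset ι × Finset ι} (hx : x ∈ L1 A B) (hy : y ∈ L2 A B) :
    rl C x y := by
  rw [mem_L1] at hx
  rw [mem_L2] at hy
  refine Or.inl ⟨hy.1.trans hx.2.1.1, hx.1 ▸ hx.2.2.1.trans hy.2.1, ?_⟩
  rintro rfl
  exact hx.2.1.2 hy.1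

theorem Mi.zg1 (h : Mi C A B) (he : Even (B \ A).card) : ZG (rm (rl C)) (L1 A B) := by
  have hAB : A ⊂ B := ⟨h.sub, fun h1 => h.ne (Finset.Subset.antisymm h.sub h1)⟩
  rw [zg_rm (R' := fun x y : Finset ι => x < y)
    (S' := univ.filter fun H : Finset ι => A ⊂ H ∧ H ⊂ B) Prod.fst]
  · exact bool_zg hAB he
  · intro x hx y hy e
    rw [mem_L1] at hx hy
    rw [diag_eq hx.1, diag_eq hy.1, e]
  · ext D
    rw [mem_image, mem_filter]
    constructor
    · rintro ⟨x, hx, rfl⟩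
      rw [mem_L1] at hx
      exact ⟨mem_univ _, hx.2⟩
    · rintro ⟨-, h1⟩
      exact ⟨(D, D), mem_L1.2 ⟨rfl, h1⟩, rfl⟩
  · intro x hx y hy hxy
    rw [mem_L1] at hx hy
    have key : ∀ {u v : Finset ι × Finset ι}, (u.1 = u.2 ∧ A ⊂ u.1 ∧ u.1 ⊂ B) →
        (v.1 = v.2 ∧ A ⊂ v.1 ∧ v.1 ⊂ B) → u ≠ v → (rl C u v ↔ u.1 < v.1) := by
      intro u v hu hv huv
      constructor
      · rintro (⟨h1, h2, -⟩ | ⟨-, -, h1, -⟩)
        · exfalso
          rw [← hu.1, ← hv.1] at h2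
          have h3 := Finset.Subset.antisymm h2 h1
          apply huv
          rw [diag_eq hu.1, diag_eq hv.1, h3]
        · exact h1
      · intro h1
        exact Or.inr ⟨hu.1, hv.1, h1, h.pair h1 hu.2.1.1 hv.2.2.1
          (Or.inl fun e => hu.2.1.2 e.symm.subset)⟩
    rw [key hx hy hxy, key hy hx hxy.symm]

theorem Mi.zg2 (h : Mi C A B) (he : Even (A ∪ Bᶜ).card) : ZG (rm (rl C)) (L2 A B) := by
  have hne : (∅ : Finset ι) ⊂ A ∪ Bᶜ := by
    refine ⟨empty_subset _, fun h1 => h.vd.2.2 ?_⟩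
    have h2 := subset_empty.1 h1
    rw [union_eq_empty, compl_eq_empty_iff] at h2
    exact Prod.ext h2.1 h2.2
  have hk : ∀ x ∈ L2 A B, ∀ i, i ∈ x.1 ↔ i ∈ x.1 ∪ x.2ᶜ ∧ i ∈ A := by
    intro x hx i
    rw [mem_L2] at hx
    rw [mem_union, mem_compl]
    constructor
    · exact fun h1 => ⟨Or.inl h1, hx.1 h1⟩
    · rintro ⟨h1 | h1, h2⟩
      · exact h1
      · exact absurd (hx.2.1 (h.sub h2)) h1
  have hk' : ∀ x ∈ L2 A B, ∀ i, i ∈ x.2 ↔ i ∉ x.1 ∪ x.2ᶜ ∨ i ∈ B := by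
    intro x hx i
    rw [mem_L2] at hx
    rw [mem_union, mem_compl, not_or, not_not]
    constructor
    · intro h1
      by_cases h2 : i ∈ x.1
      · exact Or.inr (h.sub (hx.1 h2))
      · exact Or.inl ⟨h2, h1⟩
    · rintro (⟨-, h1⟩ | h1)
      · exact h1
      · exact hx.2.1 h1
  have hord : ∀ x ∈ L2 A B, ∀ y ∈ L2 A B,
      (x.1 ∪ x.2ᶜ ⊆ y.1 ∪ y.2ᶜ ↔ x.1 ⊆ y.1 ∧ y.2 ⊆ x.2) := by
    intro x hx y hy
    constructor
    · intro h1
      refine ⟨fun i hi => ?_, fun i hi => ?_⟩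
      · rw [hk x hx] at hi
        rw [hk y hy]
        exact ⟨h1 hi.1, hi.2⟩
      · rw [hk' y hy] at hi
        rw [hk' x hx]
        exact hi.imp (fun h2 h3 => h2 (h1 h3)) id
    · rintro ⟨h1, h2⟩
      exact union_subset_union h1 (compl_subset_compl.2 h2)
  rw [zg_rm (R' := fun x y : Finset ι => x < y)
    (S' := univ.filter fun H : Finset ι => ∅ ⊂ H ∧ H ⊂ A ∪ Bᶜ) fun x => x.1 ∪ x.2ᶜ]
  · refine bool_zg hne ?_
    rwa [sdiff_empty]
  · intro x hx y hy e
    have h1 := (hord x hx y hy).1 e.subset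
    have h2 := (hord y hy x hx).1 e.symm.subset
    exact Prod.ext (Finset.Subset.antisymm h1.1 h2.1) (Finset.Subset.antisymm h2.2 h1.2)
  · ext H
    rw [mem_image, mem_filter]
    constructor
    · rintro ⟨x, hx, rfl⟩
      have hx' := mem_L2.1 hx
      refine ⟨mem_univ _, ⟨empty_subset _, fun h1 => hx'.2.2.2 ?_⟩, union_subset_union hx'.1
        (compl_subset_compl.2 hx'.2.1), fun h1 => hx'.2.2.1 ?_⟩
      · have h2 := subset_empty.1 h1
        rw [union_eq_empty, compl_eq_empty_iff] at h2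
        exact Prod.ext h2.1 h2.2
      · refine Prod.ext (Finset.Subset.antisymm hx'.1 fun i hi => ?_)
          (Finset.Subset.antisymm (fun i hi => ?_) hx'.2.1)
        · rw [hk x hx]
          exact ⟨h1 (mem_union_left _ hi), hi⟩
        · rw [hk' x hx] at hi
          rcases hi with h2 | h2
          · by_contra h3
            exact h2 (h1 (mem_union_right _ (mem_compl.2 h3)))
          · exact h2
    · rintro ⟨-, h1, h2⟩
      have e : (H ∩ A) ∪ ((H \ A)ᶜ)ᶜ = H := by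
        rw [compl_compl]
        ext i
        simp only [mem_union, Finset.mem_inter, mem_sdiff]
        tauto
      refine ⟨(H ∩ A, (H \ A)ᶜ), ?_, e⟩
      rw [mem_L2]
      refine ⟨inter_subset_right, fun i hi => ?_, fun h3 => ?_, fun h3 => ?_⟩
      · rw [mem_compl, mem_sdiff]
        rintro ⟨h3, h4⟩
        rcases mem_union.1 (h2.1 h3) with h5 | h5
        · exact h4 h5
        · exact (mem_compl.1 h5) hi
      · have h4 : H ∩ A = A := congrArg Prod.fst h3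
        have h5 : (H \ A)ᶜ = B := congrArg Prod.snd h3
        apply h2.2
        rw [← e, h4, h5]
      · have h4 : H ∩ A = ∅ := congrArg Prod.fst h3
        have h5 : (H \ A)ᶜ = univ := congrArg Prod.snd h3
        apply h1.2
        rw [← e, h4, h5, compl_univ, union_empty]
  · intro x hx y hy hxy
    have key : ∀ {u v : Finset ι × Finset ι}, u ∈ L2 A B → v ∈ L2 A B → u ≠ v →
        (rl C u v ↔ v.1 ∪ v.2ᶜ < u.1 ∪ u.2ᶜ) := by
      intro u v hu hv huv
      constructor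
      · rintro (⟨h1, h2, -⟩ | ⟨h1, -⟩)
        · refine ⟨(hord v hv u hu).2 ⟨h1, h2⟩, fun h3 => huv ?_⟩
          have h4 := (hord u hu v hv).1 h3
          exact Prod.ext (Finset.Subset.antisymm h4.1 h1) (Finset.Subset.antisymm h2 h4.2)
        · exfalso
          rw [mem_L2] at hu
          exact h.ne (Finset.Subset.antisymm h.sub (hu.2.1.trans (h1 ▸ hu.1)))
      · intro h1
        have h2 := (hord v hv u hu).1 h1.1
        exact Or.inl ⟨h2.1, h2.2, huv⟩
    rw [key hx hy hxy, key hy hx hxy.symm, or_comm]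

theorem Mi.zg_link (h : Mi C A B) (ho : Odd (Fintype.card ι)) :
    ZG (rm (rl C)) (L1 A B ∪ L2 A B) := by
  have h1 : (A ∪ Bᶜ).card + (B \ A).card = Fintype.card ι := by
    have h2 : A ∪ Bᶜ = (B \ A)ᶜ := by
      ext i
      simp only [mem_union, mem_compl, mem_sdiff]
      tauto
    rw [h2, card_compl_add_card]
  rcases Nat.even_or_odd (B \ A).card with h2 | h2
  · exact rm_join h.disj (fun y hy x hx => Or.inr (h.join hx hy)) (h.zg1 h2)
  · have h3 : Even (A ∪ Bᶜ).card := by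
      rw [Nat.odd_iff] at ho h2
      rw [Nat.even_iff]
      omega
    rw [union_comm]
    exact rm_join h.disj.symm (fun x hx y hy => Or.inl (h.join hx hy)) (h.zg2 h3)

theorem Mi.pr (h : Mi C A B) (hC : Pr C) : Pr (insert (A, B) C) where
  vd q hq := by
    rw [mem_insert] at hq
    rcases hq with rfl | hq
    · exact h.vd
    · exact hC.vd q hq
  lo q hq r hr hlt := by
    rw [mem_insert] at hq ⊢
    right
    rcases hq with rfl | hq
    · exact h.lo r hr hlt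
    · exact hC.lo q hq r hr hlt

theorem Mi.erase (h : Mi C A B) : (Sv C).erase (A, B) = Sv (insert (A, B) C) := by
  ext q
  rw [mem_erase, mem_Sv, mem_Sv, mem_insert, not_or]
  tauto

theorem Mi.step (h : Mi C A B) (hC : Pr C) (ho : Odd (Fintype.card ι))
    (hn : (∅ : Finset ι) ≠ univ) (ih : ZG (rm (rl (insert (A, B) C))) (Sv (insert (A, B) C))) :
    ZG (rm (rl C)) (Sv C) := by
  have hAB : (A, A) ≠ (A, B) := fun e => h.ne (congrArg Prod.snd e)
  have hmono : ∀ {x y : Finset ι × Finset ι}, rl C x y → rl (insert (A, B) C) x y := by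
    intro x y h1
    rcases h1 with h1 | ⟨h1, h2, h3, h4⟩
    · exact Or.inl h1
    · exact Or.inr ⟨h1, h2, h3, h4.imp id fun h5 => mem_insert_of_mem h5⟩
  have hback : ∀ {x y : Finset ι × Finset ι}, rl (insert (A, B) C) x y → rl C x y ∨
      (x = (A, A) ∧ y = (B, B)) := by
    intro x y h1
    rcases h1 with h1 | ⟨h1, h2, h3, h4⟩
    · exact Or.inl (Or.inl h1)
    · rcases h4 with h4 | h4
      · exact Or.inl (Or.inr ⟨h1, h2, h3, Or.inl h4⟩)
      · rw [mem_insert] at h4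
        rcases h4 with h4 | h4
        · right
          have h5 : x.1 = A := congrArg Prod.fst h4
          have h6 : y.1 = B := congrArg Prod.snd h4
          rw [diag_eq h1, diag_eq h2, h5, h6]
          exact ⟨rfl, rfl⟩
        · exact Or.inl (Or.inr ⟨h1, h2, h3, Or.inr h4⟩)
  refine rm_contr (s := (A, A)) (t := (A, B)) (R' := rl (insert (A, B) C)) (diag_mem hC hn) ?_ hAB
    (Or.inl (Or.inl ⟨Finset.Subset.refl A, h.sub, hAB⟩)) ?_ (h.mem_link hC hn) (h.zg_link ho) ?_ ?_ ?_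
  · rw [mem_Sv]
    have h1 := h.two
    refine ⟨h.sub, ?_, h.vd.2.2, h.nm⟩
    change (B \ A).card ≠ 1
    omega
  · intro x hx y hy h1 h2 h3 h4 h5 h6 h7 h8
    exact h.sq hx hy h1 h2 h3 h4 h5 h6 h7 h8
  · rw [h.erase]
    exact ih
  · intro x _ y _ _ _ _ hxs hys
    constructor
    · rintro (h1 | h1)
      · exact Or.inl ((hback h1).resolve_right fun h2 => hxs h2.1)
      · exact Or.inr ((hback h1).resolve_right fun h2 => hys h2.1)
    · exact fun h1 => h1.imp hmono hmono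
  · intro x hx hxt hxs
    constructor
    · rintro (h1 | h1)
      · rcases hback h1 with h2 | ⟨-, h2⟩
        · exact Or.inl (Or.inl h2)
        · right
          rw [h.t_iff hx hxs hxt, h2]
          exact Or.inr ⟨rfl, ⟨h.sub, fun h3 => h.ne (Finset.Subset.antisymm h.sub h3)⟩,
            Finset.Subset.refl B⟩
      · rcases hback h1 with h2 | ⟨h2, -⟩
        · exact Or.inl (Or.inr h2)
        · exact absurd h2 hxs
    · rintro (h1 | h1)
      · exact h1.imp hmono hmono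
      · rw [h.t_iff hx hxs hxt] at h1
        rcases h1 with ⟨h1, h2⟩ | ⟨h1, h2, h3⟩
        · exact Or.inl (Or.inl ⟨h1, h.sub.trans h2, hxs.symm⟩)
        · left
          refine Or.inr ⟨rfl, h1, h2, ?_⟩
          by_cases h4 : x.1 = B
          · right
            rw [h4]
            exact mem_insert_self _ _
          · exact (h.pair h2 (Finset.Subset.refl A) h3 (Or.inr h4)).imp id
              fun h5 => mem_insert_of_mem h5

end step

theorem dm_base {C : Finset (Finset ι × Finset ι)} (hC : Pr C) (hn : 2 ≤ Fintype.card ι)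
    (hall : ∀ r, Vd r → r ∈ C) : ZG (rm (rl C)) (Sv C) := by
  have hne : (∅ : Finset ι) ≠ univ := by
    intro h
    rw [eq_comm, ← card_eq_zero, card_univ] at h
    omega
  have hdiag : ∀ q ∈ Sv C, q.1 = q.2 := by
    intro q hq
    rw [mem_Sv] at hq
    by_contra h4
    have h5 : (q.2 \ q.1).card ≠ 0 := by
      intro h6
      rw [card_eq_zero, sdiff_eq_empty_iff_subset] at h6
      exact h4 (Finset.Subset.antisymm hq.1 h6)
    exact hq.2.2.2 (hall q ⟨hq.1, by omega, hq.2.2.1⟩)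
  have hadj : ∀ D E : Finset ι, D ⊂ E → (D, E) ≠ (∅, univ) → rl C (D, D) (E, E) := by
    intro D E h1 h2
    refine Or.inr ⟨rfl, rfl, h1, ?_⟩
    change (E \ D).card = 1 ∨ (D, E) ∈ C
    by_cases h3 : (E \ D).card = 1
    · exact Or.inl h3
    · right
      have h6 : (E \ D).card ≠ 0 := by
        intro h7
        rw [card_eq_zero, sdiff_eq_empty_iff_subset] at h7
        exact h1.2 h7
      refine hall _ ⟨h1.1, ?_, h2⟩
      change 2 ≤ (E \ D).card
      omega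
  obtain ⟨Y, hY⟩ : ∃ Y, Y = ((Sv C).erase (univ, univ)).erase (∅, ∅) := ⟨_, rfl⟩
  have hne' : ((∅ : Finset ι), (∅ : Finset ι)) ≠ (univ, univ) := fun e => hne (congrArg Prod.fst e)
  have e1 : Sv C = insert (∅, ∅) (insert (univ, univ) Y) := by
    rw [hY, insert_comm, insert_erase, insert_erase (diag_mem hC hne)]
    exact mem_erase.2 ⟨hne', diag_mem hC hne⟩
  rw [e1]
  refine rm_susp ?_ ?_ hne' ?_ ?_
  · rw [hY]
    exact Finset.notMem_erase _ _
  · rw [hY]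
    intro h
    exact Finset.notMem_erase _ _ (mem_of_mem_erase h)
  · rintro ((⟨h1, -, -⟩ | ⟨-, -, -, h1⟩) | (⟨-, h1, -⟩ | ⟨-, -, h1, -⟩))
    · exact hne (Finset.Subset.antisymm (empty_subset _) h1)
    · change ((univ : Finset ι) \ ∅).card = 1 ∨ ((∅ : Finset ι), (univ : Finset ι)) ∈ C at h1
      rw [sdiff_empty, card_univ] at h1
      rcases h1 with h1 | h1
      · omega
      · exact (hC.vd _ h1).2.2 rfl
    · exact hne (Finset.Subset.antisymm (empty_subset _) h1)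
    · exact h1.2 (empty_subset _)
  · intro y hy
    rw [hY, mem_erase, mem_erase] at hy
    have h1 := hdiag y hy.2.2
    have h2 := diag_eq h1
    have h3 : y.1 ≠ ∅ := fun e => hy.1 (by rw [h2, e])
    have h4 : y.1 ≠ univ := fun e => hy.2.1 (by rw [h2, e])
    rw [h2]
    refine ⟨Or.inl (hadj ∅ y.1 (empty_ssubset.2 (nonempty_iff_ne_empty.2 h3)) fun e => h4
      (congrArg Prod.snd e)), Or.inr (hadj y.1 univ (ssubset_univ_iff.2 h4) fun e => h3
      (congrArg Prod.fst e))⟩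

/-- The Coxeter complex of type `D`. -/
theorem dm_zg (ho : Odd (Fintype.card ι)) (hn : 2 ≤ Fintype.card ι) :
    ∀ (n : ℕ) (C : Finset (Finset ι × Finset ι)), Pr C → Cᶜ.card = n →
      ZG (rm (rl C)) (Sv C) := by
  classical
  intro n
  induction n with
  | zero =>
    intro C hC hc
    rw [card_eq_zero, compl_eq_empty_iff] at hc
    refine dm_base hC hn fun r _ => ?_
    rw [hc]
    exact mem_univ r
  | succ n ih =>
    intro C hC hc
    by_cases hall : ∀ r, Vd r → r ∈ C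
    · exact dm_base hC hn hall
    · push Not at hall
      obtain ⟨r, hr, hrC⟩ := hall
      obtain ⟨f, hf, hmin⟩ := exists_min_image (univ.filter fun q => Vd q ∧ q ∉ C)
        (fun q : Finset ι × Finset ι => (q.2 \ q.1).card) ⟨r, mem_filter.2 ⟨mem_univ _, hr, hrC⟩⟩
      rw [mem_filter] at hf
      obtain ⟨A, B⟩ := f
      have hM : Mi C A B := by
        refine ⟨hf.2.1, hf.2.2, fun r' hr' hlt => ?_, fun q hq => ?_⟩
        · by_contra h1
          have h2 := hmin r' (mem_filter.2 ⟨mem_univ _, hr', h1⟩)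
          change (B \ A).card ≤ _ at h2
          omega
        · by_contra h1
          rw [not_le] at h1
          exact hf.2.2 (hC.lo q hq (A, B) hf.2.1 h1)
      have hne : (∅ : Finset ι) ≠ univ := by
        intro h
        rw [eq_comm, ← card_eq_zero, card_univ] at h
        omega
      refine hM.step hC ho hne (ih _ (hM.pr hC) ?_)
      rw [compl_insert, card_erase_of_mem (mem_compl.2 hM.nm), hc]
      rfl

end LBL
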