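import Pool.Agent.LBL.Wt
import Pool.Agent.LBL.Dm

/-!
# Project LBL (architect helper40), module Dn: the Coxeter complex of type D

`Ds m n c pos`: the diagram of type `D n`, nodes `c 0, ..., c (n - 1)`; the nodes `c 0, ..., c (n - 2)` form a
path and `c (n - 1)` is joined to `c (n - 3)`.
-/

namespace LBL

open SCG Finset

variable {κ : Type}

/-- Diagrams of type D. -/
structure Ds (m : CoxeterMatrix κ) (n : ℕ) (c : ℕ → κ) (pos : κ → ℕ) : Prop where
  hn : 3 ≤ n
  pl : ∀ x, pos x < n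
  cp : ∀ x, c (pos x) = x
  pc : ∀ i, i < n → pos (c i) = i
  lab : ∀ i j, i < j → j < n → m (c i) (c j) =
    if (j + 1 < n ∧ j = i + 1) ∨ (j + 1 = n ∧ i + 3 = n) then 3 else 2

/-- the weight of a vector -/
def ew (n : ℕ) (pos : κ → ℕ) (p : ℕ → ℤ) : κ → ℤ := fun x =>
  if pos x + 1 < n then p (pos x) - p (pos x + 1) else p (n - 2) + p (n - 1)

namespace Ds

variable {m : CoxeterMatrix κ} {n : ℕ} {c : ℕ → κ} {pos : κ → ℕ} (h : Ds m n c pos)

include h

theorem c_ne {i j : ℕ} (hi : i < n) (hj : j < n) (hij : i ≠ j) : c i ≠ c j := by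
  intro e
  apply hij
  rw [← h.pc i hi, e, h.pc j hj]

theorem sl : SL m := by
  intro s t hst
  have h1 := h.cp s
  have h2 := h.cp t
  have h3 : pos s ≠ pos t := by
    intro e
    apply hst
    rw [← h1, ← h2, e]
  rcases lt_or_gt_of_ne h3 with h4 | h4
  · rw [← h1, ← h2, h.lab _ _ h4 (h.pl t)]
    split_ifs
    · exact Or.inr rfl
    · exact Or.inl rfl
  · rw [m.symmetric, ← h1, ← h2, h.lab _ _ h4 (h.pl s)]
    split_ifs
    · exact Or.inr rfl
    · exact Or.inl rfl

theorem cc_lt {i j : ℕ} (hij : i < j) (hj : j < n) : cc m (c i) (c j) =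
    if (j + 1 < n ∧ j = i + 1) ∨ (j + 1 = n ∧ i + 3 = n) then -1 else 0 := by
  have h1 := h.lab i j hij hj
  split_ifs with h2
  · rw [if_pos h2] at h1
    exact cc_three h1
  · rw [if_neg h2] at h1
    exact cc_two h1

theorem cc_gt {i j : ℕ} (hij : i < j) (hj : j < n) : cc m (c j) (c i) =
    if (j + 1 < n ∧ j = i + 1) ∨ (j + 1 = n ∧ i + 3 = n) then -1 else 0 := by
  have h1 := h.lab i j hij hj
  rw [m.symmetric] at h1
  split_ifs with h2
  · rw [if_pos h2] at h1
    exact cc_three h1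
  · rw [if_neg h2] at h1
    exact cc_two h1

theorem ew_c (p : ℕ → ℤ) {j : ℕ} (hj : j < n) : ew n pos p (c j) =
    if j + 1 < n then p j - p (j + 1) else p (n - 2) + p (n - 1) := by
  unfold ew
  rw [h.pc j hj]

theorem act_c (p : ℕ → ℤ) {k : ℕ} (hk : k + 1 < n) :
    wr m (c k) (ew n pos p) = ew n pos fun i => p (Equiv.swap k (k + 1) i) := by
  have hn := h.hn
  ext x
  obtain ⟨j, hj⟩ : ∃ j, j = pos x := ⟨_, rfl⟩
  have hjn : j < n := hj ▸ h.pl x
  have hx : x = c j := by rw [hj, h.cp]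
  rw [hx]
  unfold wr
  rw [h.ew_c _ hjn, h.ew_c _ (show k < n by omega), h.ew_c _ hjn, if_pos hk]
  rcases lt_trichotomy j k with h1 | h1 | h1
  · rw [h.cc_gt h1 (by omega)]
    simp only [Equiv.swap_apply_def]
    split_ifs <;> first | omega | (subst_vars; ring_nf; done)
  · rw [h1, cc_self]
    simp only [Equiv.swap_apply_def]
    split_ifs <;> first | omega | (subst_vars; ring_nf)
  · rw [h.cc_lt h1 hjn]
    have e1 : k + 1 = n - 2 → p (k + 1) = p (n - 2) := congrArg p
    have e2 : k + 1 = n - 1 → p (k + 1) = p (n - 1) := congrArg p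
    have e3 : k = n - 2 → p k = p (n - 2) := congrArg p
    have e4 : k + 1 = j → p (k + 1) = p j := congrArg p
    simp only [Equiv.swap_apply_def]
    split_ifs <;> first | omega | (subst_vars; ring_nf; done) | (rw [e1 (by omega)]; ring) |
      (rw [e2 (by omega), e3 (by omega)]) | (rw [e4 (by omega)]; ring)

theorem act_y (p : ℕ → ℤ) : wr m (c (n - 1)) (ew n pos p) = ew n pos fun i =>
    (if i + 2 = n ∨ i + 1 = n then -1 else 1) * p (Equiv.swap (n - 2) (n - 1) i) := by
  have hn := h.hn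
  ext x
  obtain ⟨j, hj⟩ : ∃ j, j = pos x := ⟨_, rfl⟩
  have hjn : j < n := hj ▸ h.pl x
  have hx : x = c j := by rw [hj, h.cp]
  rw [hx]
  unfold wr
  rw [h.ew_c _ hjn, h.ew_c _ (show n - 1 < n by omega), h.ew_c _ hjn,
    if_neg (show ¬ n - 1 + 1 < n by omega)]
  rcases lt_or_eq_of_le (show j ≤ n - 1 by omega) with h1 | h1
  · rw [h.cc_gt h1 (by omega)]
    have e1 : j + 1 = n - 2 → p (j + 1) = p (n - 2) := congrArg p
    have e2 : j + 1 = n - 1 → p (j + 1) = p (n - 1) := congrArg p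
    have e3 : j = n - 2 → p j = p (n - 2) := congrArg p
    simp only [Equiv.swap_apply_def]
    split_ifs <;> first | omega | (rw [e1 (by omega)]; ring) |
      (rw [e2 (by omega), e3 (by omega)]; ring) | ring
  · rw [h1, cc_self]
    simp only [Equiv.swap_apply_def]
    split_ifs <;> first | omega | ring

end Ds

end LBL
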