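import Pool.Agent.LBL.Dn

/-!
# Project LBL (architect helper40), module Dna: the Coxeter complex of type D, identification
-/

namespace LBL

open SCG Finset

variable {κ : Type}

/-- values in -1, 0, 1 -/
def Gd (n : ℕ) (p : ℕ → ℤ) : Prop := ∀ i < n, p i = 1 ∨ p i = 0 ∨ p i = -1

/-- the number of zeros -/
def zc (n : ℕ) (p : ℕ → ℤ) : ℕ := ((range n).filter fun i => p i = 0).card

/-- the basic vectors -/
def bp (n k : ℕ) : ℕ → ℤ := fun i =>
  if k + 2 < n then (if i ≤ k then 1 else 0) else if k + 2 = n then (if i + 1 < n then 1 else -1) else 1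

/-- adjacency of vectors -/
def MR (n : ℕ) (p p' : ℕ → ℤ) : Prop :=
  (∀ i < n, p i ≠ 0 → p' i = p i) ∨ (∀ i < n, p' i ≠ 0 → p i = p' i) ∨
    ((∀ i < n, p i ≠ 0) ∧ (∀ i < n, p' i ≠ 0) ∧ ∃ l < n, ∀ i < n, i ≠ l → p i = p' i)

/-- the face of the cube of a vector -/
def pr (n : ℕ) (p : ℕ → ℤ) : Finset (Fin n) × Finset (Fin n) :=
  (univ.filter fun i => p i = 1, univ.filter fun i => p i ≠ -1)

theorem mem_pr1 {n : ℕ} {p : ℕ → ℤ} {i : Fin n} : i ∈ (pr n p).1 ↔ p i = 1 := by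
  unfold pr
  rw [mem_filter]
  exact ⟨fun h => h.2, fun h => ⟨mem_univ _, h⟩⟩

theorem mem_pr2 {n : ℕ} {p : ℕ → ℤ} {i : Fin n} : i ∈ (pr n p).2 ↔ p i ≠ -1 := by
  unfold pr
  rw [mem_filter]
  exact ⟨fun h => h.2, fun h => ⟨mem_univ _, h⟩⟩

theorem pr_sub {n : ℕ} {p : ℕ → ℤ} : (pr n p).1 ⊆ (pr n p).2 := by
  intro i hi
  rw [mem_pr1] at hi
  rw [mem_pr2, hi]
  norm_num

theorem pr_card {n : ℕ} {p : ℕ → ℤ} (hp : Gd n p) :
    ((pr n p).2 \ (pr n p).1).card = zc n p := by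
  unfold zc
  refine card_bij (fun i _ => i.1) ?_ (fun i _ j _ e => Fin.ext e) ?_
  · intro i hi
    rw [mem_sdiff, mem_pr1, mem_pr2] at hi
    rw [mem_filter, mem_range]
    refine ⟨i.2, ?_⟩
    rcases hp i i.2 with h | h | h
    · exact absurd h hi.2
    · exact h
    · exact absurd h hi.1
  · intro i hi
    rw [mem_filter, mem_range] at hi
    refine ⟨⟨i, hi.1⟩, ?_, rfl⟩
    rw [mem_sdiff, mem_pr1, mem_pr2]
    change p i ≠ -1 ∧ ¬ p i = 1
    rw [hi.2]
    norm_num

theorem pr_inj {n : ℕ} {p p' : ℕ → ℤ} (hp : Gd n p) (hp' : Gd n p') (h : pr n p = pr n p') :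
    ∀ i < n, p i = p' i := by
  intro i hi
  have h1 : p i = 1 ↔ p' i = 1 := by
    have := mem_pr1 (n := n) (p := p) (i := ⟨i, hi⟩)
    rw [h, mem_pr1] at this
    exact this.symm
  have h2 : p i ≠ -1 ↔ p' i ≠ -1 := by
    have := mem_pr2 (n := n) (p := p) (i := ⟨i, hi⟩)
    rw [h, mem_pr2] at this
    exact this.symm
  rcases hp i hi with h3 | h3 | h3 <;> rcases hp' i hi with h4 | h4 | h4 <;> rw [h3, h4] at h1 h2 <;>
    first
    | (rw [h3, h4]; done)
    | (exfalso; norm_num at h1; done)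
    | (exfalso; norm_num at h2; done)

/-- the model relation -/
theorem rl_iff {n : ℕ} {p p' : ℕ → ℤ} (hp : Gd n p) (hp' : Gd n p') (hne : pr n p ≠ pr n p') :
    (rl ∅ (pr n p) (pr n p') ∨ rl ∅ (pr n p') (pr n p)) ↔ MR n p p' := by
  have key : ∀ {p p' : ℕ → ℤ}, Gd n p → Gd n p' → pr n p ≠ pr n p' →
      (rl ∅ (pr n p) (pr n p') → MR n p p') := by
    intro p p' hp hp' hne h1
    rcases h1 with ⟨h1, h2, -⟩ | ⟨h1, h2, h3, h4⟩
    · right; left
      intro i hi h3
      rcases hp' i hi with h4 | h4 | h4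
      · have h5 : (⟨i, hi⟩ : Fin n) ∈ (pr n p').1 := mem_pr1.2 h4
        rw [h4]
        exact mem_pr1.1 (h1 h5)
      · exact absurd h4 h3
      · by_contra h5
        rw [h4] at h5
        have h6 : (⟨i, hi⟩ : Fin n) ∈ (pr n p).2 := mem_pr2.2 h5
        exact mem_pr2.1 (h2 h6) h4
    · right; right
      have h5 : ∀ {q : ℕ → ℤ}, (pr n q).1 = (pr n q).2 → ∀ i < n, q i ≠ 0 := by
        intro q hq i hi h6
        have h7 : (⟨i, hi⟩ : Fin n) ∈ (pr n q).2 := mem_pr2.2 (by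
          change q i ≠ -1
          rw [h6]
          norm_num)
        rw [← hq, mem_pr1] at h7
        change q i = 1 at h7
        rw [h6] at h7
        norm_num at h7
      refine ⟨h5 h1, h5 h2, ?_⟩
      rcases h4 with h4 | h4
      · rw [card_eq_one] at h4
        obtain ⟨l, hl⟩ := h4
        refine ⟨l, l.2, fun i hi hil => ?_⟩
        have h6 := h5 h1 i hi
        have h7 := h5 h2 i hi
        rcases hp i hi with h8 | h8 | h8
        · have h9 : (⟨i, hi⟩ : Fin n) ∈ (pr n p').1 := h3.1 (mem_pr1.2 h8)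
          rw [h8]
          exact (mem_pr1.1 h9).symm
        · exact absurd h8 h6
        · rcases hp' i hi with h9 | h9 | h9
          · exfalso
            have h10 : (⟨i, hi⟩ : Fin n) ∈ (pr n p').1 \ (pr n p).1 := by
              rw [mem_sdiff, mem_pr1, mem_pr1]
              change p' i = 1 ∧ ¬ p i = 1
              rw [h8]
              exact ⟨h9, by norm_num⟩
            rw [hl, mem_singleton] at h10
            exact hil (congrArg Fin.val h10)
          · exact absurd h9 h7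
          · rw [h8, h9]
      · exact absurd h4 (Finset.notMem_empty _)
  have hsymm : ∀ {p p' : ℕ → ℤ}, MR n p' p → MR n p p' := by
    intro p p' h1
    rcases h1 with h1 | h1 | ⟨h1, h2, l, hl, h3⟩
    · exact Or.inr (Or.inl h1)
    · exact Or.inl h1
    · exact Or.inr (Or.inr ⟨h2, h1, l, hl, fun i hi hil => (h3 i hi hil).symm⟩)
  have key2 : ∀ {p p' : ℕ → ℤ}, pr n p ≠ pr n p' → (∀ i < n, p' i ≠ 0 → p i = p' i) →
      rl ∅ (pr n p) (pr n p') := by
    intro p p' hne h1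
    refine Or.inl ⟨fun i hi => ?_, fun i hi => ?_, hne⟩
    · rw [mem_pr1] at hi ⊢
      rw [h1 i i.2 (by rw [hi]; norm_num), hi]
    · rw [mem_pr2] at hi ⊢
      intro h2
      rw [h1 i i.2 (by rw [h2]; norm_num)] at hi
      exact hi h2
  have key3 : ∀ {p p' : ℕ → ℤ}, Gd n p → Gd n p' → (∀ i < n, p i ≠ 0) → (∀ i < n, p' i ≠ 0) →
      ∀ l, ∀ hl : l < n, (∀ i < n, i ≠ l → p i = p' i) → p l = -1 → p' l = 1 →
      rl ∅ (pr n p) (pr n p') := by
    intro p p' hp hp' h1 h2 l hl h3 h4 h5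
    have hd : ∀ {q : ℕ → ℤ}, Gd n q → (∀ i < n, q i ≠ 0) → (pr n q).1 = (pr n q).2 := by
      intro q hq h6
      ext i
      rw [mem_pr1, mem_pr2]
      rcases hq i i.2 with h7 | h7 | h7
      · rw [h7]
        norm_num
      · exact absurd h7 (h6 i i.2)
      · rw [h7]
        norm_num
    refine Or.inr ⟨hd hp h1, hd hp' h2, ⟨fun i hi => ?_, fun h6 => ?_⟩, Or.inl ?_⟩
    · rw [mem_pr1] at hi ⊢
      by_cases h6 : i.1 = l
      · rw [h6]
        exact h5
      · rw [← h3 i i.2 h6, hi]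
    · have h7 : (⟨l, hl⟩ : Fin n) ∈ (pr n p).1 := h6 (mem_pr1.2 h5)
      rw [mem_pr1] at h7
      change p l = 1 at h7
      rw [h4] at h7
      norm_num at h7
    · rw [card_eq_one]
      refine ⟨⟨l, hl⟩, ?_⟩
      ext i
      rw [mem_sdiff, mem_pr1, mem_pr1, mem_singleton]
      constructor
      · rintro ⟨h6, h7⟩
        by_contra h8
        exact h7 ((h3 i i.2 fun h9 => h8 (Fin.ext h9)).trans h6)
      · rintro rfl
        change p' l = 1 ∧ ¬ p l = 1
        rw [h4]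
        exact ⟨h5, by norm_num⟩
  constructor
  · rintro (h1 | h1)
    · exact key hp hp' hne h1
    · exact hsymm (key hp' hp hne.symm h1)
  · rintro (h1 | h1 | ⟨h1, h2, l, hl, h3⟩)
    · exact Or.inr (key2 hne.symm h1)
    · exact Or.inl (key2 hne h1)
    · have h4 : p l ≠ p' l := by
        intro h4
        apply hne
        have h5 : ∀ i < n, p i = p' i := by
          intro i hi
          by_cases h6 : i = l
          · rw [h6, h4]
          · exact h3 i hi h6
        refine Prod.ext ?_ ?_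
        · ext i
          rw [mem_pr1, mem_pr1, h5 i i.2]
        · ext i
          rw [mem_pr2, mem_pr2, h5 i i.2]
      rcases hp l hl with h5 | h5 | h5
      · rcases hp' l hl with h6 | h6 | h6
        · exact absurd (h5.trans h6.symm) h4
        · exact absurd h6 (h2 l hl)
        · exact Or.inr (key3 hp' hp h2 h1 l hl (fun i hi hil => (h3 i hi hil).symm) h6 h5)
      · exact absurd h5 (h1 l hl)
      · rcases hp' l hl with h6 | h6 | h6
        · exact Or.inl (key3 hp hp' h1 h2 l hl h3 h5 h6)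
        · exact absurd h6 (h2 l hl)
        · exact absurd (h5.trans h6.symm) h4

theorem mr_sp {n : ℕ} {p p' : ℕ → ℤ} (h : MR n p p') {σ : Equiv.Perm ℕ} {ε : ℕ → ℤ}
    (hσ : ∀ i, σ i < n ↔ i < n) (hε : ∀ i, ε i = 1 ∨ ε i = -1) :
    MR n (fun i => ε i * p (σ i)) fun i => ε i * p' (σ i) := by
  have h0 : ∀ i (x : ℤ), ε i * x ≠ 0 ↔ x ≠ 0 := by
    intro i x
    rcases hε i with h1 | h1 <;> rw [h1] <;> simp
  rcases h with h1 | h1 | ⟨h1, h2, l, hl, h3⟩
  · left
    intro i hi h2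
    rw [h0] at h2
    change ε i * p' (σ i) = ε i * p (σ i)
    rw [h1 (σ i) ((hσ i).2 hi) h2]
  · right; left
    intro i hi h2
    rw [h0] at h2
    change ε i * p (σ i) = ε i * p' (σ i)
    rw [h1 (σ i) ((hσ i).2 hi) h2]
  · right; right
    refine ⟨fun i hi => (h0 i _).2 (h1 _ ((hσ i).2 hi)), fun i hi => (h0 i _).2 (h2 _ ((hσ i).2 hi)),
      σ.symm l, ?_, fun i hi hil => ?_⟩
    · rw [← hσ, Equiv.apply_symm_apply]
      exact hl
    · change ε i * p (σ i) = ε i * p' (σ i)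
      rw [h3 (σ i) ((hσ i).2 hi)]
      rintro rfl
      exact hil (Equiv.symm_apply_apply _ _).symm

theorem mr_bp {n k l : ℕ} (hk : k < n) (hl : l < n) (hkl : k ≠ l) : MR n (bp n k) (bp n l) := by
  have key : ∀ {k l : ℕ}, k < n → l < n → k < l → MR n (bp n k) (bp n l) := by
    intro k l hk hl hkl
    by_cases h1 : k + 2 < n
    · left
      intro i hi h2
      unfold bp at h2 ⊢
      rw [if_pos h1] at h2 ⊢
      split_ifs at h2 ⊢ <;> first | rfl | omega
    · right; right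
      refine ⟨fun i hi => ?_, fun i hi => ?_, n - 1, by omega, fun i hi h2 => ?_⟩
      · unfold bp
        split_ifs <;> norm_num
      · unfold bp
        split_ifs <;> omega
      · unfold bp
        split_ifs <;> first | rfl | omega
  rcases lt_or_gt_of_ne hkl with h1 | h1
  · exact key hk hl h1
  · rcases key hl hk h1 with h2 | h2 | ⟨h2, h3, j, hj, h4⟩
    · exact Or.inr (Or.inl h2)
    · exact Or.inl h2
    · exact Or.inr (Or.inr ⟨h3, h2, j, hj, fun i hi hil => (h4 i hi hil).symm⟩)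

theorem mr_mul {n : ℕ} {p p' : ℕ → ℤ} (hp : Gd n p) (hp' : Gd n p') (h : MR n p p') {i j : ℕ}
    (hi : i < n) (hj : j < n) (hij : i ≠ j) :
    0 ≤ (p i - p j) * (p' i - p' j) ∧ 0 ≤ (p i + p j) * (p' i + p' j) := by
  have key : (p i ≠ 0 → p' i = p i) ∧ (p j ≠ 0 → p' j = p j) ∨
      (p' i ≠ 0 → p i = p' i) ∧ (p' j ≠ 0 → p j = p' j) ∨
      (p i ≠ 0 ∧ p j ≠ 0 ∧ p' i ≠ 0 ∧ p' j ≠ 0 ∧ (p i = p' i ∨ p j = p' j)) := by
    rcases h with h1 | h1 | ⟨h1, h2, l, hl, h3⟩
    · exact Or.inl ⟨h1 i hi, h1 j hj⟩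
    · exact Or.inr (Or.inl ⟨h1 i hi, h1 j hj⟩)
    · refine Or.inr (Or.inr ⟨h1 i hi, h1 j hj, h2 i hi, h2 j hj, ?_⟩)
      by_cases h4 : i = l
      · exact Or.inr (h3 j hj (by omega))
      · exact Or.inl (h3 i hi h4)
  rcases hp i hi with h1 | h1 | h1 <;> rcases hp j hj with h2 | h2 | h2 <;>
    rcases hp' i hi with h3 | h3 | h3 <;> rcases hp' j hj with h4 | h4 | h4 <;>
    rw [h1, h2, h3, h4] at key ⊢ <;>
    first
    | (norm_num; done)
    | (exfalso; norm_num at key; done)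

end LBL
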