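import Pool.Agent.LBL.Tra

/-!
# Project LBL (architect helper40), module Join: products and joins

`zg_prod`: the homology of the product with a finite Coxeter group vanishes if the one of the factor
does.  `zg_join`: the same for a factor all whose cliques are spherical.
-/

namespace LBL

open SCG SNG SCS Finset

/-- An order with prescribed first elements. -/
theorem exists_order (X : Type) [Fintype X] (p : X → Prop) :
    ∃ i : LinearOrder X, ∀ a b, p a → ¬ p b → i.lt a b := by
  classical
  let f : X → ℕ ×ₗ Fin (Fintype.card X) := fun x =>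
    toLex (if p x then 0 else 1, Fintype.equivFin X x)
  have hf : Function.Injective f := by
    intro x y hxy
    have h1 := congrArg (fun z => (ofLex z).2) hxy
    exact (Fintype.equivFin X).injective h1
  refine ⟨LinearOrder.lift' f hf, fun a b ha hb => ?_⟩
  change f a < f b
  rw [Prod.Lex.lt_iff]
  left
  change (if p a then 0 else 1) < (if p b then 0 else 1)
  rw [if_pos ha, if_neg hb]
  exact Nat.one_pos

section fin

variable {V : Type} [Fintype V] [LinearOrder V] {M : CoxeterMatrix V} {T : Finset V}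

/-- Products with finite groups. -/
theorem prod_hh (h : Tc M T) (hc : ∀ t ∈ T, ∀ u, u ∉ T → M t u = 2)
    (h0 : ∀ j, HH M Tᶜ j = ⊥) (j : ℕ) : HH M univ j = ⊥ := by
  have hTU : ∀ X : Finset V, TU M T X = T := by
    intro X
    refine Finset.Subset.antisymm (TU_sub T X) fun t ht => ?_
    rw [mem_TU]
    exact ⟨ht, fun u _ hu => hc t ht u hu⟩
  refine transfer h (fun j f hf hPf hdf ε hε => ?_) j
  have hsupp : ∀ X : Finset V, ¬ Disjoint X T → ∀ g, f (X, g) = 0 := by
    intro X hX g
    rw [← hPf]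
    exact Pa_zero M T f hX g
  have hf' : f ∈ CC M Tᶜ j := by
    rw [mem_CC] at hf ⊢
    refine ⟨fun X hX g => ?_, hf.2⟩
    by_cases h1 : Disjoint X T
    · refine hf.1 X (fun h2 => hX ⟨?_, h2.2⟩) g
      intro x hx
      rw [mem_compl]
      exact Finset.disjoint_left.1 h1 hx
    · exact hsupp X h1 g
  have hb : Pa M T (bD M f) = bD M f := by
    refine Pa_eq h (fun X hX g => ?_) fun X hX g y hy => ?_
    · have h1 : bD M f (X, g) = ∑ s ∈ Xᶜ, sg X s * f (insert s X, g) := bD_apply f X g
      rw [h1]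
      refine Finset.sum_eq_zero fun s _ => ?_
      rw [hsupp _ fun h2 => hX (Finset.disjoint_of_subset_left (Finset.subset_insert s X) h2),
        mul_zero]
    · have h1 : ∀ g, bD M f (X, g) = ∑ s ∈ Xᶜ, sg X s * f (insert s X, g) := fun g =>
        bD_apply f X g
      rw [h1, h1]
      refine Finset.sum_congr rfl fun s _ => ?_
      congr 1
      rw [hTU] at hy
      rw [← hPf]
      exact Pa_inv h f _ g (by rw [hTU]; exact hy)
  rw [hb] at hdf
  obtain ⟨k, hk, hkn⟩ := exists_of_hh (h0 j) hf' hdf (ε := ε / (‖Pa M T‖ + 1)) (by positivity)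
  have hk' : k ∈ CC M univ (j + 1) := CC_mono (subset_univ _) _ hk
  refine ⟨Pa M T k, Pa_mem h hk', Pa_Pa h k, ?_⟩
  rw [Pa_d_Pa h hk']
  have h1 : f - Pa M T (bD M k) = Pa M T (f - bD M k) := by rw [map_sub, hPf]
  rw [h1]
  calc ‖Pa M T (f - bD M k)‖ ≤ ‖Pa M T‖ * ‖f - bD M k‖ := (Pa M T).le_opNorm _
    _ ≤ ‖Pa M T‖ * (ε / (‖Pa M T‖ + 1)) := mul_le_mul_of_nonneg_left hkn.le (norm_nonneg _)
    _ < (‖Pa M T‖ + 1) * (ε / (‖Pa M T‖ + 1)) :=
        mul_lt_mul_of_pos_right (lt_add_one _) (by positivity)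
    _ = ε := by
        rw [mul_div_cancel₀]
        positivity

end fin

variable {V : Type} [DecidableEq V] {G : CoxeterMatrix V}

/-- Products with finite groups. -/
theorem zg_prod {A T : Finset V} (hd : Disjoint A T) (hT : Sph G T)
    (hc : ∀ t ∈ T, ∀ a ∈ A, G t a = 2) (h : ZG G A) : ZG G (A ∪ T) := by
  intro i0
  obtain ⟨i, hi⟩ := exists_order {x // x ∈ A ∪ T} fun x => x.1 ∈ T
  refine vv_order i i0 ?_
  obtain ⟨T', hT'⟩ : ∃ T' : Finset {x // x ∈ A ∪ T}, T' = univ.filter fun x => x.1 ∈ T := ⟨_, rfl⟩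
  have hm : ∀ x : {x // x ∈ A ∪ T}, x ∈ T' ↔ x.1 ∈ T := by
    intro x
    rw [hT', mem_filter]
    exact ⟨fun h1 => h1.2, fun h1 => ⟨mem_univ _, h1⟩⟩
  have hmA : ∀ x : {x // x ∈ A ∪ T}, x ∉ T' ↔ x.1 ∈ A := by
    intro x
    rw [hm]
    constructor
    · intro h1
      exact (mem_union.1 x.2).resolve_right h1
    · exact fun h1 => Finset.disjoint_left.1 hd h1
  have hTc : Tc (sub G (A ∪ T)) T' := by
    refine ⟨?_, ?_, ?_⟩
    · rw [← sph_iff (M := G) (M' := sub G (A ∪ T))
        (Function.Embedding.subtype fun x => x ∈ A ∪ T) (fun _ _ => rfl)]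
      have h1 : T'.map (Function.Embedding.subtype fun x => x ∈ A ∪ T) = T := by
        ext x
        rw [mem_map]
        constructor
        · rintro ⟨y, hy, rfl⟩
          exact (hm y).1 hy
        · intro hx
          exact ⟨⟨x, mem_union_right _ hx⟩, (hm _).2 hx, rfl⟩
      rw [h1]
      exact hT
    · intro t ht u hu
      exact Or.inl (hc t.1 ((hm t).1 ht) u.1 ((hmA u).1 hu))
    · intro t ht u hu
      exact hi t u ((hm t).1 ht) fun h1 => hu ((hm u).2 h1)
  refine prod_hh hTc (fun t ht u hu => hc t.1 ((hm t).1 ht) u.1 ((hmA u).1 hu)) ?_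
  rw [← zg_iff, zg_image (G := sub G (A ∪ T)) (G' := G) Subtype.val
    (fun x _ y _ hxy => Subtype.ext hxy) fun x _ y _ => rfl]
  have h1 : ∀ C : Finset {x // x ∈ A ∪ T}, (∀ x, x ∈ C ↔ x.1 ∈ A) → C.image Subtype.val = A := by
    intro C hC
    ext x
    rw [mem_image]
    constructor
    · rintro ⟨y, hy, rfl⟩
      exact (hC y).1 hy
    · intro hx
      exact ⟨⟨x, mem_union_left _ hx⟩, (hC _).2 hx, rfl⟩
  rw [h1 _ fun x => by rw [@mem_compl]; exact hmA x]
  exact h

/-- Joins. -/
theorem zg_join {A B : Finset V} (hd : Disjoint A B) (hc : ∀ b ∈ B, ∀ a ∈ A, G b a = 2)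
    (hB : ∀ C ⊆ B, (∀ x ∈ C, ∀ y ∈ C, G x y ≠ 0) → Sph G C) (h : ZG G A) : ZG G (A ∪ B) := by
  obtain ⟨n, hn⟩ : ∃ n, B.card = n := ⟨_, rfl⟩
  induction n using Nat.strong_induction_on generalizing B with
  | _ n ih =>
    by_cases h1 : ∀ x ∈ B, ∀ y ∈ B, G x y ≠ 0
    · exact zg_prod hd (hB B (Finset.Subset.refl B) h1) hc h
    · push Not at h1
      obtain ⟨x, hx, y, hy, hxy⟩ := h1
      have hne : x ≠ y := ne_of_zero hxy
      have hsub : ∀ B' ⊆ B, B'.card < B.card → ZG G (A ∪ B') := by
        intro B' hB' hlt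
        refine ih B'.card (by omega) (Finset.disjoint_of_subset_right hB' hd)
          (fun b hb => hc b (hB' hb)) (fun C hC => hB C (hC.trans hB')) rfl
      have e1 : A ∪ B = (A ∪ B.erase x) ∪ (A ∪ B.erase y) := by
        ext z
        simp only [mem_union, mem_erase]
        constructor
        · rintro (h2 | h2)
          · exact Or.inl (Or.inl h2)
          · by_cases h3 : z = x
            · exact Or.inr (Or.inr ⟨by rw [h3]; exact hne, h2⟩)
            · exact Or.inl (Or.inr ⟨h3, h2⟩)
        · rintro ((h2 | h2) | h2 | h2)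
          · exact Or.inl h2
          · exact Or.inr h2.2
          · exact Or.inl h2
          · exact Or.inr h2.2
      have e2 : (A ∪ B.erase x) ∩ (A ∪ B.erase y) = A ∪ (B.erase x).erase y := by
        rw [← Finset.union_inter_distrib_left]
        congr 1
        ext z
        simp only [Finset.mem_inter, mem_erase]
        tauto
      rw [e1]
      refine zg_mv ?_ ?_ ?_ ?_
      · intro a ha ha' b hb hb'
        rw [mem_union, mem_erase] at ha hb
        rw [mem_union, mem_erase, not_or] at ha' hb'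
        have ha1 : a ∈ B := (ha.resolve_left ha'.1).2
        have hb1 : b ∈ B := (hb.resolve_left hb'.1).2
        have ha2 : a = y := by
          by_contra h2
          exact ha'.2 ⟨h2, ha1⟩
        have hb2 : b = x := by
          by_contra h2
          exact hb'.2 ⟨h2, hb1⟩
        rw [ha2, hb2, G.symmetric]
        exact hxy
      · exact hsub _ (Finset.erase_subset _ _) (Finset.card_erase_lt_of_mem hx)
      · exact hsub _ (Finset.erase_subset _ _) (Finset.card_erase_lt_of_mem hy)
      · rw [e2]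
        refine hsub _ ((Finset.erase_subset _ _).trans (Finset.erase_subset _ _)) ?_
        exact (Finset.card_le_card (Finset.erase_subset _ _)).trans_lt
          (Finset.card_erase_lt_of_mem hx)

end LBL
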