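import Pool.Agent.LBL.Join

/-!
# Project LBL (architect helper40), module Red: reduction of Coxeter groups with flag nerve to
right-angled Coxeter groups and local terms

`Bg M Z`: the Coxeter matrix on `V ⊕ V`; the vertices `inl x`, `x ∈ Z`, and `inr s` are right-angled.
`Xk M K`: `inl` of the star of the clique `K` and `inr K`.
-/

namespace LBL

open SCG SNG SCS Finset

variable {V : Type}

open Classical in
/-- the labels of `Bg M Z` -/
noncomputable def bgf (M : CoxeterMatrix V) (Z : Finset V) : V ⊕ V → V ⊕ V → ℕ
  | Sum.inl x, Sum.inl y =>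
      if x = y then 1 else if M x y = 0 then 0 else if x ∈ Z ∨ y ∈ Z then 2 else M x y
  | Sum.inl x, Sum.inr s => if x ≠ s ∧ M x s ≠ 0 then 2 else 0
  | Sum.inr s, Sum.inl x => if x ≠ s ∧ M x s ≠ 0 then 2 else 0
  | Sum.inr s, Sum.inr t => if s = t then 1 else if M s t = 0 then 0 else 2

/-- The auxiliary Coxeter matrix. -/
noncomputable def Bg (M : CoxeterMatrix V) (Z : Finset V) : CoxeterMatrix (V ⊕ V) where
  M := Matrix.of (bgf M Z)
  isSymm := by
    classical
    ext u v
    change bgf M Z v u = bgf M Z u v
    rcases u with x | x <;> rcases v with y | y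
    · unfold bgf
      simp only [eq_comm (a := y) (b := x), M.symmetric y x, or_comm (a := y ∈ Z)]
    · rfl
    · rfl
    · unfold bgf
      simp only [eq_comm (a := y) (b := x), M.symmetric y x]
  diagonal u := by
    change bgf M Z u u = 1
    rcases u with x | x
    · exact if_pos rfl
    · exact if_pos rfl
  off_diagonal u v h := by
    classical
    rcases u with x | x <;> rcases v with y | y
    · have hne : x ≠ y := fun e => h (by rw [e])
      change (if x = y then 1 else if M x y = 0 then 0 else if x ∈ Z ∨ y ∈ Z then 2 else M x y) ≠ 1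
      rw [if_neg hne]
      split_ifs
      · norm_num
      · norm_num
      · exact M.off_diagonal x y hne
    · change (if x ≠ y ∧ M x y ≠ 0 then 2 else 0) ≠ 1
      split_ifs <;> norm_num
    · change (if y ≠ x ∧ M y x ≠ 0 then 2 else 0) ≠ 1
      split_ifs <;> norm_num
    · have hne : x ≠ y := fun e => h (by rw [e])
      change (if x = y then 1 else if M x y = 0 then 0 else 2) ≠ 1
      rw [if_neg hne]
      split_ifs <;> norm_num

/-- The right-angled Coxeter matrix with the same infinite labels. -/
noncomputable def ra (M : CoxeterMatrix V) : CoxeterMatrix V where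
  M := Matrix.of fun x y => open Classical in if x = y then 1 else if M x y = 0 then 0 else 2
  isSymm := by
    classical
    ext x y
    change (if y = x then 1 else if M y x = 0 then 0 else 2) =
      (if x = y then 1 else if M x y = 0 then 0 else 2)
    simp only [eq_comm (a := y) (b := x), M.symmetric y x]
  diagonal x := if_pos rfl
  off_diagonal x y h := by
    classical
    change (if x = y then 1 else if M x y = 0 then 0 else 2) ≠ 1
    rw [if_neg h]
    split_ifs <;> norm_num

section labels

variable {M : CoxeterMatrix V} {Z : Finset V}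

theorem ra_ne {x y : V} (h : x ≠ y) (h0 : M x y ≠ 0) : ra M x y = 2 := by
  classical
  change (if x = y then 1 else if M x y = 0 then 0 else 2) = 2
  rw [if_neg h, if_neg h0]

theorem ra_zero {x y : V} (h0 : M x y = 0) : ra M x y = 0 := by
  classical
  change (if x = y then 1 else if M x y = 0 then 0 else 2) = 0
  rw [if_neg (ne_of_zero h0), if_pos h0]

theorem ra_eq_zero {x y : V} : ra M x y = 0 ↔ M x y = 0 := by
  constructor
  · intro h
    by_contra h0
    by_cases hxy : x = y
    · rw [hxy, (ra M).diagonal] at h
      exact one_ne_zero h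
    · rw [ra_ne hxy h0] at h
      exact two_ne_zero h
  · exact ra_zero

theorem bg_ll {x y : V} (h : x ≠ y) (h0 : M x y ≠ 0) (hx : x ∉ Z) (hy : y ∉ Z) :
    Bg M Z (Sum.inl x) (Sum.inl y) = M x y := by
  classical
  change (if x = y then 1 else if M x y = 0 then 0 else if x ∈ Z ∨ y ∈ Z then 2 else M x y) = _
  rw [if_neg h, if_neg h0, if_neg (not_or.2 ⟨hx, hy⟩)]

theorem bg_ll0 {x y : V} (h0 : M x y = 0) : Bg M Z (Sum.inl x) (Sum.inl y) = 0 := by
  classical
  change (if x = y then 1 else if M x y = 0 then 0 else if x ∈ Z ∨ y ∈ Z then 2 else M x y) = _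
  rw [if_neg (ne_of_zero h0), if_pos h0]

theorem bg_ll2 {x y : V} (h : x ≠ y) (h0 : M x y ≠ 0) (hZ : x ∈ Z ∨ y ∈ Z) :
    Bg M Z (Sum.inl x) (Sum.inl y) = 2 := by
  classical
  change (if x = y then 1 else if M x y = 0 then 0 else if x ∈ Z ∨ y ∈ Z then 2 else M x y) = _
  rw [if_neg h, if_neg h0, if_pos hZ]

theorem bg_lr {x s : V} (h : x ≠ s) (h0 : M x s ≠ 0) : Bg M Z (Sum.inl x) (Sum.inr s) = 2 := by
  classical
  change (if x ≠ s ∧ M x s ≠ 0 then 2 else 0) = _
  rw [if_pos ⟨h, h0⟩]

theorem bg_lr0 {x s : V} (h : x = s ∨ M x s = 0) : Bg M Z (Sum.inl x) (Sum.inr s) = 0 := by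
  classical
  change (if x ≠ s ∧ M x s ≠ 0 then 2 else 0) = _
  rw [if_neg]
  rintro ⟨h1, h2⟩
  exact h.elim h1 h2

theorem bg_rr {s t : V} (h : s ≠ t) (h0 : M s t ≠ 0) : Bg M Z (Sum.inr s) (Sum.inr t) = 2 := by
  classical
  change (if s = t then 1 else if M s t = 0 then 0 else 2) = _
  rw [if_neg h, if_neg h0]

theorem bg_rr0 {s t : V} (h0 : M s t = 0) : Bg M Z (Sum.inr s) (Sum.inr t) = 0 := by
  classical
  change (if s = t then 1 else if M s t = 0 then 0 else 2) = _
  rw [if_neg (ne_of_zero h0), if_pos h0]

/-- The labels of right-angled vertices. -/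
theorem bg_two {u v : V ⊕ V} (h : u ≠ v) (hu : ∀ x, u = Sum.inl x → x ∈ Z)
    (h0 : Bg M Z u v ≠ 0) : Bg M Z u v = 2 := by
  rcases u with x | x <;> rcases v with y | y
  · have hne : x ≠ y := fun e => h (by rw [e])
    by_cases h1 : M x y = 0
    · exact absurd (bg_ll0 h1) h0
    · exact bg_ll2 hne h1 (Or.inl (hu x rfl))
  · by_cases h1 : x = y ∨ M x y = 0
    · exact absurd (bg_lr0 h1) h0
    · rw [not_or] at h1
      exact bg_lr h1.1 h1.2
  · rw [(Bg M Z).symmetric] at h0 ⊢
    by_cases h1 : y = x ∨ M y x = 0
    · exact absurd (bg_lr0 h1) h0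
    · rw [not_or] at h1
      exact bg_lr h1.1 h1.2
  · have hne : x ≠ y := fun e => h (by rw [e])
    by_cases h1 : M x y = 0
    · exact absurd (bg_rr0 h1) h0
    · exact bg_rr hne h1

/-- nonzero labels only depend on `M` -/
theorem bg_ll_ne {x y : V} : Bg M Z (Sum.inl x) (Sum.inl y) ≠ 0 ↔ M x y ≠ 0 := by
  constructor
  · intro h h0
    exact h (bg_ll0 h0)
  · intro h h0
    by_cases hxy : x = y
    · rw [hxy, (Bg M Z).diagonal] at h0
      exact one_ne_zero h0
    · by_cases hZ : x ∈ Z ∨ y ∈ Z
      · rw [bg_ll2 hxy h hZ] at h0
        exact two_ne_zero h0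
      · rw [not_or] at hZ
        rw [bg_ll hxy h hZ.1 hZ.2] at h0
        exact h h0

end labels

/-- A spherical set with commuting right-angled vertices. -/
theorem sph_add [DecidableEq V] {G : CoxeterMatrix V} {C₁ : Finset V} (h1 : Sph G C₁) (C₂ : Finset V)
    (h : ∀ c ∈ C₂, ∀ y ∈ C₁ ∪ C₂, y ≠ c → G c y = 2) : Sph G (C₁ ∪ C₂) := by
  induction C₂ using Finset.induction_on with
  | empty => rwa [Finset.union_empty]
  | insert c C ha ih =>
    have h2 : Sph G (C₁ ∪ C) := ih fun c' hc' y hy =>
      h c' (mem_insert_of_mem hc') y (by
        rw [Finset.union_insert]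
        exact mem_insert_of_mem hy)
    rw [Finset.union_insert]
    by_cases hc : c ∈ C₁ ∪ C
    · rwa [Finset.insert_eq_of_mem hc]
    · refine sph_insert (fun y hy => h c (mem_insert_self _ _) y ?_ ?_) h2
      · rw [Finset.union_insert]
        exact mem_insert_of_mem hy
      · rintro rfl
        exact hc hy

/-- Cliques. -/
def Clq (M : CoxeterMatrix V) (K : Finset V) : Prop := ∀ x ∈ K, ∀ y ∈ K, M x y ≠ 0

open Classical in
/-- The common neighbours of `K`. -/
noncomputable def Nb [Fintype V] (M : CoxeterMatrix V) (K : Finset V) : Finset V :=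
  univ.filter fun x => x ∉ K ∧ ∀ k ∈ K, M x k ≠ 0

theorem mem_Nb [Fintype V] {M : CoxeterMatrix V} {K : Finset V} {x : V} :
    x ∈ Nb M K ↔ x ∉ K ∧ ∀ k ∈ K, M x k ≠ 0 := by
  classical
  unfold Nb
  rw [mem_filter]
  exact ⟨fun h => h.2, fun h => ⟨mem_univ _, h⟩⟩

variable [DecidableEq V] {M : CoxeterMatrix V}

/-- The nerves of all `Bg M Z` are flag complexes. -/
theorem bg_flag (hM : ∀ K, Clq M K → Sph M K) (Z : Finset V) (C : Finset (V ⊕ V))
    (hC : ∀ u ∈ C, ∀ v ∈ C, Bg M Z u v ≠ 0) : Sph (Bg M Z) C := by
  classical
  obtain ⟨K', hK'⟩ : ∃ K' : Finset V, ∀ x, x ∈ K' ↔ Sum.inl x ∈ C ∧ x ∉ Z := by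
    refine ⟨C.toLeft \ Z, fun x => ?_⟩
    rw [mem_sdiff, Finset.mem_toLeft]
  have hcl : Clq M K' := by
    intro x hx y hy
    rw [hK'] at hx hy
    exact bg_ll_ne.1 (hC _ hx.1 _ hy.1)
  have h1 : Sph (Bg M Z) (K'.map Function.Embedding.inl) := by
    have h2 := hM K' hcl
    rw [← map_univ_sub K'] at h2
    rw [sph_iff (M := M) (M' := sub M K') _ (fun _ _ => rfl)] at h2
    let e : {x // x ∈ K'} ↪ V ⊕ V :=
      ⟨fun x => Sum.inl x.1, fun x y hxy => Subtype.ext (Sum.inl_injective hxy)⟩
    have h3 := (sph_iff (M := Bg M Z) (M' := sub M K') e (fun x y => by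
      by_cases hxy : x = y
      · rw [hxy, (Bg M Z).diagonal, (sub M K').diagonal]
      · exact bg_ll (fun h => hxy (Subtype.ext h)) (hcl x.1 x.2 y.1 y.2) ((hK' _).1 x.2).2
          ((hK' _).1 y.2).2) univ).2 h2
    have h4 : (univ : Finset {x // x ∈ K'}).map e = K'.map Function.Embedding.inl := by
      ext u
      simp only [mem_map, mem_univ, true_and]
      constructor
      · rintro ⟨x, rfl⟩
        exact ⟨x.1, x.2, rfl⟩
      · rintro ⟨x, hx, rfl⟩
        exact ⟨⟨x, hx⟩, rfl⟩
    rwa [h4] at h3
  have h2 : C = K'.map Function.Embedding.inl ∪ (C \ K'.map Function.Embedding.inl) := by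
    rw [Finset.union_sdiff_of_subset]
    intro u hu
    obtain ⟨x, hx, rfl⟩ := mem_map.1 hu
    exact ((hK' x).1 hx).1
  rw [h2]
  refine sph_add h1 _ fun c hc y hy hne => ?_
  rw [← h2] at hy
  rw [mem_sdiff] at hc
  refine bg_two hne.symm ?_ (hC c hc.1 y hy)
  rintro x rfl
  by_contra hxZ
  exact hc.2 (mem_map.2 ⟨x, (hK' x).2 ⟨hc.1, hxZ⟩, rfl⟩)

variable [Fintype V]

/-- The vertices of the local system at `K`. -/
noncomputable def Xk (M : CoxeterMatrix V) (K : Finset V) : Finset (V ⊕ V) :=
  (K ∪ Nb M K).disjSum K

theorem inl_mem_Xk {K : Finset V} {x : V} : Sum.inl x ∈ Xk M K ↔ x ∈ K ∨ x ∈ Nb M K := by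
  unfold Xk
  rw [Finset.inl_mem_disjSum, mem_union]

theorem inr_mem_Xk {K : Finset V} {x : V} : Sum.inr x ∈ Xk M K ↔ x ∈ K := by
  unfold Xk
  rw [Finset.inr_mem_disjSum]

/-- The induction. -/
theorem red_aux (hbase : ∀ (Z K : Finset V), Clq M K → Disjoint K Z → Nb M K ⊆ Z →
    ZG (Bg M Z) (Xk M K)) : ∀ (n : ℕ) (Z K : Finset V), (Nb M K \ Z).card = n → Clq M K →
      ZG (Bg M Z) (Xk M K) := by
  classical
  intro n
  induction n using Nat.strong_induction_on with
  | _ n ih =>
    intro Z K hn hK
    by_cases h1 : ∃ z ∈ K, z ∈ Z
    · obtain ⟨z, hz, hzZ⟩ := h1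
      have h2 : Xk M K = insert (Sum.inl z) (insert (Sum.inr z)
          (((Xk M K).erase (Sum.inr z)).erase (Sum.inl z))) := by
        rw [Finset.insert_comm, Finset.insert_erase, Finset.insert_erase]
        · exact inr_mem_Xk.2 hz
        · rw [mem_erase]
          exact ⟨by simp, inl_mem_Xk.2 (Or.inl hz)⟩
      rw [h2]
      refine zg_susp (by simp) (by simp) (by simp) (bg_lr0 (Or.inl rfl)) ?_
      intro v hv
      rw [mem_erase, mem_erase] at hv
      obtain ⟨hv1, hv2, hv3⟩ := hv
      rcases v with x | x
      · have hxz : x ≠ z := fun e => hv1 (by rw [e])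
        have hxz0 : M x z ≠ 0 := by
          rcases inl_mem_Xk.1 hv3 with h3 | h3
          · exact hK x h3 z hz
          · exact (mem_Nb.1 h3).2 z hz
        refine ⟨bg_ll2 hxz.symm (by rwa [M.symmetric]) (Or.inl hzZ), ?_⟩
        rw [(Bg M Z).symmetric]
        exact bg_lr hxz hxz0
      · have hxz : x ≠ z := fun e => hv2 (by rw [e])
        have hxz0 : M z x ≠ 0 := hK z hz x (inr_mem_Xk.1 hv3)
        exact ⟨bg_lr hxz.symm hxz0, bg_rr hxz.symm hxz0⟩
    · push Not at h1
      have hdis : Disjoint K Z := Finset.disjoint_left.2 h1
      by_cases h2 : Nb M K ⊆ Z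
      · exact hbase Z K hK hdis h2
      · obtain ⟨y, hy, hyZ⟩ := Finset.not_subset.1 h2
        have hy' := mem_Nb.1 hy
        obtain ⟨A, hA⟩ : ∃ A, A = (Xk M K).erase (Sum.inl y) := ⟨_, rfl⟩
        obtain ⟨B, hB⟩ : ∃ B, B = insert (Sum.inl y) (A.filter fun v => Bg M Z (Sum.inl y) v ≠ 0) :=
          ⟨_, rfl⟩
        have hmA : ∀ v, v ∈ A ↔ v ≠ Sum.inl y ∧ v ∈ Xk M K := by
          intro v
          rw [hA, mem_erase]
        have hmB : ∀ v, v ∈ B ↔ v = Sum.inl y ∨ (v ∈ A ∧ Bg M Z (Sum.inl y) v ≠ 0) := by
          intro v
          rw [hB, mem_insert, mem_filter]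
        have hyX : Sum.inl y ∈ Xk M K := inl_mem_Xk.2 (Or.inr hy)
        have hyA : Sum.inl y ∉ A := fun h3 => ((hmA _).1 h3).1 rfl
        have hAB : A ∪ B = Xk M K := by
          ext v
          rw [mem_union, hmB, hmA]
          constructor
          · rintro (h3 | h3 | h3)
            · exact h3.2
            · rw [h3]
              exact hyX
            · exact h3.1.2
          · intro h3
            by_cases h4 : v = Sum.inl y
            · exact Or.inr (Or.inl h4)
            · exact Or.inl ⟨h4, h3⟩
        have hcA : Sum.inr y ∉ A := by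
          intro h3
          exact hy'.1 (inr_mem_Xk.1 ((hmA _).1 h3).2)
        have hcB : Sum.inr y ∉ B := by
          intro h3
          rcases (hmB _).1 h3 with h4 | h4
          · exact absurd h4 (by simp)
          · exact hcA h4.1
        -- labels of the new vertex
        have hc2 : ∀ v ∈ A, Bg M Z (Sum.inl y) v ≠ 0 → Bg M Z (Sum.inr y) v = 2 := by
          intro v hv h3
          rw [hmA] at hv
          rcases v with x | x
          · have hxy : x ≠ y := fun e => hv.1 (by rw [e])
            rw [(Bg M Z).symmetric]
            refine bg_lr hxy ?_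
            rw [M.symmetric]
            exact bg_ll_ne.1 h3
          · have hxy : y ≠ x := by
              rintro rfl
              exact h3 (bg_lr0 (Or.inl rfl))
            refine bg_rr hxy fun h4 => h3 (bg_lr0 (Or.inr h4))
        have hc0 : ∀ v ∈ Xk M K, Bg M Z (Sum.inl y) v = 0 ∨ v = Sum.inl y →
            Bg M Z (Sum.inr y) v = 0 := by
          intro v hv h3
          rcases v with x | x
          · rw [(Bg M Z).symmetric]
            refine bg_lr0 ?_
            rcases h3 with h3 | h3
            · right
              rw [M.symmetric]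
              by_contra h4
              exact bg_ll_ne.2 h4 h3
            · left
              exact Sum.inl_injective h3
          · have hxK := inr_mem_Xk.1 hv
            exfalso
            rcases h3 with h3 | h3
            · have h4 := bg_lr (Z := Z) (fun e : y = x => hy'.1 (by rw [e]; exact hxK)) (hy'.2 x hxK)
              rw [h4] at h3
              exact two_ne_zero h3
            · exact absurd h3 (by simp)
        rw [← hAB]
        refine zg_csum hcA hcB ?_ ?_ ?_ ?_ ?_
        · intro v hv
          rw [Finset.mem_inter, hmB] at hv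
          rcases hv.2 with h3 | h3
          · rw [h3] at hv
            exact absurd hv.1 hyA
          · exact hc2 v hv.1 h3.2
        · intro v hv hv'
          rw [hAB] at hv
          refine hc0 v hv ?_
          by_contra h3
          rw [not_or] at h3
          apply hv'
          rw [Finset.mem_inter, hmB, hmA]
          exact ⟨⟨h3.2, hv⟩, Or.inr ⟨⟨h3.2, hv⟩, h3.1⟩⟩
        · intro v hv hv' w hw hw'
          rw [hmB] at hv' hw
          have hw1 : w = Sum.inl y := by
            rcases hw with h3 | h3
            · exact h3
            · exact absurd h3.1 hw'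
          rw [hw1, (Bg M Z).symmetric]
          by_contra h3
          exact hv' (Or.inr ⟨hv, h3⟩)
        · -- the vertex `inl y` replaced by `inr y`
          have h3 : ZG (Bg M (insert y Z)) (Xk M K) := by
            refine ih _ ?_ (insert y Z) K rfl hK
            rw [← hn]
            refine Finset.card_lt_card ⟨?_, ?_⟩
            · exact Finset.sdiff_subset_sdiff (Finset.Subset.refl _) (Finset.subset_insert _ _)
            · intro h4
              have h5 := h4 (mem_sdiff.2 ⟨hy, hyZ⟩)
              exact (mem_sdiff.1 h5).2 (mem_insert_self _ _)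
          obtain ⟨e, he⟩ : ∃ e : V ⊕ V → V ⊕ V, ∀ v, e v = if v = Sum.inr y then Sum.inl y else v :=
            ⟨_, fun _ => rfl⟩
          have hey : e (Sum.inr y) = Sum.inl y := by rw [he, if_pos rfl]
          have heA : ∀ v ∈ A, e v = v := by
            intro v hv
            rw [he, if_neg]
            rintro rfl
            exact hcA hv
          have him : (insert (Sum.inr y) A).image e = Xk M K := by
            rw [Finset.image_insert, hey, Finset.image_congr (g := id) fun v hv => heA v hv,
              Finset.image_id, hA, Finset.insert_erase hyX]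
          rw [zg_image (G' := Bg M (insert y Z)) e ?_ ?_, him]
          · exact h3
          · intro u hu v hv huv
            rcases mem_insert.1 hu with rfl | hu
            · rcases mem_insert.1 hv with rfl | hv
              · rfl
              · rw [hey, heA v hv] at huv
                exact absurd hv (by rw [← huv]; exact hyA)
            · rcases mem_insert.1 hv with rfl | hv
              · rw [hey, heA u hu] at huv
                exact absurd hu (by rw [huv]; exact hyA)
              · rwa [heA u hu, heA v hv] at huv
          · have hl : ∀ v ∈ A, Bg M (insert y Z) (Sum.inl y) v = Bg M Z (Sum.inr y) v := by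
              intro v hv
              have hv' := (hmA v).1 hv
              by_cases h4 : Bg M Z (Sum.inl y) v = 0
              · rw [hc0 v hv'.2 (Or.inl h4)]
                rcases v with x | x
                · exact bg_ll0 (by
                    by_contra h5
                    exact bg_ll_ne.2 h5 h4)
                · exact h4
              · rw [hc2 v hv h4]
                refine bg_two (fun e => hv'.1 e.symm) ?_ ?_
                · intro x hx
                  rw [← Sum.inl_injective hx]
                  exact mem_insert_self _ _
                · rcases v with x | x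
                  · exact bg_ll_ne.2 (bg_ll_ne.1 h4)
                  · exact h4
            intro u hu v hv
            rcases mem_insert.1 hu with rfl | hu
            · rcases mem_insert.1 hv with rfl | hv
              · rw [hey, (Bg M (insert y Z)).diagonal, (Bg M Z).diagonal]
              · rw [hey, heA v hv]
                exact hl v hv
            · rcases mem_insert.1 hv with rfl | hv
              · rw [hey, heA u hu, (Bg M (insert y Z)).symmetric, (Bg M Z).symmetric]
                exact hl u hu
              · rw [heA u hu, heA v hv]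
                have hu' := ((hmA u).1 hu).1
                have hv' := ((hmA v).1 hv).1
                rcases u with x | x
                · rcases v with z | z
                  · have hxy : x ≠ y := fun e => hu' (by rw [e])
                    have hzy : z ≠ y := fun e => hv' (by rw [e])
                    by_cases hxz : x = z
                    · rw [hxz, (Bg M (insert y Z)).diagonal, (Bg M Z).diagonal]
                    · by_cases h0 : M x z = 0
                      · rw [bg_ll0 h0, bg_ll0 h0]
                      · by_cases hZ : x ∈ Z ∨ z ∈ Z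
                        · rw [bg_ll2 hxz h0 hZ, bg_ll2 hxz h0 (hZ.imp (fun h4 => mem_insert_of_mem h4)
                            fun h4 => mem_insert_of_mem h4)]
                        · rw [not_or] at hZ
                          rw [bg_ll hxz h0 hZ.1 hZ.2, bg_ll hxz h0]
                          · exact fun h4 => (mem_insert.1 h4).elim hxy hZ.1
                          · exact fun h4 => (mem_insert.1 h4).elim hzy hZ.2
                  · rfl
                · rcases v with z | z
                  · rfl
                  · rfl
        · -- the local system at `insert y K`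
          have h3 : insert (Sum.inr y) B = Xk M (insert y K) := by
            ext v
            rw [mem_insert, hmB, hmA]
            rcases v with x | x
            · rw [inl_mem_Xk, inl_mem_Xk, mem_insert]
              constructor
              · rintro (h4 | h4 | ⟨⟨h4, h5⟩, h6⟩)
                · exact absurd h4 (by simp)
                · exact Or.inl (Or.inl (Sum.inl_injective h4))
                · have hxy : x ≠ y := fun e => h4 (by rw [e])
                  rcases h5 with h5 | h5
                  · exact Or.inl (Or.inr h5)
                  · right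
                    rw [mem_Nb] at h5 ⊢
                    refine ⟨?_, ?_⟩
                    · rw [mem_insert, not_or]
                      exact ⟨hxy, h5.1⟩
                    · intro k hk
                      rcases mem_insert.1 hk with rfl | hk
                      · rw [M.symmetric]
                        exact bg_ll_ne.1 h6
                      · exact h5.2 k hk
              · rintro ((rfl | h4) | h4)
                · exact Or.inr (Or.inl rfl)
                · right
                  right
                  have hxy : x ≠ y := by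
                    rintro rfl
                    exact hy'.1 h4
                  exact ⟨⟨fun e => hxy (Sum.inl_injective e), Or.inl h4⟩,
                    bg_ll_ne.2 (hy'.2 x h4)⟩
                · right
                  right
                  rw [mem_Nb, mem_insert, not_or] at h4
                  refine ⟨⟨fun e => h4.1.1 (Sum.inl_injective e), Or.inr (mem_Nb.2 ⟨h4.1.2,
                    fun k hk => h4.2 k (mem_insert_of_mem hk)⟩)⟩, bg_ll_ne.2 ?_⟩
                  rw [M.symmetric]
                  exact h4.2 y (mem_insert_self _ _)
            · rw [inr_mem_Xk, inr_mem_Xk, mem_insert]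
              constructor
              · rintro (h4 | h4 | ⟨⟨h4, h5⟩, h6⟩)
                · exact Or.inl (Sum.inr_injective h4)
                · exact absurd h4 (by simp)
                · exact Or.inr h5
              · rintro (rfl | h4)
                · exact Or.inl rfl
                · right
                  right
                  refine ⟨⟨by simp, h4⟩, ?_⟩
                  rw [bg_lr (fun e : y = x => hy'.1 (by rw [e]; exact h4)) (hy'.2 x h4)]
                  exact two_ne_zero
          rw [h3]
          refine ih _ ?_ Z (insert y K) rfl ?_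
          · rw [← hn]
            refine Finset.card_lt_card ⟨?_, ?_⟩
            · intro x hx
              rw [mem_sdiff, mem_Nb, mem_insert, not_or] at hx
              rw [mem_sdiff, mem_Nb]
              exact ⟨⟨hx.1.1.2, fun k hk => hx.1.2 k (mem_insert_of_mem hk)⟩, hx.2⟩
            · intro h4
              have h5 := h4 (mem_sdiff.2 ⟨hy, hyZ⟩)
              rw [mem_sdiff, mem_Nb] at h5
              exact h5.1.1 (mem_insert_self _ _)
          · intro u hu v hv
            rcases mem_insert.1 hu with rfl | hu
            · rcases mem_insert.1 hv with rfl | hv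
              · rw [M.diagonal]
                exact one_ne_zero
              · exact hy'.2 v hv
            · rcases mem_insert.1 hv with hvy | hv
              · rw [hvy, M.symmetric]
                exact hy'.2 u hu
              · exact hK u hu v hv

/-- Reduction to local terms. -/
theorem red (hM : ∀ K, Clq M K → Sph M K) (h : ∀ K, Clq M K → ZG (ra M) (Nb M K) ∨
    ∃ K₁ ⊆ K, K₁.Nonempty ∧ (∀ s ∈ K₁, ∀ t ∈ K, t ∉ K₁ → M s t = 2) ∧
      ZG (Bg M ∅) (K₁.disjSum K₁)) : ZG M univ := by
  classical
  have hmain : ZG (Bg M ∅) (Xk M ∅) := by
    refine red_aux ?_ _ ∅ ∅ rfl fun x hx => absurd hx (Finset.notMem_empty x)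
    intro Z K hK hdis hNb
    rcases h K hK with h1 | ⟨K₁, hK₁, hne, h2, h3⟩
    · have e1 : Xk M K = (Nb M K).disjSum ∅ ∪ K.disjSum K := by
        ext v
        rcases v with x | x
        · rw [inl_mem_Xk, mem_union, Finset.inl_mem_disjSum, Finset.inl_mem_disjSum, or_comm]
        · rw [inr_mem_Xk, mem_union, Finset.inr_mem_disjSum, Finset.inr_mem_disjSum]
          simp
      rw [e1]
      refine zg_join ?_ ?_ (fun C _ hC => bg_flag hM Z C hC) ?_
      · rw [Finset.disjoint_left]
        intro v hv hv'
        rcases v with x | x
        · rw [Finset.inl_mem_disjSum] at hv hv'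
          exact (mem_Nb.1 hv).1 hv'
        · rw [Finset.inr_mem_disjSum] at hv
          exact absurd hv (Finset.notMem_empty x)
      · intro b hb a ha
        rcases a with x | x
        · rw [Finset.inl_mem_disjSum] at ha
          have hx := mem_Nb.1 ha
          rcases b with y | y
          · rw [Finset.inl_mem_disjSum] at hb
            have hne : y ≠ x := by
              rintro rfl
              exact hx.1 hb
            exact bg_ll2 hne (by rw [M.symmetric]; exact hx.2 y hb) (Or.inr (hNb ha))
          · rw [Finset.inr_mem_disjSum] at hb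
            have hne : x ≠ y := by
              rintro rfl
              exact hx.1 hb
            rw [(Bg M Z).symmetric]
            exact bg_lr hne (hx.2 y hb)
        · rw [Finset.inr_mem_disjSum] at ha
          exact absurd ha (Finset.notMem_empty x)
      · have e2 : (Nb M K).disjSum (∅ : Finset V) = (Nb M K).image Sum.inl := by
          ext v
          rcases v with x | x
          · rw [Finset.inl_mem_disjSum, mem_image]
            constructor
            · exact fun hx => ⟨x, hx, rfl⟩
            · rintro ⟨y, hy, he⟩
              rwa [← Sum.inl_injective he]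
          · rw [Finset.inr_mem_disjSum, mem_image]
            constructor
            · exact fun hx => absurd hx (Finset.notMem_empty x)
            · rintro ⟨y, hy, he⟩
              exact absurd he (by simp)
        rw [e2, ← zg_image (G := ra M) Sum.inl (fun x _ y _ hxy => Sum.inl_injective hxy)]
        · exact h1
        · intro x hx y hy
          by_cases hxy : x = y
          · rw [hxy, (Bg M Z).diagonal, (ra M).diagonal]
          · by_cases h0 : M x y = 0
            · rw [bg_ll0 h0, ra_zero h0]
            · rw [bg_ll2 hxy h0 (Or.inl (hNb hx)), ra_ne hxy h0]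
    · have e1 : Xk M K = K₁.disjSum K₁ ∪ ((K \ K₁) ∪ Nb M K).disjSum (K \ K₁) := by
        ext v
        rcases v with x | x
        · rw [inl_mem_Xk, mem_union, Finset.inl_mem_disjSum, Finset.inl_mem_disjSum, mem_union,
            mem_sdiff]
          constructor
          · rintro (h4 | h4)
            · by_cases h5 : x ∈ K₁
              · exact Or.inl h5
              · exact Or.inr (Or.inl ⟨h4, h5⟩)
            · exact Or.inr (Or.inr h4)
          · rintro (h4 | h4 | h4)
            · exact Or.inl (hK₁ h4)
            · exact Or.inl h4.1
            · exact Or.inr h4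
        · rw [inr_mem_Xk, mem_union, Finset.inr_mem_disjSum, Finset.inr_mem_disjSum, mem_sdiff]
          constructor
          · intro h4
            by_cases h5 : x ∈ K₁
            · exact Or.inl h5
            · exact Or.inr ⟨h4, h5⟩
          · rintro (h4 | h4)
            · exact hK₁ h4
            · exact h4.1
      rw [e1]
      refine zg_join ?_ ?_ (fun C _ hC => bg_flag hM Z C hC) ?_
      · rw [Finset.disjoint_left]
        intro v hv hv'
        rcases v with x | x
        · rw [Finset.inl_mem_disjSum] at hv hv'
          rw [mem_union, mem_sdiff, mem_Nb] at hv'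
          rcases hv' with h4 | h4
          · exact h4.2 hv
          · exact h4.1 (hK₁ hv)
        · rw [Finset.inr_mem_disjSum] at hv hv'
          exact (mem_sdiff.1 hv').2 hv
      · intro b hb a ha
        -- `a` over `s ∈ K₁`, `b` over `t ∈ K \ K₁` or `t ∈ Nb M K`
        have key : ∀ t, t ∈ K \ K₁ ∨ t ∈ Nb M K → ∀ s ∈ K₁, t ≠ s ∧ M t s ≠ 0 := by
          intro t ht s hs
          rcases ht with ht | ht
          · rw [mem_sdiff] at ht
            refine ⟨?_, hK t ht.1 s (hK₁ hs)⟩
            rintro rfl
            exact ht.2 hs
          · rw [mem_Nb] at ht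
            refine ⟨?_, ht.2 s (hK₁ hs)⟩
            rintro rfl
            exact ht.1 (hK₁ hs)
        rcases b with t | t
        · rw [Finset.inl_mem_disjSum, mem_union] at hb
          rcases a with s | s
          · rw [Finset.inl_mem_disjSum] at ha
            obtain ⟨k1, k2⟩ := key t hb s ha
            rcases hb with hb | hb
            · rw [mem_sdiff] at hb
              rw [bg_ll k1 k2 (Finset.disjoint_left.1 hdis hb.1)
                (Finset.disjoint_left.1 hdis (hK₁ ha)), M.symmetric]
              exact h2 s ha t hb.1 hb.2
            · exact bg_ll2 k1 k2 (Or.inl (hNb hb))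
          · rw [Finset.inr_mem_disjSum] at ha
            obtain ⟨k1, k2⟩ := key t hb s ha
            exact bg_lr k1 k2
        · rw [Finset.inr_mem_disjSum] at hb
          rcases a with s | s
          · rw [Finset.inl_mem_disjSum] at ha
            obtain ⟨k1, k2⟩ := key t (Or.inl hb) s ha
            rw [(Bg M Z).symmetric]
            exact bg_lr k1.symm (by rwa [M.symmetric])
          · rw [Finset.inr_mem_disjSum] at ha
            obtain ⟨k1, k2⟩ := key t (Or.inl hb) s ha
            exact bg_rr k1 k2
      · have e2 : K₁.disjSum K₁ = Finset.image (id : V ⊕ V → V ⊕ V) (K₁.disjSum K₁) := by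
          rw [Finset.image_id]
        rw [e2, ← zg_image (G := Bg M ∅) id (fun x _ y _ hxy => hxy)]
        · exact h3
        · intro u hu v hv
          rcases u with x | x
          · rcases v with y | y
            · rw [Finset.inl_mem_disjSum] at hu hv
              change Bg M Z (Sum.inl x) (Sum.inl y) = Bg M ∅ (Sum.inl x) (Sum.inl y)
              by_cases hxy : x = y
              · rw [hxy, (Bg M Z).diagonal, (Bg M ∅).diagonal]
              · have h0 := hK x (hK₁ hu) y (hK₁ hv)
                rw [bg_ll hxy h0 (Finset.disjoint_left.1 hdis (hK₁ hu))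
                  (Finset.disjoint_left.1 hdis (hK₁ hv)), bg_ll hxy h0 (Finset.notMem_empty x)
                  (Finset.notMem_empty y)]
            · rfl
          · rcases v with y | y
            · rfl
            · rfl
  have e3 : Xk M ∅ = (univ : Finset V).image Sum.inl := by
    ext v
    rcases v with x | x
    · rw [inl_mem_Xk, mem_image]
      constructor
      · exact fun _ => ⟨x, mem_univ _, rfl⟩
      · intro _
        right
        rw [mem_Nb]
        exact ⟨Finset.notMem_empty x, fun k hk => absurd hk (Finset.notMem_empty k)⟩
    · rw [inr_mem_Xk, mem_image]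
      constructor
      · exact fun hx => absurd hx (Finset.notMem_empty x)
      · rintro ⟨y, -, he⟩
        exact absurd he (by simp)
  rw [e3, ← zg_image (G := M) Sum.inl (fun x _ y _ hxy => Sum.inl_injective hxy)] at hmain
  · exact hmain
  · intro x _ y _
    by_cases hxy : x = y
    · rw [hxy, (Bg M ∅).diagonal, M.diagonal]
    · by_cases h0 : M x y = 0
      · rw [bg_ll0 h0, h0]
      · exact bg_ll hxy h0 (Finset.notMem_empty x) (Finset.notMem_empty y)

end LBL
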