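import Pool.Agent.LBL.Tra
import Pool.Agent.LBL.Join
import Pool.Agent.LBL.Red

/-!
# Project LBL (architect helper40), module Dtg: unfolding along a spherical set

General form of module Dok: `M` has walls `l x` (`x : κ`, generating the finite group of `m`) and right-angled
generators `r s` (`s : Δ`); `kk s` is the set of the walls commuting with `r s`.  `N` is the right-angled
system of the conjugates of the `r s`.  The complex of the averaged chains of `M` is isomorphic to the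
complex of `N`.  Main theorem (`hh_conv`): if the homology of `M` vanishes, then so does the one of `N`.
-/

namespace LBL

open SCG SNG SCS Finset

/-- The converse transfer: averaged cycles are limits of averaged boundaries. -/
theorem conv_transfer {V : Type} [Fintype V] [LinearOrder V] {M : CoxeterMatrix V} {T : Finset V}
    (h : Tc M T) (hM : ∀ j, HH M univ j = ⊥) (j : ℕ) (f : HW M) (hf : f ∈ CC M univ j)
    (hPf : Pa M T f = f) (hPd : Pa M T (bD M f) = 0) (ε : ℝ) (hε : 0 < ε) :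
    ∃ k ∈ CC M univ (j + 1), Pa M T k = k ∧ ‖f - Pa M T (bD M k)‖ < ε := by
  obtain ⟨K, hK1, hK2, hK3⟩ := exists_K h
  obtain ⟨Fp, hFp⟩ : ∃ Fp : ℕ → Submodule ℝ (HW M), ∀ p f, f ∈ Fp p ↔
      ∀ X : Finset V, (X ∩ T).card < p → ∀ g, f (X, g) = 0 := by
    refine ⟨fun p =>
      { carrier := {f | ∀ X : Finset V, (X ∩ T).card < p → ∀ g, f (X, g) = 0}
        add_mem' := ?_
        zero_mem' := fun _ _ _ => rfl
        smul_mem' := ?_ }, fun p f => Iff.rfl⟩
    · intro f h hf hh X hX g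
      rw [ell_add, hf X hX, hh X hX, add_zero]
    · intro c f hf X hX g
      rw [ell_smul, hf X hX, mul_zero]
  have hP0 : ∀ x ∈ Fp 1, Pa M T x = 0 := by
    intro x hx
    refine ell_ext fun q => ?_
    obtain ⟨X, g⟩ := q
    rw [ell_zero]
    by_cases hX : Disjoint X T
    · rw [Pa_apply h x hX]
      have h1 : ∑ y ∈ wf M (TU M T X), x (X, g * y) = 0 := by
        refine Finset.sum_eq_zero fun y _ => (hFp 1 x).1 hx X ?_ _
        rw [Finset.disjoint_iff_inter_eq_empty.1 hX, Finset.card_empty]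
        exact Nat.one_pos
      rw [h1, mul_zero]
    · exact Pa_zero M T x hX g
  obtain ⟨b, hb, hb1, hdb⟩ : ∃ b ∈ CC M univ j, b ∈ Fp 1 ∧ bD M b = bD M f := by
    rcases j with _ | j
    · exact ⟨0, Submodule.zero_mem _, Submodule.zero_mem _, by rw [map_zero, bD_zero hf]⟩
    · obtain ⟨R, -, hR⟩ := zig_ex (C := fun j => CC M univ j) (F := Fp) (d := bD M) (P := Pa M T)
        (K := K) (m := T.card + 1) (fun j x hx => bD_mem hx) bD_bD hK1
        (fun p x hx => (hFp _ _).2 (hK2 p x ((hFp _ _).1 hx)))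
        (fun j p x hx hF hdx hPx => (hFp _ _).2 (hK3 j p x hx ((hFp _ _).1 hF) hdx hPx))
        (by
          intro j x _ hx
          refine ell_ext fun q => ?_
          obtain ⟨X, g⟩ := q
          exact (hFp _ _).1 hx X
            (Nat.lt_succ_of_le (Finset.card_le_card Finset.inter_subset_right)) g)
        (fun p x hx => (hFp _ _).2 fun X hX => (hFp _ _).1 hx X (Nat.lt_succ_of_lt hX))
        (T.card + 1) 0 (by omega)
      obtain ⟨b, hb, hb1, hb2, -⟩ := hR j (bD M f) (bD_mem hf)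
        ((hFp _ _).2 fun X hX => absurd hX (Nat.not_lt_zero _)) (bD_bD f) fun _ => hPd
      exact ⟨b, hb, hb1, hb2⟩
  obtain ⟨k, hk, hkn⟩ := exists_of_hh (hM j) (Submodule.sub_mem _ hf hb) (by
    rw [map_sub, hdb, sub_self]) (ε := ε / (‖Pa M T‖ + 1)) (by positivity)
  refine ⟨Pa M T k, Pa_mem h hk, Pa_Pa h k, ?_⟩
  rw [Pa_d_Pa h hk]
  have h1 : f - Pa M T (bD M k) = Pa M T (f - b - bD M k) := by
    rw [map_sub, map_sub, hPf, hP0 b hb1, sub_zero]
  rw [h1]
  calc ‖Pa M T (f - b - bD M k)‖ ≤ ‖Pa M T‖ * ‖f - b - bD M k‖ := (Pa M T).le_opNorm _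
    _ ≤ ‖Pa M T‖ * (ε / (‖Pa M T‖ + 1)) := mul_le_mul_of_nonneg_left hkn.le (norm_nonneg _)
    _ < (‖Pa M T‖ + 1) * (ε / (‖Pa M T‖ + 1)) :=
        mul_lt_mul_of_pos_right (lt_add_one _) (by positivity)
    _ = ε := by
        rw [mul_div_cancel₀]
        positivity

/-- The data. -/
structure Dg {κ Δ V U : Type} [Fintype κ] [Fintype Δ] [LinearOrder Δ] [LinearOrder V] [LinearOrder U]
    (m : CoxeterMatrix κ) (M : CoxeterMatrix V) (N : CoxeterMatrix U) (l : κ → V) (r : Δ → V)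
    (kk : Δ → Finset κ) (vx : Δ → m.Group → U) (ty : U → Δ) (Θ : N.Group × m.Group ≃ M.Group)
    (ι : m.Group →* M.Group) : Prop where
  sph : Sph m univ
  li : Function.Injective l
  ri : Function.Injective r
  lr : ∀ x s, l x ≠ r s
  cov : ∀ v, (∃ x, v = l x) ∨ ∃ s, v = r s
  ll : ∀ x y, M (l x) (l y) = m x y
  lr2 : ∀ x s, x ∈ kk s → M (l x) (r s) = 2
  lr0 : ∀ x s, x ∉ kk s → M (l x) (r s) = 0
  flag : ∀ C : Finset V, (∀ u ∈ C, ∀ v ∈ C, M u v ≠ 0) → Sph M C
  ol : ∀ x s, l x < r s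
  orr : ∀ s t, r s < r t ↔ s < t
  ve : ∀ i g h, vx i g = vx i h ↔ g⁻¹ * h ∈ WT m (kk i : Set κ)
  vt : ∀ i g, ty (vx i g) = i
  vs : ∀ u, ∃ g, u = vx (ty u) g
  N2 : ∀ i j g, i ≠ j → M (r i) (r j) ≠ 0 → N (vx i g) (vx j g) = 2
  Nn : ∀ u v, u ≠ v → N u v ≠ 0 → ty u ≠ ty v ∧ M (r (ty u)) (r (ty v)) ≠ 0 ∧
    ∃ g, u = vx (ty u) g ∧ v = vx (ty v) g
  ou : ∀ u v, ty u < ty v → u < v
  i1 : ∀ x, ι (gn m x) = gn M (l x)
  ti : ∀ ρ w y, Θ (ρ, w) * ι y = Θ (ρ, w * y)
  tr : ∀ ρ w s, Θ (ρ, w) * gn M (r s) = Θ (ρ * gn N (vx s w), w)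

variable {κ Δ V U : Type} [Fintype κ] [Fintype Δ] [LinearOrder Δ] [LinearOrder V] [LinearOrder U]
  {m : CoxeterMatrix κ} {M : CoxeterMatrix V} {N : CoxeterMatrix U} {l : κ → V} {r : Δ → V}
  {kk : Δ → Finset κ} {vx : Δ → m.Group → U} {ty : U → Δ} {Θ : N.Group × m.Group ≃ M.Group}
  {ι : m.Group →* M.Group}

/-- the set of the walls -/
def Tw (l : κ → V) : Finset V := univ.image l

theorem mem_Tw {v : V} : v ∈ Tw l ↔ ∃ x, l x = v := by
  unfold Tw
  simp

/-- the right-angled generators in `X` -/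
def rG (r : Δ → V) (X : Finset V) : Finset Δ := univ.filter fun a => r a ∈ X

theorem mem_rG {X : Finset V} {a : Δ} : a ∈ rG r X ↔ r a ∈ X := by
  unfold rG
  simp

open Classical in
/-- the walls commuting with `A` -/
noncomputable def tk (kk : Δ → Finset κ) (A : Finset Δ) : Finset κ :=
  univ.filter fun x => ∀ a ∈ A, x ∈ kk a

theorem mem_tk {A : Finset Δ} {x : κ} : x ∈ tk kk A ↔ ∀ a ∈ A, x ∈ kk a := by
  classical
  simp only [tk, mem_filter, mem_univ, true_and]

/-- the simplex of type `A` of the chamber `w` -/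
def sgk (vx : Δ → m.Group → U) (A : Finset Δ) (w : m.Group) : Finset U :=
  A.image fun i => vx i w

theorem mem_sgk {A : Finset Δ} {w : m.Group} {u : U} : u ∈ sgk vx A w ↔ ∃ i ∈ A, vx i w = u := by
  unfold sgk
  rw [mem_image]

namespace Dg

variable (D : Dg m M N l r kk vx ty Θ ι)
include D

theorem mem_sgm' {A : Finset Δ} {w : m.Group} {u : U} :
    u ∈ sgk vx A w ↔ ty u ∈ A ∧ u = vx (ty u) w := by
  rw [mem_sgk]
  constructor
  · rintro ⟨i, hi, rfl⟩
    rw [D.vt]
    exact ⟨hi, rfl⟩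
  · rintro ⟨h1, h2⟩
    exact ⟨ty u, h1, h2.symm⟩

theorem m0 (x y : κ) : m x y ≠ 0 := sph_ne D.sph (mem_univ x) (mem_univ y)

theorem sphA (A : Finset κ) : Sph m A := sph_mono (subset_univ A) D.sph

theorem sgm_card (A : Finset Δ) (w : m.Group) : (sgk vx A w).card = A.card := by
  unfold sgk
  refine Finset.card_image_of_injective _ fun i j hij => ?_
  have h1 := congrArg ty hij
  rwa [D.vt, D.vt] at h1

theorem sgm_type {A A' : Finset Δ} {w w' : m.Group} (h : sgk vx A w = sgk vx A' w') : A = A' := by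
  have h1 : ∀ {A A' : Finset Δ} {w w' : m.Group}, sgk vx A w = sgk vx A' w' → A ⊆ A' := by
    intro A A' w w' h a ha
    have h2 : vx a w ∈ sgk vx A' w' := by
      rw [← h]
      exact mem_sgk.2 ⟨a, ha, rfl⟩
    have h3 := (D.mem_sgm'.1 h2).1
    rwa [D.vt] at h3
  exact Finset.Subset.antisymm (h1 h) (h1 h.symm)

theorem mem_kk {A : Finset Δ} {y : m.Group} :
    y ∈ WT m (tk kk A : Set κ) ↔ ∀ i ∈ A, y ∈ WT m (kk i : Set κ) := by
  have h1 : (tk kk A : Set κ) = ⋂ i ∈ (A : Set Δ), (kk i : Set κ) := by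
    ext x
    rw [Finset.mem_coe, mem_tk]
    simp only [Set.mem_iInter, Finset.mem_coe]
  rw [h1, mem_iInter]
  rfl

theorem sgm_mul {A : Finset Δ} {w y : m.Group} (hy : y ∈ WT m (tk kk A : Set κ)) :
    sgk vx A (w * y) = sgk vx A w := by
  unfold sgk
  refine Finset.image_congr fun i hi => ?_
  change vx i (w * y) = vx i w
  symm
  rw [D.ve, inv_mul_cancel_left]
  exact D.mem_kk.1 hy i hi

theorem sgm_eq {A : Finset Δ} {w w' : m.Group} (h : sgk vx A w = sgk vx A w') :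
    w⁻¹ * w' ∈ WT m (tk kk A : Set κ) := by
  rw [D.mem_kk]
  intro i hi
  have h1 : vx i w ∈ sgk vx A w' := by
    rw [← h]
    exact mem_sgk.2 ⟨i, hi, rfl⟩
  have h2 := (D.mem_sgm'.1 h1).2
  rw [D.vt, D.ve] at h2
  exact h2

theorem sph_sgk {A : Finset Δ} (hA : ∀ i ∈ A, ∀ j ∈ A, M (r i) (r j) ≠ 0) (w : m.Group) :
    Sph N (sgk vx A w) := by
  have h0 : Sph N (∅ : Finset U) := by
    unfold Sph WT
    rw [Finset.coe_empty, Set.image_empty, Subgroup.closure_empty]
    exact Set.finite_singleton 1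
  have h1 := sph_add h0 (sgk vx A w) fun c hc y hy hne => by
    rw [Finset.empty_union] at hy
    obtain ⟨i, hi, rfl⟩ := mem_sgk.1 hc
    obtain ⟨j, hj, rfl⟩ := mem_sgk.1 hy
    exact D.N2 i j w (fun e => hne (by rw [e])) (hA i hi j hj)
  rwa [Finset.empty_union] at h1

/-- All spherical sets are simplices of chambers. -/
theorem sph_exists {τ : Finset U} (h : Sph N τ) : ∃ w, τ = sgk vx (τ.image ty) w := by
  have h1 : ∀ u ∈ τ, ∀ v ∈ τ, ∃ g, u = vx (ty u) g ∧ v = vx (ty v) g := by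
    intro u hu v hv
    by_cases huv : u = v
    · subst huv
      obtain ⟨g, hg⟩ := D.vs u
      exact ⟨g, hg, hg⟩
    · exact (D.Nn u v huv (sph_ne h hu hv)).2.2
  choose x hx using D.vs
  obtain ⟨w, hw⟩ := helly (M := m) (fun u : U => (kk (ty u) : Set κ)) x τ (by
    intro u hu v hv
    obtain ⟨g, h2, h3⟩ := h1 u hu v hv
    refine ⟨g, ?_, ?_⟩
    · rw [← D.ve, ← hx]
      exact h2
    · rw [← D.ve, ← hx]
      exact h3)
  refine ⟨w, ?_⟩
  have h2 : ∀ u ∈ τ, u = vx (ty u) w := by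
    intro u hu
    have h3 := hw u hu
    rw [← D.ve, ← hx] at h3
    exact h3
  ext u
  rw [D.mem_sgm', mem_image]
  constructor
  · intro hu
    exact ⟨⟨u, hu, rfl⟩, h2 u hu⟩
  · rintro ⟨⟨v, hv, hvu⟩, hu⟩
    rw [hu, ← hvu, ← h2 v hv]
    exact hv

/-- The types of a spherical set form a clique. -/
theorem clq_of {A : Finset Δ} {w : m.Group} (h : Sph N (sgk vx A w)) :
    ∀ i ∈ A, ∀ j ∈ A, M (r i) (r j) ≠ 0 := by
  intro i hi j hj
  by_cases hij : i = j
  · rw [hij, M.diagonal]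
    exact one_ne_zero
  · have h1 : vx i w ≠ vx j w := by
      intro e
      have h2 := congrArg ty e
      rw [D.vt, D.vt] at h2
      exact hij h2
    have h2 := D.Nn _ _ h1 (sph_ne h (mem_sgk.2 ⟨i, hi, rfl⟩) (mem_sgk.2 ⟨j, hj, rfl⟩))
    rw [D.vt, D.vt] at h2
    exact h2.2.1

theorem sph_insert' {A : Finset Δ} {w : m.Group} {v : U} (hv : v ∉ sgk vx A w)
    (h : Sph N (insert v (sgk vx A w))) :
    ty v ∉ A ∧ ∃ y ∈ WT m (tk kk A : Set κ), v = vx (ty v) (w * y) := by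
  obtain ⟨w', hw'⟩ := D.sph_exists h
  have h1 : ty v ∉ A := by
    intro h2
    have h3 : vx (ty v) w ∈ sgk vx A w := mem_sgk.2 ⟨_, h2, rfl⟩
    have h4 : v ≠ vx (ty v) w := by
      intro h5
      rw [h5] at hv
      exact hv h3
    have h5 := D.Nn v (vx (ty v) w) h4 (sph_ne h (mem_insert_self _ _) (mem_insert_of_mem h3))
    rw [D.vt] at h5
    exact h5.1 rfl
  refine ⟨h1, w⁻¹ * w', ?_, ?_⟩
  · rw [D.mem_kk]
    intro i hi
    have h2 : vx i w ∈ insert v (sgk vx A w) := mem_insert_of_mem (mem_sgk.2 ⟨i, hi, rfl⟩)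
    rw [hw'] at h2
    have h3 := (D.mem_sgm'.1 h2).2
    rwa [D.vt, D.ve] at h3
  · rw [mul_inv_cancel_left]
    have h2 : v ∈ insert v (sgk vx A w) := mem_insert_self _ _
    rw [hw'] at h2
    exact (D.mem_sgm'.1 h2).2

theorem insert_sgk {A : Finset Δ} {w y : m.Group} (hy : y ∈ WT m (tk kk A : Set κ))
    (a : Δ) : insert (vx a (w * y)) (sgk vx A w) = sgk vx (insert a A) (w * y) := by
  rw [← D.sgm_mul hy]
  unfold sgk
  rw [Finset.image_insert]

/-- signs -/
theorem sg_sgk {A : Finset Δ} {w : m.Group} {v : U} (hv : ty v ∉ A) :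
    sg (sgk vx A w) v = sg A (ty v) := by
  unfold sg
  congr 1
  have h1 : (sgk vx A w).filter (· < v) = (A.filter (· < ty v)).image fun i => vx i w := by
    ext u
    rw [mem_filter, mem_sgk, mem_image]
    constructor
    · rintro ⟨⟨i, hi, rfl⟩, h2⟩
      refine ⟨i, mem_filter.2 ⟨hi, ?_⟩, rfl⟩
      rcases lt_trichotomy i (ty v) with h3 | h3 | h3
      · exact h3
      · rw [← h3] at hv
        exact absurd hi hv
      · have h4 := D.ou v (vx i w) (by rwa [D.vt])
        exact absurd h2 (not_lt.2 h4.le)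
    · rintro ⟨i, hi, rfl⟩
      rw [mem_filter] at hi
      exact ⟨⟨i, hi.1, rfl⟩, D.ou _ _ (by rw [D.vt]; exact hi.2)⟩
  rw [h1]
  refine Finset.card_image_of_injective _ fun i j hij => ?_
  have h2 := congrArg ty hij
  rwa [D.vt, D.vt] at h2

/-- The sum over the chambers around a simplex. -/
theorem sum_chambers [Fintype U] {A : Finset Δ} {a : Δ} (ha : a ∉ A) (w : m.Group)
    (F : Finset U → ℝ) (hF : ∀ τ, ¬ Sph N τ → F τ = 0) :
    ∑ y ∈ wf m (tk kk A), F (sgk vx (insert a A) (w * y)) =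
      ((wf m (tk kk (insert a A))).card : ℝ) *
        ∑ v ∈ univ.filter (fun v : U => ty v = a), F (insert v (sgk vx A w)) := by
  classical
  rw [← Finset.sum_fiberwise_of_maps_to (t := univ.filter fun v : U => ty v = a)
    (g := fun y => vx a (w * y)) (fun y _ => mem_filter.2 ⟨mem_univ _, D.vt _ _⟩), Finset.mul_sum]
  refine Finset.sum_congr rfl fun v hv => ?_
  rw [mem_filter] at hv
  have h1 : ∀ y ∈ (wf m (tk kk A)).filter (fun y => vx a (w * y) = v),
      F (sgk vx (insert a A) (w * y)) = F (insert v (sgk vx A w)) := by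
    intro y hy
    rw [mem_filter, mem_wf (D.sphA _)] at hy
    rw [← D.insert_sgk hy.1, hy.2]
  rw [Finset.sum_congr rfl h1, Finset.sum_const, nsmul_eq_mul]
  by_cases h2 : ∃ y₀ ∈ WT m (tk kk A : Set κ), vx a (w * y₀) = v
  · obtain ⟨y₀, h3, h4⟩ := h2
    congr 2
    refine Finset.card_bij (fun y _ => y₀⁻¹ * y) ?_ ?_ ?_
    · intro y hy
      rw [mem_filter, mem_wf (D.sphA _)] at hy
      rw [mem_wf (D.sphA _), D.mem_kk]
      intro i hi
      rcases mem_insert.1 hi with rfl | hi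
      · have h5 := h4.trans hy.2.symm
        rw [D.ve] at h5
        have h6 : (w * y₀)⁻¹ * (w * y) = y₀⁻¹ * y := by group
        rwa [h6] at h5
      · exact D.mem_kk.1 (mul_mem (inv_mem h3) hy.1) i hi
    · intro y _ y' _ h5
      exact mul_left_cancel h5
    · intro z hz
      rw [mem_wf (D.sphA _), D.mem_kk] at hz
      refine ⟨y₀ * z, ?_, inv_mul_cancel_left _ _⟩
      rw [mem_filter, mem_wf (D.sphA _)]
      refine ⟨mul_mem h3 (D.mem_kk.2 fun i hi => hz i (mem_insert_of_mem hi)), ?_⟩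
      rw [← h4]
      symm
      rw [D.ve]
      have h6 : (w * y₀)⁻¹ * (w * (y₀ * z)) = z := by group
      rw [h6]
      exact hz a (mem_insert_self _ _)
  · have h3 : F (insert v (sgk vx A w)) = 0 := by
      refine hF _ fun h4 => h2 ?_
      have hv' : v ∉ sgk vx A w := by
        intro h5
        have h6 := (D.mem_sgm'.1 h5).1
        rw [hv.2] at h6
        exact ha h6
      obtain ⟨-, y, h5, h6⟩ := D.sph_insert' hv' h4
      refine ⟨y, h5, ?_⟩
      rw [hv.2] at h6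
      exact h6.symm
    rw [h3, mul_zero, mul_zero]

theorem tc : Tc M (Tw l) := by
  refine ⟨?_, ?_, ?_⟩
  · refine D.flag _ fun u hu v hv => ?_
    obtain ⟨x, rfl⟩ := mem_Tw.1 hu
    obtain ⟨y, rfl⟩ := mem_Tw.1 hv
    rw [D.ll]
    exact D.m0 x y
  · intro t ht u hu
    obtain ⟨x, rfl⟩ := mem_Tw.1 ht
    rcases D.cov u with ⟨y, rfl⟩ | ⟨s, rfl⟩
    · exact absurd (mem_Tw.2 ⟨y, rfl⟩) hu
    · by_cases hxs : x ∈ kk s
      · exact Or.inl (D.lr2 x s hxs)
      · exact Or.inr (D.lr0 x s hxs)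
  · intro t ht u hu
    obtain ⟨x, rfl⟩ := mem_Tw.1 ht
    rcases D.cov u with ⟨y, rfl⟩ | ⟨s, rfl⟩
    · exact absurd (mem_Tw.2 ⟨y, rfl⟩) hu
    · exact D.ol x s

theorem r_notMem (s : Δ) : r s ∉ Tw l := by
  intro h
  obtain ⟨x, hx⟩ := mem_Tw.1 h
  exact D.lr x s hx

theorem mem_TU' {X : Finset V} {x : κ} : l x ∈ TU M (Tw l) X ↔ x ∈ tk kk (rG r X) := by
  rw [mem_TU, mem_tk]
  constructor
  · rintro ⟨-, h1⟩ a ha
    have h3 := h1 (r a) (mem_rG.1 ha) (D.r_notMem a)
    by_contra h4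
    rw [D.lr0 x a h4] at h3
    exact absurd h3 (by norm_num)
  · intro h1
    refine ⟨mem_Tw.2 ⟨x, rfl⟩, fun u hu hu' => ?_⟩
    rcases D.cov u with ⟨y, rfl⟩ | ⟨s, rfl⟩
    · exact absurd (mem_Tw.2 ⟨y, rfl⟩) hu'
    · exact D.lr2 x s (h1 s (mem_rG.2 hu))

theorem iota_inj : Function.Injective ι := by
  intro x y h
  have h1 : Θ (1, 1 * x) = Θ (1, 1 * y) := by rw [← D.ti, ← D.ti, h]
  have h2 := congrArg Prod.snd (Θ.injective h1)
  change 1 * x = 1 * y at h2
  rwa [one_mul, one_mul] at h2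

theorem mem_WTU {X : Finset V} {y : M.Group} :
    y ∈ WT M (TU M (Tw l) X : Set V) ↔ ∃ y' ∈ WT m (tk kk (rG r X) : Set κ), ι y' = y := by
  constructor
  · intro hy
    obtain ⟨η, h1, rfl⟩ := exists_word hy
    clear hy
    induction η with
    | nil => exact ⟨1, one_mem _, by rw [map_one, wp_nil]⟩
    | cons s η ih =>
      obtain ⟨y', h2, h3⟩ := ih fun t ht => h1 t (List.mem_cons_of_mem _ ht)
      have h4 : s ∈ TU M (Tw l) X := by exact_mod_cast h1 s List.mem_cons_self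
      obtain ⟨x, rfl⟩ := mem_Tw.1 (TU_sub _ _ h4)
      refine ⟨gn m x * y', mul_mem (gn_mem ?_) h2, ?_⟩
      · rw [Finset.mem_coe]
        exact D.mem_TU'.1 h4
      · rw [map_mul, D.i1, h3, wp_cons]
  · rintro ⟨y', hy', rfl⟩
    obtain ⟨η, h1, rfl⟩ := exists_word hy'
    clear hy'
    induction η with
    | nil =>
      rw [wp_nil, map_one]
      exact one_mem _
    | cons x η ih =>
      rw [wp_cons, map_mul, D.i1]
      refine mul_mem (gn_mem ?_) (ih fun t ht => h1 t (List.mem_cons_of_mem _ ht))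
      have h2 := h1 x List.mem_cons_self
      rw [Finset.mem_coe] at h2
      exact_mod_cast D.mem_TU'.2 h2

theorem sum_wTU (X : Finset V) (F : M.Group → ℝ) :
    ∑ y ∈ wf M (TU M (Tw l) X), F y = ∑ y ∈ wf m (tk kk (rG r X)), F (ι y) := by
  symm
  refine Finset.sum_bij (fun y _ => ι y) ?_ ?_ ?_ ?_
  · intro y hy
    rw [mem_wf (D.sphA _)] at hy
    rw [mem_wf (D.tc.sphJ X), D.mem_WTU]
    exact ⟨y, hy, rfl⟩
  · intro y _ y' _ h
    exact D.iota_inj h
  · intro y hy
    rw [mem_wf (D.tc.sphJ X), D.mem_WTU] at hy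
    obtain ⟨y', h1, h2⟩ := hy
    exact ⟨y', (mem_wf (D.sphA _)).2 h1, h2⟩
  · intro y _
    rfl

theorem card_wTU (X : Finset V) :
    (wf M (TU M (Tw l) X)).card = (wf m (tk kk (rG r X))).card := by
  have h1 := D.sum_wTU X fun _ => 1
  rw [Finset.sum_const, Finset.sum_const, nsmul_eq_mul, nsmul_eq_mul, mul_one, mul_one] at h1
  exact_mod_cast h1

theorem eq_image {X : Finset V} (h : Disjoint X (Tw l)) : X = (rG r X).image r := by
  ext v
  rw [mem_image]
  constructor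
  · intro hv
    rcases D.cov v with ⟨x, rfl⟩ | ⟨s, rfl⟩
    · exact absurd (mem_Tw.2 ⟨x, rfl⟩) (Finset.disjoint_left.1 h hv)
    · exact ⟨s, mem_rG.2 hv, rfl⟩
  · rintro ⟨s, hs, rfl⟩
    exact mem_rG.1 hs

theorem rG_image (A : Finset Δ) : rG r (A.image r) = A := by
  ext a
  rw [mem_rG, mem_image]
  constructor
  · rintro ⟨b, hb, he⟩
    rwa [← D.ri he]
  · intro ha
    exact ⟨a, ha, rfl⟩

theorem disj_image (A : Finset Δ) : Disjoint (A.image r) (Tw l) := by
  rw [Finset.disjoint_left]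
  intro v hv
  obtain ⟨a, -, rfl⟩ := mem_image.1 hv
  exact D.r_notMem a

theorem sg_image (A : Finset Δ) (a : Δ) : sg (A.image r) (r a) = sg A a := by
  unfold sg
  congr 1
  have h1 : (A.image r).filter (· < r a) = (A.filter (· < a)).image r := by
    ext v
    rw [mem_filter, mem_image, mem_image]
    constructor
    · rintro ⟨⟨b, hb, rfl⟩, h2⟩
      exact ⟨b, mem_filter.2 ⟨hb, (D.orr b a).1 h2⟩, rfl⟩
    · rintro ⟨b, hb, rfl⟩
      rw [mem_filter] at hb
      exact ⟨⟨b, hb.1, rfl⟩, (D.orr b a).2 hb.2⟩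
  rw [h1]
  exact Finset.card_image_of_injective _ D.ri

theorem sph_image {A : Finset Δ} (hA : ∀ i ∈ A, ∀ j ∈ A, M (r i) (r j) ≠ 0) :
    Sph M (A.image r) := by
  refine D.flag _ fun u hu v hv => ?_
  obtain ⟨a, ha, rfl⟩ := mem_image.1 hu
  obtain ⟨b, hb, rfl⟩ := mem_image.1 hv
  exact hA a ha b hb

theorem sph_image' {A : Finset Δ} (h : Sph M (A.image r)) :
    ∀ i ∈ A, ∀ j ∈ A, M (r i) (r j) ≠ 0 := fun i hi j hj =>
  sph_ne h (mem_image_of_mem r hi) (mem_image_of_mem r hj)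

/-- the coefficient -/
theorem card_pos (A : Finset κ) : 0 < ((wf m A).card : ℝ) := by
  exact_mod_cast wf_pos (D.sphA A)

open Classical in
/-- The operator from the chains of `N` to the chains of `M`. -/
theorem exists_J : ∃ J : HW N →L[ℝ] HW M, ∀ F X g, J F (X, g) =
    if Disjoint X (Tw l) then ((wf m (tk kk (rG r X))).card : ℝ)⁻¹ *
      F (sgk vx (rG r X) (Θ.symm g).2, (Θ.symm g).1) else 0 := by
  obtain ⟨J, hJ⟩ := exists_op (α := Finset V × M.Group) (β := Finset U × N.Group)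
    (I := m.Group) (wf m univ)
    (φ := fun w q => (sgk vx (rG r q.1) w, (Θ.symm q.2).1))
    (c := fun w q => if Disjoint q.1 (Tw l) ∧ (Θ.symm q.2).2 = w then
      ((wf m (tk kk (rG r q.1))).card : ℝ)⁻¹ else 0) (B := fun _ => 1) (by
      intro w q
      split_ifs
      · rw [abs_of_nonneg (by positivity)]
        have h1 : (1 : ℝ) ≤ ((wf m (tk kk (rG r q.1))).card : ℝ) := by
          exact_mod_cast wf_pos (D.sphA _)
        exact inv_le_one_of_one_le₀ h1
      · rw [abs_zero]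
        exact zero_le_one) (by
      intro w q q' hq hq' he
      have h1 : Disjoint q.1 (Tw l) ∧ (Θ.symm q.2).2 = w := by
        by_contra hcon
        exact hq (if_neg hcon)
      have h2 : Disjoint q'.1 (Tw l) ∧ (Θ.symm q'.2).2 = w := by
        by_contra hcon
        exact hq' (if_neg hcon)
      have h3 := D.sgm_type (congrArg Prod.fst he)
      have h4 := congrArg Prod.snd he
      refine Prod.ext ?_ ?_
      · rw [D.eq_image h1.1, D.eq_image h2.1, h3]
      · refine Θ.symm.injective (Prod.ext h4 ?_)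
        rw [h1.2, h2.2])
  refine ⟨J, fun F X g => ?_⟩
  rw [hJ, Finset.sum_eq_single (Θ.symm g).2]
  · by_cases h : Disjoint X (Tw l)
    · rw [if_pos ⟨h, rfl⟩, if_pos h]
    · rw [if_neg fun h1 => h h1.1, if_neg h, zero_mul]
  · intro w _ hw
    rw [if_neg fun h1 => hw h1.2.symm, zero_mul]
  · intro h1
    exfalso
    apply h1
    rw [mem_wf (D.sphA _), Finset.coe_univ, WT_univ]
    exact Subgroup.mem_top _

/-- values of the operator -/
theorem J_val {J : HW N →L[ℝ] HW M} (hJ : ∀ F X g, J F (X, g) =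
    open Classical in if Disjoint X (Tw l) then ((wf m (tk kk (rG r X))).card : ℝ)⁻¹ *
      F (sgk vx (rG r X) (Θ.symm g).2, (Θ.symm g).1) else 0) (F : HW N) (A : Finset Δ)
    (ρ : N.Group) (w : m.Group) :
    J F (A.image r, Θ (ρ, w)) = ((wf m (tk kk A)).card : ℝ)⁻¹ * F (sgk vx A w, ρ) := by
  classical
  rw [hJ, if_pos (D.disj_image A), D.rG_image, Equiv.symm_apply_apply]

variable [Fintype V] [Fintype U]

theorem J_mem {J : HW N →L[ℝ] HW M} (hJ : ∀ F X g, J F (X, g) =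
    open Classical in if Disjoint X (Tw l) then ((wf m (tk kk (rG r X))).card : ℝ)⁻¹ *
      F (sgk vx (rG r X) (Θ.symm g).2, (Θ.symm g).1) else 0) {j : ℕ} {F : HW N}
    (hF : F ∈ CC N univ j) : J F ∈ CC M univ j := by
  classical
  rw [mem_CC] at hF ⊢
  refine ⟨fun X hX g => ?_, fun X s hs g => ?_⟩
  · rw [hJ]
    by_cases h : Disjoint X (Tw l)
    · rw [if_pos h, hF.1, mul_zero]
      rintro ⟨-, h0, h1⟩
      apply hX
      rw [D.sgm_card] at h1
      refine ⟨subset_univ _, ?_, ?_⟩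
      · rw [D.eq_image h]
        exact D.sph_image (D.clq_of h0)
      · rw [D.eq_image h, Finset.card_image_of_injective _ D.ri]
        exact h1
    · rw [if_neg h]
  · rw [hJ, hJ]
    by_cases h : Disjoint X (Tw l)
    · rw [if_pos h, if_pos h]
      rcases D.cov s with ⟨x, rfl⟩ | ⟨a, rfl⟩
      · exact absurd (mem_Tw.2 ⟨x, rfl⟩) (Finset.disjoint_left.1 h hs)
      · obtain ⟨⟨ρ, w⟩, rfl⟩ := Θ.surjective g
        rw [D.tr, Equiv.symm_apply_apply, Equiv.symm_apply_apply]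
        have h1 : F (sgk vx (rG r X) w, ρ * gn N (vx a w)) = - F (sgk vx (rG r X) w, ρ) :=
          hF.2 _ _ (mem_sgk.2 ⟨a, mem_rG.2 hs, rfl⟩) _
        change _ * F (sgk vx (rG r X) w, ρ * gn N (vx a w)) = - (_ * F (sgk vx (rG r X) w, ρ))
        rw [h1, mul_neg]
    · rw [if_neg h, if_neg h, neg_zero]

theorem J_Pa {J : HW N →L[ℝ] HW M} (hJ : ∀ F X g, J F (X, g) =
    open Classical in if Disjoint X (Tw l) then ((wf m (tk kk (rG r X))).card : ℝ)⁻¹ *
      F (sgk vx (rG r X) (Θ.symm g).2, (Θ.symm g).1) else 0) (F : HW N) :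
    Pa M (Tw l) (J F) = J F := by
  classical
  refine Pa_eq D.tc (fun X hX g => ?_) fun X hX g y hy => ?_
  · rw [hJ, if_neg hX]
  · rw [D.mem_WTU] at hy
    obtain ⟨y', hy', rfl⟩ := hy
    obtain ⟨⟨ρ, w⟩, rfl⟩ := Θ.surjective g
    rw [D.ti, hJ, hJ, if_pos hX, if_pos hX, Equiv.symm_apply_apply, Equiv.symm_apply_apply]
    change _ * F (sgk vx (rG r X) (w * y'), ρ) = _ * F (sgk vx (rG r X) w, ρ)
    rw [D.sgm_mul hy']

/-- The operator is a chain map. -/
theorem J_bD {J : HW N →L[ℝ] HW M} (hJ : ∀ F X g, J F (X, g) =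
    open Classical in if Disjoint X (Tw l) then ((wf m (tk kk (rG r X))).card : ℝ)⁻¹ *
      F (sgk vx (rG r X) (Θ.symm g).2, (Θ.symm g).1) else 0) {j : ℕ} {F : HW N}
    (hF : F ∈ CC N univ j) : Pa M (Tw l) (bD M (J F)) = J (bD N F) := by
  classical
  refine ell_ext fun q => ?_
  obtain ⟨X, g⟩ := q
  by_cases h : Disjoint X (Tw l)
  swap
  · rw [Pa_zero M (Tw l) _ h, hJ, if_neg h]
  obtain ⟨⟨ρ, w⟩, rfl⟩ := Θ.surjective g
  rw [Pa_bD D.tc (D.J_mem hJ hF) h, D.card_wTU]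
  obtain ⟨A, hA⟩ : ∃ A, A = rG r X := ⟨_, rfl⟩
  have hX : X = A.image r := by
    rw [hA]
    exact D.eq_image h
  rw [← hA]
  -- the left side
  have h1 : ∀ a ∉ A, ∑ x ∈ wf M (TU M (Tw l) X), J F (insert (r a) X, Θ (ρ, w) * x) =
      ∑ v ∈ univ.filter (fun v : U => ty v = a), F (insert v (sgk vx A w), ρ) := by
    intro a ha
    rw [D.sum_wTU X fun x => J F (insert (r a) X, Θ (ρ, w) * x), ← hA]
    have h2 : ∀ y, J F (insert (r a) X, Θ (ρ, w) * ι y) =
        ((wf m (tk kk (insert a A))).card : ℝ)⁻¹ * F (sgk vx (insert a A) (w * y), ρ) := by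
      intro y
      rw [D.ti, hX, ← Finset.image_insert]
      exact D.J_val hJ F (insert a A) ρ (w * y)
    rw [Finset.sum_congr rfl fun y _ => h2 y, ← Finset.mul_sum,
      D.sum_chambers ha w (fun τ => F (τ, ρ)) (fun τ hτ => by
        rw [mem_CC] at hF
        exact hF.1 τ (fun h3 => hτ h3.2.1) ρ), ← mul_assoc, inv_mul_cancel₀ (D.card_pos _).ne',
      one_mul]
  have h2 : ∑ s ∈ (X ∪ Tw l)ᶜ, sg X s * (((wf m (tk kk A)).card : ℝ)⁻¹ *
      ∑ x ∈ wf M (TU M (Tw l) X), J F (insert s X, Θ (ρ, w) * x)) =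
      ∑ a ∈ Aᶜ, sg A a * (((wf m (tk kk A)).card : ℝ)⁻¹ *
        ∑ v ∈ univ.filter (fun v : U => ty v = a), F (insert v (sgk vx A w), ρ)) := by
    symm
    refine Finset.sum_bij (fun a _ => r a) ?_ ?_ ?_ ?_
    · intro a ha
      rw [Finset.mem_compl, mem_union, not_or, hX]
      rw [Finset.mem_compl] at ha
      refine ⟨?_, D.r_notMem a⟩
      intro h3
      obtain ⟨b, hb, he⟩ := mem_image.1 h3
      rw [D.ri he] at hb
      exact ha hb
    · intro a _ b _ he
      exact D.ri he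
    · intro s hs
      rw [Finset.mem_compl, mem_union, not_or] at hs
      rcases D.cov s with ⟨x, rfl⟩ | ⟨a, rfl⟩
      · exact absurd (mem_Tw.2 ⟨x, rfl⟩) hs.2
      · refine ⟨a, ?_, rfl⟩
        rw [Finset.mem_compl, hA, mem_rG]
        exact hs.1
    · intro a ha
      rw [Finset.mem_compl] at ha
      rw [h1 a ha]
      congr 1
      rw [hX, D.sg_image]
  rw [h2]
  -- the right side
  have h3 : J (bD N F) (X, Θ (ρ, w)) = ((wf m (tk kk A)).card : ℝ)⁻¹ *
      ∑ v ∈ (sgk vx A w)ᶜ, sg (sgk vx A w) v * F (insert v (sgk vx A w), ρ) := by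
    rw [hX, D.J_val hJ]
    congr 1
    exact bD_apply F (sgk vx A w) ρ
  rw [h3]
  have h4 : ∑ v ∈ (sgk vx A w)ᶜ, sg (sgk vx A w) v * F (insert v (sgk vx A w), ρ) =
      ∑ a ∈ Aᶜ, ∑ v ∈ univ.filter (fun v : U => ty v = a),
        sg A a * F (insert v (sgk vx A w), ρ) := by
    have h5 : univ.filter (fun v : U => ty v ∉ A) ⊆ (sgk vx A w)ᶜ := by
      intro v hv
      rw [mem_filter] at hv
      rw [Finset.mem_compl]
      exact fun h6 => hv.2 (D.mem_sgm'.1 h6).1
    rw [← Finset.sum_subset h5]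
    · rw [← Finset.sum_fiberwise_of_maps_to (t := Aᶜ) (g := ty) (fun v hv => by
        rw [mem_filter] at hv
        rw [Finset.mem_compl]
        exact hv.2)]
      refine Finset.sum_congr rfl fun a ha => ?_
      rw [Finset.mem_compl] at ha
      have h6 : (univ.filter (fun v : U => ty v ∉ A)).filter (fun v => ty v = a) =
          univ.filter (fun v : U => ty v = a) := by
        ext v
        simp only [mem_filter, mem_univ, true_and]
        constructor
        · exact fun h7 => h7.2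
        · intro h7
          rw [h7]
          exact ⟨ha, rfl⟩
      rw [h6]
      refine Finset.sum_congr rfl fun v hv => ?_
      rw [mem_filter] at hv
      rw [D.sg_sgk (by rw [hv.2]; exact ha), hv.2]
    · intro v hv hv'
      rw [Finset.mem_compl] at hv
      have h6 : ty v ∈ A := by
        by_contra h7
        exact hv' (mem_filter.2 ⟨mem_univ _, h7⟩)
      rw [mem_CC] at hF
      rw [hF.1, mul_zero]
      rintro ⟨-, h7, -⟩
      exact (D.sph_insert' hv h7).1 h6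
  rw [h4, Finset.mul_sum]
  refine Finset.sum_congr rfl fun a _ => ?_
  rw [← Finset.mul_sum]
  ring

/-- Averaged chains of `M` come from chains of `N`. -/
theorem exists_I {J : HW N →L[ℝ] HW M} (hJ : ∀ F X g, J F (X, g) =
    open Classical in if Disjoint X (Tw l) then ((wf m (tk kk (rG r X))).card : ℝ)⁻¹ *
      F (sgk vx (rG r X) (Θ.symm g).2, (Θ.symm g).1) else 0) : ∃ I : HW M →L[ℝ] HW N,
      (∀ j, ∀ f ∈ CC M univ j, Pa M (Tw l) f = f → I f ∈ CC N univ j ∧ J (I f) = f) ∧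
      ∀ j, ∀ F ∈ CC N univ j, I (J F) = F := by
  classical
  have hw : ∀ τ : Finset U, ∃ w, Sph N τ → τ = sgk vx (τ.image ty) w := by
    intro τ
    by_cases h : Sph N τ
    · obtain ⟨w, hw⟩ := D.sph_exists h
      exact ⟨w, fun _ => hw⟩
    · exact ⟨1, fun h1 => absurd h1 h⟩
  choose w hw using hw
  obtain ⟨I, hI⟩ := exists_pl (α := Finset U × N.Group) (β := Finset V × M.Group)
    (φ := fun q => ((q.1.image ty).image r, Θ (q.2, w q.1)))
    (c := fun q => if Sph N q.1 then ((wf m (tk kk (q.1.image ty))).card : ℝ) else 0)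
    (B := ((wf m univ).card : ℝ)) (by
      intro q
      split_ifs
      · rw [abs_of_nonneg (Nat.cast_nonneg _)]
        exact_mod_cast Finset.card_le_card (wf_mono D.sph (subset_univ _))
      · rw [abs_zero]
        exact Nat.cast_nonneg _) (by
      intro q q' hq hq' he
      have h1 : Sph N q.1 := by
        by_contra hcon
        exact hq (if_neg hcon)
      have h2 : Sph N q'.1 := by
        by_contra hcon
        exact hq' (if_neg hcon)
      have h3 := Finset.image_injective D.ri (congrArg Prod.fst he)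
      have h4 := Θ.injective (congrArg Prod.snd he)
      have h5 := congrArg Prod.fst h4
      have h6 := congrArg Prod.snd h4
      change w q.1 = w q'.1 at h6
      refine Prod.ext ?_ h5
      rw [hw _ h1, hw _ h2, h3, h6])
  have hty : ∀ (A : Finset Δ) (x : m.Group), (sgk vx A x).image ty = A := by
    intro A x
    ext a
    rw [mem_image]
    constructor
    · rintro ⟨u, hu, rfl⟩
      exact (D.mem_sgm'.1 hu).1
    · intro ha
      exact ⟨vx a x, mem_sgk.2 ⟨a, ha, rfl⟩, D.vt a x⟩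
  -- independence of the chamber
  have hval : ∀ (j : ℕ) (f : HW M), f ∈ CC M univ j → Pa M (Tw l) f = f →
      ∀ (A : Finset Δ) (x : m.Group) (ρ : N.Group), I f (sgk vx A x, ρ) =
      ((wf m (tk kk A)).card : ℝ) * f (A.image r, Θ (ρ, x)) := by
    intro j f hf hPf A x ρ
    rw [hI]
    by_cases hs : Sph N (sgk vx A x)
    · rw [if_pos hs]
      have h2 := hw _ hs
      rw [hty] at h2 ⊢
      congr 1
      have h3 := D.sgm_eq h2
      have h4 : Θ (ρ, w (sgk vx A x)) = Θ (ρ, x) * ι (x⁻¹ * w (sgk vx A x)) := by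
        rw [D.ti, mul_inv_cancel_left]
      rw [h4, ← hPf]
      refine Pa_inv D.tc f _ _ ?_
      rw [D.mem_WTU, D.rG_image]
      exact ⟨_, h3, rfl⟩
    · rw [if_neg hs, zero_mul]
      rw [mem_CC] at hf
      rw [hf.1, mul_zero]
      rintro ⟨-, h1, -⟩
      exact hs (D.sph_sgk (D.sph_image' h1) x)
  refine ⟨I, fun j f hf hPf => ⟨?_, ?_⟩, fun j F hF => ?_⟩
  · have hval := hval j f hf hPf
    rw [mem_CC] at hf ⊢
    refine ⟨fun τ hτ ρ => ?_, fun τ v hv ρ => ?_⟩
    · by_cases h : Sph N τ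
      · rw [hw τ h, hval, hf.1, mul_zero]
        rintro ⟨-, -, h1⟩
        apply hτ
        refine ⟨subset_univ _, h, ?_⟩
        rw [hw τ h, D.sgm_card]
        rwa [Finset.card_image_of_injective _ D.ri] at h1
      · rw [hI, if_neg h, zero_mul]
    · by_cases h : Sph N τ
      · have h1 := hw τ h
        have h2 : v ∈ sgk vx (τ.image ty) (w τ) := by
          rw [← h1]
          exact hv
        rw [h1, hval, hval]
        obtain ⟨a, ha, rfl⟩ := mem_sgk.1 h2
        rw [← D.tr, hf.2 _ (r a) (mem_image.2 ⟨a, ha, rfl⟩)]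
        ring
      · rw [hI, hI, if_neg h, zero_mul, zero_mul, neg_zero]
  · refine ell_ext fun q => ?_
    obtain ⟨X, g⟩ := q
    by_cases h : Disjoint X (Tw l)
    · obtain ⟨⟨ρ, x⟩, rfl⟩ := Θ.surjective g
      rw [D.eq_image h, D.J_val hJ, hval j f hf hPf, ← mul_assoc,
        inv_mul_cancel₀ (D.card_pos _).ne', one_mul]
    · rw [hJ, if_neg h, ← hPf, Pa_zero M (Tw l) f h]
  · refine ell_ext fun q => ?_
    obtain ⟨τ, ρ⟩ := q
    by_cases h : Sph N τ
    · rw [hw τ h, hval j (J F) (D.J_mem hJ hF) (D.J_Pa hJ F), D.J_val hJ, ← mul_assoc,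
        mul_inv_cancel₀ (D.card_pos _).ne', one_mul]
    · rw [hI, if_neg h, zero_mul]
      rw [mem_CC] at hF
      rw [hF.1]
      rintro ⟨-, h1, -⟩
      exact h h1

/-- The converse of the transfer. -/
theorem hh_conv (hM : ∀ j, HH M univ j = ⊥) (j : ℕ) : HH N univ j = ⊥ := by
  classical
  obtain ⟨J, hJ⟩ := D.exists_J
  obtain ⟨I, hI1, hI2⟩ := D.exists_I hJ
  refine hh_bot_of fun F hF hdF ε hε => ?_
  have hPd : Pa M (Tw l) (bD M (J F)) = 0 := by
    rw [D.J_bD hJ hF, hdF, map_zero]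
  obtain ⟨k, hk, hPk, hkn⟩ := conv_transfer D.tc hM j (J F) (D.J_mem hJ hF) (D.J_Pa hJ F) hPd
    (ε / (‖I‖ + 1)) (by positivity)
  obtain ⟨hIk, hJI⟩ := hI1 _ k hk hPk
  refine ⟨I k, hIk, ?_⟩
  have h1 : F - bD N (I k) = I (J (F - bD N (I k))) := by
    rw [hI2 j]
    exact Submodule.sub_mem _ hF (bD_mem hIk)
  have h2 : J (F - bD N (I k)) = J F - Pa M (Tw l) (bD M k) := by
    rw [map_sub, ← D.J_bD hJ hIk, hJI]
  rw [h1, h2]
  calc ‖I (J F - Pa M (Tw l) (bD M k))‖ ≤ ‖I‖ * ‖J F - Pa M (Tw l) (bD M k)‖ := I.le_opNorm _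
    _ ≤ ‖I‖ * (ε / (‖I‖ + 1)) := mul_le_mul_of_nonneg_left hkn.le (norm_nonneg _)
    _ < (‖I‖ + 1) * (ε / (‖I‖ + 1)) :=
        mul_lt_mul_of_pos_right (lt_add_one _) (by positivity)
    _ = ε := by
        rw [mul_div_cancel₀]
        positivity

end Dg

end LBL
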