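import Pool.Agent.LBL.FinEx

/-!
# Project LBL (architect helper40), module Kern: an equivariant right inverse of the boundary on the
cellular chains of the Coxeter polytope of a finite Coxeter group, given by a kernel
-/

namespace LBL

open SCG SNG Finset

variable {κ : Type} {N : CoxeterMatrix κ}

/-- The operator with the kernel `k`. -/
noncomputable def kap [Fintype κ] [Fintype N.Group] (k : Finset κ → Finset κ → N.Group → ℝ)
    (f : Finset κ → N.Group → ℝ) (Y : Finset κ) (g : N.Group) : ℝ :=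
  ∑ Y' : Finset κ, ∑ x : N.Group, k Y Y' x * f Y' (g * x)

/-- `p`-chains -/
private def AA (N : CoxeterMatrix κ) (p : ℕ) : Submodule ℝ (Finset κ → N.Group → ℝ) where
  carrier := {f | AltC N p f}
  add_mem' := fun ha hb => ha.add hb
  zero_mem' := ⟨fun _ _ _ => rfl, fun _ _ _ _ => neg_zero.symm⟩
  smul_mem' := by
    intro c f hf
    refine ⟨fun Y hY g => ?_, fun Y s hs g => ?_⟩
    · change c * f Y g = 0
      rw [hf.1 Y hY, mul_zero]
    · change c * f Y (g * gn N s) = - (c * f Y g)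
      rw [hf.2 Y s hs]
      ring

private theorem mem_AA {p : ℕ} {f : Finset κ → N.Group → ℝ} : f ∈ AA N p ↔ AltC N p f := Iff.rfl

/-- left translation -/
private def LL (w : N.Group) : (Finset κ → N.Group → ℝ) →ₗ[ℝ] (Finset κ → N.Group → ℝ) where
  toFun f Y g := f Y (w⁻¹ * g)
  map_add' _ _ := rfl
  map_smul' _ _ := rfl

private theorem LL_apply (w : N.Group) (f : Finset κ → N.Group → ℝ) (Y : Finset κ) (g : N.Group) :
    LL w f Y g = f Y (w⁻¹ * g) := rfl

private theorem LL_alt {p : ℕ} {f : Finset κ → N.Group → ℝ} (hf : AltC N p f) (w : N.Group) :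
    AltC N p (LL w f) := by
  refine ⟨fun Y hY g => ?_, fun Y s hs g => ?_⟩
  · rw [LL_apply, hf.1 Y hY]
  · rw [LL_apply, LL_apply, ← mul_assoc, hf.2 Y s hs]

private theorem LL_LL (w : N.Group) (f : Finset κ → N.Group → ℝ) : LL w⁻¹ (LL w f) = f := by
  funext Y g
  rw [LL_apply, LL_apply, inv_inv, inv_mul_cancel_left]

variable [Fintype κ] [LinearOrder κ]

/-- the boundary -/
private def dE (N : CoxeterMatrix κ) :
    (Finset κ → N.Group → ℝ) →ₗ[ℝ] (Finset κ → N.Group → ℝ) where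
  toFun f Y g := SNG.bdry f Y g
  map_add' f h := by
    funext Y g
    exact bdry_add f h Y g
  map_smul' c f := by
    funext Y g
    change SNG.bdry (fun Y g => c * f Y g) Y g = c * SNG.bdry f Y g
    unfold SNG.bdry
    rw [Finset.mul_sum]
    exact Finset.sum_congr rfl fun s _ => by ring

private theorem dE_apply (f : Finset κ → N.Group → ℝ) (Y : Finset κ) (g : N.Group) :
    dE N f Y g = SNG.bdry f Y g := rfl

private theorem dE_LL (w : N.Group) (f : Finset κ → N.Group → ℝ) : dE N (LL w f) = LL w (dE N f) := rfl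

/-- a linear right inverse -/
private theorem exists_G (p : ℕ) : ∃ G : (Finset κ → N.Group → ℝ) →ₗ[ℝ] AA N (p + 1),
    ∀ f, (∃ h ∈ AA N (p + 1), dE N h = f) → dE N (G f).1 = f := by
  obtain ⟨ψ, hψ⟩ := (((dE N).domRestrict (AA N (p + 1))).rangeRestrict).exists_rightInverse_of_surjective
    (LinearMap.range_rangeRestrict _)
  obtain ⟨G, hG⟩ := LinearMap.exists_extend ψ
  refine ⟨G, ?_⟩
  rintro f ⟨h, hh, rfl⟩
  have h1 : dE N h ∈ LinearMap.range ((dE N).domRestrict (AA N (p + 1))) := ⟨⟨h, hh⟩, rfl⟩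
  have h2 : G (dE N h) = ψ ⟨dE N h, h1⟩ := by
    rw [← hG]
    rfl
  have h3 := LinearMap.congr_fun hψ ⟨dE N h, h1⟩
  have h4 := congrArg Subtype.val h3
  rw [h2]
  exact h4

variable [Fintype N.Group]

/-- the average -/
private noncomputable def kb {p : ℕ} (G : (Finset κ → N.Group → ℝ) →ₗ[ℝ] AA N (p + 1)) :
    (Finset κ → N.Group → ℝ) →ₗ[ℝ] (Finset κ → N.Group → ℝ) :=
  (Fintype.card N.Group : ℝ)⁻¹ • ∑ w : N.Group, LL w⁻¹ ∘ₗ (AA N (p + 1)).subtype ∘ₗ G ∘ₗ LL w

omit [Fintype κ] [LinearOrder κ] in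
private theorem kb_apply {p : ℕ} (G : (Finset κ → N.Group → ℝ) →ₗ[ℝ] AA N (p + 1))
    (f : Finset κ → N.Group → ℝ) :
    kb G f = (Fintype.card N.Group : ℝ)⁻¹ • ∑ w : N.Group, LL w⁻¹ (G (LL w f)).1 := by
  unfold kb
  rw [LinearMap.smul_apply, LinearMap.sum_apply]
  rfl

private theorem kb_mem {p : ℕ} (G : (Finset κ → N.Group → ℝ) →ₗ[ℝ] AA N (p + 1))
    (f : Finset κ → N.Group → ℝ) : AltC N (p + 1) (kb G f) := by
  rw [← mem_AA, kb_apply]
  refine Submodule.smul_mem _ _ (Submodule.sum_mem _ fun w _ => ?_)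
  exact LL_alt (G (LL w f)).2 _

private theorem kb_LL {p : ℕ} (G : (Finset κ → N.Group → ℝ) →ₗ[ℝ] AA N (p + 1)) (v : N.Group)
    (f : Finset κ → N.Group → ℝ) : kb G (LL v f) = LL v (kb G f) := by
  rw [kb_apply, kb_apply, map_smul, map_sum]
  congr 1
  refine Fintype.sum_equiv (Equiv.mulRight v) _ _ fun w => ?_
  have h1 : LL w (LL v f) = LL (w * v) f := by
    funext Y g
    rw [LL_apply, LL_apply, LL_apply, mul_inv_rev, mul_assoc]
  change LL w⁻¹ (G (LL w (LL v f))).1 = LL v (LL (w * v)⁻¹ (G (LL (w * v) f)).1)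
  rw [h1]
  funext Y g
  rw [LL_apply, LL_apply, LL_apply, inv_inv, inv_inv, ← mul_assoc, mul_inv_cancel_right]

private theorem kb_d {p : ℕ} {G : (Finset κ → N.Group → ℝ) →ₗ[ℝ] AA N (p + 1)}
    (hG : ∀ f, (∃ h ∈ AA N (p + 1), dE N h = f) → dE N (G f).1 = f) {f : Finset κ → N.Group → ℝ}
    (hf : ∀ w, ∃ h ∈ AA N (p + 1), dE N h = LL w f) : dE N (kb G f) = f := by
  rw [kb_apply, map_smul, map_sum]
  have h1 : ∀ w : N.Group, dE N (LL w⁻¹ (G (LL w f)).1) = f := by
    intro w
    rw [dE_LL, hG _ (hf w), LL_LL]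
  simp only [h1]
  rw [Finset.sum_const, Finset.card_univ, ← Nat.cast_smul_eq_nsmul ℝ, smul_smul, inv_mul_cancel₀,
    one_smul]
  exact_mod_cast Fintype.card_ne_zero

/-- Existence of the kernel. -/
theorem exists_kern (N : CoxeterMatrix κ) [Fintype N.Group] :
    ∃ k : Finset κ → Finset κ → N.Group → ℝ,
      (∀ Y Y' x, k Y Y' x ≠ 0 → Y.card = Y'.card + 1) ∧
      (∀ Y : Finset κ, ∀ s ∈ Y, ∀ Y' x, k Y Y' (gn N s * x) = - k Y Y' x) ∧
      ∀ (p : ℕ) (f : Finset κ → N.Group → ℝ), AltC N p f →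
        (1 ≤ p → ∀ Y g, SNG.bdry f Y g = 0) → (p = 0 → ∑ g, f ∅ g = 0) →
        ∀ Y g, SNG.bdry (kap k f) Y g = f Y g := by
  classical
  choose G hG using fun p : ℕ => exists_G (N := N) p
  obtain ⟨δ, hδ⟩ : ∃ δ : Finset κ → N.Group → Finset κ → N.Group → ℝ, ∀ Y' x Y g,
      δ Y' x Y g = if Y = Y' ∧ g = x then 1 else 0 := ⟨_, fun _ _ _ _ => rfl⟩
  have hδs : ∀ f : Finset κ → N.Group → ℝ, f = ∑ Y', ∑ x, f Y' x • δ Y' x := by
    intro f
    funext Y g
    simp only [Finset.sum_apply, Pi.smul_apply, smul_eq_mul, hδ]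
    rw [Finset.sum_eq_single Y, Finset.sum_eq_single g]
    · simp
    · intro x _ hx
      rw [if_neg fun h => hx h.2.symm, mul_zero]
    · exact fun h => absurd (Finset.mem_univ _) h
    · intro Y' _ hY'
      exact Finset.sum_eq_zero fun x _ => by rw [if_neg fun h => hY' h.1.symm, mul_zero]
    · exact fun h => absurd (Finset.mem_univ _) h
  refine ⟨fun Y Y' x => kb (G Y'.card) (δ Y' x) Y 1, ?_, ?_, ?_⟩
  · intro Y Y' x h
    by_contra hcon
    exact h ((kb_mem (G Y'.card) (δ Y' x)).1 Y hcon 1)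
  · intro Y s hs Y' x
    have h1 : δ Y' (gn N s * x) = LL (gn N s) (δ Y' x) := by
      funext Z g
      rw [LL_apply, hδ, hδ, gn_inv]
      have h2 : g = gn N s * x ↔ gn N s * g = x := by
        constructor
        · rintro rfl
          rw [← mul_assoc, gn_mul_self, one_mul]
        · rintro rfl
          rw [← mul_assoc, gn_mul_self, one_mul]
      simp only [h2]
    change kb (G Y'.card) (δ Y' (gn N s * x)) Y 1 = - kb (G Y'.card) (δ Y' x) Y 1
    rw [h1, kb_LL, LL_apply, gn_inv, mul_one]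
    have h3 := (kb_mem (G Y'.card) (δ Y' x)).2 Y s hs 1
    rwa [one_mul] at h3
  · intro p f hf h1 h2 Y g
    have h3 : kap (fun Y Y' x => kb (G Y'.card) (δ Y' x) Y 1) f = kb (G p) f := by
      funext Y g
      have h4 : kb (G p) f Y g = kb (G p) (LL g⁻¹ f) Y 1 := by
        rw [kb_LL, LL_apply, inv_inv, mul_one]
      rw [h4, hδs (LL g⁻¹ f)]
      simp only [map_sum, map_smul, Finset.sum_apply, Pi.smul_apply, smul_eq_mul]
      unfold kap
      refine Finset.sum_congr rfl fun Y' _ => Finset.sum_congr rfl fun x _ => ?_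
      rw [LL_apply, inv_inv]
      change kb (G Y'.card) (δ Y' x) Y 1 * f Y' (g * x) = f Y' (g * x) * kb (G p) (δ Y' x) Y 1
      by_cases h5 : Y'.card = p
      · subst h5
        rw [mul_comm]
      · rw [hf.1 Y' h5, mul_zero, zero_mul]
    rw [h3]
    have h4 : dE N (kb (G p) f) = f := by
      refine kb_d (hG p) fun w => ?_
      have h5 := LL_alt hf w
      have h6 : ∃ h, AltC N (p + 1) h ∧ ∀ Y g, SNG.bdry h Y g = LL w f Y g := by
        rcases Nat.eq_zero_or_pos p with h7 | h7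
        · subst h7
          refine finex0 h5 ?_
          rw [← h2 rfl]
          exact Fintype.sum_equiv (Equiv.mulLeft w⁻¹) _ _ fun x => rfl
        · refine finex h7 h5 fun Y g => ?_
          have h8 : dE N (LL w f) Y g = LL w (dE N f) Y g := by rw [dE_LL]
          rw [dE_apply, LL_apply, dE_apply, h1 h7] at h8
          exact h8
      obtain ⟨h, h7, h8⟩ := h6
      exact ⟨h, h7, funext fun Y => funext fun g => h8 Y g⟩
    exact congrFun (congrFun h4 Y) g

end LBL
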