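import Pool.Agent.LBL.Ctx
import Pool.Agent.LBL.Kern
import Pool.Agent.SCG.Stmt

/-!
# Project LBL (architect helper40), module Op: a bounded operator which is a right inverse of the
`T`-part of the boundary on the cycles
-/

namespace LBL

open SCG SNG SCS Finset

section sub

variable {V : Type} {M : CoxeterMatrix V} {J : Finset V}

theorem map_univ_sub (J : Finset V) :
    (univ : Finset {x // x ∈ J}).map (Function.Embedding.subtype fun x => x ∈ J) = J := by
  ext x
  simp

theorem WT_univ (M : CoxeterMatrix V) : WT M (Set.univ : Set V) = ⊤ := by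
  rw [eq_top_iff]
  intro g _
  obtain ⟨η, h1, -⟩ := exists_red g
  rw [← h1]
  exact wp_mem fun s _ => Set.mem_univ s

theorem finite_of_sph {κ : Type} [Fintype κ] {N : CoxeterMatrix κ} (h : Sph N univ) :
    Finite N.Group := by
  unfold Sph at h
  rw [Finset.coe_univ, WT_univ, Subgroup.coe_top] at h
  exact Set.finite_univ_iff.1 h

theorem finite_sub (h : Sph M J) : Finite (sub M J).Group := by
  refine finite_of_sph ?_
  rw [← sph_iff (M := M) (M' := sub M J) (Function.Embedding.subtype fun x => x ∈ J)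
    (fun _ _ => rfl), map_univ_sub]
  exact h

/-- the group of `sub M J` as a subgroup -/
theorem exists_phi (M : CoxeterMatrix V) (J : Finset V) : ∃ φ : (sub M J).Group →* M.Group,
    (∀ x, φ (gn (sub M J) x) = gn M x.1) ∧ Function.Injective φ ∧
      ∀ y, y ∈ WT M (J : Set V) ↔ ∃ x, φ x = y := by
  obtain ⟨φ, h1, h2⟩ := exists_emb (M := M) (M' := sub M J) Subtype.val Subtype.val_injective
    fun _ _ => rfl
  refine ⟨φ, h1, h2, fun y => ⟨fun hy => ?_, ?_⟩⟩
  · obtain ⟨η, h3, rfl⟩ := exists_word hy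
    clear hy
    induction η with
    | nil => exact ⟨1, by rw [map_one, wp_nil]⟩
    | cons s η ih =>
      obtain ⟨x, hx⟩ := ih fun t ht => h3 t (List.mem_cons_of_mem _ ht)
      refine ⟨gn (sub M J) ⟨s, h3 s List.mem_cons_self⟩ * x, ?_⟩
      rw [map_mul, h1, hx, wp_cons]
  · rintro ⟨x, rfl⟩
    obtain ⟨η, rfl, -⟩ := exists_red x
    induction η with
    | nil =>
      rw [wp_nil, map_one]
      exact one_mem _
    | cons s η ih =>
      rw [wp_cons, map_mul, h1]
      exact mul_mem (gn_mem s.2) ih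

end sub

variable {V : Type} [Fintype V] [LinearOrder V] {M : CoxeterMatrix V} {T J : Finset V}

/-- the embedding -/
abbrev ej (J : Finset V) : {x // x ∈ J} ↪ V := Function.Embedding.subtype fun x => x ∈ J

/-- The function on the Coxeter polytope of `J` at `(X, g)`. -/
noncomputable def zz (φ : (sub M J).Group →* M.Group) (T : Finset V) (f : HW M) (X : Finset V)
    (g : M.Group) (Y' : Finset {x // x ∈ J}) (x : (sub M J).Group) : ℝ :=
  f (Y'.map (ej J) ∪ (X \ T), g * φ x)

/-- the elements of `X` in `J` -/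
def rY (J X : Finset V) : Finset {x // x ∈ J} := univ.filter fun s => s.1 ∈ X

omit [Fintype V] in
theorem map_rY (J X : Finset V) : (rY J X).map (ej J) = X ∩ J := by
  ext x
  simp [rY, and_comm]

omit [Fintype V] in
theorem map_sub_T (hJ : J ⊆ T) (Y : Finset {x // x ∈ J}) : Y.map (ej J) ⊆ T := by
  intro x hx
  obtain ⟨y, -, rfl⟩ := mem_map.1 hx
  exact hJ y.2

omit [Fintype V] in
theorem union_sdiff (hJ : J ⊆ T) (Y : Finset {x // x ∈ J}) (X : Finset V) :
    (Y.map (ej J) ∪ (X \ T)) \ T = X \ T := by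
  ext x
  simp only [mem_sdiff, mem_union]
  constructor
  · rintro ⟨h1 | h1, h2⟩
    · exact absurd (map_sub_T hJ Y h1) h2
    · exact h1
  · rintro ⟨h1, h2⟩
    exact ⟨Or.inr ⟨h1, h2⟩, h2⟩

omit [Fintype V] in
theorem union_inter (hJ : J ⊆ T) (Y : Finset {x // x ∈ J}) (X : Finset V) :
    (Y.map (ej J) ∪ (X \ T)) ∩ T = Y.map (ej J) := by
  ext x
  simp only [mem_sdiff, mem_union, Finset.mem_inter]
  constructor
  · rintro ⟨h1 | h1, h2⟩
    · exact h1
    · exact absurd h2 h1.2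
  · intro h1
    exact ⟨Or.inl h1, map_sub_T hJ Y h1⟩

omit [Fintype V] in
theorem union_disj (hJ : J ⊆ T) (Y : Finset {x // x ∈ J}) (X : Finset V) :
    Disjoint (Y.map (ej J)) (X \ T) := by
  rw [Finset.disjoint_left]
  intro x hx hx'
  exact (mem_sdiff.1 hx').2 (map_sub_T hJ Y hx)

omit [Fintype V] in
theorem union_card (hJ : J ⊆ T) (Y : Finset {x // x ∈ J}) (X : Finset V) :
    (Y.map (ej J) ∪ (X \ T)).card = Y.card + (X \ T).card := by
  rw [Finset.card_union_of_disjoint (union_disj hJ Y X), Finset.card_map]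

theorem zz_alt {φ : (sub M J).Group →* M.Group} (hφ : ∀ x, φ (gn (sub M J) x) = gn M x.1)
    (hJ : J ⊆ T) {j p : ℕ} {f : HW M} (hf : f ∈ CC M univ j) {X : Finset V}
    (hp : p + (X \ T).card = j) (g : M.Group) : AltC (sub M J) p (zz φ T f X g) := by
  rw [mem_CC] at hf
  refine ⟨fun Y hY x => ?_, fun Y s hs x => ?_⟩
  · refine hf.1 _ ?_ _
    rintro ⟨-, -, h1⟩
    rw [union_card hJ] at h1
    exact hY (by omega)
  · unfold zz
    rw [map_mul, hφ, ← mul_assoc]
    exact hf.2 _ s.1 (mem_union_left _ (mem_map_of_mem (ej J) hs)) _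

omit [Fintype V] in
/-- signs -/
theorem sg_union (h : Tc M T) (hJ : J ⊆ T) (Y : Finset {x // x ∈ J}) (X : Finset V)
    (s : {x // x ∈ J}) : sg (Y.map (ej J) ∪ (X \ T)) s.1 = sg Y s := by
  have h1 : sg (Y.map (ej J) ∪ (X \ T)) s.1 = sg (Y.map (ej J)) s.1 := by
    refine sg_congr fun x hx => ?_
    rw [mem_union]
    constructor
    · rintro (h2 | h2)
      · exact h2
      · exact absurd hx (not_lt.2 (h.lt s.1 (hJ s.2) x (mem_sdiff.1 h2).2).le)
    · exact Or.inl
  rw [h1]
  unfold sg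
  congr 1
  rw [Finset.filter_map, Finset.card_map]
  rfl

/-- The boundary of a chain of the Davis complex split into the `T`-part and the rest. -/
theorem bD_split (h : Tc M T) (hJ : J ⊆ T) {j : ℕ} {f : HW M} (hf : f ∈ CC M univ j)
    {X : Finset V} (hX : TU M T X = J) (Y : Finset {x // x ∈ J}) (g : M.Group) :
    bD M f (Y.map (ej J) ∪ (X \ T), g) =
      ∑ s ∈ Yᶜ, sg Y s * f ((insert s Y).map (ej J) ∪ (X \ T), g) +
      ∑ s ∈ ((Y.map (ej J) ∪ (X \ T)) ∪ T)ᶜ, sg (Y.map (ej J) ∪ (X \ T)) s *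
        f (insert s (Y.map (ej J) ∪ (X \ T)), g) := by
  obtain ⟨Z, hZ⟩ : ∃ Z, Z = Y.map (ej J) ∪ (X \ T) := ⟨_, rfl⟩
  have h1 : bD M f (Z, g) = ∑ s ∈ Zᶜ, sg Z s * f (insert s Z, g) := bD_apply f Z g
  rw [← hZ, h1]
  have hZT : Z \ T = X \ T := by rw [hZ, union_sdiff hJ]
  have h2 : (Z ∪ T)ᶜ ⊆ Zᶜ := by
    intro s hs
    rw [mem_compl, mem_union] at hs
    rw [mem_compl]
    exact fun h3 => hs (Or.inl h3)
  rw [← Finset.sum_sdiff h2]
  congr 1
  have h3 : Yᶜ.map (ej J) ⊆ Zᶜ \ (Z ∪ T)ᶜ := by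
    intro s hs
    obtain ⟨t, ht, rfl⟩ := mem_map.1 hs
    rw [mem_compl] at ht
    have htT : (ej J) t ∈ T := hJ t.2
    rw [mem_sdiff, mem_compl, mem_compl, not_not]
    refine ⟨?_, mem_union_right _ htT⟩
    rw [hZ, mem_union]
    rintro (h4 | h4)
    · exact ht ((mem_map' (ej J)).1 h4)
    · exact (mem_sdiff.1 h4).2 htT
  rw [← Finset.sum_subset h3, Finset.sum_map]
  · refine Finset.sum_congr rfl fun s hs => ?_
    have h4 : sg Z ((ej J) s) = sg Y s := by
      rw [hZ]
      exact sg_union h hJ Y X s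
    have h5 : insert ((ej J) s) Z = (insert s Y).map (ej J) ∪ (X \ T) := by
      rw [hZ, Finset.map_insert, Finset.insert_union]
    rw [h4, h5]
  · intro s hs hs'
    rw [mem_sdiff, mem_compl, mem_compl, not_not, mem_union] at hs
    have hsT : s ∈ T := hs.2.resolve_left hs.1
    rw [mem_CC] at hf
    rw [hf.1, mul_zero]
    rintro ⟨-, h4, -⟩
    have h5 := h.sub_TU h4 (Finset.mem_inter.2 ⟨mem_insert_self _ _, hsT⟩)
    rw [TU_congr (X' := X), hX] at h5
    · refine hs' (mem_map.2 ⟨⟨s, h5⟩, ?_, rfl⟩)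
      rw [mem_compl]
      intro h6
      apply hs.1
      rw [hZ, mem_union]
      exact Or.inl (mem_map_of_mem (ej J) h6)
    · rw [Finset.insert_sdiff_of_mem _ hsT, hZT]

/-- The formula for the operator. -/
def KF [Fintype (sub M J).Group] (φ : (sub M J).Group →* M.Group)
    (k : Finset {x // x ∈ J} → Finset {x // x ∈ J} → (sub M J).Group → ℝ) (T : Finset V)
    (K : HW M →L[ℝ] HW M) : Prop :=
  ∀ (f : HW M) X g, K f (X, g) =
    if TU M T X = J ∧ X ∩ T ⊆ J then kap k (zz φ T f X g) (rY J X) 1 else 0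

theorem exists_KF [Fintype (sub M J).Group] (hJ : J ⊆ T) (φ : (sub M J).Group →* M.Group)
    (k : Finset {x // x ∈ J} → Finset {x // x ∈ J} → (sub M J).Group → ℝ) :
    ∃ K : HW M →L[ℝ] HW M, KF φ k T K := by
  obtain ⟨K, hK⟩ := exists_op (α := Finset V × M.Group) (β := Finset V × M.Group)
    (I := Finset {x // x ∈ J} × Finset {x // x ∈ J} × (sub M J).Group) univ
    (φ := fun i q => (i.2.1.map (ej J) ∪ (q.1 \ T), q.2 * φ i.2.2))
    (c := fun i q => if TU M T q.1 = J ∧ q.1 ∩ T = i.1.map (ej J) then k i.1 i.2.1 i.2.2 else 0)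
    (B := fun i => |k i.1 i.2.1 i.2.2|) (by
      intro i q
      split_ifs
      · exact le_rfl
      · rw [abs_zero]
        exact abs_nonneg _) (by
      intro i q q' hq hq' he
      have h1 : TU M T q.1 = J ∧ q.1 ∩ T = i.1.map (ej J) := by
        by_contra hcon
        exact hq (if_neg hcon)
      have h2 : TU M T q'.1 = J ∧ q'.1 ∩ T = i.1.map (ej J) := by
        by_contra hcon
        exact hq' (if_neg hcon)
      have h3 := congrArg Prod.fst he
      have h4 := congrArg Prod.snd he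
      have h5 : q.1 \ T = q'.1 \ T := by
        have h6 := congrArg (fun Z : Finset V => Z \ T) h3
        change (i.2.1.map (ej J) ∪ (q.1 \ T)) \ T = (i.2.1.map (ej J) ∪ (q'.1 \ T)) \ T at h6
        rwa [union_sdiff hJ, union_sdiff hJ] at h6
      refine Prod.ext ?_ (mul_right_cancel h4)
      rw [← Finset.sdiff_union_inter q.1 T, ← Finset.sdiff_union_inter q'.1 T, h5, h1.2, h2.2])
  refine ⟨K, fun f X g => ?_⟩
  rw [hK, Fintype.sum_prod_type]
  by_cases h1 : TU M T X = J ∧ X ∩ T ⊆ J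
  · have h2 : X ∩ T = (rY J X).map (ej J) := by
      rw [map_rY]
      exact Finset.Subset.antisymm
        (fun x hx => Finset.mem_inter.2 ⟨(Finset.mem_inter.1 hx).1, h1.2 hx⟩)
        fun x hx => Finset.mem_inter.2 ⟨(Finset.mem_inter.1 hx).1, hJ (Finset.mem_inter.1 hx).2⟩
    rw [if_pos h1, Finset.sum_eq_single (rY J X), Fintype.sum_prod_type]
    · unfold kap zz
      refine Finset.sum_congr rfl fun Y' _ => Finset.sum_congr rfl fun x _ => ?_
      rw [one_mul]
      congr 1
      exact if_pos ⟨h1.1, h2⟩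
    · intro Y _ hY
      refine Finset.sum_eq_zero fun i _ => ?_
      rw [if_neg, zero_mul]
      rintro ⟨-, h3⟩
      change X ∩ T = Y.map (ej J) at h3
      rw [h2] at h3
      exact hY (Finset.map_injective _ h3).symm
    · exact fun h3 => absurd (mem_univ _) h3
  · rw [if_neg h1]
    refine Finset.sum_eq_zero fun Y _ => Finset.sum_eq_zero fun i _ => ?_
    rw [if_neg, zero_mul]
    rintro ⟨h2, h3⟩
    change X ∩ T = Y.map (ej J) at h3
    refine h1 ⟨h2, ?_⟩
    rw [h3]
    intro x hx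
    obtain ⟨y, -, rfl⟩ := mem_map.1 hx
    exact y.2

section KFs

variable [Fintype (sub M J).Group] {φ : (sub M J).Group →* M.Group}
  {k : Finset {x // x ∈ J} → Finset {x // x ∈ J} → (sub M J).Group → ℝ} {K : HW M →L[ℝ] HW M}

/-- The values of the operator in one polytope. -/
theorem KF.val (hK : KF φ k T K) (hJ : J ⊆ T) (f : HW M) {X : Finset V} (hX : TU M T X = J)
    (Y : Finset {x // x ∈ J}) (g : M.Group) :
    K f (Y.map (ej J) ∪ (X \ T), g) = kap k (zz φ T f X g) Y 1 := by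
  rw [hK, if_pos]
  · have h1 : rY J (Y.map (ej J) ∪ (X \ T)) = Y := by
      refine Finset.map_injective (ej J) ?_
      rw [map_rY]
      ext x
      simp only [Finset.mem_inter, mem_union, mem_sdiff]
      constructor
      · rintro ⟨h1 | h1, h2⟩
        · exact h1
        · exact absurd (hJ h2) h1.2
      · intro h1
        refine ⟨Or.inl h1, ?_⟩
        obtain ⟨y, -, rfl⟩ := mem_map.1 h1
        exact y.2
    rw [h1]
    have h2 : zz φ T f (Y.map (ej J) ∪ (X \ T)) g = zz φ T f X g := by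
      funext Y' x
      unfold zz
      rw [union_sdiff hJ]
    rw [h2]
  · rw [union_inter hJ]
    refine ⟨?_, ?_⟩
    · rw [TU_congr (X' := X) (union_sdiff hJ Y X), hX]
    · intro x hx
      obtain ⟨y, -, rfl⟩ := mem_map.1 hx
      exact y.2

/-- Nonzero values. -/
theorem KF.ne (hK : KF φ k T K) (hk : ∀ Y Y' x, k Y Y' x ≠ 0 → Y.card = Y'.card + 1)
    {f : HW M} {X : Finset V} {g : M.Group} (h : K f (X, g) ≠ 0) :
    TU M T X = J ∧ X ∩ T ⊆ J ∧ X = (rY J X).map (ej J) ∪ (X \ T) ∧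
      ∃ (Y' : Finset {x // x ∈ J}) (x : (sub M J).Group), (rY J X).card = Y'.card + 1 ∧
        f (Y'.map (ej J) ∪ (X \ T), g * φ x) ≠ 0 := by
  rw [hK] at h
  by_cases h1 : TU M T X = J ∧ X ∩ T ⊆ J
  · rw [if_pos h1] at h
    refine ⟨h1.1, h1.2, ?_, ?_⟩
    · rw [map_rY]
      ext x
      simp only [Finset.mem_inter, mem_union, mem_sdiff]
      constructor
      · intro hx
        by_cases h2 : x ∈ T
        · exact Or.inl ⟨hx, h1.2 (Finset.mem_inter.2 ⟨hx, h2⟩)⟩
        · exact Or.inr ⟨hx, h2⟩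
      · rintro (h2 | h2)
        · exact h2.1
        · exact h2.1
    · unfold kap at h
      obtain ⟨Y', -, h2⟩ := Finset.exists_ne_zero_of_sum_ne_zero h
      obtain ⟨x, -, h3⟩ := Finset.exists_ne_zero_of_sum_ne_zero h2
      refine ⟨Y', x, hk _ _ _ (left_ne_zero_of_mul h3), ?_⟩
      have h4 := right_ne_zero_of_mul h3
      unfold zz at h4
      rwa [one_mul] at h4
  · exact absurd (if_neg h1) h

theorem KF.mem (hK : KF φ k T K) (h : Tc M T) (hJ : J ⊆ T)
    (hφ : ∀ x, φ (gn (sub M J) x) = gn M x.1) (hφr : ∀ x, φ x ∈ WT M (J : Set V))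
    (hk : ∀ Y Y' x, k Y Y' x ≠ 0 → Y.card = Y'.card + 1)
    (hk2 : ∀ Y : Finset {x // x ∈ J}, ∀ s ∈ Y, ∀ Y' x, k Y Y' (gn (sub M J) s * x) = - k Y Y' x)
    {j : ℕ} {f : HW M} (hf : f ∈ CC M univ j) : K f ∈ CC M univ (j + 1) := by
  rw [mem_CC] at hf ⊢
  refine ⟨fun X hX g => ?_, fun X s hs g => ?_⟩
  · by_contra hne
    obtain ⟨h1, h2, h3, Y', x, h4, h5⟩ := hK.ne hk hne
    apply hX
    have h6 : Y'.map (ej J) ∪ (X \ T) ⊆ univ ∧ Sph M (Y'.map (ej J) ∪ (X \ T)) ∧
        (Y'.map (ej J) ∪ (X \ T)).card = j := by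
      by_contra hcon
      exact h5 (hf.1 _ hcon _)
    refine ⟨subset_univ _, ?_, ?_⟩
    · rw [h3]
      refine h.sph_of ?_ (sph_mono subset_union_right h6.2.1)
      rw [h1]
      intro y hy
      obtain ⟨z, -, rfl⟩ := mem_map.1 hy
      exact z.2
    · rw [h3, union_card hJ, h4]
      have h7 := h6.2.2
      rw [union_card hJ] at h7
      omega
  · by_cases h1 : TU M T X = J ∧ X ∩ T ⊆ J
    · rw [hK, hK, if_pos h1, if_pos h1]
      unfold kap
      rw [← Finset.sum_neg_distrib]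
      refine Finset.sum_congr rfl fun Y' _ => ?_
      rw [← Finset.sum_neg_distrib]
      by_cases hsT : s ∈ T
      · have hsJ : s ∈ J := h1.2 (Finset.mem_inter.2 ⟨hs, hsT⟩)
        have h2 : ∀ x, zz φ T f X (g * gn M s) Y' x =
            zz φ T f X g Y' (gn (sub M J) ⟨s, hsJ⟩ * x) := by
          intro x
          unfold zz
          rw [map_mul, hφ, mul_assoc]
        refine Finset.sum_nbij' (fun x => gn (sub M J) ⟨s, hsJ⟩ * x)
          (fun x => gn (sub M J) ⟨s, hsJ⟩ * x) (fun x _ => mem_univ _) (fun x _ => mem_univ _) ?_ ?_ ?_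
        · intro x _
          rw [← mul_assoc, gn_mul_self, one_mul]
        · intro x _
          rw [← mul_assoc, gn_mul_self, one_mul]
        · intro x _
          rw [one_mul, h2, hk2 _ ⟨s, hsJ⟩ (by
            unfold rY
            rw [mem_filter]
            exact ⟨mem_univ _, hs⟩), one_mul]
          ring
      · refine Finset.sum_congr rfl fun x _ => ?_
        have h2 : zz φ T f X (g * gn M s) Y' (1 * x) = - zz φ T f X g Y' (1 * x) := by
          unfold zz
          have h3 : gn M s * φ (1 * x) = φ (1 * x) * gn M s := by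
            refine TU_comm (T := T) (X := X) hs hsT ?_
            rw [h1.1]
            exact hφr _
          rw [mul_assoc, h3, ← mul_assoc]
          exact hf.2 _ s (mem_union_right _ (mem_sdiff.2 ⟨hs, hsT⟩)) _
        rw [h2]
        ring
    · rw [hK, hK, if_neg h1, if_neg h1, neg_zero]

end KFs

/-- The operator. -/
theorem exists_K (h : Tc M T) : ∃ K : HW M →L[ℝ] HW M,
    (∀ j, ∀ f ∈ CC M univ j, K f ∈ CC M univ (j + 1)) ∧
    (∀ p f, (∀ X : Finset V, (X ∩ T).card < p → ∀ g, f (X, g) = 0) →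
      ∀ X : Finset V, (X ∩ T).card < p + 1 → ∀ g, K f (X, g) = 0) ∧
    ∀ j p f, f ∈ CC M univ j → (∀ X : Finset V, (X ∩ T).card < p → ∀ g, f (X, g) = 0) →
      bD M f = 0 → (p = 0 → Pa M T f = 0) →
      ∀ X : Finset V, (X ∩ T).card < p + 1 → ∀ g, (f - bD M (K f)) (X, g) = 0 := by
  classical
  have hfin : ∀ J : {J : Finset V // J ⊆ T}, Nonempty (Fintype (sub M J.1).Group) := by
    intro J
    have h1 := finite_sub (sph_mono J.2 h.sph)
    exact ⟨Fintype.ofFinite _⟩
  have ift : ∀ J : {J : Finset V // J ⊆ T}, Fintype (sub M J.1).Group := fun J =>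
    Classical.choice (hfin J)
  have hex : ∀ J : {J : Finset V // J ⊆ T}, ∃ (φ : (sub M J.1).Group →* M.Group)
      (k : Finset {x // x ∈ J.1} → Finset {x // x ∈ J.1} → (sub M J.1).Group → ℝ)
      (K : HW M →L[ℝ] HW M), (∀ x, φ (gn (sub M J.1) x) = gn M x.1) ∧ Function.Injective φ ∧
      (∀ y, y ∈ WT M (J.1 : Set V) ↔ ∃ x, φ x = y) ∧
      (∀ Y Y' x, k Y Y' x ≠ 0 → Y.card = Y'.card + 1) ∧
      (∀ Y : Finset {x // x ∈ J.1}, ∀ s ∈ Y, ∀ Y' x,
        k Y Y' (gn (sub M J.1) s * x) = - k Y Y' x) ∧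
      (∀ (p : ℕ) (f : Finset {x // x ∈ J.1} → (sub M J.1).Group → ℝ), AltC (sub M J.1) p f →
        (1 ≤ p → ∀ Y g, SNG.bdry f Y g = 0) → (p = 0 → ∑ g, f ∅ g = 0) →
        ∀ Y g, SNG.bdry (kap k f) Y g = f Y g) ∧ KF φ k T K := by
    intro J
    obtain ⟨φ, h1, h2, h3⟩ := exists_phi M J.1
    obtain ⟨k, h4, h5, h6⟩ := exists_kern (sub M J.1)
    obtain ⟨K, hK⟩ := exists_KF (M := M) J.2 φ k
    exact ⟨φ, k, K, h1, h2, h3, h4, h5, h6, hK⟩
  choose φ k K hφ hφi hφr hk hk2 hk3 hK using hex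
  have hval : ∀ f (X : Finset V) g, (∑ J : {J : Finset V // J ⊆ T}, K J) f (X, g) =
      K ⟨TU M T X, TU_sub T X⟩ f (X, g) := by
    intro f X g
    rw [_root_.sum_apply, ell_sum]
    refine Finset.sum_eq_single (⟨TU M T X, TU_sub T X⟩ : {J : Finset V // J ⊆ T}) ?_ ?_
    · intro J _ hne
      rw [hK J, if_neg]
      rintro ⟨h1, -⟩
      exact hne (Subtype.ext h1.symm)
    · exact fun h1 => absurd (mem_univ _) h1
  have hmem : ∀ j, ∀ f ∈ CC M univ j, (∑ J : {J : Finset V // J ⊆ T}, K J) f ∈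
      CC M univ (j + 1) := by
    intro j f hf
    rw [_root_.sum_apply]
    exact Submodule.sum_mem _ fun J _ => (hK J).mem h J.2 (hφ J)
      (fun x => (hφr J _).2 ⟨x, rfl⟩) (hk J) (hk2 J) hf
  have hfil : ∀ p f, (∀ X : Finset V, (X ∩ T).card < p → ∀ g, f (X, g) = 0) →
      ∀ X : Finset V, (X ∩ T).card < p + 1 →
        ∀ g, (∑ J : {J : Finset V // J ⊆ T}, K J) f (X, g) = 0 := by
    intro p f hf X hX g
    rw [hval]
    by_contra hne
    obtain ⟨h1, h2, h3, Y', x, h4, h5⟩ := (hK _).ne (hk _) hne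
    apply h5
    refine hf _ ?_ _
    rw [union_inter (TU_sub T X), Finset.card_map]
    have h6 : (X ∩ T).card = (rY (TU M T X) X).card := by
      conv_lhs => rw [h3]
      rw [union_inter (TU_sub T X), Finset.card_map]
    have h7 : (rY (TU M T X) X).card = Y'.card + 1 := h4
    omega
  refine ⟨∑ J : {J : Finset V // J ⊆ T}, K J, hmem, hfil, ?_⟩
  intro j p f hf hfp hdf hPf X hX g
  obtain ⟨KK, hKK⟩ : ∃ KK, KK = ∑ J : {J : Finset V // J ⊆ T}, K J := ⟨_, rfl⟩
  rw [← hKK] at hval hmem hfil ⊢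
  have hKf := hmem j f hf
  have hdiff : f - bD M (KK f) ∈ CC M univ j := Submodule.sub_mem _ hf (bD_mem hKf)
  by_cases hsph : Sph M X ∧ X.card = j
  swap
  · rw [mem_CC] at hdiff
    exact hdiff.1 X (fun h1 => hsph h1.2) g
  obtain ⟨J, hJ⟩ : ∃ J : {J : Finset V // J ⊆ T}, J = ⟨TU M T X, TU_sub T X⟩ := ⟨_, rfl⟩
  have hXJ : TU M T X = J.1 := by rw [hJ]
  have hXT : X ∩ T ⊆ J.1 := by
    rw [← hXJ]
    exact h.sub_TU hsph.1
  have hXe : X = (rY J.1 X).map (ej J.1) ∪ (X \ T) := by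
    rw [map_rY]
    ext x
    simp only [Finset.mem_inter, mem_union, mem_sdiff]
    constructor
    · intro hx
      by_cases h2 : x ∈ T
      · exact Or.inl ⟨hx, hXT (Finset.mem_inter.2 ⟨hx, h2⟩)⟩
      · exact Or.inr ⟨hx, h2⟩
    · rintro (h2 | h2)
      · exact h2.1
      · exact h2.1
  have hcard : (X ∩ T).card = (rY J.1 X).card := by
    conv_lhs => rw [hXe]
    rw [union_inter J.2, Finset.card_map]
  have hj : (rY J.1 X).card + (X \ T).card = j := by
    rw [← hsph.2]
    conv_rhs => rw [hXe]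
    rw [union_card J.2]
  -- the boundary of the image
  have hb := bD_split h J.2 hKf hXJ (rY J.1 X) g
  rw [← hXe] at hb
  have hb2 : ∑ s ∈ (X ∪ T)ᶜ, sg X s * KK f (insert s X, g) = 0 := by
    refine Finset.sum_eq_zero fun s hs => ?_
    rw [mem_compl, mem_union, not_or] at hs
    rw [hfil p f hfp, mul_zero]
    have h1 : insert s X ∩ T = X ∩ T := Finset.insert_inter_of_notMem hs.2
    rw [h1]
    exact hX
  rw [hb2, add_zero] at hb
  rw [ell_sub, hb]
  by_cases hlt : (X ∩ T).card < p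
  · rw [hfp X hlt, zero_sub, neg_eq_zero]
    refine Finset.sum_eq_zero fun s hs => ?_
    rw [hfil p f hfp, mul_zero]
    rw [union_inter J.2, Finset.card_map, Finset.card_insert_of_notMem (by simpa using hs)]
    omega
  · have hp : (X ∩ T).card = p := by omega
    have hKv : ∀ s, KK f ((insert s (rY J.1 X)).map (ej J.1) ∪ (X \ T), g) =
        kap (k J) (zz (φ J) T f X g) (insert s (rY J.1 X)) 1 := by
      intro s
      rw [hval]
      have h1 : (⟨TU M T ((insert s (rY J.1 X)).map (ej J.1) ∪ (X \ T)), TU_sub T _⟩ :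
          {J : Finset V // J ⊆ T}) = J := by
        refine Subtype.ext ?_
        change TU M T ((insert s (rY J.1 X)).map (ej J.1) ∪ (X \ T)) = J.1
        exact (TU_congr (union_sdiff J.2 _ _)).trans hXJ
      rw [h1]
      exact (hK J).val J.2 f hXJ _ g
    have hz : AltC (sub M J.1) p (zz (φ J) T f X g) :=
      zz_alt (hφ J) J.2 hf (by omega) g
    have h1 := hk3 J p (zz (φ J) T f X g) hz ?_ ?_ (rY J.1 X) 1
    · have h2 : ∑ s ∈ (rY J.1 X)ᶜ, sg (rY J.1 X) s *
          KK f ((insert s (rY J.1 X)).map (ej J.1) ∪ (X \ T), g) =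
          SNG.bdry (kap (k J) (zz (φ J) T f X g)) (rY J.1 X) 1 :=
        Finset.sum_congr rfl fun s _ => congrArg (fun a => sg (rY J.1 X) s * a) (hKv s)
      rw [h2, h1]
      unfold zz
      rw [map_one, mul_one, ← hXe, sub_self]
    · intro hp1 Y y
      by_cases hY : Y.card < p
      · have h2 := bD_split h J.2 hf hXJ Y (g * φ J y)
        rw [hdf, ell_zero] at h2
        have h3 : ∑ s ∈ ((Y.map (ej J.1) ∪ (X \ T)) ∪ T)ᶜ, sg (Y.map (ej J.1) ∪ (X \ T)) s *
            f (insert s (Y.map (ej J.1) ∪ (X \ T)), g * φ J y) = 0 := by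
          refine Finset.sum_eq_zero fun s hs => ?_
          rw [mem_compl, mem_union, not_or] at hs
          rw [hfp, mul_zero]
          rw [Finset.insert_inter_of_notMem hs.2, union_inter J.2, Finset.card_map]
          exact hY
        rw [h3, add_zero] at h2
        exact h2.symm
      · obtain ⟨q, rfl⟩ : ∃ q, p = q + 1 := ⟨p - 1, by omega⟩
        exact hz.bdry.1 Y (by omega) y
    · intro hp0
      have h2 := hPf hp0
      have hXd : Disjoint X T := by
        rw [Finset.disjoint_iff_inter_eq_empty, ← Finset.card_eq_zero, hp, hp0]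
      have h3 := Pa_apply h f hXd g
      rw [h2, ell_zero] at h3
      have h4 := wf_pos (h.sphJ X)
      have h5 : ∑ x ∈ wf M (TU M T X), f (X, g * x) = 0 := by
        rcases mul_eq_zero.1 h3.symm with h6 | h6
        · exact absurd h6 (inv_ne_zero (Nat.cast_ne_zero.2 h4.ne'))
        · exact h6
      rw [hXJ] at h5
      rw [← h5]
      have h6 : (∅ : Finset {x // x ∈ J.1}).map (ej J.1) ∪ (X \ T) = X := by
        rw [Finset.map_empty, Finset.empty_union, Finset.sdiff_eq_self_iff_disjoint]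
        exact hXd
      unfold zz
      rw [h6]
      refine Finset.sum_bij (fun x _ => φ J x) ?_ ?_ ?_ ?_
      · intro x _
        rw [mem_wf (sph_mono J.2 h.sph), hφr J]
        exact ⟨x, rfl⟩
      · intro x _ y _ hxy
        exact hφi J hxy
      · intro y hy
        rw [mem_wf (sph_mono J.2 h.sph), hφr J] at hy
        obtain ⟨x, hx⟩ := hy
        exact ⟨x, mem_univ _, hx⟩
      · intro x _
        rfl

end LBL
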