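import Pool.Agent.LBL.Asm
import Pool.Agent.SCG.Contr

/-!
# Project LBL (architect helper40), module Rm: right-angled matrices of relations
-/

namespace LBL

open SCG SCP SCS SNG Finset

section rm

variable {V : Type} {R : V → V → Prop}

open Classical in
/-- The right-angled Coxeter matrix of a relation. -/
noncomputable def rm (R : V → V → Prop) : CoxeterMatrix V where
  M := Matrix.of fun x y => if x = y then 1 else if R x y ∨ R y x then 2 else 0
  isSymm := by
    ext x y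
    change (if y = x then 1 else if R y x ∨ R x y then 2 else 0) =
      (if x = y then 1 else if R x y ∨ R y x then 2 else 0)
    simp only [eq_comm (a := y) (b := x), or_comm (a := R y x)]
  diagonal x := if_pos rfl
  off_diagonal x y h := by
    change (if x = y then 1 else if R x y ∨ R y x then 2 else 0) ≠ 1
    rw [if_neg h]
    split_ifs <;> norm_num

theorem rm_two {x y : V} (hne : x ≠ y) (h : R x y ∨ R y x) : rm R x y = 2 := by
  classical
  change (if x = y then 1 else if R x y ∨ R y x then 2 else 0) = 2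
  rw [if_neg hne, if_pos h]

theorem rm_zero {x y : V} (hne : x ≠ y) (h : ¬ (R x y ∨ R y x)) : rm R x y = 0 := by
  classical
  change (if x = y then 1 else if R x y ∨ R y x then 2 else 0) = 0
  rw [if_neg hne, if_neg h]

theorem rm_or (x y : V) (hne : y ≠ x) : rm R x y = 2 ∨ rm R x y = 0 := by
  by_cases h : R x y ∨ R y x
  · exact Or.inl (rm_two hne.symm h)
  · exact Or.inr (rm_zero hne.symm h)

theorem rm_adj {x y : V} : (gr (rm R)).Adj x y ↔ x ≠ y ∧ (R x y ∨ R y x) := by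
  constructor
  · rintro ⟨h1, h2⟩
    refine ⟨h1, ?_⟩
    by_contra h3
    exact h2 (rm_zero h1 h3)
  · rintro ⟨h1, h2⟩
    refine ⟨h1, ?_⟩
    rw [rm_two h1 h2]
    norm_num

theorem rm_sph {C : Finset V} (hC : ∀ x ∈ C, ∀ y ∈ C, rm R x y ≠ 0) : Sph (rm R) C := by
  classical
  have h1 := sph_add (G := rm R) (C₁ := ∅) sph_empty C (fun c hc y hy hyc => by
    rw [empty_union] at hy
    exact (rm_or c y hyc).resolve_right (hC c hc y hy))
  rwa [empty_union] at h1

theorem cmM_eq (P : Type) [PartialOrder P] : cmM P = rm fun x y : P => x < y := rfl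

theorem zg_rm {V' : Type} [DecidableEq V'] {R' : V' → V' → Prop} {S : Finset V} {S' : Finset V'}
    (e : V → V') (hi : ∀ x ∈ S, ∀ y ∈ S, e x = e y → x = y) (hS : S.image e = S')
    (h : ∀ x ∈ S, ∀ y ∈ S, x ≠ y →
      ((R x y ∨ R y x) ↔ (R' (e x) (e y) ∨ R' (e y) (e x)))) : ZG (rm R) S ↔ ZG (rm R') S' := by
  rw [← hS]
  refine zg_image e hi fun x hx y hy => ?_
  by_cases hxy : x = y
  · rw [hxy, (rm R).diagonal, (rm R').diagonal]
  · have hne : e x ≠ e y := fun e1 => hxy (hi x hx y hy e1)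
    by_cases h1 : R x y ∨ R y x
    · rw [rm_two hxy h1, rm_two hne ((h x hx y hy hxy).1 h1)]
    · rw [rm_zero hxy h1, rm_zero hne fun h2 => h1 ((h x hx y hy hxy).2 h2)]

variable [DecidableEq V]

theorem rm_join {A B : Finset V} (hd : Disjoint A B) (hc : ∀ b ∈ B, ∀ a ∈ A, R b a ∨ R a b)
    (h : ZG (rm R) A) : ZG (rm R) (A ∪ B) := by
  refine zg_join hd (fun b hb a ha => rm_two ?_ (hc b hb a ha)) (fun C _ hC => rm_sph hC) h
  rintro rfl
  exact Finset.disjoint_left.1 hd ha hb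

theorem rm_susp {Y : Finset V} {a b : V} (ha : a ∉ Y) (hb : b ∉ Y) (hab : a ≠ b)
    (hn : ¬ (R a b ∨ R b a)) (h : ∀ y ∈ Y, (R a y ∨ R y a) ∧ (R b y ∨ R y b)) :
    ZG (rm R) (insert a (insert b Y)) := by
  refine zg_susp ha hb hab (rm_zero hab hn) fun y hy => ⟨rm_two ?_ (h y hy).1, rm_two ?_ (h y hy).2⟩
  · rintro rfl
    exact ha hy
  · rintro rfl
    exact hb hy

/-- Contraction of an edge. -/
theorem rm_contr {R' : V → V → Prop} {S : Finset V} {s t : V} (hs : s ∈ S) (ht : t ∈ S)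
    (hne : s ≠ t) (hst : R s t ∨ R t s)
    (hq : ∀ x ∈ S, ∀ y ∈ S, x ≠ s → x ≠ t → y ≠ s → y ≠ t → (R s x ∨ R x s) → (R t y ∨ R y t) →
      ¬ (R t x ∨ R x t) → ¬ (R s y ∨ R y s) → ¬ (R x y ∨ R y x))
    {L : Finset V} (hL : ∀ x, x ∈ L ↔ x ∈ S ∧ x ≠ s ∧ x ≠ t ∧ (R s x ∨ R x s) ∧ (R t x ∨ R x t))
    (h1 : ZG (rm R) L) (h2 : ZG (rm R') (S.erase t))
    (h3 : ∀ x ∈ S, ∀ y ∈ S, x ≠ t → y ≠ t → x ≠ y → x ≠ s → y ≠ s →
      ((R' x y ∨ R' y x) ↔ (R x y ∨ R y x)))
    (h4 : ∀ x ∈ S, x ≠ t → x ≠ s →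
      ((R' s x ∨ R' x s) ↔ ((R s x ∨ R x s) ∨ (R t x ∨ R x t)))) : ZG (rm R) S := by
  classical
  have hck : ck S (gr (rm R)) s t = L := by
    ext x
    rw [mem_ck, rm_adj, rm_adj, hL]
    constructor
    · rintro ⟨h5, ⟨h6, h7⟩, h8, h9⟩
      exact ⟨h5, h6.symm, h8.symm, h7, h9⟩
    · rintro ⟨h5, h6, h8, h7, h9⟩
      exact ⟨h5, ⟨h6.symm, h7⟩, h8.symm, h9⟩
  refine zg_contr hs ht (rm_adj.2 ⟨hne, hst⟩) (fun x _ hx => rm_or s x hx)
    (fun x _ hx => rm_or t x hx) ?_ (by rw [hck]; exact h1) ?_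
  · intro x hx y hy h5 h6 h7 h8 h9 h10 h11
    rw [rm_adj] at h5 h6 h7 h8 h11
    refine hq x hx y hy h5.1.symm h9 h10 h6.1.symm h5.2 h6.2 (fun h12 => h7 ⟨h9.symm, h12⟩)
      (fun h12 => h8 ⟨h10.symm, h12⟩) h11.2
  · have h5 : ∀ x ∈ S.erase t, x ≠ s → cM (rm R) s t s x = rm R' s x := by
      intro x hx hxs
      rw [mem_erase] at hx
      rw [cM_left _ hxs.symm]
      have h6 := h4 x hx.2 hx.1 hxs
      by_cases h7 : R' s x ∨ R' x s
      · rw [rm_two hxs.symm h7, if_pos]
        rcases h6.1 h7 with h8 | h8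
        · exact Or.inl (rm_two hxs.symm h8)
        · exact Or.inr (rm_two (Ne.symm hx.1) h8)
      · rw [rm_zero hxs.symm h7, if_neg]
        intro h8
        apply h7
        rw [h6]
        rcases h8 with h8 | h8
        · left
          by_contra h9
          rw [rm_zero hxs.symm h9] at h8
          omega
        · right
          by_contra h9
          rw [rm_zero (Ne.symm hx.1) h9] at h8
          omega
    rw [zg_image (G' := rm R') id (fun x _ y _ e => e), image_id]
    · exact h2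
    · intro x hx y hy
      change rm R' x y = cM (rm R) s t x y
      by_cases hxy : x = y
      · rw [hxy, (rm R').diagonal, (cM (rm R) s t).diagonal]
      · by_cases hxs : x = s
        · rw [hxs]
          rw [hxs] at hxy
          exact (h5 y hy fun e => hxy e.symm).symm
        · by_cases hys : y = s
          · rw [hys, (rm R').symmetric, (cM (rm R) s t).symmetric]
            exact (h5 x hx hxs).symm
          · rw [cM_ne _ hxs hys]
            have h6 := h3 x (mem_of_mem_erase hx) y (mem_of_mem_erase hy) (ne_of_mem_erase hx)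
              (ne_of_mem_erase hy) hxy hxs hys
            by_cases h7 : R x y ∨ R y x
            · rw [rm_two hxy h7, rm_two hxy (h6.2 h7)]
            · rw [rm_zero hxy h7, rm_zero hxy fun h8 => h7 (h6.1 h8)]

end rm

variable {ι : Type} [Fintype ι] [DecidableEq ι]

theorem dd_top (F : Finset ι) : SCP.dd F (⊤ : Submodule ℝ (ι → ℝ)) = F.card := by
  have h1 : (⊤ : Submodule ℝ (ι → ℝ)).map (rs F) = ⊤ := by
    rw [Submodule.map_top, LinearMap.range_eq_top]
    intro x
    refine ⟨fun i => if h : i ∈ F then x ⟨i, h⟩ else 0, ?_⟩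
    funext i
    rw [rs_apply]
    change (if h : i.1 ∈ F then x ⟨i.1, h⟩ else 0) = x i
    rw [dif_pos i.2]
  unfold SCP.dd
  rw [h1, finrank_top, Module.finrank_fintype_fun_eq_card, Fintype.card_coe]

theorem fc_top {F : Finset ι} (h1 : F.Nonempty) (h2 : F ≠ univ) :
    Fc (⊤ : Submodule ℝ (ι → ℝ)) univ F := by
  refine ⟨h1, h2, fun i => if i ∈ F then 0 else 1, Submodule.mem_top, subset_univ _, fun i _ => ?_⟩
  change 0 ≤ (if i ∈ F then (0 : ℝ) else 1) ∧ ((if i ∈ F then (0 : ℝ) else 1) = 0 ↔ i ∈ F)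
  by_cases h3 : i ∈ F
  · rw [if_pos h3]
    exact ⟨le_rfl, fun _ => h3, fun _ => rfl⟩
  · rw [if_neg h3]
    exact ⟨zero_le_one, fun h4 => absurd h4 one_ne_zero, fun h4 => absurd h4 h3⟩

/-- Intervals of even length in the Boolean lattice. -/
theorem bool_zg {A B : Finset ι} (h : A ⊂ B) (he : Even (B \ A).card) :
    ZG (rm fun x y : Finset ι => x < y) (univ.filter fun H : Finset ι => A ⊂ H ∧ H ⊂ B) := by
  have h1 : (A = ∅ ∧ ∃ p ∈ (⊤ : Submodule ℝ (ι → ℝ)), ∀ i, 0 < p i) ∨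
      Fc (⊤ : Submodule ℝ (ι → ℝ)) univ A := by
    by_cases h2 : A = ∅
    · exact Or.inl ⟨h2, fun _ => 1, Submodule.mem_top, fun _ => zero_lt_one⟩
    · refine Or.inr (fc_top (nonempty_iff_ne_empty.2 h2) fun h3 => ?_)
      rw [h3] at h
      exact h.2 (subset_univ _)
  have h2 : B = univ ∨ Fc (⊤ : Submodule ℝ (ι → ℝ)) univ B := by
    by_cases h2 : B = univ
    · exact Or.inl h2
    · refine Or.inr (fc_top ?_ h2)
      rw [nonempty_iff_ne_empty]
      rintro rfl
      exact h.2 (empty_subset _)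
  have h3 := itv_zg h1 h2 h (by
    rw [dd_top, dd_top]
    have h4 := card_sdiff_add_card_eq_card h.1
    rw [Nat.even_iff] at he ⊢
    omega)
  rw [cmM_eq] at h3
  convert h3 using 1
  ext H
  rw [mem_filter, mem_filter, mem_FF]
  constructor
  · rintro ⟨-, h5, h6⟩
    refine ⟨fc_top ?_ ?_, h5, h6⟩
    · rw [nonempty_iff_ne_empty]
      rintro rfl
      exact h5.2 (empty_subset _)
    · rintro rfl
      exact h6.2 (subset_univ _)
  · rintro ⟨-, h5⟩
    exact ⟨mem_univ _, h5⟩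

end LBL
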