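import Pool.Agent.LBL.Semi
import Pool.Agent.LBL.Dtg
import Pool.Agent.LBL.Rm
import Pool.Agent.LBL.Ok

/-!
# Project LBL (architect helper40), module Unf: unfolding of a system along a spherical set of walls

`Nj m kk R`: walls with the labels `m`, right-angled generators `Δ` with the relation `R`; the wall `x` commutes
with the generator `s` if `x ∈ kk s`.  `Un m kk R`: the right-angled system of the conjugates of the
right-angled generators under the group of `m`.  Main theorem (`un_zg`): vanishing for `Nj` implies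
vanishing for `Un`.
-/

namespace LBL

open SCG SNG SCS Finset

variable {κ Δ : Type}

/-- the conjugates of the right-angled generators -/
abbrev Ux (m : CoxeterMatrix κ) (kk : Δ → Finset κ) : Type := Σ s : Δ, m.Group ⧸ WT m (kk s : Set κ)

noncomputable def ux (m : CoxeterMatrix κ) (kk : Δ → Finset κ) (s : Δ) (g : m.Group) : Ux m kk :=
  ⟨s, (g : m.Group ⧸ WT m (kk s : Set κ))⟩

theorem ux_eq {m : CoxeterMatrix κ} {kk : Δ → Finset κ} {s : Δ} {g h : m.Group} :
    ux m kk s g = ux m kk s h ↔ g⁻¹ * h ∈ WT m (kk s : Set κ) := by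
  unfold ux
  rw [← QuotientGroup.eq]
  constructor
  · intro h1
    exact eq_of_heq (Sigma.mk.inj h1).2
  · intro h1
    rw [h1]

theorem ux_surj {m : CoxeterMatrix κ} {kk : Δ → Finset κ} (v : Ux m kk) : ∃ g, v = ux m kk v.1 g := by
  obtain ⟨i, q⟩ := v
  obtain ⟨g, rfl⟩ := QuotientGroup.mk_surjective q
  exact ⟨g, rfl⟩

/-- The relation of the unfolding. -/
def Ur (m : CoxeterMatrix κ) (kk : Δ → Finset κ) (R : Δ → Δ → Prop) (a b : Ux m kk) : Prop :=
  a.1 ≠ b.1 ∧ (R a.1 b.1 ∨ R b.1 a.1) ∧ ∃ g, a = ux m kk a.1 g ∧ b = ux m kk b.1 g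

/-- The unfolding. -/
noncomputable abbrev Un (m : CoxeterMatrix κ) (kk : Δ → Finset κ) (R : Δ → Δ → Prop) :
    CoxeterMatrix (Ux m kk) := rm (Ur m kk R)

theorem ur_symm {m : CoxeterMatrix κ} {kk : Δ → Finset κ} {R : Δ → Δ → Prop} {a b : Ux m kk}
    (h : Ur m kk R a b) : Ur m kk R b a := by
  obtain ⟨h1, h2, g, h3, h4⟩ := h
  exact ⟨h1.symm, h2.symm, g, h4, h3⟩

theorem un_two {m : CoxeterMatrix κ} {kk : Δ → Finset κ} {R : Δ → Δ → Prop} {i j : Δ} (h : i ≠ j)
    (hR : R i j ∨ R j i) (g : m.Group) : Un m kk R (ux m kk i g) (ux m kk j g) = 2 :=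
  rm_two (fun e => h (congrArg Sigma.fst e)) (Or.inl ⟨h, hR, g, rfl, rfl⟩)

theorem un_ne {m : CoxeterMatrix κ} {kk : Δ → Finset κ} {R : Δ → Δ → Prop} {a b : Ux m kk}
    (h : a ≠ b) (h0 : Un m kk R a b ≠ 0) : a.1 ≠ b.1 ∧ (R a.1 b.1 ∨ R b.1 a.1) ∧
      ∃ g, a = ux m kk a.1 g ∧ b = ux m kk b.1 g := by
  by_contra hcon
  refine h0 (rm_zero h ?_)
  rintro (h1 | h1)
  · exact hcon h1
  · exact hcon (ur_symm h1)

open Classical in
/-- the labels of `Nj` -/
noncomputable def njf (m : CoxeterMatrix κ) (kk : Δ → Finset κ) (R : Δ → Δ → Prop) :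
    κ ⊕ Δ → κ ⊕ Δ → ℕ
  | Sum.inl x, Sum.inl y => m x y
  | Sum.inl x, Sum.inr s => if x ∈ kk s then 2 else 0
  | Sum.inr s, Sum.inl x => if x ∈ kk s then 2 else 0
  | Sum.inr s, Sum.inr t => if s = t then 1 else if R s t ∨ R t s then 2 else 0

open Classical in
/-- The system of the sector. -/
noncomputable def Nj (m : CoxeterMatrix κ) (kk : Δ → Finset κ) (R : Δ → Δ → Prop) :
    CoxeterMatrix (κ ⊕ Δ) where
  M := Matrix.of fun u v => njf m kk R u v
  isSymm := by
    ext u v
    rcases u with x | s <;> rcases v with y | t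
    · exact m.symmetric y x
    · rfl
    · rfl
    · change (if t = s then 1 else if R t s ∨ R s t then 2 else 0) =
        (if s = t then 1 else if R s t ∨ R t s then 2 else 0)
      simp only [eq_comm (a := t) (b := s), or_comm (a := R t s)]
  diagonal u := by
    rcases u with x | s
    · exact m.diagonal x
    · exact if_pos rfl
  off_diagonal u v h := by
    rcases u with x | s <;> rcases v with y | t
    · exact m.off_diagonal x y fun e => h (congrArg _ e)
    · change (if x ∈ kk t then 2 else 0) ≠ 1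
      split_ifs <;> norm_num
    · change (if y ∈ kk s then 2 else 0) ≠ 1
      split_ifs <;> norm_num
    · change (if s = t then 1 else if R s t ∨ R t s then 2 else 0) ≠ 1
      rw [if_neg fun e => h (congrArg _ e)]
      split_ifs <;> norm_num

section nj

variable {m : CoxeterMatrix κ} {kk : Δ → Finset κ} {R : Δ → Δ → Prop}

theorem nj_ll (x y : κ) : Nj m kk R (Sum.inl x) (Sum.inl y) = m x y := rfl

theorem nj_lr {x : κ} {s : Δ} (h : x ∈ kk s) : Nj m kk R (Sum.inl x) (Sum.inr s) = 2 := by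
  classical
  exact if_pos h

theorem nj_lr0 {x : κ} {s : Δ} (h : x ∉ kk s) : Nj m kk R (Sum.inl x) (Sum.inr s) = 0 := by
  classical
  exact if_neg h

theorem nj_rr {s t : Δ} (h : s ≠ t) (hR : R s t ∨ R t s) :
    Nj m kk R (Sum.inr s) (Sum.inr t) = 2 := by
  classical
  change (if s = t then 1 else if R s t ∨ R t s then 2 else 0) = 2
  rw [if_neg h, if_pos hR]

theorem nj_rr0 {s t : Δ} (h : s ≠ t) (hR : ¬ (R s t ∨ R t s)) :
    Nj m kk R (Sum.inr s) (Sum.inr t) = 0 := by
  classical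
  change (if s = t then 1 else if R s t ∨ R t s then 2 else 0) = 0
  rw [if_neg h, if_neg hR]

end nj

/-- The group of the local system. -/
theorem exists_theta' (m : CoxeterMatrix κ) (kk : Δ → Finset κ) (R : Δ → Δ → Prop) :
    ∃ (Θ : (Un m kk R).Group × m.Group ≃ (Nj m kk R).Group) (ι : m.Group →* (Nj m kk R).Group),
      (∀ x, ι (gn m x) = gn (Nj m kk R) (Sum.inl x)) ∧
      (∀ r w y, Θ (r, w) * ι y = Θ (r, w * y)) ∧
      ∀ r w s, Θ (r, w) * gn (Nj m kk R) (Sum.inr s) = Θ (r * gn (Un m kk R) (ux m kk s w), w) := by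
  classical
  have hll : ∀ x y, x ≠ y → Nj m kk R (Sum.inl x) (Sum.inl y) = m x y := fun x y _ => rfl
  -- the inclusion of the group of `m`
  have hι : m.IsLiftable fun x => gn (Nj m kk R) (Sum.inl x) := by
    intro x y
    by_cases hxy : x = y
    · rw [hxy, m.diagonal, pow_one, gn_mul_self]
    · have h1 := (Nj m kk R).toCoxeterSystem.simple_mul_simple_pow (Sum.inl x) (Sum.inl y)
      rw [hll x y hxy] at h1
      exact h1
  obtain ⟨ι, hι1⟩ : ∃ ι : m.Group →* (Nj m kk R).Group, ∀ x, ι (gn m x) = gn (Nj m kk R) (Sum.inl x) :=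
    ⟨m.toCoxeterSystem.lift ⟨_, hι⟩, fun x => m.toCoxeterSystem.lift_apply_simple hι x⟩
  have hcomm : ∀ i, ∀ y ∈ WT m (kk i : Set κ),
      gn (Nj m kk R) (Sum.inr i) * ι y = ι y * gn (Nj m kk R) (Sum.inr i) := by
    intro i y hy
    obtain ⟨η, h1, rfl⟩ := exists_word hy
    clear hy
    induction η with
    | nil => rw [wp_nil, map_one, one_mul, mul_one]
    | cons s η ih =>
      have hs : s ∈ kk i := h1 s List.mem_cons_self
      have h2 : gn (Nj m kk R) (Sum.inr i) * gn (Nj m kk R) (Sum.inl s) =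
          gn (Nj m kk R) (Sum.inl s) * gn (Nj m kk R) (Sum.inr i) := by
        refine gn_comm ?_
        rw [(Nj m kk R).symmetric]
        exact nj_lr hs
      rw [wp_cons, map_mul, hι1, ← mul_assoc, h2, mul_assoc, ih fun t ht =>
        h1 t (List.mem_cons_of_mem _ ht), mul_assoc]
  -- the images of the generators of the right-angled group
  obtain ⟨cv, hcv⟩ : ∃ cv : Ux m kk → (Nj m kk R).Group, ∀ i g,
      cv (ux m kk i g) = ι g * gn (Nj m kk R) (Sum.inr i) * (ι g)⁻¹ := by
    have h1 : ∀ v : Ux m kk, ∃ c : (Nj m kk R).Group, ∀ g, v = ux m kk v.1 g →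
        c = ι g * gn (Nj m kk R) (Sum.inr v.1) * (ι g)⁻¹ := by
      intro v
      obtain ⟨g₀, hg₀⟩ := ux_surj v
      refine ⟨ι g₀ * gn (Nj m kk R) (Sum.inr v.1) * (ι g₀)⁻¹, fun g hg => ?_⟩
      have h2 : g⁻¹ * g₀ ∈ WT m (kk v.1 : Set κ) := ux_eq.1 (hg.symm.trans hg₀)
      have h3 := hcomm v.1 _ h2
      have h4 : ι g₀ = ι g * ι (g⁻¹ * g₀) := by rw [← map_mul, mul_inv_cancel_left]
      rw [h4, mul_inv_rev]
      calc ι g * ι (g⁻¹ * g₀) * gn (Nj m kk R) (Sum.inr v.1) * ((ι (g⁻¹ * g₀))⁻¹ * (ι g)⁻¹)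
          = ι g * (ι (g⁻¹ * g₀) * gn (Nj m kk R) (Sum.inr v.1)) * (ι (g⁻¹ * g₀))⁻¹ * (ι g)⁻¹ := by
            group
        _ = _ := by
            rw [← h3]
            group
    choose cv hcv using h1
    exact ⟨cv, fun i g => hcv (ux m kk i g) g rfl⟩
  have hψ : (Un m kk R).IsLiftable cv := by
    intro a b
    by_cases hab : a = b
    · subst hab
      rw [(Un m kk R).diagonal, pow_one]
      obtain ⟨g, hg⟩ := ux_surj a
      rw [hg, hcv]
      calc ι g * gn (Nj m kk R) (Sum.inr a.1) * (ι g)⁻¹ *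
            (ι g * gn (Nj m kk R) (Sum.inr a.1) * (ι g)⁻¹)
          = ι g * (gn (Nj m kk R) (Sum.inr a.1) * gn (Nj m kk R) (Sum.inr a.1)) * (ι g)⁻¹ := by group
        _ = 1 := by rw [gn_mul_self]; group
    · by_cases h0 : Un m kk R a b = 0
      · rw [h0, pow_zero]
      · obtain ⟨h1, hR, g, h2, h3⟩ := un_ne hab h0
        have h4 : Un m kk R a b = 2 := by
          rw [h2, h3]
          exact un_two h1 hR g
        rw [h4, h2, h3, hcv, hcv]
        have h5 : ι g * gn (Nj m kk R) (Sum.inr a.1) * (ι g)⁻¹ *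
            (ι g * gn (Nj m kk R) (Sum.inr b.1) * (ι g)⁻¹) =
            ι g * (gn (Nj m kk R) (Sum.inr a.1) * gn (Nj m kk R) (Sum.inr b.1)) * (ι g)⁻¹ := by group
        rw [h5, conj_pow, invol_pow (gn_mul_self _ _) (gn_mul_self _ _)
          (gn_comm (nj_rr h1 hR))]
        group
  obtain ⟨ψ, hψ1⟩ : ∃ ψ : (Un m kk R).Group →* (Nj m kk R).Group, ∀ v, ψ (gn (Un m kk R) v) = cv v :=
    ⟨(Un m kk R).toCoxeterSystem.lift ⟨cv, hψ⟩, fun v => (Un m kk R).toCoxeterSystem.lift_apply_simple hψ v⟩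
  have hinr : ∀ r w s, ψ r * ι w * gn (Nj m kk R) (Sum.inr s) =
      ψ (r * gn (Un m kk R) (ux m kk s w)) * ι w := by
    intro r w s
    rw [map_mul, hψ1, hcv]
    group
  -- the permutations
  obtain ⟨p, hpl, hpr⟩ : ∃ p : κ ⊕ Δ → Equiv.Perm ((Un m kk R).Group × m.Group),
      (∀ x q, p (Sum.inl x) q = (q.1, q.2 * gn m x)) ∧
      ∀ s q, p (Sum.inr s) q = (q.1 * gn (Un m kk R) (ux m kk s q.2), q.2) := by
    refine ⟨fun u => match u with
      | Sum.inl x => ⟨fun q => (q.1, q.2 * gn m x), fun q => (q.1, q.2 * gn m x), fun q => by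
          simp only [mul_assoc, gn_mul_self, mul_one], fun q => by
          simp only [mul_assoc, gn_mul_self, mul_one]⟩
      | Sum.inr s => ⟨fun q => (q.1 * gn (Un m kk R) (ux m kk s q.2), q.2),
          fun q => (q.1 * gn (Un m kk R) (ux m kk s q.2), q.2), fun q => by
          simp only [mul_assoc, gn_mul_self, mul_one], fun q => by
          simp only [mul_assoc, gn_mul_self, mul_one]⟩, fun x q => rfl, fun s q => rfl⟩
  have hpp : ∀ u, p u * p u = 1 := by
    intro u
    ext1 q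
    rw [Equiv.Perm.mul_apply, Equiv.Perm.one_apply]
    rcases u with x | s
    · rw [hpl, hpl, mul_assoc, gn_mul_self, mul_one]
    · rw [hpr, hpr, mul_assoc, gn_mul_self, mul_one]
  have hP : (Nj m kk R).IsLiftable p := by
    intro u v
    by_cases huv : u = v
    · rw [huv, (Nj m kk R).diagonal, pow_one, hpp]
    · rcases u with x | x <;> rcases v with y | y
      · have hxy : x ≠ y := fun e => huv (by rw [e])
        rw [hll x y hxy]
        have h1 : ∀ (n : ℕ) q, ((p (Sum.inl x) * p (Sum.inl y)) ^ n) q =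
            (q.1, q.2 * (gn m y * gn m x) ^ n) := by
          intro n
          induction n with
          | zero =>
            intro q
            rw [pow_zero, pow_zero, mul_one]
            rfl
          | succ n ih =>
            intro q
            rw [pow_succ', Equiv.Perm.mul_apply, ih, Equiv.Perm.mul_apply, hpl, hpl, pow_succ]
            simp only [mul_assoc]
        ext1 q
        rw [h1]
        have h2 := m.toCoxeterSystem.simple_mul_simple_pow y x
        rw [m.symmetric y x] at h2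
        change (gn m y * gn m x) ^ m x y = 1 at h2
        rw [h2, mul_one]
        rfl
      · by_cases hxy : x ∉ kk y
        · rw [nj_lr0 hxy, pow_zero]
        · rw [not_not] at hxy
          rw [nj_lr hxy]
          refine invol_pow (hpp _) (hpp _) ?_
          ext1 q
          rw [Equiv.Perm.mul_apply, Equiv.Perm.mul_apply, hpl, hpr, hpr, hpl]
          have h2 : ux m kk y q.2 = ux m kk y (q.2 * gn m x) := by
            rw [ux_eq, inv_mul_cancel_left]
            exact gn_mem hxy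
          change (q.1 * gn (Un m kk R) (ux m kk y q.2), q.2 * gn m x) =
            (q.1 * gn (Un m kk R) (ux m kk y (q.2 * gn m x)), q.2 * gn m x)
          rw [h2]
      · by_cases hxy : y ∉ kk x
        · rw [(Nj m kk R).symmetric, nj_lr0 hxy, pow_zero]
        · rw [not_not] at hxy
          rw [(Nj m kk R).symmetric, nj_lr hxy]
          refine invol_pow (hpp _) (hpp _) ?_
          ext1 q
          rw [Equiv.Perm.mul_apply, Equiv.Perm.mul_apply, hpl, hpr, hpr, hpl]
          have h2 : ux m kk x q.2 = ux m kk x (q.2 * gn m y) := by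
            rw [ux_eq, inv_mul_cancel_left]
            exact gn_mem hxy
          change (q.1 * gn (Un m kk R) (ux m kk x (q.2 * gn m y)), q.2 * gn m y) =
            (q.1 * gn (Un m kk R) (ux m kk x q.2), q.2 * gn m y)
          rw [h2]
      · have hxy : x ≠ y := fun e => huv (by rw [e])
        by_cases hR : R x y ∨ R y x
        · rw [nj_rr hxy hR]
          refine invol_pow (hpp _) (hpp _) ?_
          ext1 q
          rw [Equiv.Perm.mul_apply, Equiv.Perm.mul_apply, hpr, hpr, hpr, hpr]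
          change (q.1 * gn (Un m kk R) (ux m kk y q.2) * gn (Un m kk R) (ux m kk x q.2), q.2) =
            (q.1 * gn (Un m kk R) (ux m kk x q.2) * gn (Un m kk R) (ux m kk y q.2), q.2)
          rw [mul_assoc, mul_assoc, gn_comm (un_two hxy hR q.2)]
        · rw [nj_rr0 hxy hR, pow_zero]
  obtain ⟨P, hP1⟩ : ∃ P : (Nj m kk R).Group →* Equiv.Perm ((Un m kk R).Group × m.Group),
      ∀ u, P (gn (Nj m kk R) u) = p u :=
    ⟨(Nj m kk R).toCoxeterSystem.lift ⟨p, hP⟩,
      fun u => (Nj m kk R).toCoxeterSystem.lift_apply_simple hP u⟩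
  -- the right action
  have ha : ∀ g h q, P (g * h)⁻¹ q = P h⁻¹ (P g⁻¹ q) := by
    intro g h q
    rw [mul_inv_rev, map_mul, Equiv.Perm.mul_apply]
  have ha1 : ∀ u q, P (gn (Nj m kk R) u)⁻¹ q = p u q := by
    intro u q
    rw [gn_inv, hP1]
  have ha2 : ∀ w r₀ w₀, P (ι w)⁻¹ (r₀, w₀) = (r₀, w₀ * w) := by
    intro w
    obtain ⟨η, rfl, -⟩ := exists_red w
    induction η with
    | nil =>
      intro r₀ w₀
      rw [wp_nil, map_one, inv_one, map_one, mul_one]
      rfl
    | cons s η ih =>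
      intro r₀ w₀
      rw [wp_cons, map_mul, ha, hι1, ha1, hpl, ih, mul_assoc]
  have ha3 : ∀ v r₀, P (cv v)⁻¹ (r₀, 1) = (r₀ * gn (Un m kk R) v, 1) := by
    intro v r₀
    obtain ⟨g, hg⟩ := ux_surj v
    rw [hg, hcv, ha, ha, ha2, ha1, hpr, one_mul]
    change P ((ι g)⁻¹)⁻¹ (r₀ * gn (Un m kk R) (ux m kk v.1 g), g) = _
    rw [← map_inv, ha2, mul_inv_cancel]
  have ha4 : ∀ r r₀, P (ψ r)⁻¹ (r₀, 1) = (r₀ * r, 1) := by
    intro r
    obtain ⟨η, rfl, -⟩ := exists_red r
    induction η with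
    | nil =>
      intro r₀
      rw [wp_nil, map_one, inv_one, map_one, mul_one]
      rfl
    | cons s η ih =>
      intro r₀
      rw [wp_cons, map_mul, ha, hψ1, ha3, ih, mul_assoc]
  have hbij : Function.Bijective fun q : (Un m kk R).Group × m.Group => ψ q.1 * ι q.2 := by
    constructor
    · rintro ⟨r, w⟩ ⟨r', w'⟩ he
      change ψ r * ι w = ψ r' * ι w' at he
      have h1 : P (ψ r * ι w)⁻¹ (1, 1) = (r, w) := by rw [ha, ha4, ha2, one_mul, one_mul]
      have h2 : P (ψ r' * ι w')⁻¹ (1, 1) = (r', w') := by rw [ha, ha4, ha2, one_mul, one_mul]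
      rw [← h1, ← h2, he]
    · intro g
      obtain ⟨η, rfl, -⟩ := exists_red g
      induction η using List.reverseRecOn with
      | nil =>
        refine ⟨(1, 1), ?_⟩
        rw [wp_nil]
        change ψ 1 * ι 1 = 1
        rw [map_one, map_one, one_mul]
      | append_singleton η u ih =>
        obtain ⟨⟨r, w⟩, he⟩ := ih
        change ψ r * ι w = wp (Nj m kk R) η at he
        rw [wp_append, wp_cons, wp_nil, mul_one, ← he]
        rcases u with x | s
        · refine ⟨(r, w * gn m x), ?_⟩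
          change ψ r * ι (w * gn m x) = _
          rw [map_mul, hι1, mul_assoc]
        · refine ⟨(r * gn (Un m kk R) (ux m kk s w), w), ?_⟩
          exact (hinr r w s).symm
  refine ⟨Equiv.ofBijective _ hbij, ι, hι1, fun r w y => ?_, fun r w s => ?_⟩
  · change ψ r * ι w * ι y = ψ r * ι (w * y)
    rw [map_mul, mul_assoc]
  · exact hinr r w s

/-- cliques are spherical -/
theorem nj_flag {m : CoxeterMatrix κ} {kk : Δ → Finset κ} {R : Δ → Δ → Prop} [Fintype κ]
    (hf : Sph m univ) (C : Finset (κ ⊕ Δ))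
    (hC : ∀ u ∈ C, ∀ v ∈ C, Nj m kk R u v ≠ 0) : Sph (Nj m kk R) C := by
  classical
  have h1 : Sph (Nj m kk R) ((univ : Finset κ).map ⟨Sum.inl, Sum.inl_injective⟩) := by
    rw [sph_iff (M' := m)]
    · exact hf
    · exact fun x y => rfl
  have h2 : Sph (Nj m kk R) (C.filter fun u => ∃ x, u = Sum.inl x) := by
    refine sph_mono ?_ h1
    intro u hu
    obtain ⟨x, rfl⟩ := (mem_filter.1 hu).2
    exact mem_map.2 ⟨x, mem_univ _, rfl⟩
  have h3 := sph_add h2 (C.filter fun u => ¬ ∃ x, u = Sum.inl x) (by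
    intro c hc y hy hne
    rw [filter_union_filter_not_eq] at hy
    rw [mem_filter] at hc
    have h4 := hC c hc.1 y hy
    rcases c with x | s
    · exact absurd ⟨x, rfl⟩ hc.2
    · rcases y with x | t
      · by_cases hx : x ∈ kk s
        · rw [(Nj m kk R).symmetric]
          exact nj_lr hx
        · rw [(Nj m kk R).symmetric] at h4
          exact absurd (nj_lr0 hx) h4
      · have hst : s ≠ t := fun e => hne (by rw [e])
        by_cases hR : R s t ∨ R t s
        · exact nj_rr hst hR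
        · exact absurd (nj_rr0 hst hR) h4)
  rwa [filter_union_filter_not_eq] at h3

/-- Vanishing for the sector implies vanishing for the unfolding. -/
theorem un_zg [Fintype κ] [Fintype Δ] (m : CoxeterMatrix κ) (kk : Δ → Finset κ)
    (R : Δ → Δ → Prop) (hf : Sph m univ) [Fintype (Ux m kk)] (h : ZG (Nj m kk R) univ) :
    ZG (Un m kk R) univ := by
  classical
  obtain ⟨Θ, ι, h1, h2, h3⟩ := exists_theta' m kk R
  obtain ⟨iκ, -⟩ := exists_order κ fun _ => True
  obtain ⟨iD, -⟩ := exists_order Δ fun _ => True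
  obtain ⟨iV, hV1, hV2⟩ : ∃ iV : LinearOrder (κ ⊕ Δ),
      (∀ x s, iV.lt (Sum.inl x) (Sum.inr s)) ∧ ∀ s t, iV.lt (Sum.inr s) (Sum.inr t) ↔ iD.lt s t :=
    ⟨inferInstanceAs (LinearOrder (κ ⊕ₗ Δ)), fun x s => Sum.Lex.inl_lt_inr x s,
      fun s t => Sum.Lex.inr_lt_inr_iff⟩
  obtain ⟨iU, hU⟩ := exists_lex (U := Ux m kk) Sigma.fst
  have D : @Dg κ Δ (κ ⊕ Δ) (Ux m kk) _ _ iD iV iU m (Nj m kk R) (Un m kk R) Sum.inl Sum.inr kk
      (ux m kk) Sigma.fst Θ ι := by
    refine ⟨hf, Sum.inl_injective, Sum.inr_injective, fun x s e => ?_, ?_, fun x y => rfl,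
      fun x s hx => nj_lr hx, fun x s hx => nj_lr0 hx, nj_flag hf, hV1, hV2, fun i g h => ux_eq,
      fun i g => rfl, ux_surj, fun i j g hij h0 => ?_, fun u v huv h0 => ?_, hU, h1, h2, h3⟩
    · exact absurd e (by simp)
    · rintro (x | s)
      · exact Or.inl ⟨x, rfl⟩
      · exact Or.inr ⟨s, rfl⟩
    · refine un_two hij ?_ g
      by_contra hR
      exact h0 (nj_rr0 hij hR)
    · obtain ⟨h4, h5, h6⟩ := un_ne huv h0
      refine ⟨h4, ?_, h6⟩
      rw [nj_rr h4 h5]
      norm_num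
  refine (@zg_iff (Ux m kk) _ iU (Un m kk R) univ).2 ?_
  exact @Dg.hh_conv κ Δ (κ ⊕ Δ) (Ux m kk) _ _ iD iV iU m (Nj m kk R) (Un m kk R) Sum.inl Sum.inr kk
    (ux m kk) Sigma.fst Θ ι D _ _ ((@zg_iff (κ ⊕ Δ) _ iV (Nj m kk R) univ).1 h)

end LBL
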