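import Pool.Agent.LBL.Wt
import Pool.Agent.LBL.Unf
import Pool.Agent.LBL.Op

/-!
# Project LBL (architect helper40), module Sec: sectors of simply laced finite Coxeter groups

`J`: a set of nodes.  The sector of `J` is a union of chambers; a table (`Sd`) of its chambers and vertices
determines the Coxeter complex up to unfolding.
-/

namespace LBL

open SCG SNG SCS Finset

variable {κ : Type} {m : CoxeterMatrix κ} {J : Finset κ}

theorem sl_sub (h : SL m) (J : Finset κ) : SL (sub m J) := fun s t hst =>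
  h s.1 t.1 fun e => hst (Subtype.ext e)

theorem cc_sub (s t : {x // x ∈ J}) : cc (sub m J) s t = cc m s.1 t.1 := by
  classical
  unfold cc
  by_cases h : s = t
  · rw [if_pos h, if_pos (by rw [h])]
  · rw [if_neg h, if_neg fun e => h (Subtype.ext e)]
    rfl

theorem ac_res (h : SL m) {φ : (sub m J).Group →* m.Group} (hφ : ∀ x, φ (gn (sub m J) x) = gn m x.1)
    (w : (sub m J).Group) (v : κ → ℤ) (t : {x // x ∈ J}) :
    ac (sl_sub h J) w (fun s => v s.1) t = ac h (φ w) v t.1 := by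
  obtain ⟨η, rfl, -⟩ := exists_red w
  induction η generalizing t with
  | nil => rw [wp_nil, map_one φ, ac_one, ac_one]
  | cons s η ih =>
    rw [wp_cons, map_mul φ, hφ, ac_mul, ac_mul, ac_gn, ac_gn]
    unfold wr
    rw [ih t, ih s, cc_sub]

theorem acJ_fix (h : SL m) {φ : (sub m J).Group →* m.Group} (hφ : ∀ x, φ (gn (sub m J) x) = gn m x.1)
    {w : (sub m J).Group} {v : κ → ℤ} (hw : w ∈ WT (sub m J) {t | v t.1 = 0}) :
    ac h (φ w) v = v := by
  obtain ⟨η, h1, rfl⟩ := exists_word hw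
  clear hw
  induction η with
  | nil => rw [wp_nil, map_one, ac_one]
  | cons s η ih =>
    rw [wp_cons, map_mul, hφ, ac_mul, ih fun t ht => h1 t (List.mem_cons_of_mem _ ht), ac_gn]
    have h2 : v s.1 = 0 := h1 s List.mem_cons_self
    ext t
    unfold wr
    rw [h2]
    ring

theorem titsJ (h : SL m) {φ : (sub m J).Group →* m.Group} (hφ : ∀ x, φ (gn (sub m J) x) = gn m x.1)
    {w : (sub m J).Group} {v : κ → ℤ} (hv : ∀ s ∈ J, 0 ≤ v s) (hv' : ∀ s ∈ J, 0 ≤ ac h (φ w) v s) :
    ac h (φ w) v = v ∧ w ∈ WT (sub m J) {t | v t.1 = 0} := by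
  obtain ⟨-, h2⟩ := tits' (sl_sub h J) (g := w) (v := fun s => v s.1) (fun t => hv t.1 t.2)
    (fun t => by
      rw [ac_res h hφ]
      exact hv' t.1 t.2)
  exact ⟨acJ_fix h hφ h2, h2⟩

/-- chambers of the sector -/
def Ic (m : CoxeterMatrix κ) (J : Finset κ) (z : m.Group) : Prop :=
  ∀ s ∈ J, ln m z⁻¹ < ln m (z⁻¹ * gn m s)

theorem exists_ic {φ : (sub m J).Group →* m.Group}
    (hr : ∀ y, y ∈ WT m (J : Set κ) ↔ ∃ x, φ x = y) (z : m.Group) :
    ∃ w z', Ic m J z' ∧ z = φ w * z' := by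
  have h1 := mn_mem (M := m) (J : Set κ) z⁻¹
  rw [inv_inv, hr] at h1
  obtain ⟨w, hw⟩ := h1
  refine ⟨w, (mn m (J : Set κ) z⁻¹)⁻¹, fun s hs => ?_, ?_⟩
  · rw [inv_inv]
    exact mn_out z⁻¹ hs
  · rw [hw, mul_inv_cancel_right]

theorem ic_nonneg (h : SL m) {z : m.Group} (hz : Ic m J z) {v : κ → ℤ} (hv : ∀ t, 0 ≤ v t) :
    ∀ s ∈ J, 0 ≤ ac h z v s := by
  intro s hs
  have h1 := ac_pos h _ z⁻¹ rfl s (hz s hs) v hv
  rwa [inv_inv] at h1

theorem ic_pre {z : m.Group} (hz : Ic m J z) {t : κ} (ht : ln m (z * gn m t) + 1 = ln m z) :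
    Ic m J (z * gn m t) := by
  intro s hs
  have h1 := hz s hs
  have h2 : (z * gn m t)⁻¹ = gn m t * z⁻¹ := by rw [mul_inv_rev, gn_inv]
  have h3 : z⁻¹ * gn m s = gn m t * ((z * gn m t)⁻¹ * gn m s) := by
    rw [h2, ← mul_assoc, ← mul_assoc, gn_mul_self, one_mul]
  have h4 := ln_mul_le (M := m) (gn m t) ((z * gn m t)⁻¹ * gn m s)
  rw [← h3, ln_gn] at h4
  have h5 := ln_mul_gn (z * gn m t)⁻¹ s
  have h6 := ln_inv (M := m) z
  have h7 := ln_inv (M := m) (z * gn m t)
  omega

open Classical in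
/-- fundamental weights -/
noncomputable def om (i : κ) : κ → ℤ := fun j => if i = j then 1 else 0

theorem om_self (i : κ) : om i i = 1 := by
  classical
  exact if_pos rfl

theorem om_ne {i j : κ} (h : i ≠ j) : om i j = 0 := by
  classical
  exact if_neg h

theorem om_nonneg (i j : κ) : 0 ≤ om i j := by
  classical
  unfold om
  split_ifs <;> norm_num

theorem fw_om : Fw (om (κ := κ)) :=
  ⟨fun i => by rw [om_self]; norm_num, fun _ _ h => om_ne h.symm⟩

section table

variable [Fintype κ] {C D : Type}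

/-- the vertex of type `t` of the adjacent chamber -/
noncomputable def nb (m : CoxeterMatrix κ) (dv : D → κ → ℤ) (vt : C → κ → D) (c : C) (t : κ) :
    κ → ℤ := fun k => dv (vt c t) k - ∑ j, cc m t j * dv (vt c j) k

/-- A table of the sector. -/
structure Sd (m : CoxeterMatrix κ) (J : Finset κ) (dv : D → κ → ℤ) (dt : D → κ) (vt : C → κ → D)
    (c0 : C) (rk : C → ℕ) : Prop where
  base : ∀ i, dv (vt c0 i) = om i
  typ : ∀ c i, dt (vt c i) = i
  step : ∀ c t, (∃ c', (∀ i, i ≠ t → vt c' i = vt c i) ∧ dv (vt c' t) = nb m dv vt c t) ∨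
    ∃ s ∈ J, nb m dv vt c t s < 0
  par : ∀ c, c ≠ c0 → ∃ c' t, rk c' < rk c ∧ (∀ i, i ≠ t → vt c i = vt c' i) ∧
    dv (vt c t) = nb m dv vt c' t
  inj : ∀ d d', dv d = dv d' → d = d'
  cov : ∀ d, ∃ c, vt c (dt d) = d
  nn : ∀ d, ∀ s ∈ J, 0 ≤ dv d s

namespace Sd

variable {dv : D → κ → ℤ} {dt : D → κ} {vt : C → κ → D} {c0 : C} {rk : C → ℕ}
  (S : Sd m J dv dt vt c0 rk)

/-- `z` is the chamber with number `c` -/
def Rz (h : SL m) (dv : D → κ → ℤ) (vt : C → κ → D) (z : m.Group) (c : C) : Prop :=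
  ∀ i, ac h z (om i) = dv (vt c i)

omit S in
theorem rz_step (h : SL m) {z : m.Group} {c : C} (hz : Rz h dv vt z c) (t : κ) :
    (∀ i, i ≠ t → ac h (z * gn m t) (om i) = dv (vt c i)) ∧
      ac h (z * gn m t) (om t) = nb m dv vt c t := by
  classical
  constructor
  · intro i hi
    rw [ac_mul, ac_gn, ← hz i]
    congr 1
    ext j
    unfold wr
    rw [om_ne hi]
    ring
  · rw [ac_mul, ac_gn]
    have h1 : wr m t (om t) = om t - ∑ j, cc m t j • om j := by
      ext k
      rw [Pi.sub_apply, Finset.sum_apply]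
      unfold wr
      rw [om_self, mul_one, Finset.sum_eq_single k]
      · rw [Pi.smul_apply, om_self, smul_eq_mul, mul_one]
      · intro j _ hj
        rw [Pi.smul_apply, om_ne hj, smul_zero]
      · intro hk
        exact absurd (mem_univ k) hk
    rw [h1, map_sub, map_sum]
    ext k
    rw [Pi.sub_apply, Finset.sum_apply]
    unfold nb
    rw [hz t]
    congr 1
    refine Finset.sum_congr rfl fun j _ => ?_
    rw [map_smul, Pi.smul_apply, hz j, smul_eq_mul]

include S

theorem real (h : SL m) : ∀ (n : ℕ) (c : C), rk c = n → ∃ z, Rz h dv vt z c := by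
  classical
  intro n
  induction n using Nat.strong_induction_on with
  | _ n ih =>
    intro c hc
    by_cases h0 : c = c0
    · refine ⟨1, fun i => ?_⟩
      rw [ac_one, h0, S.base]
    · obtain ⟨c', t, h1, h2, h3⟩ := S.par c h0
      obtain ⟨z, hz⟩ := ih (rk c') (by omega) c' rfl
      obtain ⟨h4, h5⟩ := rz_step h hz t
      refine ⟨z * gn m t, fun i => ?_⟩
      by_cases hi : i = t
      · rw [hi, h5, h3]
      · rw [h4 i hi, h2 i hi]

theorem enum (h : SL m) : ∀ (n : ℕ) (z : m.Group), ln m z = n → Ic m J z →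
    ∃ c, Rz h dv vt z c := by
  intro n
  induction n with
  | zero =>
    intro z hz _
    rw [ln_eq_zero] at hz
    refine ⟨c0, fun i => ?_⟩
    rw [hz, ac_one, S.base]
  | succ n ih =>
    intro z hz hI
    have hne : z ≠ 1 := by
      rintro rfl
      rw [ln_one] at hz
      omega
    obtain ⟨t, ht⟩ := exists_desc hne
    obtain ⟨c', hc'⟩ := ih (z * gn m t) (by omega) (ic_pre hI ht)
    obtain ⟨h4, h5⟩ := rz_step h hc' t
    rw [mul_assoc, gn_mul_self, mul_one] at h4 h5
    rcases S.step c' t with ⟨c, h1, h2⟩ | ⟨s, hs, h1⟩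
    · refine ⟨c, fun i => ?_⟩
      by_cases hi : i = t
      · rw [hi, h5, h2]
      · rw [h4 i hi, h1 i hi]
    · have h6 := ic_nonneg h hI (om_nonneg t) s hs
      rw [h5] at h6
      omega

/-- The vanishing for the Coxeter complex from the vanishing for the sector. -/
theorem zg [Fintype D] (h : SL m) (hf : Finite m.Group) [Fintype (Vx m)]
    (kk : D → Finset {x // x ∈ J}) (hk : ∀ d s, s ∈ kk d ↔ dv d s.1 = 0) (R : D → D → Prop)
    (hR : ∀ d d', R d d' ↔ ∃ c, vt c (dt d) = d ∧ vt c (dt d') = d')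
    (hZ : ZG (Nj (sub m J) kk R) univ) : ZG (Xm m) univ := by
  classical
  obtain ⟨φ, hφ, hinj, hr⟩ := exists_phi m J
  have hsph : Sph (sub m J) univ := by
    unfold Sph
    have : Finite (sub m J).Group := Finite.of_injective φ hinj
    exact Set.toFinite _
  have hfJ : Finite (sub m J).Group := Finite.of_injective φ hinj
  have i1 : Fintype (Ux (sub m J) kk) := Fintype.ofFinite _
  have h1 := un_zg (sub m J) kk R hsph hZ
  have hkk : ∀ d, (kk d : Set {x // x ∈ J}) = {t | dv d t.1 = 0} := by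
    intro d
    ext s
    rw [Finset.mem_coe, hk]
    rfl
  -- vertices
  have hdJ : ∀ d, ∃ z, ac h z (om (dt d)) = dv d := by
    intro d
    obtain ⟨c, hc⟩ := S.cov d
    obtain ⟨z, hz⟩ := S.real h _ c rfl
    exact ⟨z, by rw [hz, hc]⟩
  choose zd hzd using hdJ
  have hwt : ∀ d w, ac h (φ w * zd d) (om (dt d)) = ac h (φ w) (dv d) := by
    intro d w
    rw [ac_mul, hzd]
  have hiff : ∀ d w d' w', vx m (dt d) (φ w * zd d) = vx m (dt d') (φ w' * zd d') ↔
      ac h (φ w) (dv d) = ac h (φ w') (dv d') := by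
    intro d w d' w'
    rw [← hwt, ← hwt]
    exact (fw_om.eq_iff h).symm
  have hfix : ∀ d w w', ux (sub m J) kk d w = ux (sub m J) kk d w' →
      ac h (φ w) (dv d) = ac h (φ w') (dv d) := by
    intro d w w' e
    rw [ux_eq, hkk] at e
    have h2 := acJ_fix h hφ e
    rw [map_mul, ac_mul] at h2
    have h3 := congrArg (ac h (φ w)) h2
    rw [← ac_mul, map_inv, mul_inv_cancel, ac_one] at h3
    exact h3.symm
  have hinj' : ∀ d w d' w', ac h (φ w) (dv d) = ac h (φ w') (dv d') →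
      ux (sub m J) kk d w = ux (sub m J) kk d' w' := by
    intro d w d' w' e
    have h2 : ac h (φ (w'⁻¹ * w)) (dv d) = dv d' := by
      rw [map_mul, ac_mul, e, map_inv, ac_inv]
    obtain ⟨h3, h4⟩ := titsJ h hφ (S.nn d) (w := w'⁻¹ * w) (by
      rw [h2]
      exact S.nn d')
    have h5 : d = d' := S.inj _ _ (h3.symm.trans h2)
    subst h5
    rw [ux_eq, hkk]
    have h6 := Subgroup.inv_mem _ h4
    rwa [mul_inv_rev, inv_inv] at h6
  obtain ⟨e, he⟩ : ∃ e : Ux (sub m J) kk → Vx m, ∀ d w,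
      e (ux (sub m J) kk d w) = vx m (dt d) (φ w * zd d) := by
    refine ⟨fun u => vx m (dt u.1) (φ (Classical.choose (ux_surj u)) * zd u.1), fun d w => ?_⟩
    have h2 := Classical.choose_spec (ux_surj (ux (sub m J) kk d w))
    exact (hiff _ _ _ _).2 (hfix d _ _ h2.symm)
  have heinj : ∀ u v, e u = e v → u = v := by
    intro u v huv
    obtain ⟨w, hw⟩ := ux_surj u
    obtain ⟨w', hw'⟩ := ux_surj v
    rw [hw, hw', he, he, hiff] at huv
    rw [hw, hw']
    exact hinj' _ _ _ _ huv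
  -- the vertices of a chamber
  have hch : ∀ (w : (sub m J).Group) (z : m.Group) (c : C), Rz h dv vt z c → ∀ i,
      e (ux (sub m J) kk (vt c i) w) = vx m i (φ w * z) := by
    intro w z c hz i
    rw [he, S.typ]
    refine (fw_om.eq_iff h).1 ?_
    rw [ac_mul, ac_mul, hz i]
    have h2 := hzd (vt c i)
    rw [S.typ] at h2
    rw [h2]
  have hadj : ∀ u v, u ≠ v → (Ur (sub m J) kk R u v ∨ Ur (sub m J) kk R v u) →
      Xm m (e u) (e v) = 2 := by
    intro u v huv hor
    have hU : Ur (sub m J) kk R u v := hor.elim id ur_symm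
    obtain ⟨h2, h3, w, h4, h5⟩ := hU
    obtain ⟨c, hc1, hc2⟩ : ∃ c, vt c (dt u.1) = u.1 ∧ vt c (dt v.1) = v.1 := by
      rcases h3 with h3 | h3
      · exact (hR _ _).1 h3
      · obtain ⟨c, hc1, hc2⟩ := (hR _ _).1 h3
        exact ⟨c, hc2, hc1⟩
    obtain ⟨z, hz⟩ := S.real h _ c rfl
    have e1 := hch w z c hz (dt u.1)
    have e2 := hch w z c hz (dt v.1)
    rw [hc1, ← h4] at e1
    rw [hc2, ← h5] at e2
    rw [e1, e2]
    refine xm_two (fun e3 => h2 ?_) _
    rw [← hc1, ← hc2, e3]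
  have hall : ∀ x : m.Group, ∃ w c, ∀ i, vx m i x = e (ux (sub m J) kk (vt c i) w) := by
    intro x
    obtain ⟨w, z', hz', hx⟩ := exists_ic (m := m) hr x
    obtain ⟨c, hc⟩ := S.enum h _ z' rfl hz'
    refine ⟨w, c, fun i => ?_⟩
    rw [hx, hch w z' c hc i]
  have hlab : ∀ u v, Xm m (e u) (e v) = Un (sub m J) kk R u v := by
    intro u v
    by_cases huv : u = v
    · rw [huv, (Xm m).diagonal, (Un (sub m J) kk R).diagonal]
    · by_cases hor : Ur (sub m J) kk R u v ∨ Ur (sub m J) kk R v u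
      · rw [hadj u v huv hor, rm_two huv hor]
      · rw [rm_zero huv hor]
        by_contra h0
        obtain ⟨h2, x, h3, h4⟩ := xm_ne (fun e1 => huv (heinj u v e1)) h0
        obtain ⟨w, c, hwc⟩ := hall x
        rw [hwc] at h3 h4
        have h5 := heinj _ _ h3
        have h6 := heinj _ _ h4
        have h7 : u.1 = vt c (e u).1 := congrArg Sigma.fst h5
        have h8 : v.1 = vt c (e v).1 := congrArg Sigma.fst h6
        refine hor (Or.inl ⟨fun e1 => h2 ?_, Or.inl ((hR _ _).2 ⟨c, ?_, ?_⟩), w, ?_, ?_⟩)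
        · rw [← S.typ c (e u).1, ← S.typ c (e v).1, ← h7, ← h8, e1]
        · rw [h7, S.typ]
        · rw [h8, S.typ]
        · rw [h7]
          exact h5
        · rw [h8]
          exact h6
  have h2 := (zg_image (G := Un (sub m J) kk R) (G' := Xm m) (S := univ) e
    (fun u _ v _ => heinj u v) (fun u _ v _ => hlab u v)).1 h1
  have h3 : (univ : Finset (Ux (sub m J) kk)).image e = univ := by
    ext v
    refine ⟨fun _ => mem_univ _, fun _ => ?_⟩
    obtain ⟨x, hx⟩ := vx_surj v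
    obtain ⟨w, c, hwc⟩ := hall x
    rw [hx, hwc]
    exact mem_image_of_mem e (mem_univ _)
  rwa [h3] at h2

end Sd

end table

end LBL
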