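import Pool.Agent.LBL.E7t
import Pool.Agent.LBL.E7c
import Pool.Agent.LBL.Ceru
import Pool.Agent.LBL.Sec

/-!
# Project LBL (architect helper40), module E7s: the sector of E7 over E6
-/

namespace LBL

open SCG SNG SCS Finset

namespace E7

/-- Cartan integers -/
def cz (i j : Fin 7) : ℤ := if i = j then 2 else if w7 i.1 j.1 = 3 then -1 else 0

theorem cz_table : ∀ i j : Fin 7, cz i j = (![![2, -1, 0, 0, 0, 0, 0], ![-1, 2, -1, 0, 0, 0, 0],
    ![0, -1, 2, -1, 0, -1, 0], ![0, 0, -1, 2, -1, 0, 0], ![0, 0, 0, -1, 2, 0, -1],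
    ![0, 0, -1, 0, 0, 2, 0], ![0, 0, 0, 0, -1, 0, 2]] : Fin 7 → Fin 7 → ℤ) i j := by decide

theorem nb_sum (x : ℕ → ℤ) (i : Fin 7) : x i.1 - ∑ j : Fin 7, cz i j * x j.1 =
    (nbL.getD i.1 []).foldr (fun j s => x j + s) (- x i.1) := by
  simp only [cz_table, Fin.sum_univ_seven]
  fin_cases i <;> simp [nbL] <;> ring

theorem w7_cases (x y : ℕ) (h : x ≠ y) : w7 x y = 2 ∨ w7 x y = 3 := by
  unfold w7
  rw [if_neg h]
  split_ifs
  · exact Or.inr rfl
  · exact Or.inl rfl

/-- the union of the chambers of `d` -/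
def rowD (d : ℕ) : ℕ := cmL.foldr (fun (c a : ℕ) => if c.testBit d then c ||| a else a) 0

theorem row_iff (l : List ℕ) (d d' : ℕ) :
    (l.foldr (fun (c a : ℕ) => if c.testBit d then c ||| a else a) 0).testBit d' = true ↔
      ∃ c ∈ l, c.testBit d = true ∧ c.testBit d' = true := by
  induction l with
  | nil => simp
  | cons c l ih =>
    rw [List.foldr_cons]
    by_cases h : c.testBit d = true
    · rw [if_pos h, Nat.testBit_or, Bool.or_eq_true, ih]
      simp only [List.mem_cons]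
      constructor
      · rintro (h1 | ⟨c', h1, h2⟩)
        · exact ⟨c, Or.inl rfl, h, h1⟩
        · exact ⟨c', Or.inr h1, h2⟩
      · rintro ⟨c', rfl | h1, h2⟩
        · exact Or.inl h2.2
        · exact Or.inr ⟨c', h1, h2⟩
    · rw [if_neg h, ih]
      simp only [List.mem_cons]
      constructor
      · rintro ⟨c', h1, h2⟩
        exact ⟨c', Or.inr h1, h2⟩
      · rintro ⟨c', rfl | h1, h2⟩
        · exact absurd h2.1 h
        · exact ⟨c', h1, h2⟩

theorem cm_iff {c d : ℕ} (hc : c < 56) (hd : d < 34) :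
    (cmL.getD c 0).testBit d = true ↔ vt7 c (dt7 d) = d := by
  have h := ckCm_true
  simp only [ckCm, Bool.and_eq_true, List.all_eq_true, List.mem_range, beq_iff_eq] at h
  rw [h.2 c hc d hd, beq_iff_eq]

theorem cm_len : cmL.length = 56 := by decide +kernel

theorem rowD_iff {d d' : ℕ} (hd : d < 34) (hd' : d' < 34) : (rowD d).testBit d' = true ↔
    ∃ c < 56, vt7 c (dt7 d) = d ∧ vt7 c (dt7 d') = d' := by
  unfold rowD
  rw [row_iff]
  constructor
  · rintro ⟨x, hx, h1, h2⟩
    obtain ⟨c, hc, rfl⟩ := List.mem_iff_getElem.1 hx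
    rw [cm_len] at hc
    rw [← List.getD_eq_getElem cmL 0 (by rw [cm_len]; exact hc)] at h1 h2
    exact ⟨c, hc, (cm_iff hc hd).1 h1, (cm_iff hc hd').1 h2⟩
  · rintro ⟨c, hc, h1, h2⟩
    refine ⟨cmL.getD c 0, ?_, (cm_iff hc hd).2 h1, (cm_iff hc hd').2 h2⟩
    rw [List.getD_eq_getElem cmL 0 (by rw [cm_len]; exact hc)]
    exact List.getElem_mem _

def ckRow : Bool := alln 34 fun d => alln 34 fun d' => d == d' ||
  qf L0 (6 + d) (6 + d') == if (rowD d).testBit d' then 2 else 0

def ckWall : Bool := alln 34 fun d => alln 6 fun s => qf L0 s (6 + d) == if dv7 d s = 0 then 2 else 0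

theorem ckRow_true : ckRow = true := by decide +kernel

theorem ckWall_true : ckWall = true := by decide +kernel

end E7

end LBL
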