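import Mathlib

/-!
# Project LBL (architect helper40), module E7t: the tables of the sector of E7 over E6

Nodes: the path 0, 1, 2, 3, 4, 6 and 5 joined to 2.  The sector of the nodes 0, ..., 5 has 56 chambers and
34 vertices.  `dvL`: the vertices as weights; `dtL`: their types; `vtL`: the vertices of the chambers;
`nxL`: the adjacent chambers, or a wall; `paL`: a spanning tree; `cmL`: the chambers as bit masks.
-/

namespace LBL

namespace E7

def dvL : List (List ℤ) := [
  [1, 0, 0, 0, 0, 0, 0], [0, 1, 0, 0, 0, 0, 0], [0, 0, 1, 0, 0, 0, 0], [0, 0, 0, 1, 0, 0, 0],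
  [0, 0, 0, 0, 1, 0, 0], [0, 0, 0, 0, 0, 1, 0], [0, 0, 0, 0, 0, 0, 1], [0, 0, 0, 0, 1, 0, -1],
  [0, 0, 0, 1, 0, 0, -1], [0, 0, 1, 0, 0, 0, -1], [0, 1, 0, 0, 0, 1, -1],
  [1, 0, 0, 0, 0, 1, -1], [0, 1, 0, 0, 0, 0, -1], [0, 0, 0, 0, 0, 1, -1],
  [1, 0, 1, 0, 0, 0, -2], [1, 0, 0, 1, 0, 0, -2], [0, 0, 1, 0, 0, 0, -2],
  [1, 0, 0, 0, 1, 0, -2], [1, 0, 0, 0, 0, 0, -1], [0, 1, 0, 1, 0, 0, -3],
  [0, 0, 0, 1, 0, 0, -2], [0, 1, 0, 0, 1, 0, -3], [0, 0, 1, 0, 1, 0, -4],
  [0, 1, 0, 0, 0, 0, -2], [0, 0, 0, 0, 1, 1, -3], [0, 0, 0, 0, 1, 0, -2],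
  [0, 0, 1, 0, 0, 0, -3], [0, 0, 0, 1, 0, 1, -4], [0, 0, 0, 0, 0, 1, -2],
  [0, 0, 0, 1, 0, 0, -3], [0, 0, 1, 0, 0, 0, -4], [0, 1, 0, 0, 0, 0, -3],
  [1, 0, 0, 0, 0, 0, -2], [0, 0, 0, 0, 0, 0, -1]]

def dtL : List ℕ := [
  0, 1, 2, 3, 4, 5, 6, 6, 4, 3, 2, 1, 5, 0, 2, 3, 1, 4, 6, 2, 5, 3, 2, 4, 1, 0, 3, 2, 5, 1, 2,
  3, 4, 6]

def vtL : List (List ℕ) := [
  [0, 1, 2, 3, 4, 5, 6], [0, 1, 2, 3, 4, 5, 7], [0, 1, 2, 3, 8, 5, 7], [0, 1, 2, 9, 8, 5, 7],
  [0, 1, 10, 9, 8, 5, 7], [0, 11, 10, 9, 8, 5, 7], [0, 1, 10, 9, 8, 12, 7],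
  [13, 11, 10, 9, 8, 5, 7], [0, 11, 10, 9, 8, 12, 7], [13, 11, 10, 9, 8, 12, 7],
  [0, 11, 14, 9, 8, 12, 7], [13, 11, 14, 9, 8, 12, 7], [0, 11, 14, 15, 8, 12, 7],
  [13, 16, 14, 9, 8, 12, 7], [13, 11, 14, 15, 8, 12, 7], [0, 11, 14, 15, 17, 12, 7],
  [13, 16, 14, 15, 8, 12, 7], [13, 11, 14, 15, 17, 12, 7], [0, 11, 14, 15, 17, 12, 18],
  [13, 16, 19, 15, 8, 12, 7], [13, 16, 14, 15, 17, 12, 7], [13, 11, 14, 15, 17, 12, 18],
  [13, 16, 19, 15, 17, 12, 7], [13, 16, 19, 15, 8, 20, 7], [13, 16, 14, 15, 17, 12, 18],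
  [13, 16, 19, 21, 17, 12, 7], [13, 16, 19, 15, 17, 20, 7], [13, 16, 19, 15, 17, 12, 18],
  [13, 16, 19, 21, 17, 20, 7], [13, 16, 19, 21, 17, 12, 18], [13, 16, 19, 15, 17, 20, 18],
  [13, 16, 22, 21, 17, 20, 7], [13, 16, 19, 21, 17, 20, 18], [13, 16, 19, 21, 23, 12, 18],
  [13, 24, 22, 21, 17, 20, 7], [13, 16, 22, 21, 17, 20, 18], [13, 16, 19, 21, 23, 20, 18],
  [25, 24, 22, 21, 17, 20, 7], [13, 24, 22, 21, 17, 20, 18], [13, 16, 22, 21, 23, 20, 18],
  [25, 24, 22, 21, 17, 20, 18], [13, 24, 22, 21, 23, 20, 18], [13, 16, 22, 26, 23, 20, 18],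
  [25, 24, 22, 21, 23, 20, 18], [13, 24, 22, 26, 23, 20, 18], [25, 24, 22, 26, 23, 20, 18],
  [13, 24, 27, 26, 23, 20, 18], [25, 24, 27, 26, 23, 20, 18], [13, 24, 27, 26, 23, 28, 18],
  [25, 29, 27, 26, 23, 20, 18], [25, 24, 27, 26, 23, 28, 18], [25, 29, 27, 26, 23, 28, 18],
  [25, 29, 30, 26, 23, 28, 18], [25, 29, 30, 31, 23, 28, 18], [25, 29, 30, 31, 32, 28, 18],
  [25, 29, 30, 31, 32, 28, 33]]

def nxL : List (List (Bool × ℕ)) := [
  [(false, 0), (false, 1), (false, 2), (false, 3), (false, 4), (false, 5), (true, 1)],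
  [(false, 0), (false, 1), (false, 2), (false, 3), (true, 2), (false, 5), (true, 0)],
  [(false, 0), (false, 1), (false, 2), (true, 3), (true, 1), (false, 5), (false, 4)],
  [(false, 0), (false, 1), (true, 4), (true, 2), (false, 3), (false, 5), (false, 4)],
  [(false, 0), (true, 5), (true, 3), (false, 2), (false, 3), (true, 6), (false, 4)],
  [(true, 7), (true, 4), (false, 1), (false, 2), (false, 3), (true, 8), (false, 4)],
  [(false, 0), (true, 8), (false, 5), (false, 2), (false, 3), (true, 4), (false, 4)],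
  [(true, 5), (false, 0), (false, 1), (false, 2), (false, 3), (true, 9), (false, 4)],
  [(true, 9), (true, 6), (true, 10), (false, 2), (false, 3), (true, 5), (false, 4)],
  [(true, 8), (false, 0), (true, 11), (false, 2), (false, 3), (true, 7), (false, 4)],
  [(true, 11), (false, 5), (true, 8), (true, 12), (false, 3), (false, 1), (false, 4)],
  [(true, 10), (true, 13), (true, 9), (true, 14), (false, 3), (false, 1), (false, 4)],
  [(true, 14), (false, 5), (false, 2), (true, 10), (true, 15), (false, 1), (false, 4)],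
  [(false, 5), (true, 11), (false, 0), (true, 16), (false, 3), (false, 1), (false, 4)],
  [(true, 12), (true, 16), (false, 2), (true, 11), (true, 17), (false, 1), (false, 4)],
  [(true, 17), (false, 5), (false, 2), (false, 3), (true, 12), (false, 1), (true, 18)],
  [(false, 5), (true, 14), (true, 19), (true, 13), (true, 20), (false, 1), (false, 4)],
  [(true, 15), (true, 20), (false, 2), (false, 3), (true, 14), (false, 1), (true, 21)],
  [(true, 21), (false, 5), (false, 2), (false, 3), (false, 4), (false, 1), (true, 15)],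
  [(false, 5), (false, 2), (true, 16), (false, 0), (true, 22), (true, 23), (false, 4)],
  [(false, 5), (true, 17), (true, 22), (false, 3), (true, 16), (false, 1), (true, 24)],
  [(true, 18), (true, 24), (false, 2), (false, 3), (false, 4), (false, 1), (true, 17)],
  [(false, 5), (false, 2), (true, 20), (true, 25), (true, 19), (true, 26), (true, 27)],
  [(false, 5), (false, 2), (false, 1), (false, 0), (true, 26), (true, 19), (false, 4)],
  [(false, 5), (true, 21), (true, 27), (false, 3), (false, 4), (false, 1), (true, 20)],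
  [(false, 5), (false, 2), (false, 3), (true, 22), (false, 0), (true, 28), (true, 29)],
  [(false, 5), (false, 2), (false, 1), (true, 28), (true, 23), (true, 22), (true, 30)],
  [(false, 5), (false, 2), (true, 24), (true, 29), (false, 4), (true, 30), (true, 22)],
  [(false, 5), (false, 2), (true, 31), (true, 26), (false, 0), (true, 25), (true, 32)],
  [(false, 5), (false, 2), (false, 3), (true, 27), (true, 33), (true, 32), (true, 25)],
  [(false, 5), (false, 2), (false, 1), (true, 32), (false, 4), (true, 27), (true, 26)],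
  [(false, 5), (true, 34), (true, 28), (false, 1), (false, 0), (false, 3), (true, 35)],
  [(false, 5), (false, 2), (true, 35), (true, 30), (true, 36), (true, 29), (true, 28)],
  [(false, 5), (false, 2), (false, 3), (false, 4), (true, 29), (true, 36), (false, 0)],
  [(true, 37), (true, 31), (false, 2), (false, 1), (false, 0), (false, 3), (true, 38)],
  [(false, 5), (true, 38), (true, 32), (false, 1), (true, 39), (false, 3), (true, 31)],
  [(false, 5), (false, 2), (true, 39), (false, 4), (true, 32), (true, 33), (false, 0)],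
  [(true, 34), (false, 5), (false, 2), (false, 1), (false, 0), (false, 3), (true, 40)],
  [(true, 40), (true, 35), (false, 2), (false, 1), (true, 41), (false, 3), (true, 34)],
  [(false, 5), (true, 41), (true, 36), (true, 42), (true, 35), (false, 3), (false, 0)],
  [(true, 38), (false, 5), (false, 2), (false, 1), (true, 43), (false, 3), (true, 37)],
  [(true, 43), (true, 39), (false, 2), (true, 44), (true, 38), (false, 3), (false, 0)],
  [(false, 5), (true, 44), (false, 4), (true, 39), (false, 1), (false, 3), (false, 0)],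
  [(true, 41), (false, 5), (false, 2), (true, 45), (true, 40), (false, 3), (false, 0)],
  [(true, 45), (true, 42), (true, 46), (true, 41), (false, 1), (false, 3), (false, 0)],
  [(true, 44), (false, 5), (true, 47), (true, 43), (false, 1), (false, 3), (false, 0)],
  [(true, 47), (false, 4), (true, 44), (false, 2), (false, 1), (true, 48), (false, 0)],
  [(true, 46), (true, 49), (true, 45), (false, 2), (false, 1), (true, 50), (false, 0)],
  [(true, 50), (false, 4), (false, 3), (false, 2), (false, 1), (true, 46), (false, 0)],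
  [(false, 4), (true, 47), (false, 5), (false, 2), (false, 1), (true, 51), (false, 0)],
  [(true, 48), (true, 51), (false, 3), (false, 2), (false, 1), (true, 47), (false, 0)],
  [(false, 4), (true, 50), (true, 52), (false, 2), (false, 1), (true, 49), (false, 0)],
  [(false, 4), (false, 3), (true, 51), (true, 53), (false, 1), (false, 5), (false, 0)],
  [(false, 4), (false, 3), (false, 2), (true, 52), (true, 54), (false, 5), (false, 0)],
  [(false, 4), (false, 3), (false, 2), (false, 1), (true, 53), (false, 5), (true, 55)],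
  [(false, 4), (false, 3), (false, 2), (false, 1), (false, 0), (false, 5), (true, 54)]]

def paL : List (ℕ × ℕ) := [
  (0, 0), (0, 6), (1, 4), (2, 3), (3, 2), (4, 1), (4, 5), (5, 0), (5, 5), (7, 5), (8, 2),
  (9, 2), (10, 3), (11, 1), (11, 3), (12, 4), (13, 3), (14, 4), (15, 6), (16, 2), (16, 4),
  (17, 6), (19, 4), (19, 5), (20, 6), (22, 3), (22, 5), (22, 6), (25, 5), (25, 6), (26, 6),
  (28, 2), (28, 6), (29, 4), (31, 1), (31, 6), (32, 4), (34, 0), (34, 6), (35, 4), (37, 6),
  (38, 4), (39, 3), (40, 4), (41, 3), (43, 3), (44, 2), (45, 2), (46, 5), (47, 1), (47, 5),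
  (49, 5), (51, 2), (52, 3), (53, 4), (54, 6)]

def cmL : List ℕ := [
  127, 191, 431, 935, 1955, 4001, 6019, 12192, 8065, 16256, 23425, 31616, 55681, 95104, 63872,
  186497, 127360, 194688, 448513, 635264, 258176, 456704, 766080, 1679744, 520192, 2830464,
  1810560, 1028096, 3874944, 3092480, 2072576, 7544960, 4136960, 11350016, 24256640, 7806976,
  12394496, 57802880, 24518656, 16064512, 58064896, 32776192, 81076224, 66322432, 97787904,
  131334144, 227811328, 261357568, 495198208, 781451264, 528744448, 1048838144, 1988362240,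
  4068737024, 8355315712, 16944988160]

def nbL : List (List ℕ) := [[1], [0, 2], [1, 3, 5], [2, 4], [3, 6], [2], [4]]

def dv7 (d k : ℕ) : ℤ := (dvL.getD d []).getD k 0

def dt7 (d : ℕ) : ℕ := dtL.getD d 0

def vt7 (c i : ℕ) : ℕ := (vtL.getD c []).getD i 0

/-- the vertex of type `t` of the adjacent chamber -/
def nb7 (c t k : ℕ) : ℤ := (nbL.getD t []).foldr (fun j s => dv7 (vt7 c j) k + s) (- dv7 (vt7 c t) k)

def ckBase : Bool := (List.range 7).all fun i => (List.range 7).all fun k =>
  dv7 (vt7 0 i) k == if i = k then 1 else 0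

def ckTyp : Bool := (List.range 56).all fun c => (List.range 7).all fun i =>
  dt7 (vt7 c i) == i && decide (vt7 c i < 34)

def ckStep : Bool := (List.range 56).all fun c => (List.range 7).all fun t =>
  match (nxL.getD c []).getD t (false, 0) with
  | (true, c') => decide (c' < 56) && ((List.range 7).all fun i => i == t || vt7 c' i == vt7 c i) &&
      (List.range 7).all fun k => dv7 (vt7 c' t) k == nb7 c t k
  | (false, s) => decide (s < 6) && decide (nb7 c t s < 0)

def ckPar : Bool := (List.range 56).all fun c => c == 0 ||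
  (decide ((paL.getD c (0, 0)).1 < c) && decide ((paL.getD c (0, 0)).2 < 7) &&
    ((List.range 7).all fun i => i == (paL.getD c (0, 0)).2 || vt7 c i == vt7 (paL.getD c (0, 0)).1 i) &&
      (List.range 7).all fun k => dv7 (vt7 c (paL.getD c (0, 0)).2) k ==
        nb7 (paL.getD c (0, 0)).1 (paL.getD c (0, 0)).2 k)

def ckInj : Bool := (List.range 34).all fun d => (List.range 34).all fun d' => d == d' ||
  (List.range 7).any fun k => dv7 d k != dv7 d' k

def ckCov : Bool := (List.range 34).all fun d => decide (dt7 d < 7) &&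
  (List.range 56).any fun c => vt7 c (dt7 d) == d

def ckNn : Bool := (List.range 34).all fun d => (List.range 6).all fun s => decide (0 ≤ dv7 d s)

def ckCm : Bool := decide (cmL.length = 56) && (List.range 56).all fun c => (List.range 34).all fun d =>
  (cmL.getD c 0).testBit d == (vt7 c (dt7 d) == d)

theorem ckBase_true : ckBase = true := by decide +kernel

theorem ckTyp_true : ckTyp = true := by decide +kernel

theorem ckStep_true : ckStep = true := by decide +kernel

theorem ckPar_true : ckPar = true := by decide +kernel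

theorem ckInj_true : ckInj = true := by decide +kernel

theorem ckCov_true : ckCov = true := by decide +kernel

theorem ckNn_true : ckNn = true := by decide +kernel

theorem ckCm_true : ckCm = true := by decide +kernel

end E7

end LBL
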