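import Pool.Agent.LBL.E7s

/-!
# Project LBL (architect helper40), module E7u: the Coxeter complex of type E7
-/

namespace LBL

open SCG SNG SCS Finset

namespace E7

theorem typ7 {c i : ℕ} (hc : c < 56) (hi : i < 7) : dt7 (vt7 c i) = i ∧ vt7 c i < 34 := by
  have h := ckTyp_true
  simp only [ckTyp, Bool.and_eq_true, List.all_eq_true, List.mem_range, beq_iff_eq,
    decide_eq_true_eq] at h
  exact h c hc i hi

theorem cov7 {d : ℕ} (hd : d < 34) : dt7 d < 7 ∧ ∃ c < 56, vt7 c (dt7 d) = d := by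
  have h := ckCov_true
  simp only [ckCov, Bool.and_eq_true, List.all_eq_true, List.any_eq_true, List.mem_range,
    beq_iff_eq, decide_eq_true_eq] at h
  exact h d hd

theorem base7 {i k : ℕ} (hi : i < 7) (hk : k < 7) : dv7 (vt7 0 i) k = if i = k then 1 else 0 := by
  have h := ckBase_true
  simp only [ckBase, List.all_eq_true, List.mem_range, beq_iff_eq] at h
  exact h i hi k hk

theorem step7 {c t : ℕ} (hc : c < 56) (ht : t < 7) :
    (∃ c' < 56, (∀ i < 7, i ≠ t → vt7 c' i = vt7 c i) ∧ ∀ k < 7, dv7 (vt7 c' t) k = nb7 c t k) ∨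
      ∃ s < 6, nb7 c t s < 0 := by
  have h := ckStep_true
  simp only [ckStep, List.all_eq_true, List.mem_range] at h
  have h1 := h c hc t ht
  rcases hq : (nxL.getD c []).getD t (false, 0) with ⟨b, c'⟩
  rw [hq] at h1
  cases b with
  | true =>
    simp only [Bool.and_eq_true, List.all_eq_true, List.mem_range, beq_iff_eq, decide_eq_true_eq,
      Bool.or_eq_true] at h1
    exact Or.inl ⟨c', h1.1.1, fun i hi hit => (h1.1.2 i hi).resolve_left hit, h1.2⟩
  | false =>
    simp only [Bool.and_eq_true, decide_eq_true_eq] at h1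
    exact Or.inr ⟨c', h1.1, h1.2⟩

theorem par7 {c : ℕ} (hc : c < 56) (h0 : c ≠ 0) : ∃ c' < c, ∃ t < 7,
    (∀ i < 7, i ≠ t → vt7 c i = vt7 c' i) ∧ ∀ k < 7, dv7 (vt7 c t) k = nb7 c' t k := by
  have h := ckPar_true
  simp only [ckPar, List.all_eq_true, List.mem_range, Bool.or_eq_true, beq_iff_eq,
    Bool.and_eq_true, decide_eq_true_eq] at h
  rcases h c hc with h1 | h1
  · exact absurd h1 h0
  · exact ⟨_, h1.1.1.1, _, h1.1.1.2, fun i hi hit => (h1.1.2 i hi).resolve_left hit, h1.2⟩

theorem inj7 {d d' : ℕ} (hd : d < 34) (hd' : d' < 34) (h : ∀ k < 7, dv7 d k = dv7 d' k) :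
    d = d' := by
  have h1 := ckInj_true
  simp only [ckInj, List.all_eq_true, List.any_eq_true, List.mem_range, Bool.or_eq_true,
    beq_iff_eq, bne_iff_ne] at h1
  rcases h1 d hd d' hd' with h2 | ⟨k, hk, h2⟩
  · exact h2
  · exact absurd (h k hk) h2

theorem nn7 {d s : ℕ} (hd : d < 34) (hs : s < 6) : 0 ≤ dv7 d s := by
  have h1 := ckNn_true
  simp only [ckNn, List.all_eq_true, List.mem_range, decide_eq_true_eq] at h1
  exact h1 d hd s hs

theorem row7 {d d' : ℕ} (hd : d < 34) (hd' : d' < 34) (h : d ≠ d') :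
    qf L0 (6 + d) (6 + d') = if (rowD d).testBit d' then 2 else 0 := by
  have h1 := ckRow_true
  simp only [ckRow, alln_iff, Bool.or_eq_true, beq_iff_eq] at h1
  exact (h1 d hd d' hd').resolve_left h

theorem wall7 {d s : ℕ} (hd : d < 34) (hs : s < 6) :
    qf L0 s (6 + d) = if dv7 d s = 0 then 2 else 0 := by
  have h1 := ckWall_true
  simp only [ckWall, alln_iff, beq_iff_eq] at h1
  exact h1 d hd s hs

section inst

variable {κ : Type} (E : κ ≃ Fin 7)

/-- the vertices of a chamber -/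
def vtE (c : Fin 56) (k : κ) : Fin 34 := ⟨vt7 c.1 (E k).1 % 34, Nat.mod_lt _ (by norm_num)⟩

/-- the type of a vertex -/
def dtE (d : Fin 34) : κ := E.symm ⟨dt7 d.1 % 7, Nat.mod_lt _ (by norm_num)⟩

/-- the weight of a vertex -/
def dvE (d : Fin 34) (k : κ) : ℤ := dv7 d.1 (E k).1

theorem vtE_val (c : Fin 56) (k : κ) : (vtE E c k).1 = vt7 c.1 (E k).1 :=
  Nat.mod_eq_of_lt (typ7 c.2 (E k).2).2

theorem dtE_val (d : Fin 34) : (E (dtE E d)).1 = dt7 d.1 := by
  unfold dtE
  rw [E.apply_symm_apply]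
  exact Nat.mod_eq_of_lt (cov7 d.2).1

variable [Fintype κ] {m : CoxeterMatrix κ} {E}

theorem nbE (hE : ∀ i j, m i j = w7 (E i).1 (E j).1) (c : Fin 56) (t k : κ) :
    nb m (dvE E) (vtE E) c t k = nb7 c.1 (E t).1 (E k).1 := by
  unfold nb
  have h1 : ∑ j, cc m t j * dvE E (vtE E c j) k =
      ∑ j : Fin 7, cz (E t) j * dv7 (vt7 c.1 j.1) (E k).1 := by
    rw [← Equiv.sum_comp E]
    refine sum_congr rfl fun j _ => ?_
    unfold dvE
    rw [vtE_val]
    congr 1
    unfold cz
    by_cases htj : t = j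
    · rw [htj, cc_self, if_pos rfl]
    · rw [if_neg fun e => htj (E.injective e)]
      rcases w7_cases (E t).1 (E j).1 (fun e => htj (E.injective (Fin.ext e))) with h2 | h2
      · rw [cc_two ((hE t j).trans h2), if_neg (by rw [h2]; norm_num)]
      · rw [cc_three ((hE t j).trans h2), if_pos h2]
  rw [h1]
  have h2 := nb_sum (fun j => dv7 (vt7 c.1 j) (E k).1) (E t)
  unfold nb7
  unfold dvE
  rw [vtE_val]
  exact h2

theorem sd7 (hE : ∀ i j, m i j = w7 (E i).1 (E j).1) :
    Sd m (univ.filter fun k => (E k).1 < 6) (dvE E) (dtE E) (vtE E) (0 : Fin 56)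
      (fun c : Fin 56 => c.1) := by
  classical
  refine ⟨fun i => ?_, fun c i => ?_, fun c t => ?_, fun c h0 => ?_, fun d d' h => ?_, fun d => ?_,
    fun d s hs => ?_⟩
  · ext k
    unfold dvE
    rw [vtE_val]
    change dv7 (vt7 0 (E i).1) (E k).1 = _
    rw [base7 (E i).2 (E k).2]
    by_cases hik : i = k
    · rw [hik, om_self, if_pos rfl]
    · rw [om_ne hik, if_neg fun e => hik (E.injective (Fin.ext e))]
  · apply E.injective
    apply Fin.ext
    rw [dtE_val, vtE_val]
    exact (typ7 c.2 (E i).2).1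
  · rcases step7 c.2 (E t).2 with ⟨c', hc', h1, h2⟩ | ⟨s, hs, h1⟩
    · refine Or.inl ⟨⟨c', hc'⟩, fun i hi => ?_, ?_⟩
      · apply Fin.ext
        rw [vtE_val, vtE_val]
        exact h1 _ (E i).2 fun e => hi (E.injective (Fin.ext e))
      · ext k
        rw [nbE hE]
        unfold dvE
        rw [vtE_val]
        exact h2 _ (E k).2
    · refine Or.inr ⟨E.symm ⟨s, by omega⟩, ?_, ?_⟩
      · rw [mem_filter, E.apply_symm_apply]
        exact ⟨mem_univ _, hs⟩
      · rw [nbE hE, E.apply_symm_apply]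
        exact h1
  · obtain ⟨c', hc', t, ht, h1, h2⟩ := par7 c.2 (fun e => h0 (Fin.ext e))
    refine ⟨⟨c', by omega⟩, E.symm ⟨t, ht⟩, hc', fun i hi => ?_, ?_⟩
    · apply Fin.ext
      rw [vtE_val, vtE_val]
      refine h1 _ (E i).2 fun e => hi ?_
      rw [E.eq_symm_apply]
      exact Fin.ext e
    · ext k
      rw [nbE hE]
      unfold dvE
      rw [vtE_val, E.apply_symm_apply]
      exact h2 _ (E k).2
  · apply Fin.ext
    refine inj7 d.2 d'.2 fun k hk => ?_
    have h1 := congrFun h (E.symm ⟨k, hk⟩)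
    unfold dvE at h1
    rwa [E.apply_symm_apply] at h1
  · obtain ⟨-, c, hc, h1⟩ := cov7 d.2
    refine ⟨⟨c, hc⟩, ?_⟩
    apply Fin.ext
    rw [vtE_val, dtE_val]
    exact h1
  · rw [mem_filter] at hs
    exact nn7 d.2 hs.2

/-- The Coxeter complex of type E7. -/
theorem e7_zg (hf : Finite m.Group) (hE : ∀ i j, m i j = w7 (E i).1 (E j).1) [Fintype (Vx m)] :
    ZG (Xm m) univ := by
  classical
  have hSL : SL m := by
    intro s t hst
    rw [hE]
    exact w7_cases _ _ fun e => hst (E.injective (Fin.ext e))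
  obtain ⟨J, hJ⟩ : ∃ J : Finset κ, J = univ.filter fun k => (E k).1 < 6 := ⟨_, rfl⟩
  have hmJ : ∀ k, k ∈ J ↔ (E k).1 < 6 := by
    intro k
    rw [hJ, mem_filter]
    exact ⟨fun h => h.2, fun h => ⟨mem_univ _, h⟩⟩
  have hsJ : Sph m J := by
    unfold Sph
    exact Set.toFinite _
  have hsJ' : Sph (sub m J) univ := by
    rw [← sph_iff (M := m) (M' := sub m J) (Function.Embedding.subtype fun x => x ∈ J)
      (fun _ _ => rfl), map_univ_sub]
    exact hsJ
  have hW : Sph (QM []) (range 6) := by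
    have h1 : ∀ x y : {x // x ∈ J}, QM [] (E x.1).1 (E y.1).1 = sub m J x y := by
      intro x y
      rw [qm_apply, qf_wall ((hmJ _).1 x.2) ((hmJ _).1 y.2)]
      exact (hE x.1 y.1).symm
    have h2 := (sph_iff (M := QM []) (M' := sub m J) ⟨fun x => (E x.1).1, fun x y e =>
      Subtype.ext (E.injective (Fin.ext e))⟩ h1 univ).2 hsJ'
    convert h2 using 1
    ext x
    rw [mem_map, mem_range]
    constructor
    · intro hx
      refine ⟨⟨E.symm ⟨x, by omega⟩, ?_⟩, mem_univ _, ?_⟩
      · rw [hmJ, E.apply_symm_apply]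
        exact hx
      · change (E (E.symm ⟨x, _⟩)).1 = x
        rw [E.apply_symm_apply]
    · rintro ⟨y, -, rfl⟩
      exact (hmJ _).1 y.2
  have hS := sd7 hE
  rw [← hJ] at hS
  refine hS.zg hSL hf (fun d => univ.filter fun s => dvE E d s.1 = 0) (fun d s => ?_)
    (fun d d' => ∃ c, vtE E c (dtE E d) = d ∧ vtE E c (dtE E d') = d') (fun d d' => Iff.rfl) ?_
  · rw [mem_filter]
    exact ⟨fun h => h.2, fun h => ⟨mem_univ _, h⟩⟩
  · obtain ⟨kk, hkk⟩ : ∃ kk : Fin 34 → Finset {x // x ∈ J}, kk =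
      fun d => univ.filter fun s => dvE E d s.1 = 0 := ⟨_, rfl⟩
    obtain ⟨R, hR⟩ : ∃ R : Fin 34 → Fin 34 → Prop, R =
      fun d d' => ∃ c, vtE E c (dtE E d) = d ∧ vtE E c (dtE E d') = d' := ⟨_, rfl⟩
    rw [← hkk, ← hR]
    have hmk : ∀ d s, s ∈ kk d ↔ dv7 d.1 (E s.1).1 = 0 := by
      intro d s
      rw [hkk, mem_filter]
      exact ⟨fun h => h.2, fun h => ⟨mem_univ _, h⟩⟩
    have hRR : ∀ d d', R d d' ↔ (rowD d.1).testBit d'.1 = true := by
      intro d d'
      rw [rowD_iff d.2 d'.2, hR]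
      constructor
      · rintro ⟨c, h1, h2⟩
        refine ⟨c.1, c.2, ?_, ?_⟩
        · rw [← dtE_val E d, ← vtE_val, h1]
        · rw [← dtE_val E d', ← vtE_val, h2]
      · rintro ⟨c, hc, h1, h2⟩
        refine ⟨⟨c, hc⟩, ?_, ?_⟩
        · apply Fin.ext
          rw [vtE_val, dtE_val]
          exact h1
        · apply Fin.ext
          rw [vtE_val, dtE_val]
          exact h2
    have h1 := chk_sound hW _ _ _ cert_ok
    refine (zg_image (G := Nj (sub m J) kk R) (G' := QM L0) (S := univ)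
      (Sum.elim (fun s => (E s.1).1) fun d => 6 + d.1) ?_ ?_).2 ?_
    · intro u _ v _ huv
      rcases u with x | d <;> rcases v with y | d'
      · change (E x.1).1 = (E y.1).1 at huv
        rw [Subtype.ext (E.injective (Fin.ext huv))]
      · change (E x.1).1 = 6 + d'.1 at huv
        have := (hmJ _).1 x.2
        omega
      · change 6 + d.1 = (E y.1).1 at huv
        have := (hmJ _).1 y.2
        omega
      · change 6 + d.1 = 6 + d'.1 at huv
        rw [Fin.ext (by omega : d.1 = d'.1)]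
    · have hlr : ∀ (x : {x // x ∈ J}) (d : Fin 34), qf L0 (E x.1).1 (6 + d.1) =
          Nj (sub m J) kk R (Sum.inl x) (Sum.inr d) := by
        intro x d
        rw [wall7 d.2 ((hmJ _).1 x.2)]
        by_cases h0 : dv7 d.1 (E x.1).1 = 0
        · rw [if_pos h0, nj_lr ((hmk _ _).2 h0)]
        · rw [if_neg h0, nj_lr0 fun h => h0 ((hmk _ _).1 h)]
      intro u _ v _
      rcases u with x | d <;> rcases v with y | d'
      · change qf L0 (E x.1).1 (E y.1).1 = m x.1 y.1
        rw [qf_wall ((hmJ _).1 x.2) ((hmJ _).1 y.2), hE]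
      · exact hlr x d'
      · change qf L0 (6 + d.1) (E y.1).1 = _
        rw [qf_comm, (Nj (sub m J) kk R).symmetric]
        exact hlr y d
      · change qf L0 (6 + d.1) (6 + d'.1) = _
        by_cases hdd : d = d'
        · rw [hdd, qf_self, (Nj (sub m J) kk R).diagonal]
        · rw [row7 d.2 d'.2 fun e => hdd (Fin.ext e)]
          by_cases h2 : (rowD d.1).testBit d'.1 = true
          · rw [if_pos h2, nj_rr hdd (Or.inl ((hRR _ _).2 h2))]
          · rw [if_neg h2, nj_rr0 hdd]
            rintro (h3 | h3)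
            · exact h2 ((hRR _ _).1 h3)
            · refine h2 ((hRR _ _).1 ?_)
              rw [hR] at h3 ⊢
              obtain ⟨c, h4, h5⟩ := h3
              exact ⟨c, h5, h4⟩
    · convert h1 using 1
      have hbits : ∀ x < 40, Nat.testBit 1099511627775 x = true := by decide +kernel
      ext x
      rw [mem_image, mem_fs]
      constructor
      · rintro ⟨u, -, rfl⟩
        rcases u with y | d
        · have := (hmJ _).1 y.2
          have h2 : (E y.1).1 < 40 := by omega
          exact ⟨h2, hbits _ h2⟩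
        · have := d.2
          have h2 : 6 + d.1 < 40 := by omega
          exact ⟨h2, hbits _ h2⟩
      · rintro ⟨hx, -⟩
        by_cases h2 : x < 6
        · refine ⟨Sum.inl ⟨E.symm ⟨x, by omega⟩, ?_⟩, mem_univ _, ?_⟩
          · rw [hmJ, E.apply_symm_apply]
            exact h2
          · change (E (E.symm ⟨x, _⟩)).1 = x
            rw [E.apply_symm_apply]
        · exact ⟨Sum.inr ⟨x - 6, by omega⟩, mem_univ _, by
            change 6 + (x - 6) = x
            omega⟩

end inst

end E7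

end LBL
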