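import Pool.Agent.LBL.Cos

/-!
# Project LBL (architect helper40), module Exc: the exchange condition and shortest coset elements
-/

namespace LBL

open SCG

variable {V : Type} {M : CoxeterMatrix V}

theorem wp_reverse (η : List V) : wp M η.reverse = (wp M η)⁻¹ :=
  M.toCoxeterSystem.wordProd_reverse η

theorem eraseIdx_rev (η : List V) {p : ℕ} (hp : p < η.length) :
    η.reverse.eraseIdx p = (η.eraseIdx (η.length - p - 1)).reverse := by
  rw [List.eraseIdx_eq_take_drop_succ, List.eraseIdx_eq_take_drop_succ, List.reverse_append,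
    List.take_reverse, List.drop_reverse]
  congr 2
  · congr 1
    omega

/-- The exchange condition on the right. -/
theorem exch_right {η : List V} {s : V} (h : ln M (wp M η * gn M s) < ln M (wp M η)) :
    ∃ p, p < η.length ∧ wp M η * gn M s = wp M (η.eraseIdx p) := by
  obtain ⟨p, hp, hex⟩ := exchange M.toCoxeterSystem (ω := η.reverse) (i := s) (by
    change ln M (gn M s * wp M η.reverse) < ln M (wp M η.reverse)
    rw [wp_reverse, ln_inv, ← ln_inv (gn M s * (wp M η)⁻¹), mul_inv_rev, inv_inv, gn_inv]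
    exact h)
  change gn M s * wp M η.reverse = wp M (η.reverse.eraseIdx p) at hex
  rw [List.length_reverse] at hp
  refine ⟨η.length - p - 1, by omega, ?_⟩
  rw [eraseIdx_rev η hp, wp_reverse, wp_reverse] at hex
  have h1 : wp M η * gn M s = (gn M s * (wp M η)⁻¹)⁻¹ := by
    rw [mul_inv_rev, inv_inv, gn_inv]
  rw [h1, hex, inv_inv]

/-- The exchange condition for a reduced product. -/
theorem exch_two {a b : M.Group} {s : V}
    (hs : ln M (a * b * gn M s) < ln M (a * b)) :
    ln M (b * gn M s) < ln M b ∨ (ln M (a * (b * gn M s * b⁻¹)) < ln M a ∧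
      ∀ Z : Set V, a ∈ WT M Z → a * (b * gn M s * b⁻¹) ∈ WT M Z) := by
  obtain ⟨ηa, ha, hla⟩ := exists_red a
  obtain ⟨ηb, hb, hlb⟩ := exists_red b
  have h1 : wp M (ηa ++ ηb) = a * b := by rw [wp_append, ha, hb]
  obtain ⟨p, hp, hex⟩ := exch_right (M := M) (η := ηa ++ ηb) (s := s) (by rw [h1]; exact hs)
  rw [h1] at hex
  rw [List.length_append] at hp
  by_cases hpl : p < ηa.length
  · right
    rw [List.eraseIdx_append_of_lt_length hpl, wp_append, hb] at hex
    have h2 : a * (b * gn M s * b⁻¹) = wp M (ηa.eraseIdx p) := by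
      calc a * (b * gn M s * b⁻¹) = a * b * gn M s * b⁻¹ := by group
        _ = _ := by rw [hex, mul_inv_cancel_right]
    constructor
    · rw [h2]
      have h3 := ln_wp_le (M := M) (ηa.eraseIdx p)
      rw [List.length_eraseIdx_of_lt hpl] at h3
      omega
    · intro Z hZ
      rw [h2]
      refine wp_mem fun t ht => ?_
      rw [← ha] at hZ
      exact red_word ηa hZ (by rw [ha]; exact hla) t (List.mem_of_mem_eraseIdx ht)
  · left
    rw [List.eraseIdx_append_of_length_le (not_lt.1 hpl), wp_append, ha, mul_assoc] at hex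
    have h2 := mul_left_cancel hex
    rw [h2]
    have h3 := ln_wp_le (M := M) (ηb.eraseIdx (p - ηa.length))
    rw [List.length_eraseIdx_of_lt (by omega)] at h3
    omega

/-- Multiplication by a letter that is not in `Y` makes the shortest coset element longer. -/
theorem mn_up {Y : Set V} {x : M.Group} {s : V} (hs : s ∉ Y) (h : ln M x < ln M (x * gn M s)) :
    ln M (mn M Y x) < ln M (mn M Y (x * gn M s)) := by
  obtain ⟨y, hy⟩ : ∃ y, y = mn M Y (x * gn M s) := ⟨_, rfl⟩
  obtain ⟨u, hu⟩ : ∃ u, u = y⁻¹ * (x * gn M s) := ⟨_, rfl⟩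
  have hu1 : u ∈ WT M Y := by
    rw [hu, hy]
    exact mn_mem' Y _
  have hyu : y * u = x * gn M s := by
    rw [hu, mul_inv_cancel_left]
  have hxs : y * u * gn M s = x := by
    rw [hyu, mul_assoc, gn_mul_self, mul_one]
  rw [← hy]
  rcases exch_two (a := y) (b := u) (s := s) (by rw [hxs, hyu]; exact h) with h1 | ⟨h1, -⟩
  · exfalso
    apply hs
    rw [← gn_mem_iff (M := M) (Y := Y)]
    refine (mem_of_red (p := u * gn M s) (y := gn M s) ?_ ?_).2
    · rw [mul_assoc, gn_mul_self, mul_one]
      exact hu1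
    · rw [mul_assoc, gn_mul_self, mul_one, ln_gn]
      rcases ln_mul_gn u s with h2 | h2
      · omega
      · exact h2.symm
  · have h2 : mn M Y x = mn M Y (y * (u * gn M s * u⁻¹)) := by
      apply mn_congr
      have h3 : x⁻¹ * (y * (u * gn M s * u⁻¹)) = u⁻¹ := by
        calc x⁻¹ * (y * (u * gn M s * u⁻¹)) = x⁻¹ * (y * u * gn M s) * u⁻¹ := by group
          _ = _ := by rw [hxs, inv_mul_cancel, one_mul]
      rw [h3]
      exact inv_mem hu1
    rw [h2]
    exact (mn_le Y _).trans_lt h1

theorem mn_mono {Y : Set V} {x : M.Group} {s : V} (h : ln M x < ln M (x * gn M s)) :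
    ln M (mn M Y x) ≤ ln M (mn M Y (x * gn M s)) := by
  by_cases hs : s ∈ Y
  · rw [mn_mul x (gn_mem hs)]
  · exact (mn_up hs h).le

/-- The shortest elements along a reduced product. -/
theorem mn_path {Y B : Set V} {p : M.Group}
    (hp : ∀ y ∈ WT M B, ln M (p * y) = ln M p + ln M y) :
    ∀ η : List V, (∀ s ∈ η, s ∈ B) → η.length = ln M (wp M η) →
      ln M (mn M Y p) ≤ ln M (mn M Y (p * wp M η)) ∧
      (ln M (mn M Y (p * wp M η)) ≤ ln M (mn M Y p) → wp M η ∈ WT M Y) := by
  intro η
  induction η using List.reverseRecOn with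
  | nil =>
    intro _ _
    rw [wp_nil, mul_one]
    exact ⟨le_rfl, fun _ => one_mem _⟩
  | append_singleton η s ih =>
    intro hB hl
    have hB' : ∀ t ∈ η, t ∈ B := fun t ht => hB t (List.mem_append_left _ ht)
    have hs : s ∈ B := hB s (List.mem_append_right _ List.mem_cons_self)
    have e1 : wp M (η ++ [s]) = wp M η * gn M s := by
      rw [wp_append, wp_cons, wp_nil, mul_one]
    rw [List.length_append, List.length_singleton, e1] at hl
    have hl1 := ln_wp_le (M := M) η
    have hl2 := ln_mul_gn (wp M η) s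
    have hl' : η.length = ln M (wp M η) := by omega
    obtain ⟨h1, h2⟩ := ih hB' hl'
    have h3 : ln M (p * wp M η) < ln M (p * wp M η * gn M s) := by
      rw [mul_assoc, hp _ (wp_mem hB'), hp _ (mul_mem (wp_mem hB') (gn_mem hs))]
      omega
    rw [e1, ← mul_assoc]
    by_cases hsY : s ∈ Y
    · rw [mn_mul (p * wp M η) (gn_mem hsY)]
      exact ⟨h1, fun h4 => mul_mem (h2 h4) (gn_mem hsY)⟩
    · have h5 := mn_up hsY h3
      exact ⟨by omega, fun h6 => by omega⟩

theorem mn_path' {Y B : Set V} {p w : M.Group}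
    (hp : ∀ y ∈ WT M B, ln M (p * y) = ln M p + ln M y) (hw : w ∈ WT M B)
    (h : ln M (mn M Y (p * w)) ≤ ln M (mn M Y p)) : w ∈ WT M Y := by
  obtain ⟨η, h1, h2, h3⟩ := exists_red_word hw
  rw [← h2]
  refine (mn_path hp η h1 (by rw [h2]; exact h3)).2 ?_
  rw [h2]
  exact h

end LBL
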