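import Pool.Agent.LBL.Cos
import Pool.Agent.LBL.Sg

/-!
# Project LBL (architect helper40), module FinEx: the cellular chains of the Coxeter polytope of a finite
Coxeter group are exact in positive degrees

`AltC N p f`: `f` is a cellular `p`-chain (function of `(Y, g)` with `|Y| = p`, `f (Y, g s) = - f (Y, g)`,
`s ∈ Y`).
-/

namespace LBL

open SCG SNG Finset

variable {κ : Type} {N : CoxeterMatrix κ}

/-- cellular `p`-chains -/
def AltC (N : CoxeterMatrix κ) (p : ℕ) (f : Finset κ → N.Group → ℝ) : Prop :=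
  (∀ Y : Finset κ, Y.card ≠ p → ∀ g, f Y g = 0) ∧
    ∀ Y : Finset κ, ∀ s ∈ Y, ∀ g, f Y (g * gn N s) = - f Y g

theorem AltC.zero_of {p : ℕ} {f : Finset κ → N.Group → ℝ} (h : AltC N p f) {Y : Finset κ}
    {u : N.Group} (hu : f Y u = 0) {x : N.Group} (hx : x ∈ WT N (Y : Set κ)) : f Y (u * x) = 0 := by
  obtain ⟨η, h1, rfl⟩ := exists_word hx
  clear hx
  induction η generalizing u with
  | nil => rw [wp_nil, mul_one, hu]
  | cons s η ih =>
    rw [wp_cons, ← mul_assoc]
    refine ih (u := u * gn N s) ?_ fun t ht => h1 t (List.mem_cons_of_mem _ ht)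
    rw [h.2 Y s (h1 s List.mem_cons_self), hu, neg_zero]

theorem AltC.sub {p : ℕ} {f h : Finset κ → N.Group → ℝ} (hf : AltC N p f) (hh : AltC N p h) :
    AltC N p fun Y g => f Y g - h Y g := by
  refine ⟨fun Y hY g => ?_, fun Y s hs g => ?_⟩
  · change f Y g - h Y g = 0
    rw [hf.1 Y hY, hh.1 Y hY, sub_zero]
  · change f Y (g * gn N s) - h Y (g * gn N s) = - (f Y g - h Y g)
    rw [hf.2 Y s hs, hh.2 Y s hs]
    ring

theorem AltC.add {p : ℕ} {f h : Finset κ → N.Group → ℝ} (hf : AltC N p f) (hh : AltC N p h) :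
    AltC N p fun Y g => f Y g + h Y g := by
  refine ⟨fun Y hY g => ?_, fun Y s hs g => ?_⟩
  · change f Y g + h Y g = 0
    rw [hf.1 Y hY, hh.1 Y hY, add_zero]
  · change f Y (g * gn N s) + h Y (g * gn N s) = - (f Y g + h Y g)
    rw [hf.2 Y s hs, hh.2 Y s hs]
    ring

variable [Fintype κ] [LinearOrder κ]

theorem AltC.bdry {p : ℕ} {f : Finset κ → N.Group → ℝ} (hf : AltC N (p + 1) f) :
    AltC N p fun Y g => SNG.bdry f Y g := by
  refine ⟨fun Y hY g => ?_, fun Y s hs g => ?_⟩
  · unfold SNG.bdry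
    refine Finset.sum_eq_zero fun s hs => ?_
    have hs' : s ∉ Y := by simpa using hs
    rw [hf.1, mul_zero]
    rw [Finset.card_insert_of_notMem hs']
    intro h
    exact hY (by omega)
  · change SNG.bdry f Y (g * gn N s) = - SNG.bdry f Y g
    unfold SNG.bdry
    rw [← Finset.sum_neg_distrib]
    refine Finset.sum_congr rfl fun t _ => ?_
    rw [hf.2 (insert t Y) s (Finset.mem_insert_of_mem hs)]
    ring

/-- The chain filling the cells whose shortest vertex has length `n`. -/
noncomputable def bch (N : CoxeterMatrix κ) (n : ℕ) (s₀ : N.Group → κ) (f : Finset κ → N.Group → ℝ)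
    (Y : Finset κ) (g : N.Group) : ℝ :=
  if ln N (mn N (Y : Set κ) g) = n ∧ s₀ (mn N (Y : Set κ) g) ∈ Y then
    (-1) ^ (ln N g + n) * (sg (Y.erase (s₀ (mn N (Y : Set κ) g))) (s₀ (mn N (Y : Set κ) g)) *
      f (Y.erase (s₀ (mn N (Y : Set κ) g))) (mn N (Y : Set κ) g)) else 0

omit [Fintype κ] in
theorem bch_alt {n p : ℕ} {s₀ : N.Group → κ} {f : Finset κ → N.Group → ℝ} (hf : AltC N p f) :
    AltC N (p + 1) (bch N n s₀ f) := by
  refine ⟨fun Y hY g => ?_, fun Y s hs g => ?_⟩
  · unfold bch
    split_ifs with h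
    · rw [hf.1, mul_zero, mul_zero]
      rw [Finset.card_erase_of_mem h.2]
      intro h1
      have h2 := Finset.card_pos.2 ⟨_, h.2⟩
      omega
    · rfl
  · unfold bch
    rw [mn_mul g (gn_mem (M := N) (s := s) (Y := (Y : Set κ)) hs)]
    split_ifs with h
    · have h1 : ((-1 : ℝ)) ^ (ln N (g * gn N s) + n) = - (-1) ^ (ln N g + n) := by
        rcases ln_mul_gn g s with h1 | h1
        · rw [h1, add_right_comm, pow_succ]
          ring
        · rw [← h1, add_right_comm, pow_succ]
          ring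
      rw [h1]
      ring
    · rw [neg_zero]

theorem step {n p : ℕ} {s₀ : N.Group → κ}
    (hs₀ : ∀ u, (∃ s, ln N u < ln N (u * gn N s)) → ln N u < ln N (u * gn N (s₀ u)))
    {f : Finset κ → N.Group → ℝ} (hp : 1 ≤ p) (hf : AltC N p f) (hb : ∀ Y g, SNG.bdry f Y g = 0)
    (hc : ∀ (Y : Finset κ) g, ln N (mn N (Y : Set κ) g) < n → f Y g = 0) (Y : Finset κ)
    (g : N.Group) (hg : ln N (mn N (Y : Set κ) g) < n + 1) :
    f Y g - SNG.bdry (bch N n s₀ f) Y g = 0 := by
  have halt : AltC N p fun Y g => f Y g - SNG.bdry (bch N n s₀ f) Y g :=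
    hf.sub (bch_alt hf).bdry
  by_cases hY : Y.card = p
  swap
  · exact halt.1 Y hY g
  obtain ⟨u, hu⟩ : ∃ u, u = mn N (Y : Set κ) g := ⟨_, rfl⟩
  have hgu : g = u * (u⁻¹ * g) := by rw [mul_inv_cancel_left]
  rw [hgu]
  refine halt.zero_of (u := u) (x := u⁻¹ * g) ?_ (by rw [hu]; exact mn_mem' _ _)
  change f Y u - SNG.bdry (bch N n s₀ f) Y u = 0
  rw [← hu] at hg
  have hmu : mn N (Y : Set κ) u = u := by rw [hu, mn_mn]
  have hbig : ∀ s, ln N (mn N ((insert s Y : Finset κ) : Set κ) u) ≤ ln N u := fun s => mn_le _ _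
  rcases Nat.lt_succ_iff_lt_or_eq.1 hg with h | h
  · have h1 : f Y u = 0 := hc Y u (by rw [hmu]; exact h)
    rw [h1, zero_sub, neg_eq_zero]
    unfold SNG.bdry
    refine Finset.sum_eq_zero fun s _ => ?_
    unfold bch
    rw [if_neg, mul_zero]
    rintro ⟨h2, -⟩
    have h3 := hbig s
    omega
  · have hout : ∀ t ∈ Y, ln N u < ln N (u * gn N t) := by
      intro t ht
      have h1 := mn_out (M := N) (Y := (Y : Set κ)) g ht
      rwa [← hu] at h1
    obtain ⟨t₀, ht₀⟩ : Y.Nonempty := Finset.card_pos.1 (by omega)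
    have hs := hs₀ u ⟨t₀, hout t₀ ht₀⟩
    obtain ⟨s₁, hs₁⟩ : ∃ s₁, s₁ = s₀ u := ⟨_, rfl⟩
    rw [← hs₁] at hs
    -- the values of the chain
    have hin : ∀ s, ln N (u * gn N s) < ln N u → ∀ T : Finset κ, s ∈ T →
        ln N (mn N (T : Set κ) u) < n := by
      intro s h1 T hT
      rw [← h]
      exact mn_lt (Y := (T : Set κ)) hT h1
    have hv1 : ∀ s, ln N (u * gn N s) < ln N u → bch N n s₀ f (insert s Y) u = 0 := by
      intro s h1
      unfold bch
      rw [if_neg]
      rintro ⟨h2, -⟩
      have h3 := hin s h1 (insert s Y) (Finset.mem_insert_self _ _)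
      omega
    have hms : ∀ s, ln N u < ln N (u * gn N s) →
        mn N ((insert s Y : Finset κ) : Set κ) u = u := by
      intro s h1
      refine mn_self fun t ht => ?_
      rw [Finset.coe_insert] at ht
      rcases Set.mem_insert_iff.1 ht with rfl | ht
      · exact h1
      · exact hout t ht
    have hv2 : ∀ s, ln N u < ln N (u * gn N s) → s₁ ∈ insert s Y →
        bch N n s₀ f (insert s Y) u =
          sg ((insert s Y).erase s₁) s₁ * f ((insert s Y).erase s₁) u := by
      intro s h1 h2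
      unfold bch
      rw [hms s h1, ← hs₁, if_pos ⟨h, h2⟩, h, Even.neg_one_pow ⟨n, rfl⟩, one_mul]
    have hv3 : ∀ s, ln N u < ln N (u * gn N s) → s₁ ∉ insert s Y →
        bch N n s₀ f (insert s Y) u = 0 := by
      intro s h1 h2
      unfold bch
      rw [hms s h1, ← hs₁, if_neg]
      exact fun h3 => h2 h3.2
    rw [sub_eq_zero]
    by_cases h1 : s₁ ∈ Y
    · obtain ⟨Y₀, hY₀⟩ : ∃ Y₀, Y₀ = Y.erase s₁ := ⟨_, rfl⟩
      have h2 : s₁ ∉ Y₀ := by
        rw [hY₀]
        exact Finset.notMem_erase _ _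
      have h3 : insert s₁ Y₀ = Y := by
        rw [hY₀]
        exact Finset.insert_erase h1
      have h4 := hb Y₀ u
      unfold SNG.bdry at h4 ⊢
      have h5 : Y₀ᶜ = insert s₁ Yᶜ := by
        rw [← h3]
        ext x
        simp only [Finset.mem_compl, Finset.mem_insert]
        constructor
        · intro h6
          by_cases h7 : x = s₁
          · exact Or.inl h7
          · exact Or.inr fun h8 => h8.elim h7 h6
        · rintro (rfl | h6)
          · exact h2
          · exact fun h7 => h6 (Or.inr h7)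
      rw [h5, Finset.sum_insert (by simpa using h1), h3] at h4
      have h6 : ∑ s ∈ Yᶜ, sg Y s * bch N n s₀ f (insert s Y) u =
          - sg Y₀ s₁ * ∑ s ∈ Yᶜ, sg Y₀ s * f (insert s Y₀) u := by
        rw [Finset.mul_sum]
        refine Finset.sum_congr rfl fun s hs' => ?_
        have h7 : s ∉ Y := by simpa using hs'
        have h8 : s ≠ s₁ := by
          rintro rfl
          exact h7 h1
        have h9 : s ∉ Y₀ := by
          rw [hY₀]
          exact fun h10 => h7 (Finset.mem_of_mem_erase h10)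
        rcases ln_mul_gn u s with h10 | h10
        · rw [hv2 s (by omega) (Finset.mem_insert_of_mem h1)]
          have h11 : (insert s Y).erase s₁ = insert s Y₀ := by
            rw [hY₀, Finset.erase_insert_of_ne h8]
          rw [h11]
          have h12 := sg_swap h9 h2 h8
          rw [h3] at h12
          have h13 : sg Y s * sg (insert s Y₀) s₁ = - sg Y₀ s₁ * sg Y₀ s := by
            calc sg Y s * sg (insert s Y₀) s₁
                = sg Y s * ((sg Y₀ s * sg Y₀ s) * sg (insert s Y₀) s₁) := by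
                  rw [sg_sq, one_mul]
              _ = sg Y s * sg Y₀ s * (sg Y₀ s * sg (insert s Y₀) s₁) := by ring
              _ = - sg Y₀ s₁ * sg Y₀ s * (sg Y s * sg Y s) := by
                  rw [h12]
                  ring
              _ = _ := by rw [sg_sq, mul_one]
          calc sg Y s * (sg (insert s Y₀) s₁ * f (insert s Y₀) u)
              = sg Y s * sg (insert s Y₀) s₁ * f (insert s Y₀) u := by ring
            _ = _ := by
                rw [h13]
                ring
        · rw [hv1 s (by omega), hc (insert s Y₀) u (hin s (by omega) _ (Finset.mem_insert_self _ _))]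
          ring
      rw [h6]
      have h7 : ∑ s ∈ Yᶜ, sg Y₀ s * f (insert s Y₀) u = - (sg Y₀ s₁ * f Y u) := by linarith
      rw [h7]
      have h8 := sg_sq Y₀ s₁
      calc f Y u = (sg Y₀ s₁ * sg Y₀ s₁) * f Y u := by rw [h8, one_mul]
        _ = _ := by ring
    · unfold SNG.bdry
      rw [Finset.sum_eq_single_of_mem s₁ (by simpa using h1)]
      · rw [hv2 s₁ hs (Finset.mem_insert_self _ _), Finset.erase_insert h1, ← mul_assoc, sg_sq,
          one_mul]
      · intro s hs' hne
        rcases ln_mul_gn u s with h10 | h10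
        · rw [hv3 s (by omega), mul_zero]
          intro h11
          rcases Finset.mem_insert.1 h11 with h12 | h12
          · exact hne h12.symm
          · exact h1 h12
        · rw [hv1 s (by omega), mul_zero]

/-- Exactness in positive degrees. -/
theorem finex [Finite N.Group] {p : ℕ} (hp : 1 ≤ p) {f : Finset κ → N.Group → ℝ} (hf : AltC N p f)
    (hb : ∀ Y g, SNG.bdry f Y g = 0) : ∃ h, AltC N (p + 1) h ∧ ∀ Y g, SNG.bdry h Y g = f Y g := by
  classical
  by_cases hκ : Nonempty κ
  swap
  · refine ⟨fun _ _ => 0, ⟨fun _ _ _ => rfl, fun _ _ _ _ => neg_zero.symm⟩, fun Y g => ?_⟩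
    rw [bdry_zero]
    refine (hf.1 Y ?_ g).symm
    have h2 : Y = ∅ := by
      ext x
      exact absurd ⟨x⟩ hκ
    rw [h2, Finset.card_empty]
    omega
  obtain ⟨s₀, hs₀⟩ : ∃ s₀ : N.Group → κ, ∀ u, (∃ s, ln N u < ln N (u * gn N s)) →
      ln N u < ln N (u * gn N (s₀ u)) := by
    have h1 : ∀ u : N.Group, ∃ t : κ, (∃ s, ln N u < ln N (u * gn N s)) →
        ln N u < ln N (u * gn N t) := by
      intro u
      by_cases h2 : ∃ s, ln N u < ln N (u * gn N s)
      · obtain ⟨s, hs⟩ := h2
        exact ⟨s, fun _ => hs⟩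
      · exact ⟨hκ.some, fun h3 => absurd h3 h2⟩
    choose s₀ hs₀ using h1
    exact ⟨s₀, hs₀⟩
  obtain ⟨B, hB⟩ : ∃ B, ∀ g : N.Group, ln N g < B := by
    obtain ⟨B, hB⟩ := (Set.finite_range (ln N)).bddAbove
    exact ⟨B + 1, fun g => Nat.lt_succ_of_le (hB ⟨g, rfl⟩)⟩
  have key : ∀ k n : ℕ, k + n = B → ∀ f : Finset κ → N.Group → ℝ, AltC N p f →
      (∀ Y g, SNG.bdry f Y g = 0) →
      (∀ (Y : Finset κ) g, ln N (mn N (Y : Set κ) g) < n → f Y g = 0) →
      ∃ h, AltC N (p + 1) h ∧ ∀ Y g, SNG.bdry h Y g = f Y g := by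
    intro k
    induction k with
    | zero =>
      intro n hn f hf _ hc
      refine ⟨fun _ _ => 0, ⟨fun _ _ _ => rfl, fun _ _ _ _ => neg_zero.symm⟩, fun Y g => ?_⟩
      rw [bdry_zero]
      refine (hc Y g ?_).symm
      have h1 := hB (mn N (Y : Set κ) g)
      omega
    | succ k ih =>
      intro n hn f hf hb hc
      obtain ⟨h, h1, h2⟩ := ih (n + 1) (by omega)
        (fun Y g => f Y g - SNG.bdry (bch N n s₀ f) Y g) (hf.sub (bch_alt hf).bdry)
        (fun Y g => by rw [bdry_sub, hb, bdry_bdry, sub_zero])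
        (fun Y g hg => step hs₀ hp hf hb hc Y g hg)
      refine ⟨fun Y g => h Y g + bch N n s₀ f Y g, h1.add (bch_alt hf), fun Y g => ?_⟩
      rw [bdry_add, h2]
      ring
  exact key B 0 (add_zero B) f hf hb fun Y g hg => absurd hg (Nat.not_lt_zero _)

/-- Exactness in degree zero. -/
theorem finex0 [Fintype N.Group] {f : Finset κ → N.Group → ℝ} (hf : AltC N 0 f)
    (h0 : ∑ g, f ∅ g = 0) : ∃ h, AltC N 1 h ∧ ∀ Y g, SNG.bdry h Y g = f Y g := by
  classical
  -- the chains `e g`: `1` at the vertex `g`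
  let e : N.Group → Finset κ → N.Group → ℝ := fun g Y x => if Y = ∅ ∧ x = g then 1 else 0
  have he : ∀ g Y x, e g Y x = if Y = ∅ ∧ x = g then 1 else 0 := fun _ _ _ => rfl
  -- differences of neighbours
  have h1 : ∀ g s, ∃ h, AltC N 1 h ∧ ∀ Y x, SNG.bdry h Y x = e g Y x - e (g * gn N s) Y x := by
    intro g s
    obtain ⟨d, hd⟩ : ∃ d : Finset κ → N.Group → ℝ, ∀ Y x, d Y x = if Y = {s} then
      (if x = g then 1 else 0) - (if x = g * gn N s then 1 else 0) else 0 := ⟨_, fun _ _ => rfl⟩
    refine ⟨d, ⟨?_, ?_⟩, ?_⟩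
    · intro Y hY x
      rw [hd, if_neg]
      rintro rfl
      exact hY (Finset.card_singleton s)
    · intro Y t ht x
      rw [hd, hd]
      by_cases hY : Y = {s}
      · rw [if_pos hY, if_pos hY]
        rw [hY, Finset.mem_singleton] at ht
        subst ht
        have h2 : x * gn N t = g ↔ x = g * gn N t := by
          constructor
          · rintro rfl
            rw [mul_assoc, gn_mul_self, mul_one]
          · rintro rfl
            rw [mul_assoc, gn_mul_self, mul_one]
        have h3 : x * gn N t = g * gn N t ↔ x = g := mul_left_inj _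
        simp only [h2, h3]
        ring
      · rw [if_neg hY, if_neg hY, neg_zero]
    · intro Y x
      unfold SNG.bdry
      rw [he, he]
      by_cases hY : Y = ∅
      · subst hY
        rw [Finset.sum_eq_single_of_mem s (by simp)]
        · have h2 : sg (∅ : Finset κ) s = 1 := by
            unfold sg
            simp
          rw [h2, one_mul, hd, if_pos (by simp)]
          simp
        · intro t _ hts
          rw [hd, if_neg, mul_zero]
          intro h2
          have h3 : t ∈ ({s} : Finset κ) := by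
            rw [← h2]
            exact Finset.mem_insert_self _ _
          exact hts (Finset.mem_singleton.1 h3)
      · rw [if_neg fun h2 => hY h2.1, if_neg fun h2 => hY h2.1, sub_zero]
        refine Finset.sum_eq_zero fun t ht => ?_
        have ht' : t ∉ Y := by simpa using ht
        rw [hd, if_neg, mul_zero]
        intro h2
        obtain ⟨y, hy⟩ := Finset.nonempty_iff_ne_empty.2 hY
        have h3 : y ∈ ({s} : Finset κ) := by
          rw [← h2]
          exact Finset.mem_insert_of_mem hy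
        have h4 : t ∈ ({s} : Finset κ) := by
          rw [← h2]
          exact Finset.mem_insert_self _ _
        rw [Finset.mem_singleton] at h3 h4
        rw [h4, ← h3] at ht'
        exact ht' hy
  -- differences of all pairs
  have h2 : ∀ g, ∃ h, AltC N 1 h ∧ ∀ Y x, SNG.bdry h Y x = e g Y x - e 1 Y x := by
    intro g
    obtain ⟨η, rfl, -⟩ := exists_red g
    induction η using List.reverseRecOn with
    | nil =>
      refine ⟨fun _ _ => 0, ⟨fun _ _ _ => rfl, fun _ _ _ _ => neg_zero.symm⟩, fun Y g => ?_⟩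
      rw [bdry_zero, wp_nil, sub_self]
    | append_singleton η s ih =>
      obtain ⟨h, h3, h4⟩ := ih
      obtain ⟨h', h5, h6⟩ := h1 (wp N η) s
      refine ⟨fun Y x => h Y x - h' Y x, h3.sub h5, fun Y x => ?_⟩
      rw [bdry_sub, h4, h6, wp_append, wp_cons, wp_nil, mul_one]
      ring
  choose h h3 h4 using h2
  refine ⟨fun Y x => ∑ g, f ∅ g * h g Y x, ⟨fun Y hY x => ?_, fun Y s hs x => ?_⟩, fun Y x => ?_⟩
  · exact Finset.sum_eq_zero fun g _ => by rw [(h3 g).1 Y hY, mul_zero]
  · change ∑ g, f ∅ g * h g Y (x * gn N s) = - ∑ g, f ∅ g * h g Y x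
    rw [← Finset.sum_neg_distrib]
    refine Finset.sum_congr rfl fun g _ => ?_
    rw [(h3 g).2 Y s hs]
    ring
  · have h5 : SNG.bdry (fun Y x => ∑ g, f ∅ g * h g Y x) Y x =
        ∑ g, f ∅ g * SNG.bdry (h g) Y x := by
      unfold SNG.bdry
      simp only [Finset.mul_sum]
      rw [Finset.sum_comm]
      refine Finset.sum_congr rfl fun g _ => Finset.sum_congr rfl fun s _ => ?_
      ring
    rw [h5]
    simp only [h4, mul_sub, Finset.sum_sub_distrib]
    rw [← Finset.sum_mul, h0, zero_mul, sub_zero]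
    simp only [he]
    by_cases hY : Y = ∅
    · subst hY
      simp
    · simp only [hY, false_and, if_false, mul_zero, Finset.sum_const_zero]
      refine (hf.1 Y ?_ x).symm
      intro h6
      exact hY (Finset.card_eq_zero.1 h6)

end LBL
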