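import Pool.Agent.SCG.Geo

/-!
# Project LBL (architect helper40), module Frm: the form of a finite Coxeter group is positive definite
-/

namespace LBL

open SCG Finset

variable {κ : Type} [Fintype κ] {m : CoxeterMatrix κ}

/-- the standard inner product -/
noncomputable def b0 (u v : κ →₀ ℝ) : ℝ := ∑ s, u s * v s

/-- the averaged inner product -/
noncomputable def ip (m : CoxeterMatrix κ) [Fintype m.Group] (u v : κ →₀ ℝ) : ℝ :=
  ∑ g : m.Group, b0 (geo m g u) (geo m g v)

section

variable [Fintype m.Group]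

theorem ip_add (u u' v : κ →₀ ℝ) : ip m (u + u') v = ip m u v + ip m u' v := by
  unfold ip
  rw [← sum_add_distrib]
  refine sum_congr rfl fun g _ => ?_
  unfold b0
  rw [← sum_add_distrib]
  refine sum_congr rfl fun s _ => ?_
  rw [map_add, Finsupp.add_apply]
  ring

theorem ip_smul (c : ℝ) (u v : κ →₀ ℝ) : ip m (c • u) v = c * ip m u v := by
  unfold ip
  rw [mul_sum]
  refine sum_congr rfl fun g _ => ?_
  unfold b0
  rw [mul_sum]
  refine sum_congr rfl fun s _ => ?_
  rw [map_smul, Finsupp.smul_apply, smul_eq_mul]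
  ring

theorem ip_comm (u v : κ →₀ ℝ) : ip m u v = ip m v u := by
  unfold ip b0
  refine sum_congr rfl fun g _ => sum_congr rfl fun s _ => ?_
  ring

theorem ip_geo (h : m.Group) (u v : κ →₀ ℝ) : ip m (geo m h u) (geo m h v) = ip m u v := by
  unfold ip
  refine Fintype.sum_equiv (Equiv.mulRight h) _ _ fun g => ?_
  change b0 (geo m g (geo m h u)) (geo m g (geo m h v)) =
    b0 (geo m (g * h) u) (geo m (g * h) v)
  rw [map_mul]
  rfl

theorem ip_pos {u : κ →₀ ℝ} (hu : u ≠ 0) : 0 < ip m u u := by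
  unfold ip
  refine sum_pos' (fun g _ => sum_nonneg fun s _ => mul_self_nonneg _) ⟨1, mem_univ _, ?_⟩
  rw [map_one]
  change 0 < ∑ s, u s * u s
  obtain ⟨s, hs⟩ := Finsupp.ne_iff.1 hu
  exact sum_pos' (fun s _ => mul_self_nonneg _) ⟨s, mem_univ _, mul_self_pos.2 hs⟩

theorem rf_apply (s : κ) (u : κ →₀ ℝ) : rf m s u = u - cr m s u • Finsupp.single s 1 := rfl

theorem ip_root (s : κ) (u : κ →₀ ℝ) : 2 * ip m u (Finsupp.single s 1) =
    cr m s u * ip m (Finsupp.single s 1) (Finsupp.single s 1) := by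
  have h1 := ip_geo (gn m s) u (Finsupp.single s 1)
  rw [geo_gn, rf_apply, rf_apply, cr_self] at h1
  have h2 : (Finsupp.single s 1 : κ →₀ ℝ) - (2 : ℝ) • Finsupp.single s 1 =
      (-1 : ℝ) • Finsupp.single s 1 := by
    module
  rw [h2, ip_comm, ip_smul, ip_comm, sub_eq_add_neg, ← neg_smul, ip_add, ip_smul] at h1
  linarith

theorem ip_sum {ι' : Type} (A : Finset ι') (f : ι' → κ →₀ ℝ) (v : κ →₀ ℝ) :
    ip m (∑ i ∈ A, f i) v = ∑ i ∈ A, ip m (f i) v := by
  classical
  induction A using Finset.induction_on with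
  | empty =>
    rw [sum_empty, sum_empty]
    have := ip_smul (m := m) 0 0 v
    rw [zero_smul, zero_mul] at this
    exact this
  | insert i A hi ih => rw [sum_insert hi, sum_insert hi, ip_add, ih]

end

/-- The form of a finite Coxeter group is positive definite. -/
theorem frm_pos (hf : Finite m.Group) {x : κ → ℝ} (hx : x ≠ 0) :
    0 < ∑ s, ∑ t, kk m s t * x s * x t := by
  classical
  have i1 : Fintype m.Group := Fintype.ofFinite _
  obtain ⟨a, ha⟩ : ∃ a : κ → ℝ, ∀ s, a s = ip m (Finsupp.single s 1) (Finsupp.single s 1) :=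
    ⟨_, fun _ => rfl⟩
  have hapos : ∀ s, 0 < a s := by
    intro s
    rw [ha]
    exact ip_pos fun h => one_ne_zero (Finsupp.single_eq_zero.1 h)
  have h1 : ∀ s t, 2 * ip m (Finsupp.single s 1) (Finsupp.single t 1) = kk m s t * a t := by
    intro s t
    rw [ip_root, cr_single, ha, kk_symm]
  have h2 : ∀ s t, kk m s t * a s = kk m s t * a t := by
    intro s t
    rw [← h1 s t, ip_comm, h1 t s, kk_symm]
  obtain ⟨u, hu⟩ : ∃ u : κ →₀ ℝ, u = ∑ s, (x s / √(a s)) • Finsupp.single s 1 := ⟨_, rfl⟩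
  have hus : ∀ s, u s = x s / √(a s) := by
    intro s
    rw [hu, Finsupp.finsetSum_apply, sum_eq_single s]
    · rw [Finsupp.smul_apply, Finsupp.single_eq_same, smul_eq_mul, mul_one]
    · intro t _ hts
      rw [Finsupp.smul_apply, Finsupp.single_eq_of_ne hts.symm, smul_zero]
    · intro h
      exact absurd (mem_univ s) h
  have hune : u ≠ 0 := by
    intro h
    apply hx
    ext s
    have h3 := hus s
    rw [h, Finsupp.zero_apply] at h3
    have h4 : √(a s) ≠ 0 := (Real.sqrt_pos.2 (hapos s)).ne'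
    rw [eq_comm, div_eq_zero_iff] at h3
    exact h3.resolve_right h4
  have h3 := ip_pos (m := m) hune
  have h4 : 2 * ip m u u = ∑ s, ∑ t, kk m s t * x s * x t := by
    conv_lhs => rw [hu]
    rw [ip_sum, mul_sum]
    refine sum_congr rfl fun s _ => ?_
    rw [ip_smul, ip_comm, ip_sum, ← mul_assoc, mul_sum]
    refine sum_congr rfl fun t _ => ?_
    rw [ip_smul, ip_comm]
    have h5 := h1 s t
    have hs := Real.sqrt_pos.2 (hapos s)
    have ht := Real.sqrt_pos.2 (hapos t)
    have h6 : kk m s t * (√(a s) * √(a t)) = kk m s t * a t := by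
      by_cases h7 : kk m s t = 0
      · rw [h7, zero_mul, zero_mul]
      · have h8 := mul_left_cancel₀ h7 (h2 s t)
        rw [h8, Real.mul_self_sqrt (hapos t).le]
    have h7 : 2 * (x s / √(a s)) * (x t / √(a t) * ip m (Finsupp.single s 1) (Finsupp.single t 1)) =
        x s / √(a s) * (x t / √(a t)) * (2 * ip m (Finsupp.single s 1) (Finsupp.single t 1)) := by
      ring
    rw [h7, h5, ← h6]
    field_simp
  rw [← h4]
  linarith

end LBL
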