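import Pool.Agent.LBL.Ok
import Pool.Agent.SCP.Fin

/-!
# Project LBL (architect helper40), module Itv: intervals in the face lattice of a cone
-/

namespace LBL

open SCG SCP SCS Finset

open Classical in
/-- The right-angled Coxeter matrix of the comparability graph. -/
noncomputable def cmM (P : Type) [PartialOrder P] : CoxeterMatrix P where
  M := Matrix.of fun x y => if x = y then 1 else if x < y ∨ y < x then 2 else 0
  isSymm := by
    ext x y
    change (if y = x then 1 else if y < x ∨ x < y then 2 else 0) =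
      (if x = y then 1 else if x < y ∨ y < x then 2 else 0)
    simp only [eq_comm (a := y) (b := x), or_comm (a := y < x)]
  diagonal x := if_pos rfl
  off_diagonal x y h := by
    change (if x = y then 1 else if x < y ∨ y < x then 2 else 0) ≠ 1
    rw [if_neg h]
    split_ifs <;> norm_num

theorem cmM_two {P : Type} [PartialOrder P] {x y : P} (h : x < y ∨ y < x) : cmM P x y = 2 := by
  classical
  have hne : x ≠ y := by
    rintro rfl
    exact h.elim (lt_irrefl _) (lt_irrefl _)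
  change (if x = y then 1 else if x < y ∨ y < x then 2 else 0) = 2
  rw [if_neg hne, if_pos h]

theorem cmM_zero {P : Type} [PartialOrder P] {x y : P} (hne : x ≠ y) (h1 : ¬ x < y)
    (h2 : ¬ y < x) : cmM P x y = 0 := by
  classical
  change (if x = y then 1 else if x < y ∨ y < x then 2 else 0) = 0
  rw [if_neg hne, if_neg (not_or.2 ⟨h1, h2⟩)]

variable {ι : Type} [Fintype ι] [DecidableEq ι]

theorem dd_sub {L : Submodule ℝ (ι → ℝ)} {G F : Finset ι} (h : G ⊆ F) :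
    dd F L = dd G L + dd (F \ G) (L ⊓ LinearMap.ker (rs G)) := by
  have h1 := rank_null L (rs F)
  have h2 := rank_null L (rs G)
  have h3 := rank_null (L ⊓ LinearMap.ker (rs G)) (rs (F \ G))
  have h4 : L ⊓ LinearMap.ker (rs G) ⊓ LinearMap.ker (rs (F \ G)) = L ⊓ LinearMap.ker (rs F) := by
    ext x
    simp only [Submodule.mem_inf, LinearMap.mem_ker, rs_eq_zero, mem_sdiff]
    constructor
    · rintro ⟨⟨h5, h6⟩, h7⟩
      refine ⟨h5, fun i hi => ?_⟩
      by_cases h8 : i ∈ G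
      · exact h6 i h8
      · exact h7 i ⟨hi, h8⟩
    · rintro ⟨h5, h6⟩
      exact ⟨⟨h5, fun i hi => h6 i (h hi)⟩, fun i hi => h6 i hi.1⟩
  rw [h4] at h3
  unfold dd
  omega

/-- The faces between `G` and `F`. -/
theorem mem_itv {L : Submodule ℝ (ι → ℝ)} {G F : Finset ι}
    (hF : F = univ ∨ Fc L univ F) {K : Finset ι} (hK : Fc (L ⊓ LinearMap.ker (rs G)) (F \ G) K)
    (hGF : G ⊆ F) : Fc L univ (K ∪ G) ∧ G ⊂ K ∪ G ∧ K ∪ G ⊂ F := by
  obtain ⟨hne, hKF, y, hy, hyK⟩ := hK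
  rw [Submodule.mem_inf, LinearMap.mem_ker, rs_eq_zero] at hy
  have hKs : K ⊆ F \ G := hyK.1
  have hsub : K ∪ G ⊆ F := by
    intro i hi
    rcases mem_union.1 hi with h1 | h1
    · exact (mem_sdiff.1 (hKs h1)).1
    · exact hGF h1
  have hssF : K ∪ G ⊂ F := by
    refine ⟨hsub, fun h1 => hKF ?_⟩
    refine Finset.Subset.antisymm hKs fun i hi => ?_
    rw [mem_sdiff] at hi
    rcases mem_union.1 (h1 hi.1) with h2 | h2
    · exact h2
    · exact absurd h2 hi.2
  have hssG : G ⊂ K ∪ G := by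
    refine ⟨subset_union_right, fun h1 => ?_⟩
    obtain ⟨i, hi⟩ := hne
    exact (mem_sdiff.1 (hKs hi)).2 (h1 (mem_union_left _ hi))
  refine ⟨⟨?_, ?_, ?_⟩, hssG, hssF⟩
  · exact hne.mono subset_union_left
  · intro h1
    rw [h1] at hssF
    exact hssF.2 (subset_univ _)
  · -- the function on `F`
    have hyF : ∀ i ∈ F, 0 ≤ y i ∧ (y i = 0 ↔ i ∈ K ∪ G) := by
      intro i hi
      by_cases h1 : i ∈ G
      · rw [hy.2 i h1]
        exact ⟨le_rfl, fun _ => mem_union_right _ h1, fun _ => rfl⟩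
      · have h2 := hyK.2 i (mem_sdiff.2 ⟨hi, h1⟩)
        refine ⟨h2.1, h2.2.trans ⟨fun h3 => mem_union_left _ h3, fun h3 => ?_⟩⟩
        exact (mem_union.1 h3).resolve_right h1
    rcases hF with rfl | ⟨-, -, x, hx, hxF⟩
    · exact ⟨y, hy.1, subset_univ _, fun i _ => hyF i (mem_univ i)⟩
    · obtain ⟨t, ht0, ht⟩ : ∃ t : ℝ, 0 < t ∧ ∀ i, i ∉ F → 0 < y i + t * x i := by
        obtain ⟨t, ht⟩ := Finite.exists_le (fun i : ι => (1 + |y i|) / x i)
        refine ⟨|t| + 1, by positivity, fun i hi => ?_⟩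
        have h1 : 0 < x i := hxF.pos (mem_univ i) hi
        have h2 := ht i
        rw [div_le_iff₀ h1] at h2
        have h3 : t * x i ≤ |t| * x i := mul_le_mul_of_nonneg_right (le_abs_self t) h1.le
        have h4 := neg_abs_le (y i)
        nlinarith
      refine ⟨y + t • x, L.add_mem hy.1 (L.smul_mem t hx), subset_univ _, fun i _ => ?_⟩
      change 0 ≤ y i + t * x i ∧ (y i + t * x i = 0 ↔ i ∈ K ∪ G)
      by_cases h1 : i ∈ F
      · have h2 : x i = 0 := hxF.zero h1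
        rw [h2, mul_zero, add_zero]
        exact hyF i h1
      · have h2 := ht i h1
        refine ⟨h2.le, fun h3 => absurd h3 h2.ne', fun h3 => absurd (hsub h3) h1⟩

theorem itv_mem {L : Submodule ℝ (ι → ℝ)} {G F H : Finset ι} (hH : Fc L univ H) (h1 : G ⊂ H)
    (h2 : H ⊂ F) : Fc (L ⊓ LinearMap.ker (rs G)) (F \ G) (H \ G) := by
  obtain ⟨-, -, x, hx, hxH⟩ := hH
  refine ⟨?_, fun h3 => ?_, x, ?_, ?_, fun i hi => ?_⟩
  · rw [sdiff_nonempty]
    exact h1.2
  · apply h2.2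
    intro i hi
    by_cases h4 : i ∈ G
    · exact h1.1 h4
    · have h5 : i ∈ F \ G := mem_sdiff.2 ⟨hi, h4⟩
      rw [← h3] at h5
      exact (mem_sdiff.1 h5).1
  · rw [Submodule.mem_inf, LinearMap.mem_ker, rs_eq_zero]
    exact ⟨hx, fun i hi => hxH.zero (h1.1 hi)⟩
  · exact sdiff_subset_sdiff h2.1 (Finset.Subset.refl _)
  · have h3 := hxH.2 i (mem_univ i)
    refine ⟨h3.1, h3.2.trans ⟨fun h4 => mem_sdiff.2 ⟨h4, (mem_sdiff.1 hi).2⟩, fun h4 =>
      (mem_sdiff.1 h4).1⟩⟩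

/-- The vanishing for the intervals. -/
theorem itv_zg {L : Submodule ℝ (ι → ℝ)} {G F : Finset ι}
    (hG : (G = ∅ ∧ ∃ p ∈ L, ∀ i, 0 < p i) ∨ Fc L univ G) (hF : F = univ ∨ Fc L univ F)
    (hGF : G ⊂ F) (hd : Even (dd F L + dd G L)) :
    ZG (cmM (Finset ι)) ((FF L univ).filter fun H => G ⊂ H ∧ H ⊂ F) := by
  classical
  obtain ⟨p, hpL, hpG, hp⟩ : ∃ p ∈ L, (∀ i ∈ G, p i = 0) ∧ ∀ i, i ∉ G → 0 < p i := by
    rcases hG with ⟨rfl, p, hp, h1⟩ | ⟨-, -, x, hx, hxG⟩
    · exact ⟨p, hp, fun i hi => absurd hi (Finset.notMem_empty i), fun i _ => h1 i⟩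
    · exact ⟨x, hx, fun i hi => hxG.zero hi, fun i hi => hxG.pos (mem_univ i) hi⟩
  obtain ⟨L', hL'⟩ : ∃ L', L' = L ⊓ LinearMap.ker (rs G) := ⟨_, rfl⟩
  have hpL' : p ∈ L' := by
    rw [hL', Submodule.mem_inf, LinearMap.mem_ker, rs_eq_zero]
    exact ⟨hpL, hpG⟩
  have hpos : ∀ i ∈ F \ G, 0 < p i := fun i hi => hp i (mem_sdiff.1 hi).2
  have hdd := dd_sub (L := L) hGF.1
  rw [← hL'] at hdd
  obtain ⟨i₀, hi₀⟩ : (F \ G).Nonempty := sdiff_nonempty.2 hGF.2
  have h1 := dd_pos hpL' hi₀ (hpos i₀ hi₀).ne'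
  obtain ⟨k, hk⟩ : ∃ k, dd (F \ G) L' = 2 * (k + 1) := by
    obtain ⟨a, ha⟩ := hd
    exact ⟨a - dd G L - 1, by omega⟩
  have hRL : RL (cmM (Finset ι)) (FF L' (F \ G)) := by
    refine main L' (cmM (Finset ι)) (fun F' G' _ hlt _ => cmM_two (Or.inr hlt)) k (F \ G) L'
      ⟨hk, le_rfl, fun F' _ y hy => ⟨y, hy, fun i _ => rfl⟩, p, hpL', hpos⟩
  have hZG : ZG (cmM (Finset ι)) (FF L' (F \ G)) :=
    rl_zg (fun x y hne h2 h3 => cmM_zero hne h2 h3) hRL
  have him : ((FF L univ).filter fun H => G ⊂ H ∧ H ⊂ F).image (fun H => H \ G) = FF L' (F \ G) := by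
    ext K
    rw [mem_image, mem_FF]
    constructor
    · rintro ⟨H, hH, rfl⟩
      rw [mem_filter, mem_FF] at hH
      rw [hL']
      exact itv_mem hH.1 hH.2.1 hH.2.2
    · intro hK
      rw [hL'] at hK
      have h2 := mem_itv hF hK hGF.1
      refine ⟨K ∪ G, ?_, ?_⟩
      · rw [mem_filter, mem_FF]
        exact h2
      · have hKs : K ⊆ F \ G := hK.2.2.choose_spec.2.1
        ext i
        rw [mem_sdiff, mem_union]
        constructor
        · rintro ⟨h3 | h3, h4⟩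
          · exact h3
          · exact absurd h3 h4
        · intro h3
          exact ⟨Or.inl h3, (mem_sdiff.1 (hKs h3)).2⟩
  have hcanc : ∀ H H' : Finset ι, G ⊆ H → G ⊆ H' → (H \ G ⊆ H' \ G ↔ H ⊆ H') := by
    intro H H' _ h3
    constructor
    · intro h4 i hi
      by_cases h5 : i ∈ G
      · exact h3 h5
      · exact (mem_sdiff.1 (h4 (mem_sdiff.2 ⟨hi, h5⟩))).1
    · exact fun h4 => sdiff_subset_sdiff h4 (Finset.Subset.refl _)
  rw [zg_image (G' := cmM (Finset ι)) (fun H => H \ G) ?_ ?_, him]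
  · exact hZG
  · intro H hH H' hH' e
    rw [mem_filter] at hH hH'
    exact Finset.Subset.antisymm ((hcanc H H' hH.2.1.1 hH'.2.1.1).1 e.subset)
      ((hcanc H' H hH'.2.1.1 hH.2.1.1).1 e.symm.subset)
  · intro H hH H' hH'
    rw [mem_filter] at hH hH'
    have e1 := hcanc H H' hH.2.1.1 hH'.2.1.1
    have e2 := hcanc H' H hH'.2.1.1 hH.2.1.1
    by_cases h2 : H = H'
    · rw [h2, (cmM (Finset ι)).diagonal, (cmM (Finset ι)).diagonal]
    · have h3 : H \ G ≠ H' \ G := fun e => h2 (Finset.Subset.antisymm (e1.1 e.subset)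
        (e2.1 e.symm.subset))
      have l1 : (H \ G < H' \ G) ↔ H < H' := by
        constructor
        · exact fun h4 => ⟨e1.1 h4.1, fun h5 => h4.2 (e2.2 h5)⟩
        · exact fun h4 => ⟨e1.2 h4.1, fun h5 => h4.2 (e2.1 h5)⟩
      have l2 : (H' \ G < H \ G) ↔ H' < H := by
        constructor
        · exact fun h4 => ⟨e2.1 h4.1, fun h5 => h4.2 (e1.2 h5)⟩
        · exact fun h4 => ⟨e2.2 h4.1, fun h5 => h4.2 (e1.1 h5)⟩
      by_cases h4 : H < H' ∨ H' < H
      · rw [cmM_two h4, cmM_two (by rw [l1, l2]; exact h4)]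
      · rw [not_or] at h4
        rw [cmM_zero h2 h4.1 h4.2, cmM_zero h3 (by rw [l1]; exact h4.1) (by rw [l2]; exact h4.2)]

end LBL
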