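import Pool.Agent.LBL.Exc

/-!
# Project LBL (architect helper40), module Lin: Coxeter systems with linear diagram, the faces

Nodes `c 0, …, c (n-1)`, labels `3` except for the last one.  The cosets of `W_{κ - c 0}` are the vertices
of a simplicial complex; `uu j = s_{j-1} ⋯ s_0`, `cz j` the coset of `uu j`.  The vertex of type `c k` of
the chamber `g` corresponds to the simplex `g {cz 0, …, cz k}`.
-/

namespace LBL

open SCG Finset

variable {κ : Type} {m : CoxeterMatrix κ} {n : ℕ} {c : ℕ → κ} {pos : κ → ℕ}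

/-- A Coxeter system with linear diagram. -/
structure Ls (m : CoxeterMatrix κ) (n : ℕ) (c : ℕ → κ) (pos : κ → ℕ) : Prop where
  cp : ∀ x, c (pos x) = x
  pl : ∀ x, pos x < n
  pc : ∀ j < n, pos (c j) = j
  two : ∀ i j, i + 1 < j → j < n → m (c i) (c j) = 2
  three : ∀ i, i + 2 < n → m (c i) (c (i + 1)) = 3
  big : ∀ i, i + 1 < n → m (c i) (c (i + 1)) ≠ 2

namespace Ls

theorem c_ne (h : Ls m n c pos) {i j : ℕ} (hi : i < n) (hj : j < n) (hij : i ≠ j) : c i ≠ c j := by
  intro e
  exact hij (by rw [← h.pc i hi, ← h.pc j hj, e])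

theorem two' (h : Ls m n c pos) {i j : ℕ} (hi : i < n) (hj : j < n) (hij : i + 1 < j ∨ j + 1 < i) :
    m (c i) (c j) = 2 := by
  rcases hij with hij | hij
  · exact h.two i j hij hj
  · rw [m.symmetric]
    exact h.two j i hij hi

theorem comm (h : Ls m n c pos) {i j : ℕ} (hi : i < n) (hj : j < n) (hij : i + 1 < j ∨ j + 1 < i) :
    gn m (c i) * gn m (c j) = gn m (c j) * gn m (c i) :=
  gn_comm (h.two' hi hj hij)

theorem braid (h : Ls m n c pos) {i : ℕ} (hi : i + 2 < n) :
    gn m (c i) * gn m (c (i + 1)) * gn m (c i) =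
      gn m (c (i + 1)) * gn m (c i) * gn m (c (i + 1)) := by
  have h1 := m.toCoxeterSystem.simple_mul_simple_pow (c i) (c (i + 1))
  rw [h.three i hi] at h1
  change (gn m (c i) * gn m (c (i + 1))) ^ 3 = 1 at h1
  obtain ⟨a, ha⟩ : ∃ a, a = gn m (c i) := ⟨_, rfl⟩
  obtain ⟨b, hb⟩ : ∃ b, b = gn m (c (i + 1)) := ⟨_, rfl⟩
  have haa : a * a = 1 := by rw [ha]; exact gn_mul_self _ _
  have hbb : b * b = 1 := by rw [hb]; exact gn_mul_self _ _
  rw [← ha, ← hb] at h1 ⊢
  have h2 : a * b * a * (b * a * b) = 1 := by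
    rw [← h1, pow_succ, pow_two]
    group
  have h3 : b * a * b * (b * a * b) = 1 := by
    calc b * a * b * (b * a * b) = b * a * (b * b) * a * b := by group
      _ = 1 := by rw [hbb, mul_one, mul_assoc b a a, haa, mul_one, hbb]
  exact mul_right_cancel (h2.trans h3.symm)

end Ls

/-- `s_{j-1} ⋯ s_0` -/
noncomputable def uu (m : CoxeterMatrix κ) (c : ℕ → κ) : ℕ → m.Group
  | 0 => 1
  | j + 1 => gn m (c j) * uu m c j

/-- the cosets of the stabilizer of the first vertex -/
abbrev X0 (m : CoxeterMatrix κ) (c : ℕ → κ) : Type := m.Group ⧸ WT m ({c 0}ᶜ : Set κ)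

/-- the vertices of the standard simplex -/
noncomputable def cz (m : CoxeterMatrix κ) (c : ℕ → κ) (j : ℕ) : X0 m c := (uu m c j : X0 m c)

theorem uu_succ (j : ℕ) : uu m c (j + 1) = gn m (c j) * uu m c j := rfl

theorem cz_smul (g : m.Group) (j : ℕ) : g • cz m c j = ((g * uu m c j : m.Group) : X0 m c) := rfl

theorem cz_eq {i j : ℕ} {g : m.Group} :
    g • cz m c i = cz m c j ↔ (uu m c j)⁻¹ * (g * uu m c i) ∈ WT m ({c 0}ᶜ : Set κ) := by
  rw [cz_smul, eq_comm]
  unfold cz
  rw [QuotientGroup.eq]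

namespace Ls

variable (h : Ls m n c pos)

include h

theorem mem0 {i : ℕ} (h0 : 0 < i) (hi : i < n) : gn m (c i) ∈ WT m ({c 0}ᶜ : Set κ) :=
  gn_mem (h.c_ne hi (h0.trans hi) h0.ne')

/-- `s_i` commutes with `uu j` if `j < i` -/
theorem comm_uu {i : ℕ} (hi : i < n) : ∀ j, j < i → gn m (c i) * uu m c j = uu m c j * gn m (c i) := by
  intro j
  induction j with
  | zero =>
    intro _
    change gn m (c i) * 1 = 1 * gn m (c i)
    rw [mul_one, one_mul]
  | succ j ih =>
    intro hj
    rw [uu_succ, ← mul_assoc, h.comm hi (by omega) (Or.inr (by omega)), mul_assoc, ih (by omega),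
      mul_assoc]

theorem s_eq (i : ℕ) : gn m (c i) • cz m c i = cz m c (i + 1) := rfl

theorem s_succ (i : ℕ) : gn m (c i) • cz m c (i + 1) = cz m c i := by
  rw [← h.s_eq i, smul_smul, gn_mul_self, one_smul]

theorem s_gt {i j : ℕ} (hi : i < n) (hj : j < i) : gn m (c i) • cz m c j = cz m c j := by
  rw [cz_eq, h.comm_uu hi j hj, inv_mul_cancel_left]
  exact h.mem0 (by omega) hi

/-- `s_i uu j = uu j s_{i+1}` if `i + 1 < j` -/
theorem braid_uu {i : ℕ} : ∀ j, i + 1 < j → j < n →
    gn m (c i) * uu m c j = uu m c j * gn m (c (i + 1)) := by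
  intro j
  induction j with
  | zero =>
    intro hj
    omega
  | succ j ih =>
    intro hj hn
    rcases Nat.lt_or_ge (i + 1) j with h1 | h1
    · rw [uu_succ, ← mul_assoc, h.comm (by omega) (by omega) (Or.inl (by omega)), mul_assoc,
        ih h1 (by omega), mul_assoc]
    · have h2 : j = i + 1 := by omega
      subst h2
      rw [uu_succ, uu_succ]
      calc gn m (c i) * (gn m (c (i + 1)) * (gn m (c i) * uu m c i))
          = gn m (c i) * gn m (c (i + 1)) * gn m (c i) * uu m c i := by group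
        _ = gn m (c (i + 1)) * gn m (c i) * (gn m (c (i + 1)) * uu m c i) := by
            rw [h.braid (by omega)]
            group
        _ = _ := by
            rw [h.comm_uu (by omega) i (by omega)]
            group

theorem s_lt {i j : ℕ} (hi : i + 1 < j) (hj : j < n) : gn m (c i) • cz m c j = cz m c j := by
  rw [cz_eq, h.braid_uu j hi hj, inv_mul_cancel_left]
  exact h.mem0 (by omega) (by omega)

/-- the letters of a word do not move `cz j` -/
theorem fix_of {T : Set κ} {j : ℕ} (hT : ∀ x ∈ T, gn m x • cz m c j = cz m c j) {g : m.Group}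
    (hg : g ∈ WT m T) : g • cz m c j = cz m c j := by
  obtain ⟨η, h1, rfl⟩ := exists_word hg
  clear hg
  induction η with
  | nil => rw [wp_nil, one_smul]
  | cons s η ih =>
    rw [wp_cons, mul_smul, ih fun t ht => h1 t (List.mem_cons_of_mem _ ht)]
    exact hT s (h1 s List.mem_cons_self)

theorem fix_gt {k j : ℕ} (hj : j ≤ k) {g : m.Group} (hg : g ∈ WT m {x | k < pos x}) :
    g • cz m c j = cz m c j := by
  refine h.fix_of (fun x hx => ?_) hg
  have hx' : k < pos x := hx
  rw [← h.cp x]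
  exact h.s_gt (h.pl x) (by omega)

theorem uu_mem (j : ℕ) (hj : j ≤ n) : uu m c j ∈ WT m {x | pos x < j} := by
  induction j with
  | zero => exact one_mem _
  | succ j ih =>
    rw [uu_succ]
    refine mul_mem (gn_mem ?_) (WT_mono (fun x hx => ?_) (ih (by omega)))
    · change pos (c j) < j + 1
      rw [h.pc j (by omega)]
      omega
    · exact lt_trans (show pos x < j from hx) (Nat.lt_succ_self j)

/-- `uu (j+1) = (word without s_0) s_0` -/
theorem uu_tail : ∀ j, j < n → ∃ v ∈ WT m ({c 0}ᶜ : Set κ), uu m c (j + 1) = v * gn m (c 0) := by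
  intro j
  induction j with
  | zero =>
    intro _
    exact ⟨1, one_mem _, by rw [uu_succ, one_mul]; exact mul_one _⟩
  | succ j ih =>
    intro hj
    obtain ⟨v, hv, he⟩ := ih (by omega)
    refine ⟨gn m (c (j + 1)) * v, mul_mem (h.mem0 (by omega) hj) hv, ?_⟩
    rw [uu_succ, he, mul_assoc]

theorem cz_ne0 {j : ℕ} (hj : j < n) : cz m c (j + 1) ≠ cz m c 0 := by
  intro e
  have h1 := cz_eq (m := m) (c := c) (i := j + 1) (j := 0) (g := 1)
  rw [one_smul] at h1
  have h2 := h1.1 e
  change (1 : m.Group)⁻¹ * (1 * uu m c (j + 1)) ∈ _ at h2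
  rw [inv_one, one_mul, one_mul] at h2
  obtain ⟨v, hv, he⟩ := h.uu_tail j hj
  rw [he] at h2
  have h3 := (Subgroup.mul_mem_cancel_left _ hv).1 h2
  rw [gn_mem_iff] at h3
  exact h3 rfl

theorem cz_ne : ∀ i j, i < j → j < n → cz m c j ≠ cz m c i := by
  intro i
  induction i with
  | zero =>
    intro j hj hn
    obtain ⟨j, rfl⟩ : ∃ j', j = j' + 1 := ⟨j - 1, by omega⟩
    exact h.cz_ne0 (by omega)
  | succ i ih =>
    intro j hj hn e
    refine ih j (by omega) hn ?_
    rw [← h.s_succ i, ← e, h.s_lt (by omega) hn]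

theorem cz_inj {i j : ℕ} (hi : i < n) (hj : j < n) (e : cz m c i = cz m c j) : i = j := by
  rcases Nat.lt_trichotomy i j with h1 | h1 | h1
  · exact absurd e.symm (h.cz_ne i j h1 hj)
  · exact h1
  · exact absurd e (h.cz_ne j i h1 hi)

end Ls

end LBL
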