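import Pool.Agent.LBL.Lin

/-!
# Project LBL (architect helper40), module Lina: the faces and their stabilizers
-/

namespace LBL

open SCG Finset

section general

variable {V : Type} {M : CoxeterMatrix V}

theorem gn_ne_one (s : V) : gn M s ≠ 1 := by
  intro e
  have h1 := ln_gn (M := M) s
  rw [e, ln_one] at h1
  exact zero_ne_one h1

theorem mem_single {s : V} {g : M.Group} (h : g ∈ WT M ({s} : Set V)) : g = 1 ∨ g = gn M s := by
  obtain ⟨η, h1, rfl⟩ := exists_word h
  clear h
  induction η with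
  | nil => exact Or.inl rfl
  | cons t η ih =>
    have ht : t = s := h1 t List.mem_cons_self
    rw [wp_cons, ht]
    rcases ih fun u hu => h1 u (List.mem_cons_of_mem _ hu) with h2 | h2
    · right
      rw [h2, mul_one]
    · left
      rw [h2, gn_mul_self]

theorem two_of_comm {s t : V} (hst : s ≠ t) (h : gn M s * gn M t = gn M t * gn M s) : M s t = 2 := by
  have h1 : (gn M s * gn M t) ^ 2 = 1 := invol_sq h
  have h2 := orderOf_dvd_of_pow_eq_one h1
  rw [orderOf_gn M hst] at h2
  rcases (Nat.dvd_prime Nat.prime_two).1 h2 with h3 | h3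
  · exact absurd h3 (M.off_diagonal s t hst)
  · exact h3
where
  invol_sq {s t : V} (h : gn M s * gn M t = gn M t * gn M s) : (gn M s * gn M t) ^ 2 = 1 := by
    rw [pow_two]
    calc gn M s * gn M t * (gn M s * gn M t) = gn M s * (gn M t * gn M s) * gn M t := by group
      _ = gn M s * gn M s * (gn M t * gn M t) := by rw [← h]; group
      _ = 1 := by rw [gn_mul_self, gn_mul_self, one_mul]

/-- If the conjugate of `t ∈ A` by `s ∉ A` is in `W_A`, then `s` and `t` commute. -/
theorem two_of_conj {A : Set V} {s t : V} (hs : s ∉ A) (ht : t ∈ A)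
    (h : gn M s * gn M t * gn M s ∈ WT M A) : M s t = 2 := by
  have hst : s ≠ t := fun e => hs (e ▸ ht)
  have h1 : gn M s * gn M t * gn M s ∈ WT M ({s, t} : Set V) :=
    mul_mem (mul_mem (gn_mem (Set.mem_insert _ _)) (gn_mem (Set.mem_insert_of_mem _ rfl)))
      (gn_mem (Set.mem_insert _ _))
  have h2 := mem_inter.2 ⟨h, h1⟩
  have h3 : A ∩ {s, t} ⊆ ({t} : Set V) := by
    rintro x ⟨hx, rfl | hx'⟩
    · exact absurd hx hs
    · exact hx'
  rcases mem_single (WT_mono h3 h2) with h4 | h4
  · exfalso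
    apply gn_ne_one (M := M) t
    calc gn M t = gn M s * (gn M s * gn M t * gn M s) * gn M s := by
          rw [← mul_assoc, ← mul_assoc, gn_mul_self, one_mul, mul_assoc, gn_mul_self, mul_one]
      _ = 1 := by rw [h4, mul_one, gn_mul_self]
  · refine two_of_comm hst ?_
    calc gn M s * gn M t = gn M s * gn M t * (gn M s * gn M s) := by rw [gn_mul_self, mul_one]
      _ = gn M s * gn M t * gn M s * gn M s := by group
      _ = _ := by rw [h4]

/-- The centralizer-like part of a special subgroup. -/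
theorem conj_mem {A : Set V} {s : V} (hs : s ∉ A) : ∀ (k : ℕ) (g : M.Group), ln M g = k →
    g ∈ WT M A → gn M s * g * gn M s ∈ WT M A → g ∈ WT M {t | t ∈ A ∧ M s t = 2} := by
  intro k
  induction k with
  | zero =>
    intro g hg _ _
    rw [ln_eq_zero.1 hg]
    exact one_mem _
  | succ k ih =>
    intro g hk hg hc
    obtain ⟨η, h1, h2, h3⟩ := exists_red_word hg
    have hne : η ≠ [] := by
      rintro rfl
      rw [List.length_nil, hk] at h3
      omega
    obtain ⟨η', t, rfl⟩ : ∃ η' t, η = η' ++ [t] :=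
      ⟨η.dropLast, η.getLast hne, (List.dropLast_append_getLast hne).symm⟩
    have ht : t ∈ A := h1 t (List.mem_append_right _ List.mem_cons_self)
    have hη' : ∀ x ∈ η', x ∈ A := fun x hx => h1 x (List.mem_append_left _ hx)
    obtain ⟨g₁, hg₁⟩ : ∃ g₁, g₁ = wp M η' := ⟨_, rfl⟩
    have e1 : g = g₁ * gn M t := by
      rw [← h2, wp_append, wp_cons, wp_nil, mul_one, hg₁]
    have hg₁A : g₁ ∈ WT M A := by
      rw [hg₁]
      exact wp_mem hη'
    have hl₁ : ln M g₁ = k := by
      have h4 := ln_wp_le (M := M) η'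
      rw [← hg₁] at h4
      rw [List.length_append, List.length_singleton] at h3
      have h5 := ln_mul_gn g₁ t
      rw [← e1] at h5
      omega
    -- lengths
    have hmin : ∀ x ∈ WT M A, ln M (x * gn M s) = ln M x + 1 := by
      intro x hx
      rcases ln_mul_gn x s with h4 | h4
      · exact h4
      · exfalso
        apply hs
        rw [← gn_mem_iff (M := M) (Y := A)]
        refine (mem_of_red (p := x * gn M s) (y := gn M s) ?_ ?_).2
        · rw [mul_assoc, gn_mul_self, mul_one]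
          exact hx
        · rw [mul_assoc, gn_mul_self, mul_one, ln_gn]
          exact h4.symm
    have hmin' : ∀ x ∈ WT M A, ln M (gn M s * x) = ln M x + 1 := by
      intro x hx
      have h4 := hmin x⁻¹ (inv_mem hx)
      rw [← ln_inv, mul_inv_rev, inv_inv, gn_inv, ln_inv] at h4
      exact h4
    obtain ⟨g', hg'⟩ : ∃ g', g' = gn M s * g * gn M s := ⟨_, rfl⟩
    rw [← hg'] at hc
    have e2 : g' * gn M s = gn M s * g := by
      rw [hg', mul_assoc, gn_mul_self, mul_one]
    have e3 : g' * gn M s * gn M t = gn M s * g₁ := by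
      rw [e2, e1, mul_assoc, mul_assoc, gn_mul_self, mul_one]
    have h6 : ln M (g' * gn M s * gn M t) < ln M (g' * gn M s) := by
      rw [e3, e2, hmin' _ hg₁A, hmin' _ hg]
      omega
    have hst : M s t = 2 := by
      rcases exch_two h6 with h7 | ⟨-, h7⟩
      · exfalso
        rw [ln_gn] at h7
        have h8 : ln M (gn M s * gn M t) = 0 := by omega
        rw [ln_eq_zero] at h8
        have h9 : gn M s = gn M t := by
          rw [← mul_one (gn M s), ← gn_mul_self M t, ← mul_assoc, h8, one_mul]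
        exact hs (by rw [gn_inj h9]; exact ht)
      · have h8 := h7 A hc
        have h9 := (Subgroup.mul_mem_cancel_left _ hc).1 h8
        rw [gn_inv] at h9
        exact two_of_conj hs ht h9
    rw [e1]
    refine mul_mem (ih g₁ hl₁ hg₁A ?_) (gn_mem ⟨ht, hst⟩)
    have e4 : gn M s * g₁ * gn M s = g' * gn M t := by
      calc gn M s * g₁ * gn M s = g' * (gn M s * gn M t) * gn M s := by rw [← e3]; group
        _ = g' * gn M t * (gn M s * gn M s) := by rw [gn_comm hst]; group
        _ = _ := by rw [gn_mul_self, mul_one]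
    rw [e4]
    exact mul_mem hc (gn_mem ht)

end general

variable {κ : Type} {m : CoxeterMatrix κ} {n : ℕ} {c : ℕ → κ} {pos : κ → ℕ}

open Classical in
/-- the simplex of the vertex of type `c k` of the chamber `g` -/
noncomputable def Ff (m : CoxeterMatrix κ) (c : ℕ → κ) (g : m.Group) (k : ℕ) : Finset (X0 m c) :=
  (range (k + 1)).image fun j => g • cz m c j

theorem mem_Ff {g : m.Group} {k : ℕ} {x : X0 m c} :
    x ∈ Ff m c g k ↔ ∃ j ≤ k, g • cz m c j = x := by
  classical
  unfold Ff
  rw [mem_image]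
  constructor
  · rintro ⟨j, hj, rfl⟩
    exact ⟨j, Nat.lt_succ_iff.1 (mem_range.1 hj), rfl⟩
  · rintro ⟨j, hj, rfl⟩
    exact ⟨j, mem_range.2 (Nat.lt_succ_iff.2 hj), rfl⟩

theorem mem_Ff_smul {g g' : m.Group} {k : ℕ} {x : X0 m c} :
    g' • x ∈ Ff m c (g' * g) k ↔ x ∈ Ff m c g k := by
  rw [mem_Ff, mem_Ff]
  constructor
  · rintro ⟨j, hj, e⟩
    refine ⟨j, hj, ?_⟩
    rw [mul_smul] at e
    exact MulAction.injective g' e
  · rintro ⟨j, hj, rfl⟩
    exact ⟨j, hj, mul_smul _ _ _⟩

theorem Ff_mono {g : m.Group} {k l : ℕ} (h : k ≤ l) : Ff m c g k ⊆ Ff m c g l := by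
  intro x hx
  obtain ⟨j, hj, e⟩ := mem_Ff.1 hx
  exact mem_Ff.2 ⟨j, hj.trans h, e⟩

theorem Ff_sub_smul {g g₁ g' : m.Group} {k l : ℕ} (h : Ff m c g k ⊆ Ff m c g₁ l) :
    Ff m c (g' * g) k ⊆ Ff m c (g' * g₁) l := by
  intro x hx
  have h1 : g' • (g'⁻¹ • x) = x := smul_inv_smul g' x
  rw [← h1] at hx ⊢
  rw [mem_Ff_smul] at hx ⊢
  exact h hx

namespace Ls

variable (h : Ls m n c pos)

include h

theorem smul_cz {i j : ℕ} (hi : i < n) (hj : j < n) :
    gn m (c i) • cz m c j = cz m c (Equiv.swap i (i + 1) j) := by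
  rcases Nat.lt_trichotomy j i with h1 | h1 | h1
  · rw [Equiv.swap_apply_of_ne_of_ne (by omega) (by omega)]
    exact h.s_gt hi h1
  · rw [h1, Equiv.swap_apply_left]
    rfl
  · rcases Nat.lt_or_ge (i + 1) j with h2 | h2
    · rw [Equiv.swap_apply_of_ne_of_ne (by omega) (by omega)]
      exact h.s_lt h2 hj
    · have h3 : j = i + 1 := by omega
      rw [h3, Equiv.swap_apply_right]
      exact h.s_succ i

theorem Ff_gn {g : m.Group} {k : ℕ} {x : κ} (hk : k < n) (hx : pos x ≠ k) :
    Ff m c (g * gn m x) k ⊆ Ff m c g k := by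
  intro y hy
  obtain ⟨j, hj, rfl⟩ := mem_Ff.1 hy
  rw [mem_Ff]
  have hp := h.pl x
  have e : gn m x • cz m c j = cz m c (Equiv.swap (pos x) (pos x + 1) j) := by
    have h1 := h.smul_cz (i := pos x) (j := j) hp (by omega)
    rwa [h.cp] at h1
  refine ⟨Equiv.swap (pos x) (pos x + 1) j, ?_, ?_⟩
  · rcases Nat.lt_or_ge k (pos x) with h1 | h1
    · rw [Equiv.swap_apply_of_ne_of_ne (by omega) (by omega)]
      exact hj
    · by_cases h2 : j = pos x
      · rw [h2, Equiv.swap_apply_left]
        omega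
      · by_cases h3 : j = pos x + 1
        · rw [h3, Equiv.swap_apply_right]
          omega
        · rw [Equiv.swap_apply_of_ne_of_ne h2 h3]
          exact hj
  · rw [mul_smul, e]

/-- the simplex depends only on the vertex -/
theorem Ff_mul {k : ℕ} (hk : k < n) {p : m.Group} (hp : p ∈ WT m {x | pos x ≠ k}) (g : m.Group) :
    Ff m c (g * p) k = Ff m c g k := by
  have key : ∀ p ∈ WT m {x | pos x ≠ k}, ∀ g, Ff m c (g * p) k ⊆ Ff m c g k := by
    intro p hp
    obtain ⟨η, h1, rfl⟩ := exists_word hp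
    clear hp
    induction η with
    | nil =>
      intro g
      rw [wp_nil, mul_one]
    | cons s η ih =>
      intro g
      rw [wp_cons, ← mul_assoc]
      exact (ih (fun t ht => h1 t (List.mem_cons_of_mem _ ht)) (g * gn m s)).trans
        (h.Ff_gn hk (h1 s List.mem_cons_self))
  refine Finset.Subset.antisymm (key p hp g) ?_
  have h1 := key p⁻¹ (inv_mem hp) (g * p)
  rwa [mul_inv_cancel_right] at h1

theorem Ff_card {k : ℕ} (hk : k < n) (g : m.Group) : (Ff m c g k).card = k + 1 := by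
  classical
  unfold Ff
  rw [card_image_of_injOn, card_range]
  intro i hi j hj e
  have hi' := mem_range.1 (mem_coe.1 hi)
  have hj' := mem_range.1 (mem_coe.1 hj)
  exact h.cz_inj (by omega) (by omega) (MulAction.injective g e)

theorem lt_ne {k : ℕ} : ({x | pos x < k} : Set κ) ⊆ {x | pos x ≠ k} := fun _ hx => ne_of_lt hx

theorem gt_ne {k : ℕ} : ({x | k < pos x} : Set κ) ⊆ {x | pos x ≠ k} := fun _ hx => ne_of_gt hx

/-- The pointwise stabilizer, one step. -/
theorem stab_one : ∀ j, j < n → ∀ g ∈ WT m {x | j ≤ pos x}, g • cz m c j = cz m c j →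
    g ∈ WT m {x | j < pos x} := by
  intro j
  induction j with
  | zero =>
    intro hn g _ hg
    rw [cz_eq] at hg
    change (1 : m.Group)⁻¹ * (g * 1) ∈ _ at hg
    rw [inv_one, one_mul, mul_one] at hg
    refine WT_mono (fun x hx => ?_) hg
    have hx' : x ≠ c 0 := hx
    change 0 < pos x
    by_contra h1
    exact hx' (by rw [← h.cp x, Nat.eq_zero_of_not_pos h1])
  | succ j ih =>
    intro hn g hg hfix
    have h1 : gn m (c j) * g * gn m (c j) ∈ WT m {x | j < pos x} := by
      refine ih (by omega) _ ?_ ?_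
      · have h2 : gn m (c j) ∈ WT m {x | j ≤ pos x} := gn_mem (by
          change j ≤ pos (c j)
          rw [h.pc j (by omega)])
        exact mul_mem (mul_mem h2 (WT_mono (fun x (hx : j + 1 ≤ pos x) => (by
          change j ≤ pos x
          omega)) hg)) h2
      · rw [mul_smul, mul_smul]
        change gn m (c j) • g • cz m c (j + 1) = _
        rw [hfix, h.s_succ]
    have hs : c j ∉ {x | j + 1 ≤ pos x} := by
      intro h2
      have h3 : j + 1 ≤ pos (c j) := h2
      rw [h.pc j (by omega)] at h3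
      omega
    have h2 := conj_mem hs _ g rfl hg h1
    refine WT_mono ?_ h2
    rintro x ⟨hx, hx'⟩
    have hx1 : j + 1 ≤ pos x := hx
    change j + 1 < pos x
    rcases hx1.lt_or_eq with h3 | h3
    · exact h3
    · exfalso
      refine h.big j (by omega) ?_
      rw [h3, h.cp]
      exact hx'

theorem stab {k : ℕ} (hk : k < n) {g : m.Group} (hg : ∀ j ≤ k, g • cz m c j = cz m c j) :
    g ∈ WT m {x | k < pos x} := by
  induction k with
  | zero => exact h.stab_one 0 hk g (by
      have h1 : ({x | 0 ≤ pos x} : Set κ) = Set.univ := Set.eq_univ_of_forall fun x => Nat.zero_le _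
      rw [h1]
      obtain ⟨η, h2, -⟩ := exists_red g
      rw [← h2]
      exact wp_mem fun s _ => Set.mem_univ s) (hg 0 le_rfl)
  | succ k ih =>
    exact h.stab_one (k + 1) hk g (ih (by omega) fun j hj => hg j (by omega)) (hg (k + 1) le_rfl)

theorem exists_to {l i : ℕ} (hi : i ≤ l) (hl : l ≤ n) :
    ∃ v ∈ WT m {x | pos x < l}, v • cz m c i = cz m c l := by
  induction l with
  | zero =>
    have h1 : i = 0 := by omega
    rw [h1]
    exact ⟨1, one_mem _, one_smul _ _⟩
  | succ l ih =>
    rcases Nat.lt_or_ge l i with h1 | h1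
    · have h2 : i = l + 1 := by omega
      rw [h2]
      exact ⟨1, one_mem _, one_smul _ _⟩
    · obtain ⟨v, hv, he⟩ := ih h1 (by omega)
      refine ⟨gn m (c l) * v, mul_mem (gn_mem ?_) (WT_mono (fun x hx => ?_) hv), ?_⟩
      · change pos (c l) < l + 1
        rw [h.pc l (by omega)]
        omega
      · exact lt_trans (show pos x < l from hx) (Nat.lt_succ_self l)
      · rw [mul_smul, he]
        rfl

theorem Ff_pred {k : ℕ} (hk : k + 1 < n) {g g' : m.Group} (h1 : Ff m c g (k + 1) ⊆ Ff m c g' (k + 1))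
    (h2 : g • cz m c (k + 1) = g' • cz m c (k + 1)) : Ff m c g k ⊆ Ff m c g' k := by
  intro x hx
  obtain ⟨j, hj, rfl⟩ := mem_Ff.1 hx
  obtain ⟨j', hj', e⟩ := mem_Ff.1 (h1 (mem_Ff.2 ⟨j, by omega, rfl⟩))
  refine mem_Ff.2 ⟨j', ?_, e⟩
  by_contra h3
  have h4 : j' = k + 1 := by omega
  rw [h4, ← h2] at e
  have h5 := h.cz_inj (by omega) (by omega) (MulAction.injective g e)
  omega

theorem setwise : ∀ k, k < n → ∀ g : m.Group, Ff m c g k ⊆ Ff m c 1 k →
    ∃ v ∈ WT m {x | pos x < k}, ∀ j ≤ k, (v * g) • cz m c j = cz m c j := by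
  intro k
  induction k with
  | zero =>
    intro _ g hg
    refine ⟨1, one_mem _, fun j hj => ?_⟩
    have h1 : j = 0 := by omega
    obtain ⟨i, hi, e⟩ := mem_Ff.1 (hg (mem_Ff.2 ⟨0, le_rfl, rfl⟩))
    have h2 : i = 0 := by omega
    rw [h1, one_mul, ← e, h2, one_smul]
  | succ k ih =>
    intro hk g hg
    obtain ⟨i, hi, e⟩ := mem_Ff.1 (hg (mem_Ff.2 ⟨k + 1, le_rfl, rfl⟩))
    rw [one_smul] at e
    obtain ⟨v₁, hv₁, e₁⟩ := h.exists_to hi hk.le
    have h1 : (v₁ * g) • cz m c (k + 1) = (1 : m.Group) • cz m c (k + 1) := by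
      rw [mul_smul, ← e, e₁, one_smul]
    have h2 : Ff m c (v₁ * g) (k + 1) ⊆ Ff m c 1 (k + 1) := by
      have h3 := Ff_sub_smul (g' := v₁) hg
      rw [mul_one] at h3
      have h4 := h.Ff_mul (k := k + 1) hk (WT_mono h.lt_ne hv₁) 1
      rw [one_mul] at h4
      rwa [h4] at h3
    obtain ⟨v₂, hv₂, h5⟩ := ih (by omega) (v₁ * g) (h.Ff_pred hk h2 h1)
    refine ⟨v₂ * v₁, mul_mem (WT_mono (fun x hx => ?_) hv₂) hv₁, fun j hj => ?_⟩
    · exact lt_trans (show pos x < k from hx) (Nat.lt_succ_self k)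
    · rw [mul_assoc]
      rcases Nat.lt_or_ge k j with h6 | h6
      · have h7 : j = k + 1 := by omega
        rw [h7, mul_smul, h1, one_smul]
        refine h.fix_of (fun x hx => ?_) hv₂
        have hx' : pos x < k := hx
        rw [← h.cp x]
        exact h.s_lt (by omega) hk
      · exact h5 j h6

/-- The stabilizer of a standard simplex. -/
theorem setwise_mem {k : ℕ} (hk : k < n) {g : m.Group} (hg : Ff m c g k ⊆ Ff m c 1 k) :
    g ∈ WT m {x | pos x ≠ k} := by
  obtain ⟨v, hv, h1⟩ := h.setwise k hk g hg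
  have h2 := h.stab hk h1
  have h3 : g = v⁻¹ * (v * g) := by rw [inv_mul_cancel_left]
  rw [h3]
  exact mul_mem (inv_mem (WT_mono h.lt_ne hv)) (WT_mono h.gt_ne h2)

end Ls

end LBL
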