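import Pool.Agent.LBL.Lina

/-!
# Project LBL (architect helper40), module Linb: inclusions of faces, facets
-/

namespace LBL

open SCG Finset

variable {κ : Type} {m : CoxeterMatrix κ} {n : ℕ} {c : ℕ → κ} {pos : κ → ℕ}

theorem exists_gap {I : Finset ℕ} {k : ℕ} (hI : I.card = k + 1) (hne : I ≠ range (k + 1)) :
    ∃ i, i ∉ I ∧ i + 1 ∈ I := by
  by_contra hcon
  push Not at hcon
  apply hne
  have hdown : ∀ d i, i + d ∈ I → i ∈ I := by
    intro d
    induction d with
    | zero => exact fun i hi => hi
    | succ d ih =>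
      intro i hi
      by_contra h1
      exact hcon i h1 (ih (i + 1) (by rwa [show i + 1 + d = i + (d + 1) by ring]))
  have hsub : I ⊆ range (k + 1) := by
    intro i hi
    rw [mem_range]
    have h1 : range (i + 1) ⊆ I := by
      intro j hj
      have hj' := mem_range.1 hj
      exact hdown (i - j) j (by rwa [show j + (i - j) = i by omega])
    have h2 := card_le_card h1
    rw [card_range, hI] at h2
    exact h2
  exact eq_of_subset_of_card_le hsub (by rw [hI, card_range])

namespace Ls

variable (h : Ls m n c pos)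

include h

/-- Every subset of a standard simplex is a face. -/
theorem exists_face {l : ℕ} (hl : l < n) (k : ℕ) : ∀ (N : ℕ) (I : Finset ℕ), ∑ i ∈ I, i = N →
    I ⊆ range (l + 1) → I.card = k + 1 →
    ∃ v ∈ WT m {x | pos x < l}, ∀ y, y ∈ Ff m c v k ↔ ∃ i ∈ I, cz m c i = y := by
  classical
  intro N
  induction N using Nat.strong_induction_on with
  | _ N ih =>
    intro I hN hI hk
    by_cases hr : I = range (k + 1)
    · refine ⟨1, one_mem _, fun y => ?_⟩
      rw [mem_Ff, hr]
      constructor
      · rintro ⟨j, hj, e⟩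
        exact ⟨j, mem_range.2 (Nat.lt_succ_iff.2 hj), by rw [← e, one_smul]⟩
      · rintro ⟨j, hj, e⟩
        exact ⟨j, Nat.lt_succ_iff.1 (mem_range.1 hj), by rw [← e, one_smul]⟩
    · obtain ⟨i, hi, hi1⟩ := exists_gap hk hr
      have hil : i + 1 < l + 1 := mem_range.1 (hI hi1)
      have hsum : ∑ x ∈ insert i (I.erase (i + 1)), x < N := by
        have h1 : i ∉ I.erase (i + 1) := fun h1 => hi (mem_of_mem_erase h1)
        rw [sum_insert h1, ← hN, ← add_sum_erase I (fun x => x) hi1]
        omega
      obtain ⟨v, hv, hv1⟩ := ih _ hsum (insert i (I.erase (i + 1))) rfl (by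
        intro x hx
        rcases mem_insert.1 hx with rfl | hx
        · exact mem_range.2 (by omega)
        · exact hI (mem_of_mem_erase hx)) (by
        rw [card_insert_of_notMem fun h1 => hi (mem_of_mem_erase h1), card_erase_of_mem hi1, hk]
        rfl)
      refine ⟨gn m (c i) * v, mul_mem (gn_mem ?_) hv, fun y => ?_⟩
      · change pos (c i) < l
        rw [h.pc i (by omega)]
        omega
      · have h1 : y = gn m (c i) • (gn m (c i) • y) := by
          rw [smul_smul, gn_mul_self, one_smul]
        have key : ∀ j, j < n → (gn m (c i) • cz m c j = y ↔ cz m c j = gn m (c i) • y) := by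
          intro j _
          constructor
          · intro e
            rw [← e, smul_smul, gn_mul_self, one_smul]
          · intro e
            rw [e, smul_smul, gn_mul_self, one_smul]
        rw [show (y ∈ Ff m c (gn m (c i) * v) k) ↔ gn m (c i) • y ∈ Ff m c v k by
          conv_lhs => rw [h1]
          exact mem_Ff_smul, hv1]
        constructor
        · rintro ⟨j, hj, e⟩
          have hjn : j < n := by
            rcases mem_insert.1 hj with rfl | hj
            · omega
            · have := mem_range.1 (hI (mem_of_mem_erase hj))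
              omega
          rw [← key j hjn, h.smul_cz (by omega) hjn] at e
          refine ⟨_, ?_, e⟩
          rcases mem_insert.1 hj with rfl | hj
          · rw [Equiv.swap_apply_left]
            exact hi1
          · have h2 := mem_of_mem_erase hj
            rw [Equiv.swap_apply_of_ne_of_ne (ne_of_mem_of_not_mem h2 hi) (ne_of_mem_erase hj)]
            exact h2
        · rintro ⟨j, hj, e⟩
          have hjn : j < n := by
            have := mem_range.1 (hI hj)
            omega
          by_cases h2 : j = i + 1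
          · refine ⟨i, mem_insert_self _ _, ?_⟩
            rw [← e, h2]
            exact (h.s_succ i).symm
          · refine ⟨j, mem_insert_of_mem (mem_erase.2 ⟨h2, hj⟩), ?_⟩
            rw [← e, h.smul_cz (by omega) hjn,
              Equiv.swap_apply_of_ne_of_ne (ne_of_mem_of_not_mem hj hi) h2]

/-- Subsets of a simplex. -/
theorem exists_sub {l : ℕ} (hl : l < n) {y : m.Group} {τ : Finset (X0 m c)} (hτ : τ ⊆ Ff m c y l)
    (hne : τ.Nonempty) : ∃ k ≤ l, ∃ v ∈ WT m {x | pos x < l}, τ = Ff m c (y * v) k := by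
  classical
  obtain ⟨I, hI⟩ : ∃ I, I = (range (l + 1)).filter fun i => y • cz m c i ∈ τ := ⟨_, rfl⟩
  have hmem : ∀ x, x ∈ τ ↔ ∃ i ∈ I, y • cz m c i = x := by
    intro x
    constructor
    · intro hx
      obtain ⟨j, hj, e⟩ := mem_Ff.1 (hτ hx)
      refine ⟨j, ?_, e⟩
      rw [hI, mem_filter, mem_range, e]
      exact ⟨Nat.lt_succ_iff.2 hj, hx⟩
    · rintro ⟨i, hi, e⟩
      rw [← e]
      rw [hI] at hi
      exact (mem_filter.1 hi).2
  have hIr : I ⊆ range (l + 1) := by
    rw [hI]
    exact filter_subset _ _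
  have hIne : I.Nonempty := by
    obtain ⟨x, hx⟩ := hne
    obtain ⟨i, hi, -⟩ := (hmem x).1 hx
    exact ⟨i, hi⟩
  obtain ⟨k, hk⟩ : ∃ k, I.card = k + 1 := ⟨I.card - 1, by
    have := hIne.card_pos
    omega⟩
  have hkl : k ≤ l := by
    have h1 := card_le_card hIr
    rw [card_range, hk] at h1
    omega
  obtain ⟨v, hv, hv1⟩ := h.exists_face hl k _ I rfl hIr hk
  refine ⟨k, hkl, v, hv, ?_⟩
  ext x
  have h1 : y • (y⁻¹ • x) = x := smul_inv_smul y x
  rw [← h1, mem_Ff_smul, h1, hv1, hmem]
  constructor
  · rintro ⟨i, hi, e⟩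
    exact ⟨i, hi, by rw [← e, inv_smul_smul]⟩
  · rintro ⟨i, hi, e⟩
    exact ⟨i, hi, by rw [e, smul_inv_smul]⟩

/-- Equal simplices come from the same vertex. -/
theorem Ff_eq {k l : ℕ} (hk : k < n) (hl : l < n) {g g' : m.Group} (e : Ff m c g k = Ff m c g' l) :
    k = l ∧ g⁻¹ * g' ∈ WT m {x | pos x ≠ k} := by
  have h1 : k = l := by
    have h2 := h.Ff_card hk g
    rw [e, h.Ff_card hl g'] at h2
    omega
  refine ⟨h1, h.setwise_mem hk ?_⟩
  rw [← h1] at e
  have h2 := Ff_sub_smul (g' := g⁻¹) e.symm.subset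
  rwa [inv_mul_cancel] at h2

/-- The inclusion of simplices. -/
theorem Ff_sub {k l : ℕ} (hk : k < n) (hl : l < n) {g g' : m.Group} :
    Ff m c g k ⊆ Ff m c g' l ↔ k ≤ l ∧ ∃ z, g⁻¹ * z ∈ WT m {x | pos x ≠ k} ∧
      g'⁻¹ * z ∈ WT m {x | pos x ≠ l} := by
  constructor
  · intro hs
    refine ⟨?_, ?_⟩
    · have h1 := card_le_card hs
      rw [h.Ff_card hk, h.Ff_card hl] at h1
      omega
    · obtain ⟨k', hk', v, hv, e⟩ := h.exists_sub hl hs (by
        rw [← card_pos, h.Ff_card hk]
        omega)
      obtain ⟨-, h2⟩ := h.Ff_eq hk (by omega) e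
      refine ⟨g' * v, h2, ?_⟩
      rw [inv_mul_cancel_left]
      exact WT_mono h.lt_ne hv
  · rintro ⟨hkl, z, h1, h2⟩
    have e1 : Ff m c g k = Ff m c z k := by
      have h3 := h.Ff_mul hk h1 g
      rw [mul_inv_cancel_left] at h3
      exact h3.symm
    have e2 : Ff m c g' l = Ff m c z l := by
      have h3 := h.Ff_mul hl h2 g'
      rw [mul_inv_cancel_left] at h3
      exact h3.symm
    rw [e1, e2]
    exact Ff_mono hkl

end Ls

end LBL
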