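import Pool.Agent.LBL.E7u

/-!
# Project LBL (architect helper40), module Loca: the local systems of Coxeter groups with flag nerve
-/

namespace LBL

open SCG Finset

/-- The Coxeter complex of a group with diagram E7. -/
theorem Br.nohom {κ : Type} [Fintype κ] {m : CoxeterMatrix κ} {f : ℕ → κ} {x : κ}
    (h : Br m 6 f x 2) (hf : Finite m.Group) :
    ∃ (_ : Fintype (Vx m)) (_ : LinearOrder (Vx m)), NoHom (Xm m) := by
  classical
  have hp : ∀ a b, a < 6 → b < 6 → a ≠ b →
      m (f a) (f b) = if a + 1 = b ∨ b + 1 = a then 3 else 2 := by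
    intro a b ha hb hab
    by_cases h1 : a + 1 = b ∨ b + 1 = a
    · rw [if_pos h1]
      rcases h1 with h1 | h1
      · subst h1
        exact h.lab hf hb
      · subst h1
        rw [m.symmetric]
        exact h.lab hf ha
    · rw [if_neg h1]
      by_contra h2
      exact h1 ((h.adj a b ha hb).1 ⟨fun e => hab (h.inj a ha b hb e), h2⟩)
  have hx : ∀ a, a < 6 → m x (f a) = if a = 2 then 3 else 2 := by
    intro a ha
    by_cases h1 : a = 2
    · rw [if_pos h1, h1]
      exact h.labx hf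
    · rw [if_neg h1]
      by_contra h2
      exact h1 ((h.adx a ha).1 ⟨(h.ne a ha).symm, h2⟩)
  obtain ⟨pos, hpos⟩ : ∃ pos : Fin 7 → ℕ, pos = fun i => if i = 6 then 5 else i.1 := ⟨_, rfl⟩
  have hpos6 : ∀ i, i ≠ 5 → pos i < 6 := by
    rw [hpos]
    decide
  have hposi : ∀ i j, i ≠ 5 → j ≠ 5 → pos i = pos j → i = j := by
    rw [hpos]
    decide
  have hposs : ∀ a < 6, ∃ i, i ≠ 5 ∧ pos i = a := by
    rw [hpos]
    decide
  obtain ⟨nd, hnd⟩ : ∃ nd : Fin 7 → κ, nd = fun i => if i = 5 then x else f (pos i) := ⟨_, rfl⟩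
  have nd5 : nd 5 = x := by rw [hnd]; exact if_pos rfl
  have ndn : ∀ i, i ≠ 5 → nd i = f (pos i) := by
    intro i hi
    rw [hnd]
    exact if_neg hi
  have hbij : Function.Bijective nd := by
    constructor
    · intro i j hij
      by_cases hi : i = 5
      · by_cases hj : j = 5
        · rw [hi, hj]
        · rw [hi, nd5, ndn j hj] at hij
          exact absurd hij.symm (h.ne _ (hpos6 j hj))
      · by_cases hj : j = 5
        · rw [hj, nd5, ndn i hi] at hij
          exact absurd hij (h.ne _ (hpos6 i hi))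
        · rw [ndn i hi, ndn j hj] at hij
          exact hposi i j hi hj (h.inj _ (hpos6 i hi) _ (hpos6 j hj) hij)
    · intro t
      rcases h.sur t with h1 | ⟨a, ha, h1⟩
      · exact ⟨5, by rw [nd5, h1]⟩
      · obtain ⟨i, hi, h2⟩ := hposs a ha
        exact ⟨i, by rw [ndn i hi, h2, h1]⟩
  have hE : ∀ i j : Fin 7, m (nd i) (nd j) = E7.w7 i.1 j.1 := by
    have t1 : ∀ i : Fin 7, i ≠ 5 → (if pos i = 2 then 3 else 2) = E7.w7 5 i.1 := by
      rw [hpos]
      decide
    have t2 : ∀ i j : Fin 7, i ≠ 5 → j ≠ 5 → i ≠ j →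
        (if pos i + 1 = pos j ∨ pos j + 1 = pos i then 3 else 2) = E7.w7 i.1 j.1 := by
      rw [hpos]
      decide
    intro i j
    by_cases hij : i = j
    · rw [hij, m.diagonal, E7.w7_self]
    · by_cases hi : i = 5
      · subst hi
        rw [nd5, ndn j (Ne.symm hij), hx _ (hpos6 j (Ne.symm hij)), t1 j (Ne.symm hij)]
        rfl
      · by_cases hj : j = 5
        · subst hj
          rw [nd5, ndn i hi, m.symmetric, hx _ (hpos6 i hi), t1 i hi, E7.w7_comm]
          rfl
        · rw [ndn i hi, ndn j hj, hp _ _ (hpos6 i hi) (hpos6 j hj)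
            (fun e => hij (hposi i j hi hj e)), t2 i j hi hj hij]
  have i1 : Fintype (Vx m) := Fintype.ofFinite _
  obtain ⟨i2, -⟩ := exists_order (Vx m) fun _ => True
  refine ⟨i1, i2, ?_⟩
  rw [nohom_iff, vv_iff_zg]
  refine E7.e7_zg (E := (Equiv.ofBijective nd hbij).symm) hf fun i j => ?_
  obtain ⟨i, rfl⟩ := (Equiv.ofBijective nd hbij).surjective i
  obtain ⟨j, rfl⟩ := (Equiv.ofBijective nd hbij).surjective j
  rw [Equiv.symm_apply_apply, Equiv.symm_apply_apply]
  exact hE i j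

/-- The Coxeter complexes of finite irreducible Coxeter groups of odd rank. -/
theorem nohom_conn {κ : Type} [Fintype κ] {m : CoxeterMatrix κ} (hf : Finite m.Group)
    (hcon : ∀ A : Finset κ, A.Nonempty → A ≠ univ → ∃ a ∈ A, ∃ b, b ∉ A ∧ Aj m a b)
    (hodd : Odd (Fintype.card κ)) :
    ∃ (_ : Fintype (Vx m)) (_ : LinearOrder (Vx m)), NoHom (Xm m) := by
  rcases nohom_or hf hcon hodd with h | ⟨⟨f, x, h⟩, -⟩
  · exact h
  · exact h.nohom hf

/-- The local condition holds for all Coxeter systems with flag nerve. -/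
theorem loc_all {V : Type} (M : CoxeterMatrix V)
    (hM : ∀ K : Finset V, (∀ x ∈ K, ∀ y ∈ K, M x y ≠ 0) → Sph M K) : Loc M := by
  classical
  intro K hK hodd
  obtain ⟨K₁, h1, h2, h3, h5⟩ := exists_comp M hodd
  have hcl : ∀ x ∈ K₁, ∀ y ∈ K₁, M x y ≠ 0 := fun x hx y hy => hK x (h1 hx) y (h1 hy)
  have hf : Finite (sub M K₁).Group := finite_sub (hM K₁ hcl)
  refine ⟨K₁, h1, card_pos.1 h2.pos, h3, nohom_conn hf (sub_con h5) ?_⟩
  rw [Fintype.card_coe]
  exact h2

end LBL
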