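import Pool.Agent.LBL.Clb
import Pool.Agent.LBL.Asm

/-!
# Project LBL (architect helper40), module Lof: odd components; systems without branches
-/

namespace LBL

open SCG Finset

/-- An odd set of generators has an odd connected component. -/
theorem exists_comp {V : Type} [DecidableEq V] (M : CoxeterMatrix V) {K : Finset V}
    (hK : Odd K.card) : ∃ K₁ ⊆ K, Odd K₁.card ∧ (∀ s ∈ K₁, ∀ t ∈ K, t ∉ K₁ → M s t = 2) ∧
      ∀ A ⊆ K₁, A.Nonempty → A ≠ K₁ → ∃ a ∈ A, ∃ b ∈ K₁, b ∉ A ∧ Aj M a b := by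
  classical
  have hex : ∃ n, ∃ K₁ ⊆ K, (Odd K₁.card ∧ ∀ s ∈ K₁, ∀ t ∈ K, t ∉ K₁ → M s t = 2) ∧
      K₁.card = n :=
    ⟨_, K, Finset.Subset.refl K, ⟨hK, fun s _ t ht ht' => absurd ht ht'⟩, rfl⟩
  obtain ⟨K₁, h1, ⟨h2, h3⟩, h4⟩ := Nat.find_spec hex
  refine ⟨K₁, h1, h2, h3, fun A hA hne hA1 => ?_⟩
  by_contra hcon
  push Not at hcon
  have hcon' : ∀ a ∈ A, ∀ b ∈ K₁, b ∉ A → M a b = 2 := by
    intro a ha b hb hba
    by_contra h5
    exact hcon a ha b hb hba ⟨fun e => hba (e ▸ ha), h5⟩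
  have hlt : A.card < K₁.card := card_lt_card (hA.ssubset_of_ne hA1)
  have hsd : (K₁ \ A).card = K₁.card - A.card := card_sdiff_of_subset hA
  have hmin : ∀ B ⊆ K₁, B.card < K₁.card → (∀ s ∈ B, ∀ t ∈ K₁, t ∉ B → M s t = 2) →
      ¬ Odd B.card := by
    intro B hB hlt' h5 hodd
    have h6 := Nat.find_min' hex ⟨B, hB.trans h1, ⟨hodd, fun s hs t ht ht' => by
      by_cases h7 : t ∈ K₁
      · exact h5 s hs t h7 ht'
      · exact h3 s (hB hs) t ht h7⟩, rfl⟩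
    rw [← h4] at h6
    omega
  have h5 := hmin A hA hlt hcon'
  have h6 := hmin (K₁ \ A) sdiff_subset (by
    rw [hsd]
    have := card_pos.2 hne
    omega) (fun s hs t ht ht' => by
    rw [mem_sdiff] at hs
    have htA : t ∈ A := by
      by_contra h7
      exact ht' (mem_sdiff.2 ⟨ht, h7⟩)
    rw [M.symmetric]
    exact hcon' t htA s hs.1 hs.2)
  rw [hsd] at h6
  rw [Nat.odd_iff] at h2 h5 h6
  omega

/-- The connectedness of a component, on the subtype. -/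
theorem sub_con {V : Type} {M : CoxeterMatrix V} {K₁ : Finset V}
    (h : ∀ A ⊆ K₁, A.Nonempty → A ≠ K₁ → ∃ a ∈ A, ∃ b ∈ K₁, b ∉ A ∧ Aj M a b)
    (A : Finset {x // x ∈ K₁}) (hne : A.Nonempty) (hA : A ≠ univ) :
    ∃ a ∈ A, ∃ b, b ∉ A ∧ Aj (sub M K₁) a b := by
  classical
  obtain ⟨a, ha, b, hb, hba, h1⟩ := h (A.map (Function.Embedding.subtype fun x => x ∈ K₁))
    (by
      intro x hx
      obtain ⟨y, -, rfl⟩ := mem_map.1 hx
      exact y.2) (hne.map) (by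
      intro e
      apply hA
      exact map_injective _ (e.trans (map_univ_sub K₁).symm))
  obtain ⟨a', ha', rfl⟩ := mem_map.1 ha
  refine ⟨a', ha', ⟨b, hb⟩, fun h2 => hba (mem_map.2 ⟨⟨b, hb⟩, h2, rfl⟩), ?_, ?_⟩
  · intro e
    apply h1.1
    rw [e]
    rfl
  · exact h1.2

/-- No branches: the Coxeter complexes are fine. -/
theorem loc_free {V : Type} (M : CoxeterMatrix V)
    (hM : ∀ K : Finset V, (∀ x ∈ K, ∀ y ∈ K, M x y ≠ 0) → Sph M K)
    (h4 : ∀ K : Finset V, (∀ x ∈ K, ∀ y ∈ K, M x y ≠ 0) → ∀ b ∈ K, ∀ x ∈ K, ∀ y ∈ K, ∀ z ∈ K,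
      Aj M b x → Aj M b y → Aj M b z → x = y ∨ y = z ∨ x = z) : Loc M := by
  classical
  intro K hK hodd
  obtain ⟨K₁, h1, h2, h3, h5⟩ := exists_comp M hodd
  have hcl : ∀ x ∈ K₁, ∀ y ∈ K₁, M x y ≠ 0 := fun x hx y hy => hK x (h1 hx) y (h1 hy)
  have hf : Finite (sub M K₁).Group := finite_sub (hM K₁ hcl)
  have hne : K₁.Nonempty := card_pos.1 h2.pos
  refine ⟨K₁, h1, hne, h3, ?_⟩
  have hn0 : Nonempty {x // x ∈ K₁} := hne.to_subtype
  obtain ⟨v0, -, hv0⟩ := exists_leaf hf (A := (univ : Finset {x // x ∈ K₁})) univ_nonempty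
  obtain ⟨f, pos, -, hnu⟩ := exists_nu (m := sub M K₁) (v0 := v0)
    (fun t t' => hv0 t (mem_univ _) t' (mem_univ _)) (by
      intro b x y z hx hy hz
      rcases h4 K₁ hcl b.1 b.2 x.1 x.2 y.1 y.2 z.1 z.2 ⟨fun e => hx.1 (Subtype.ext e), hx.2⟩
        ⟨fun e => hy.1 (Subtype.ext e), hy.2⟩ ⟨fun e => hz.1 (Subtype.ext e), hz.2⟩ with h6 | h6 | h6
      · exact Or.inl (Subtype.ext h6)
      · exact Or.inr (Or.inl (Subtype.ext h6))
      · exact Or.inr (Or.inr (Subtype.ext h6))) (sub_con h5)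
  have hcard : Fintype.card {x // x ∈ K₁} = K₁.card := Fintype.card_coe K₁
  rw [hcard] at hnu
  obtain ⟨c, p, hls⟩ := hnu.exists_ls hf (by
    intro e
    rw [e] at h2
    exact absurd h2 (by decide))
  exact hls.nohom hf h2

end LBL
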