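import Pool.Agent.LBL.Lof
import Pool.Agent.LBL.Bre
import Pool.Agent.LBL.Dnb

/-!
# Project LBL (architect helper40), module Noh: finite irreducible Coxeter groups of odd rank

The Coxeter complex is fine (linear diagrams and type D), or the diagram is that of E7.
-/

namespace LBL

open SCG Finset

/-- The trichotomy. -/
theorem nohom_or {κ : Type} [Fintype κ] {m : CoxeterMatrix κ} (hf : Finite m.Group)
    (hcon : ∀ A : Finset κ, A.Nonempty → A ≠ univ → ∃ a ∈ A, ∃ b, b ∉ A ∧ Aj m a b)
    (hodd : Odd (Fintype.card κ)) :
    (∃ (_ : Fintype (Vx m)) (_ : LinearOrder (Vx m)), NoHom (Xm m)) ∨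
      (∃ (f : ℕ → κ) (x : κ), Br m 6 f x 2) ∧ Fintype.card κ = 7 := by
  classical
  have hn0 : Nonempty κ := Fintype.card_pos_iff.1 hodd.pos
  by_cases hb : ∃ b, Br3 m b
  · obtain ⟨b, hb⟩ := hb
    obtain ⟨N, f, x, i, hN, h1⟩ := exists_br hf hcon hb
    have hNe : Even N := by
      rw [← hN] at hodd
      rw [Nat.odd_iff] at hodd
      rw [Nat.even_iff]
      omega
    rcases h1.cases hf hNe with ⟨c, pos, h2⟩ | ⟨f', h2, h3⟩
    · exact Or.inl (h2.nohom hf (hN ▸ hodd))
    · exact Or.inr ⟨⟨f', x, h2⟩, by rw [← hN, h3]⟩
  · left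
    obtain ⟨v0, -, hv0⟩ := exists_leaf hf (A := (univ : Finset κ)) univ_nonempty
    obtain ⟨f, pos, -, hnu⟩ := exists_nu (m := m) (v0 := v0)
      (fun t t' => hv0 t (mem_univ _) t' (mem_univ _)) (by
        intro b x y z hx hy hz
        by_contra hc
        push Not at hc
        obtain ⟨h1, h2, h3⟩ := hc
        refine hb ⟨b, ![x, y, z], ?_, ?_⟩
        · intro i
          fin_cases i
          · exact hx
          · exact hy
          · exact hz
        · intro i j hij
          fin_cases i <;> fin_cases j
          · rfl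
          · exact absurd hij h1
          · exact absurd hij h3
          · exact absurd hij h1.symm
          · rfl
          · exact absurd hij h2
          · exact absurd hij h3.symm
          · exact absurd hij h2.symm
          · rfl) hcon
    obtain ⟨c, p, hls⟩ := hnu.exists_ls hf (by
      intro e
      rw [e] at hodd
      exact absurd hodd (by decide))
    exact hls.nohom hf hodd

end LBL
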