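import Pool.Agent.LBL.Asm

/-!
# Project LBL (architect helper40), module Ply: barycentric subdivisions of boundaries of polytopes
-/

namespace LBL

open SCG SCP SCS Finset

theorem dd_empty {ι : Type} [Fintype ι] [DecidableEq ι] (L : Submodule ℝ (ι → ℝ)) : dd ∅ L = 0 := by
  have h1 := dd_le_one (L := L) (R := ∅) (v := 0) fun z _ => ⟨0, fun i hi =>
    absurd hi (Finset.notMem_empty i)⟩
  have h2 := rank_null L (rs (∅ : Finset ι))
  have h3 : L ⊓ LinearMap.ker (rs (∅ : Finset ι)) = L := by
    rw [inf_eq_left]
    intro x _
    rw [LinearMap.mem_ker, rs_eq_zero]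
    exact fun i hi => absurd hi (Finset.notMem_empty i)
  rw [h3] at h2
  unfold dd
  omega

/-- The theorem for polytopes, arbitrary labels. -/
theorem poly_red {E : Type} [NormedAddCommGroup E] [NormedSpace ℝ E] [FiniteDimensional ℝ E]
    (S : Finset E) (hS : Odd (Module.finrank ℝ (vectorSpan ℝ (S : Set E)))) {V : Type} [Fintype V]
    [LinearOrder V] (M : CoxeterMatrix V)
    (hM : ∀ K : Finset V, (∀ x ∈ K, ∀ y ∈ K, M x y ≠ 0) → Sph M K) (hL : Loc M)
    (φ : V → Set E) (hi : Function.Injective φ)
    (hr : ∀ s, (∃ v, φ v = s) ↔ PF S s)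
    (hc : ∀ x y, x ≠ y → (M x y ≠ 0 ↔ φ x ⊂ φ y ∨ φ y ⊂ φ x)) : NoHom M := by
  classical
  have hφ : ∀ v, PF S (φ v) := fun v => (hr _).1 ⟨v, rfl⟩
  have hpu : pts (univ : Finset {x // x ∈ S}) = (S : Set E) := by
    ext x
    constructor
    · rintro ⟨hx, -⟩
      exact hx
    · intro hx
      exact ⟨hx, mem_univ _⟩
  have hSn : (univ : Finset {x // x ∈ S}).Nonempty := by
    rw [Finset.nonempty_iff_ne_empty]
    intro h
    have h1 : (S : Set E) = ∅ := by
      rw [← hpu, h]
      ext x
      constructor
      · rintro ⟨hx, hx'⟩
        exact absurd hx' (Finset.notMem_empty _)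
      · intro hx
        exact absurd hx (Set.notMem_empty _)
    rw [h1, vectorSpan_empty, finrank_bot] at hS
    exact absurd hS (by decide)
  have hlt : ∀ x y, tr S (φ x) < tr S (φ y) ↔ φ x ⊂ φ y := fun x y => tr_ssub (hφ x) (hφ y)
  refine poset_red M hM hL (fun v => tr S (φ v)) (fun x y hxy => hi (tr_inj (hφ x) (hφ y) hxy))
    (FF (La S) univ) ?_ ?_ (fun F => dd F (La S)) (dd univ (La S)) ?_ ?_
  · intro τ
    rw [mem_FF]
    constructor
    · intro h
      obtain ⟨s, hs, rfl⟩ := fc_exists h
      obtain ⟨v, rfl⟩ := (hr s).2 hs
      exact ⟨v, rfl⟩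
    · rintro ⟨v, rfl⟩
      exact (hφ v).fc
  · intro x y hxy
    rw [hlt, hlt]
    exact hc x y hxy
  · rw [dd_La hSn, hpu]
    exact hS.add_one
  · intro a b ha hb hab hev
    have e1 : (dd (a.elim ∅ id) (La S) : ℕ) = a.elim 0 fun F => dd F (La S) := by
      cases a with
      | none => exact dd_empty _
      | some g => rfl
    have e2 : (dd (b.elim univ id) (La S) : ℕ) = b.elim (dd univ (La S)) fun F => dd F (La S) := by
      cases b with
      | none => rfl
      | some g => rfl
    have h1 := itv_zg (L := La S) (G := a.elim ∅ id) (F := b.elim univ id) ?_ ?_ ?_ (by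
      rw [e1, e2]
      exact hev)
    · refine (congrArg (ZG (cmM (Finset {x // x ∈ S}))) ?_).mp h1
      ext H
      rw [mem_filter, mem_filter]
      refine and_congr_right fun hH => ?_
      rw [mem_FF] at hH
      refine and_congr ?_ ?_
      · cases a with
        | none =>
          constructor
          · exact fun _ g hg => absurd hg (by simp)
          · exact fun _ => empty_ssubset.2 hH.1
        | some g =>
          constructor
          · intro h2 g' hg'
            rw [Option.mem_def, Option.some.injEq] at hg'
            rw [← hg']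
            exact h2
          · exact fun h2 => h2 g rfl
      · cases b with
        | none =>
          constructor
          · exact fun _ g hg => absurd hg (by simp)
          · exact fun _ => ssubset_univ_iff.2 hH.2.1
        | some g =>
          constructor
          · intro h2 g' hg'
            rw [Option.mem_def, Option.some.injEq] at hg'
            rw [← hg']
            exact h2
          · exact fun h2 => h2 g rfl
    · cases a with
      | none =>
        exact Or.inl ⟨rfl, fun _ => 1, mem_La.2 ⟨0, 1, fun x => by
          rw [LinearMap.zero_apply, zero_add]⟩, fun i => one_pos⟩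
      | some g => exact Or.inr (mem_FF.1 (ha g rfl))
    · cases b with
      | none => exact Or.inl rfl
      | some g => exact Or.inr (mem_FF.1 (hb g rfl))
    · cases a with
      | none =>
        cases b with
        | none => exact empty_ssubset.2 hSn
        | some f => exact empty_ssubset.2 (mem_FF.1 (hb f rfl)).1
      | some g =>
        cases b with
        | none => exact ssubset_univ_iff.2 (mem_FF.1 (ha g rfl)).2.1
        | some f => exact hab g rfl f rfl

end LBL
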