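import Pool.Agent.LBL.Loca
import Pool.Agent.LBL.Ply

/-!
# Project LBL (architect helper40), module Pair: two generators with finite label; the theorem for polytopes
-/

namespace LBL

open SCG SNG SCS SCP Finset

/-- Two involutions whose product has finite order generate a finite group. -/
theorem closure_pair_finite {G : Type} [Group G] {a b : G} (ha : a * a = 1) (hb : b * b = 1) {m : ℕ}
    (hm : m ≠ 0) (hab : (a * b) ^ m = 1) : (Subgroup.closure {a, b} : Set G).Finite := by
  have ha' : a⁻¹ = a := inv_eq_of_mul_eq_one_left ha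
  have hb' : b⁻¹ = b := inv_eq_of_mul_eq_one_left hb
  have hfin : (Subgroup.zpowers (a * b) : Set G).Finite := by
    have h1 : IsOfFinOrder (a * b) :=
      isOfFinOrder_iff_pow_eq_one.2 ⟨m, Nat.pos_of_ne_zero hm, hab⟩
    exact h1.finite_zpowers
  have hinv : ∀ h ∈ Subgroup.zpowers (a * b), a * h * a ∈ Subgroup.zpowers (a * b) := by
    intro h hh
    obtain ⟨k, rfl⟩ := Subgroup.mem_zpowers_iff.1 hh
    refine Subgroup.mem_zpowers_iff.2 ⟨-k, ?_⟩
    have h2 : a * (a * b) * a⁻¹ = (a * b)⁻¹ := by
      rw [mul_inv_rev, ha', hb', ← mul_assoc, ha, one_mul]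
    have h3 : a * (a * b) ^ k * a⁻¹ = ((a * b)⁻¹) ^ k := by
      rw [← h2, conj_zpow]
    rw [ha'] at h3
    rw [h3, inv_zpow, zpow_neg]
  have hall : ∀ x ∈ Subgroup.closure {a, b}, x ∈ Subgroup.zpowers (a * b) ∨
      x * a ∈ Subgroup.zpowers (a * b) := by
    intro x hx
    induction hx using Subgroup.closure_induction with
    | mem x hx =>
      rcases hx with rfl | hx
      · exact Or.inr (by rw [ha]; exact one_mem _)
      · rw [Set.mem_singleton_iff] at hx
        rw [hx]
        refine Or.inr ?_
        have h2 : b * a = (a * b)⁻¹ := by rw [mul_inv_rev, ha', hb']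
        rw [h2]
        exact inv_mem (Subgroup.mem_zpowers _)
    | one => exact Or.inl (one_mem _)
    | mul x y _ _ hx hy =>
      rcases hx with hx | hx <;> rcases hy with hy | hy
      · exact Or.inl (mul_mem hx hy)
      · exact Or.inr (by rw [mul_assoc]; exact mul_mem hx hy)
      · refine Or.inr ?_
        have h2 : x * y * a = x * a * (a * y * a) := by
          rw [← mul_assoc, ← mul_assoc, mul_assoc x a a, ha, mul_one]
        rw [h2]
        exact mul_mem hx (hinv y hy)
      · refine Or.inl ?_
        have h2 : x * y = x * a * (a * (y * a) * a) := by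
          rw [← mul_assoc a y a, mul_assoc (a * y) a a, ha, mul_one, ← mul_assoc, mul_assoc x a a, ha,
            mul_one]
        rw [h2]
        exact mul_mem hx (hinv _ hy)
    | inv x _ hx =>
      rcases hx with hx | hx
      · exact Or.inl (inv_mem hx)
      · refine Or.inr ?_
        have h2 : x⁻¹ * a = a * (x * a)⁻¹ * a := by
          rw [mul_inv_rev, ha', ← mul_assoc, ha, one_mul]
        rw [h2]
        exact hinv _ (inv_mem hx)
  refine (hfin.union (hfin.image fun h => h * a)).subset fun x hx => ?_
  rcases hall x hx with h1 | h1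
  · exact Or.inl h1
  · refine Or.inr ⟨x * a, h1, ?_⟩
    change x * a * a = x
    rw [mul_assoc, ha, mul_one]

/-- Two generators with finite label generate a finite group. -/
theorem sph_pair {V : Type} [DecidableEq V] {M : CoxeterMatrix V} {s t : V} (h : M s t ≠ 0) :
    Sph M {s, t} := by
  have h1 := M.toCoxeterSystem.simple_mul_simple_pow s t
  have h2 := closure_pair_finite (gn_mul_self M s) (gn_mul_self M t) h h1
  unfold Sph WT
  convert h2 using 3
  ext x
  simp only [coe_insert, coe_singleton, Set.image_insert_eq, Set.image_singleton]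

/-- The theorem for polytopes. -/
theorem poly_all {E : Type} [NormedAddCommGroup E] [NormedSpace ℝ E] [FiniteDimensional ℝ E]
    (S : Finset E) (hS : Odd (Module.finrank ℝ (vectorSpan ℝ (S : Set E)))) {V : Type} [Fintype V]
    [LinearOrder V] (M : CoxeterMatrix V)
    (φ : V → Set E) (hi : Function.Injective φ)
    (hr : ∀ s, (∃ v, φ v = s) ↔ PF S s)
    (hN : ∀ K : Finset V, Sph M K ↔ ∀ x ∈ K, ∀ y ∈ K, x ≠ y → φ x ⊂ φ y ∨ φ y ⊂ φ x) :
    NoHom M := by
  have hc : ∀ x y, x ≠ y → (M x y ≠ 0 ↔ φ x ⊂ φ y ∨ φ y ⊂ φ x) := by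
    intro x y hxy
    constructor
    · intro h
      exact (hN _).1 (sph_pair h) x (mem_insert_self _ _) y
        (mem_insert_of_mem (mem_singleton_self _)) hxy
    · intro h
      have h1 : Sph M {x, y} := by
        rw [hN]
        intro u hu v hv huv
        rw [mem_insert, mem_singleton] at hu hv
        rcases hu with rfl | rfl <;> rcases hv with rfl | rfl
        · exact absurd rfl huv
        · exact h
        · exact h.symm
        · exact absurd rfl huv
      exact sph_ne h1 (mem_insert_self _ _) (mem_insert_of_mem (mem_singleton_self _))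
  have hM : ∀ K : Finset V, (∀ x ∈ K, ∀ y ∈ K, M x y ≠ 0) → Sph M K := by
    intro K hK
    rw [hN]
    intro x hx y hy hxy
    exact (hc x y hxy).1 (hK x hx y hy)
  exact poly_red S hS M hM (loc_all M hM) φ hi hr hc

end LBL
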