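import Pool.Agent.SCS.Pull

/-!
# Project LBL (architect helper40), module Pl: bounded operators given by finitely many weighted pull backs
-/

namespace LBL

open SCS

/-- A weighted pull back. -/
theorem exists_pl {α β : Type} {φ : α → β} {c : α → ℝ} {B : ℝ} (hB : ∀ x, |c x| ≤ B)
    (hi : ∀ x y, c x ≠ 0 → c y ≠ 0 → φ x = φ y → x = y) :
    ∃ T : Ell β →L[ℝ] Ell α, ∀ f x, T f x = c x * f (φ x) := by
  classical
  by_cases hα : Nonempty α
  swap
  · exact ⟨0, fun f x => absurd ⟨x⟩ hα⟩
  have hB0 : 0 ≤ B := (abs_nonneg _).trans (hB hα.some)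
  have hle : ∀ (f : Ell β) (s : Finset α), ∑ x ∈ s, (c x * f (φ x)) ^ 2 ≤ (B * ‖f‖) ^ 2 := by
    intro f s
    rw [mul_pow, ell_norm_sq]
    calc ∑ x ∈ s, (c x * f (φ x)) ^ 2
        = ∑ x ∈ s.filter (fun x => c x ≠ 0), (c x * f (φ x)) ^ 2 := by
          rw [Finset.sum_filter]
          refine Finset.sum_congr rfl fun x _ => ?_
          split_ifs with h1
          · rfl
          · have h2 : c x = 0 := by simpa using h1
            simp [h2]
      _ ≤ ∑ x ∈ s.filter (fun x => c x ≠ 0), B ^ 2 * f (φ x) ^ 2 := by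
          refine Finset.sum_le_sum fun x _ => ?_
          rw [mul_pow]
          have h1 : c x ^ 2 ≤ B ^ 2 := by
            rw [← sq_abs]
            exact pow_le_pow_left₀ (abs_nonneg _) (hB x) 2
          nlinarith [sq_nonneg (f (φ x))]
      _ = B ^ 2 * ∑ y ∈ (s.filter (fun x => c x ≠ 0)).image φ, f y ^ 2 := by
          rw [Finset.mul_sum, Finset.sum_image]
          intro x hx y hy hxy
          have hx' := (Finset.mem_filter.1 (Finset.mem_coe.1 hx)).2
          have hy' := (Finset.mem_filter.1 (Finset.mem_coe.1 hy)).2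
          exact hi x y hx' hy' hxy
      _ ≤ B ^ 2 * ∑' x, f x ^ 2 :=
          mul_le_mul_of_nonneg_left ((ell_summable f).sum_le_tsum _ fun x _ => sq_nonneg _)
            (sq_nonneg _)
  have hs : ∀ f : Ell β, Summable fun x => (c x * f (φ x)) ^ 2 := fun f =>
    summable_of_sum_le (fun x => sq_nonneg _) (hle f)
  let T : Ell β →ₗ[ℝ] Ell α :=
    { toFun := fun f => mkE (fun x => c x * f (φ x)) (hs f)
      map_add' := fun f g => ell_ext fun x => by
        simp only [mkE_apply, ell_add]
        ring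
      map_smul' := fun a f => ell_ext fun x => by
        simp only [mkE_apply, ell_smul, RingHom.id_apply]
        ring }
  refine ⟨T.mkContinuous B fun f => ?_, fun f x => rfl⟩
  refine (sq_le_sq₀ (norm_nonneg _) (by positivity)).1 ?_
  rw [ell_norm_sq]
  exact (hs f).tsum_le_of_sum_le (hle f)

/-- Finite sums of weighted pull backs. -/
theorem exists_op {α β I : Type} (s : Finset I) {φ : I → α → β} {c : I → α → ℝ} {B : I → ℝ}
    (hB : ∀ i x, |c i x| ≤ B i)
    (hi : ∀ i x y, c i x ≠ 0 → c i y ≠ 0 → φ i x = φ i y → x = y) :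
    ∃ T : Ell β →L[ℝ] Ell α, ∀ f x, T f x = ∑ i ∈ s, c i x * f (φ i x) := by
  choose T hT using fun i => exists_pl (hB i) (hi i)
  refine ⟨∑ i ∈ s, T i, fun f x => ?_⟩
  rw [_root_.sum_apply, ell_sum]
  exact Finset.sum_congr rfl fun i _ => hT i f x

end LBL
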