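import Pool.Agent.LBL.Red

/-!
# Project LBL (architect helper40), module Semi: the group of the local system of a spherical set

`Xm m`: the right-angled Coxeter matrix on the pairs `(i, g W_{κ - i})`; label `2` if the types are
different and the cosets intersect.  The group of `Bg m ∅` is a semidirect product of the group of `Xm m`
and the group of `m` (`exists_theta`).
-/

namespace LBL

open SCG SNG SCS Finset

variable {κ : Type}

/-- The vertices of the Coxeter complex: cosets of the maximal special subgroups. -/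
abbrev Vx (m : CoxeterMatrix κ) : Type := Σ i : κ, m.Group ⧸ WT m ({i}ᶜ : Set κ)

/-- the vertex of type `i` of the chamber `g` -/
noncomputable def vx (m : CoxeterMatrix κ) (i : κ) (g : m.Group) : Vx m := ⟨i, (g : m.Group ⧸ WT m ({i}ᶜ : Set κ))⟩

theorem vx_eq {m : CoxeterMatrix κ} {i : κ} {g h : m.Group} :
    vx m i g = vx m i h ↔ g⁻¹ * h ∈ WT m ({i}ᶜ : Set κ) := by
  unfold vx
  rw [← QuotientGroup.eq]
  constructor
  · intro h1
    exact eq_of_heq (Sigma.mk.inj h1).2
  · intro h1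
    rw [h1]

theorem vx_surj {m : CoxeterMatrix κ} (v : Vx m) : ∃ g, v = vx m v.1 g := by
  obtain ⟨i, q⟩ := v
  obtain ⟨g, rfl⟩ := QuotientGroup.mk_surjective q
  exact ⟨g, rfl⟩

/-- Two vertices are in a common chamber. -/
def Cch (m : CoxeterMatrix κ) (a b : Vx m) : Prop := ∃ g, a = vx m a.1 g ∧ b = vx m b.1 g

open Classical in
/-- The right-angled Coxeter matrix of the Coxeter complex. -/
noncomputable def Xm (m : CoxeterMatrix κ) : CoxeterMatrix (Vx m) where
  M := Matrix.of fun a b => if a = b then 1 else if a.1 ≠ b.1 ∧ Cch m a b then 2 else 0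
  isSymm := by
    ext a b
    change (if b = a then 1 else if b.1 ≠ a.1 ∧ Cch m b a then 2 else 0) =
      (if a = b then 1 else if a.1 ≠ b.1 ∧ Cch m a b then 2 else 0)
    have h1 : Cch m b a ↔ Cch m a b :=
      ⟨fun ⟨g, h2, h3⟩ => ⟨g, h3, h2⟩, fun ⟨g, h2, h3⟩ => ⟨g, h3, h2⟩⟩
    simp only [eq_comm (a := b) (b := a), ne_comm (a := b.1) (b := a.1), h1]
  diagonal a := if_pos rfl
  off_diagonal a b h := by
    change (if a = b then 1 else if a.1 ≠ b.1 ∧ Cch m a b then 2 else 0) ≠ 1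
    rw [if_neg h]
    split_ifs <;> norm_num

theorem xm_two {m : CoxeterMatrix κ} {i j : κ} (h : i ≠ j) (g : m.Group) :
    Xm m (vx m i g) (vx m j g) = 2 := by
  classical
  change (if vx m i g = vx m j g then 1 else
    if (vx m i g).1 ≠ (vx m j g).1 ∧ Cch m (vx m i g) (vx m j g) then 2 else 0) = 2
  rw [if_neg, if_pos]
  · exact ⟨h, g, rfl, rfl⟩
  · intro h1
    exact h (congrArg Sigma.fst h1)

theorem xm_ne {m : CoxeterMatrix κ} {a b : Vx m} (h : a ≠ b) (h0 : Xm m a b ≠ 0) :
    a.1 ≠ b.1 ∧ Cch m a b := by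
  classical
  by_contra hcon
  apply h0
  change (if a = b then 1 else if a.1 ≠ b.1 ∧ Cch m a b then 2 else 0) = 0
  rw [if_neg h, if_neg hcon]

theorem invol_pow {G : Type} [Group G] {a b : G} (ha : a * a = 1) (hb : b * b = 1)
    (h : a * b = b * a) : (a * b) ^ 2 = 1 := by
  rw [pow_two]
  calc a * b * (a * b) = a * (b * a) * b := by group
    _ = a * a * (b * b) := by rw [← h]; group
    _ = 1 := by rw [ha, hb, one_mul]

/-- The group of the local system. -/
theorem exists_theta (m : CoxeterMatrix κ) (hm : ∀ x y, m x y ≠ 0) :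
    ∃ (Θ : (Xm m).Group × m.Group ≃ (Bg m ∅).Group) (ι : m.Group →* (Bg m ∅).Group),
      (∀ x, ι (gn m x) = gn (Bg m ∅) (Sum.inl x)) ∧
      (∀ r w y, Θ (r, w) * ι y = Θ (r, w * y)) ∧
      ∀ r w s, Θ (r, w) * gn (Bg m ∅) (Sum.inr s) = Θ (r * gn (Xm m) (vx m s w), w) := by
  classical
  have hll : ∀ x y, x ≠ y → Bg m ∅ (Sum.inl x) (Sum.inl y) = m x y := fun x y h =>
    bg_ll h (hm x y) (Finset.notMem_empty x) (Finset.notMem_empty y)
  -- the inclusion of the group of `m`
  have hι : m.IsLiftable fun x => gn (Bg m ∅) (Sum.inl x) := by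
    intro x y
    by_cases hxy : x = y
    · rw [hxy, m.diagonal, pow_one, gn_mul_self]
    · have h1 := (Bg m ∅).toCoxeterSystem.simple_mul_simple_pow (Sum.inl x) (Sum.inl y)
      rw [hll x y hxy] at h1
      exact h1
  obtain ⟨ι, hι1⟩ : ∃ ι : m.Group →* (Bg m ∅).Group, ∀ x, ι (gn m x) = gn (Bg m ∅) (Sum.inl x) :=
    ⟨m.toCoxeterSystem.lift ⟨_, hι⟩, fun x => m.toCoxeterSystem.lift_apply_simple hι x⟩
  have hcomm : ∀ i, ∀ y ∈ WT m ({i}ᶜ : Set κ),
      gn (Bg m ∅) (Sum.inr i) * ι y = ι y * gn (Bg m ∅) (Sum.inr i) := by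
    intro i y hy
    obtain ⟨η, h1, rfl⟩ := exists_word hy
    clear hy
    induction η with
    | nil => rw [wp_nil, map_one, one_mul, mul_one]
    | cons s η ih =>
      have hs : s ≠ i := h1 s List.mem_cons_self
      have h2 : gn (Bg m ∅) (Sum.inr i) * gn (Bg m ∅) (Sum.inl s) =
          gn (Bg m ∅) (Sum.inl s) * gn (Bg m ∅) (Sum.inr i) := by
        refine gn_comm ?_
        rw [(Bg m ∅).symmetric]
        exact bg_lr hs (hm s i)
      rw [wp_cons, map_mul, hι1, ← mul_assoc, h2, mul_assoc, ih fun t ht =>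
        h1 t (List.mem_cons_of_mem _ ht), mul_assoc]
  -- the images of the generators of the right-angled group
  obtain ⟨cv, hcv⟩ : ∃ cv : Vx m → (Bg m ∅).Group, ∀ i g,
      cv (vx m i g) = ι g * gn (Bg m ∅) (Sum.inr i) * (ι g)⁻¹ := by
    have h1 : ∀ v : Vx m, ∃ c : (Bg m ∅).Group, ∀ g, v = vx m v.1 g →
        c = ι g * gn (Bg m ∅) (Sum.inr v.1) * (ι g)⁻¹ := by
      intro v
      obtain ⟨g₀, hg₀⟩ := vx_surj v
      refine ⟨ι g₀ * gn (Bg m ∅) (Sum.inr v.1) * (ι g₀)⁻¹, fun g hg => ?_⟩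
      have h2 : g⁻¹ * g₀ ∈ WT m ({v.1}ᶜ : Set κ) := vx_eq.1 (hg.symm.trans hg₀)
      have h3 := hcomm v.1 _ h2
      have h4 : ι g₀ = ι g * ι (g⁻¹ * g₀) := by rw [← map_mul, mul_inv_cancel_left]
      rw [h4, mul_inv_rev]
      calc ι g * ι (g⁻¹ * g₀) * gn (Bg m ∅) (Sum.inr v.1) * ((ι (g⁻¹ * g₀))⁻¹ * (ι g)⁻¹)
          = ι g * (ι (g⁻¹ * g₀) * gn (Bg m ∅) (Sum.inr v.1)) * (ι (g⁻¹ * g₀))⁻¹ * (ι g)⁻¹ := by
            group
        _ = _ := by
            rw [← h3]
            group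
    choose cv hcv using h1
    exact ⟨cv, fun i g => hcv (vx m i g) g rfl⟩
  have hψ : (Xm m).IsLiftable cv := by
    intro a b
    by_cases hab : a = b
    · subst hab
      rw [(Xm m).diagonal, pow_one]
      obtain ⟨g, hg⟩ := vx_surj a
      rw [hg, hcv]
      calc ι g * gn (Bg m ∅) (Sum.inr a.1) * (ι g)⁻¹ *
            (ι g * gn (Bg m ∅) (Sum.inr a.1) * (ι g)⁻¹)
          = ι g * (gn (Bg m ∅) (Sum.inr a.1) * gn (Bg m ∅) (Sum.inr a.1)) * (ι g)⁻¹ := by group
        _ = 1 := by rw [gn_mul_self]; group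
    · by_cases h0 : Xm m a b = 0
      · rw [h0, pow_zero]
      · obtain ⟨h1, g, h2, h3⟩ := xm_ne hab h0
        have h4 : Xm m a b = 2 := by
          rw [h2, h3]
          exact xm_two h1 g
        rw [h4, h2, h3, hcv, hcv]
        have h5 : ι g * gn (Bg m ∅) (Sum.inr a.1) * (ι g)⁻¹ *
            (ι g * gn (Bg m ∅) (Sum.inr b.1) * (ι g)⁻¹) =
            ι g * (gn (Bg m ∅) (Sum.inr a.1) * gn (Bg m ∅) (Sum.inr b.1)) * (ι g)⁻¹ := by group
        rw [h5, conj_pow, invol_pow (gn_mul_self _ _) (gn_mul_self _ _)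
          (gn_comm (bg_rr h1 (hm a.1 b.1)))]
        group
  obtain ⟨ψ, hψ1⟩ : ∃ ψ : (Xm m).Group →* (Bg m ∅).Group, ∀ v, ψ (gn (Xm m) v) = cv v :=
    ⟨(Xm m).toCoxeterSystem.lift ⟨cv, hψ⟩, fun v => (Xm m).toCoxeterSystem.lift_apply_simple hψ v⟩
  have hinr : ∀ r w s, ψ r * ι w * gn (Bg m ∅) (Sum.inr s) =
      ψ (r * gn (Xm m) (vx m s w)) * ι w := by
    intro r w s
    rw [map_mul, hψ1, hcv]
    group
  -- the permutations
  obtain ⟨p, hpl, hpr⟩ : ∃ p : κ ⊕ κ → Equiv.Perm ((Xm m).Group × m.Group),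
      (∀ x q, p (Sum.inl x) q = (q.1, q.2 * gn m x)) ∧
      ∀ s q, p (Sum.inr s) q = (q.1 * gn (Xm m) (vx m s q.2), q.2) := by
    refine ⟨fun u => match u with
      | Sum.inl x => ⟨fun q => (q.1, q.2 * gn m x), fun q => (q.1, q.2 * gn m x), fun q => by
          simp only [mul_assoc, gn_mul_self, mul_one], fun q => by
          simp only [mul_assoc, gn_mul_self, mul_one]⟩
      | Sum.inr s => ⟨fun q => (q.1 * gn (Xm m) (vx m s q.2), q.2),
          fun q => (q.1 * gn (Xm m) (vx m s q.2), q.2), fun q => by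
          simp only [mul_assoc, gn_mul_self, mul_one], fun q => by
          simp only [mul_assoc, gn_mul_self, mul_one]⟩, fun x q => rfl, fun s q => rfl⟩
  have hpp : ∀ u, p u * p u = 1 := by
    intro u
    ext1 q
    rw [Equiv.Perm.mul_apply, Equiv.Perm.one_apply]
    rcases u with x | s
    · rw [hpl, hpl, mul_assoc, gn_mul_self, mul_one]
    · rw [hpr, hpr, mul_assoc, gn_mul_self, mul_one]
  have hP : (Bg m ∅).IsLiftable p := by
    intro u v
    by_cases huv : u = v
    · rw [huv, (Bg m ∅).diagonal, pow_one, hpp]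
    · rcases u with x | x <;> rcases v with y | y
      · have hxy : x ≠ y := fun e => huv (by rw [e])
        rw [hll x y hxy]
        have h1 : ∀ (n : ℕ) q, ((p (Sum.inl x) * p (Sum.inl y)) ^ n) q =
            (q.1, q.2 * (gn m y * gn m x) ^ n) := by
          intro n
          induction n with
          | zero =>
            intro q
            rw [pow_zero, pow_zero, mul_one]
            rfl
          | succ n ih =>
            intro q
            rw [pow_succ', Equiv.Perm.mul_apply, ih, Equiv.Perm.mul_apply, hpl, hpl, pow_succ]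
            simp only [mul_assoc]
        ext1 q
        rw [h1]
        have h2 := m.toCoxeterSystem.simple_mul_simple_pow y x
        rw [m.symmetric y x] at h2
        change (gn m y * gn m x) ^ m x y = 1 at h2
        rw [h2, mul_one]
        rfl
      · by_cases hxy : x = y
        · rw [bg_lr0 (Or.inl hxy), pow_zero]
        · rw [bg_lr hxy (hm x y)]
          refine invol_pow (hpp _) (hpp _) ?_
          ext1 q
          rw [Equiv.Perm.mul_apply, Equiv.Perm.mul_apply, hpl, hpr, hpr, hpl]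
          have h2 : vx m y q.2 = vx m y (q.2 * gn m x) := by
            rw [vx_eq, inv_mul_cancel_left]
            exact gn_mem hxy
          change (q.1 * gn (Xm m) (vx m y q.2), q.2 * gn m x) =
            (q.1 * gn (Xm m) (vx m y (q.2 * gn m x)), q.2 * gn m x)
          rw [h2]
      · by_cases hxy : y = x
        · rw [(Bg m ∅).symmetric, bg_lr0 (Or.inl hxy), pow_zero]
        · rw [(Bg m ∅).symmetric, bg_lr hxy (hm y x)]
          refine invol_pow (hpp _) (hpp _) ?_
          ext1 q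
          rw [Equiv.Perm.mul_apply, Equiv.Perm.mul_apply, hpl, hpr, hpr, hpl]
          have h2 : vx m x q.2 = vx m x (q.2 * gn m y) := by
            rw [vx_eq, inv_mul_cancel_left]
            exact gn_mem hxy
          change (q.1 * gn (Xm m) (vx m x (q.2 * gn m y)), q.2 * gn m y) =
            (q.1 * gn (Xm m) (vx m x q.2), q.2 * gn m y)
          rw [h2]
      · have hxy : x ≠ y := fun e => huv (by rw [e])
        rw [bg_rr hxy (hm x y)]
        refine invol_pow (hpp _) (hpp _) ?_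
        ext1 q
        rw [Equiv.Perm.mul_apply, Equiv.Perm.mul_apply, hpr, hpr, hpr, hpr]
        change (q.1 * gn (Xm m) (vx m y q.2) * gn (Xm m) (vx m x q.2), q.2) =
          (q.1 * gn (Xm m) (vx m x q.2) * gn (Xm m) (vx m y q.2), q.2)
        rw [mul_assoc, mul_assoc, gn_comm (xm_two hxy q.2)]
  obtain ⟨P, hP1⟩ : ∃ P : (Bg m ∅).Group →* Equiv.Perm ((Xm m).Group × m.Group),
      ∀ u, P (gn (Bg m ∅) u) = p u :=
    ⟨(Bg m ∅).toCoxeterSystem.lift ⟨p, hP⟩,
      fun u => (Bg m ∅).toCoxeterSystem.lift_apply_simple hP u⟩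
  -- the right action
  have ha : ∀ g h q, P (g * h)⁻¹ q = P h⁻¹ (P g⁻¹ q) := by
    intro g h q
    rw [mul_inv_rev, map_mul, Equiv.Perm.mul_apply]
  have ha1 : ∀ u q, P (gn (Bg m ∅) u)⁻¹ q = p u q := by
    intro u q
    rw [gn_inv, hP1]
  have ha2 : ∀ w r₀ w₀, P (ι w)⁻¹ (r₀, w₀) = (r₀, w₀ * w) := by
    intro w
    obtain ⟨η, rfl, -⟩ := exists_red w
    induction η with
    | nil =>
      intro r₀ w₀
      rw [wp_nil, map_one, inv_one, map_one, mul_one]
      rfl
    | cons s η ih =>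
      intro r₀ w₀
      rw [wp_cons, map_mul, ha, hι1, ha1, hpl, ih, mul_assoc]
  have ha3 : ∀ v r₀, P (cv v)⁻¹ (r₀, 1) = (r₀ * gn (Xm m) v, 1) := by
    intro v r₀
    obtain ⟨g, hg⟩ := vx_surj v
    rw [hg, hcv, ha, ha, ha2, ha1, hpr, one_mul]
    change P ((ι g)⁻¹)⁻¹ (r₀ * gn (Xm m) (vx m v.1 g), g) = _
    rw [← map_inv, ha2, mul_inv_cancel]
  have ha4 : ∀ r r₀, P (ψ r)⁻¹ (r₀, 1) = (r₀ * r, 1) := by
    intro r
    obtain ⟨η, rfl, -⟩ := exists_red r
    induction η with
    | nil =>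
      intro r₀
      rw [wp_nil, map_one, inv_one, map_one, mul_one]
      rfl
    | cons s η ih =>
      intro r₀
      rw [wp_cons, map_mul, ha, hψ1, ha3, ih, mul_assoc]
  have hbij : Function.Bijective fun q : (Xm m).Group × m.Group => ψ q.1 * ι q.2 := by
    constructor
    · rintro ⟨r, w⟩ ⟨r', w'⟩ he
      change ψ r * ι w = ψ r' * ι w' at he
      have h1 : P (ψ r * ι w)⁻¹ (1, 1) = (r, w) := by rw [ha, ha4, ha2, one_mul, one_mul]
      have h2 : P (ψ r' * ι w')⁻¹ (1, 1) = (r', w') := by rw [ha, ha4, ha2, one_mul, one_mul]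
      rw [← h1, ← h2, he]
    · intro g
      obtain ⟨η, rfl, -⟩ := exists_red g
      induction η using List.reverseRecOn with
      | nil =>
        refine ⟨(1, 1), ?_⟩
        rw [wp_nil]
        change ψ 1 * ι 1 = 1
        rw [map_one, map_one, one_mul]
      | append_singleton η u ih =>
        obtain ⟨⟨r, w⟩, he⟩ := ih
        change ψ r * ι w = wp (Bg m ∅) η at he
        rw [wp_append, wp_cons, wp_nil, mul_one, ← he]
        rcases u with x | s
        · refine ⟨(r, w * gn m x), ?_⟩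
          change ψ r * ι (w * gn m x) = _
          rw [map_mul, hι1, mul_assoc]
        · refine ⟨(r * gn (Xm m) (vx m s w), w), ?_⟩
          exact (hinr r w s).symm
  refine ⟨Equiv.ofBijective _ hbij, ι, hι1, fun r w y => ?_, fun r w s => ?_⟩
  · change ψ r * ι w * ι y = ψ r * ι (w * y)
    rw [map_mul, mul_assoc]
  · exact hinr r w s

end LBL
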