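import Mathlib

/-!
# Project LBL (architect helper40), module Zig: a filtered complex and the quotient by an acyclic part
-/

namespace LBL

variable {H : Type} [NormedAddCommGroup H] [NormedSpace ℝ H]

/-- Exactness with bounds. -/
theorem zig_ex {C F : ℕ → Submodule ℝ H} {d P K : H →L[ℝ] H} {m : ℕ}
    (hdC : ∀ j, ∀ x ∈ C (j + 1), d x ∈ C j) (hdd : ∀ x, d (d x) = 0)
    (hKC : ∀ j, ∀ x ∈ C j, K x ∈ C (j + 1)) (hKF : ∀ p, ∀ x ∈ F p, K x ∈ F (p + 1))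
    (hstep : ∀ j p x, x ∈ C j → x ∈ F p → d x = 0 → (p = 0 → P x = 0) → x - d (K x) ∈ F (p + 1))
    (hFm : ∀ j x, x ∈ C j → x ∈ F m → x = 0) (hanti : ∀ p, F (p + 1) ≤ F p) :
    ∀ n p, n + p = m → ∃ R : ℝ, 0 ≤ R ∧ ∀ j, ∀ x ∈ C j, x ∈ F p → d x = 0 → (p = 0 → P x = 0) →
      ∃ b ∈ C (j + 1), b ∈ F (p + 1) ∧ d b = x ∧ ‖b‖ ≤ R * ‖x‖ := by
  intro n
  induction n with
  | zero =>
    intro p hp
    refine ⟨0, le_rfl, fun j x hx hF _ _ => ⟨0, zero_mem _, zero_mem _, ?_, ?_⟩⟩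
    · rw [map_zero]
      refine (hFm j x hx ?_).symm
      rw [← hp, zero_add]
      exact hF
    · rw [norm_zero, zero_mul]
  | succ n ih =>
    intro p hp
    obtain ⟨R, hR, h⟩ := ih (p + 1) (by omega)
    refine ⟨‖K‖ + R * (1 + ‖d‖ * ‖K‖), by positivity, fun j x hx hF hdx hPx => ?_⟩
    have h1 := hstep j p x hx hF hdx hPx
    obtain ⟨b, hb, hbF, hdb, hbn⟩ := h j (x - d (K x))
      (Submodule.sub_mem _ hx (hdC j _ (hKC j x hx))) h1 (by rw [map_sub, hdx, hdd, sub_zero])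
      fun h2 => absurd h2 (Nat.succ_ne_zero p)
    refine ⟨K x + b, Submodule.add_mem _ (hKC j x hx) hb,
      Submodule.add_mem _ (hKF p x hF) (hanti _ hbF), by rw [map_add, hdb]; abel, ?_⟩
    have h2 : ‖K x‖ ≤ ‖K‖ * ‖x‖ := K.le_opNorm x
    have h3 : ‖d (K x)‖ ≤ ‖d‖ * (‖K‖ * ‖x‖) :=
      (d.le_opNorm _).trans (mul_le_mul_of_nonneg_left h2 (norm_nonneg _))
    have h4 : ‖x - d (K x)‖ ≤ ‖x‖ + ‖d‖ * (‖K‖ * ‖x‖) :=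
      (norm_sub_le _ _).trans (add_le_add_right h3 _)
    calc ‖K x + b‖ ≤ ‖K x‖ + ‖b‖ := norm_add_le _ _
      _ ≤ ‖K‖ * ‖x‖ + R * (‖x‖ + ‖d‖ * (‖K‖ * ‖x‖)) :=
          add_le_add h2 (hbn.trans (mul_le_mul_of_nonneg_left h4 hR))
      _ = _ := by ring

/-- Acyclicity of the quotient implies acyclicity. -/
theorem zig {C F : ℕ → Submodule ℝ H} {d P K : H →L[ℝ] H} {m : ℕ}
    (hdC : ∀ j, ∀ x ∈ C (j + 1), d x ∈ C j) (hd0 : ∀ x ∈ C 0, d x = 0) (hdd : ∀ x, d (d x) = 0)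
    (hKC : ∀ j, ∀ x ∈ C j, K x ∈ C (j + 1)) (hKF : ∀ p, ∀ x ∈ F p, K x ∈ F (p + 1))
    (hstep : ∀ j p x, x ∈ C j → x ∈ F p → d x = 0 → (p = 0 → P x = 0) → x - d (K x) ∈ F (p + 1))
    (hFm : ∀ j x, x ∈ C j → x ∈ F m → x = 0) (hF0 : ∀ x, x ∈ F 0) (hanti : ∀ p, F (p + 1) ≤ F p)
    (hPC : ∀ j, ∀ x ∈ C j, P x ∈ C j) (hPP : ∀ x, P (P x) = P x) (hPF : ∀ x ∈ F 1, P x = 0)
    (hPd : ∀ j, ∀ x ∈ C j, P (d (P x)) = P (d x))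
    (hD : ∀ j, ∀ x ∈ C j, P x = x → P (d x) = 0 → ∀ ε : ℝ, 0 < ε →
      ∃ h ∈ C (j + 1), P h = h ∧ ‖x - P (d h)‖ < ε)
    (j : ℕ) (x : H) (hx : x ∈ C j) (hdx : d x = 0) (ε : ℝ) (hε : 0 < ε) :
    ∃ h ∈ C (j + 1), ‖x - d h‖ < ε := by
  obtain ⟨R, hR, hex⟩ := zig_ex (P := P) hdC hdd hKC hKF hstep hFm hanti m 0 (by rw [add_zero])
  -- exactness
  have hex' : ∀ j, ∀ x ∈ C j, d x = 0 → P x = 0 →
      ∃ b ∈ C (j + 1), P b = 0 ∧ d b = x ∧ ‖b‖ ≤ R * ‖x‖ := by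
    intro j x hx hdx hPx
    obtain ⟨b, h1, h2, h3, h4⟩ := hex j x hx (hF0 x) hdx fun _ => hPx
    exact ⟨b, h1, hPF b h2, h3, h4⟩
  obtain ⟨δ, hδ, hδε⟩ : ∃ δ : ℝ, 0 < δ ∧ δ * (1 + R * ‖d‖) ≤ ε := by
    refine ⟨ε / (1 + R * ‖d‖), by positivity, ?_⟩
    rw [div_mul_cancel₀]
    positivity
  obtain ⟨χ, hχ, hPχ, hχn⟩ := hD j (P x) (hPC j x hx) (hPP x) (by
    rw [hPd j x hx, hdx, map_zero]) δ hδ
  obtain ⟨z, hz⟩ : ∃ z, z = x - d χ := ⟨_, rfl⟩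
  have hzC : z ∈ C j := by
    rw [hz]
    exact Submodule.sub_mem _ hx (hdC j _ hχ)
  have hdz : d z = 0 := by
    rw [hz, map_sub, hdx, hdd, sub_zero]
  have hPz : ‖P z‖ < δ := by
    rw [hz, map_sub]
    exact hχn
  -- a correction
  obtain ⟨w, hw, hPw, hdw, hwn⟩ : ∃ w ∈ C j, P w = 0 ∧ d w = d (P z) ∧
      ‖w‖ ≤ R * (‖d‖ * ‖P z‖) := by
    cases j with
    | zero =>
      refine ⟨0, zero_mem _, map_zero _, ?_, ?_⟩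
      · rw [map_zero, hd0 _ (hPC 0 z hzC)]
      · rw [norm_zero]
        positivity
    | succ j =>
      obtain ⟨w, h1, h2, h3, h4⟩ := hex' j (d (P z)) (hdC j _ (hPC _ z hzC)) (hdd _) (by
        rw [hPd _ z hzC, hdz, map_zero])
      exact ⟨w, h1, h2, h3, h4.trans (mul_le_mul_of_nonneg_left (d.le_opNorm _) hR)⟩
  obtain ⟨b, hb, -, hdb, -⟩ := hex' j (z - P z + w)
    (Submodule.add_mem _ (Submodule.sub_mem _ hzC (hPC j z hzC)) hw)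
    (by rw [map_add, map_sub, hdz, hdw]; abel) (by rw [map_add, map_sub, hPP, hPw]; abel)
  refine ⟨χ + b, Submodule.add_mem _ hχ hb, ?_⟩
  have h1 : x - d (χ + b) = P z - w := by
    rw [map_add, hdb, hz]
    abel
  rw [h1]
  calc ‖P z - w‖ ≤ ‖P z‖ + ‖w‖ := norm_sub_le _ _
    _ ≤ ‖P z‖ + R * (‖d‖ * ‖P z‖) := add_le_add_right hwn _
    _ = ‖P z‖ * (1 + R * ‖d‖) := by ring
    _ < δ * (1 + R * ‖d‖) := mul_lt_mul_of_pos_right hPz (by positivity)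
    _ ≤ ε := hδε

end LBL
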