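import Pool.Agent.LBL.Op
import Pool.Agent.LBL.Zig
import Pool.Agent.SCG.Hom

/-!
# Project LBL (architect helper40), module Tra: the transfer theorem

If the reduced homology of the complex of the chains which are invariant under the averaging `Pa M T`
(with the boundary `Pa M T ∘ bD M`) vanishes, then so does the reduced homology of the Davis complex.
-/

namespace LBL

open SCG SNG SCS Finset
open scoped InnerProductSpace

variable {V : Type} [Fintype V] [LinearOrder V] {M : CoxeterMatrix V} {T : Finset V}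

/-- A criterion for the vanishing of the harmonic chains. -/
theorem hh_bot_of {S : Finset V} {j : ℕ} (h : ∀ f ∈ CC M S j, bD M f = 0 → ∀ ε : ℝ, 0 < ε →
    ∃ k ∈ CC M S (j + 1), ‖f - bD M k‖ < ε) : HH M S j = ⊥ := by
  rw [eq_bot_iff]
  intro f hf
  rw [mem_HH] at hf
  obtain ⟨h1, h2, h3⟩ := hf
  rw [Submodule.mem_bot]
  by_contra hne
  have hpos : 0 < ‖f‖ := norm_pos_iff.2 hne
  obtain ⟨k, hk, hlt⟩ := h f h1 h2 ‖f‖ hpos
  have h6 : ⟪bD M k, f⟫_ℝ = 0 := h3 k hk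
  have h7 : ‖f - bD M k‖ ^ 2 = ‖f‖ ^ 2 + ‖bD M k‖ ^ 2 := by
    have h8 : ⟪f, bD M k⟫_ℝ = 0 := by
      rw [real_inner_comm]
      exact h6
    rw [← real_inner_self_eq_norm_sq, inner_sub_sub_self, h6, h8,
      real_inner_self_eq_norm_sq, real_inner_self_eq_norm_sq]
    ring
  nlinarith [sq_nonneg ‖bD M k‖, norm_nonneg (f - bD M k)]

/-- Cycles are limits of boundaries. -/
theorem exists_of_hh {S : Finset V} {j : ℕ} (h : HH M S j = ⊥) {f : HW M} (hf : f ∈ CC M S j)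
    (hdf : bD M f = 0) {ε : ℝ} (hε : 0 < ε) : ∃ k ∈ CC M S (j + 1), ‖f - bD M k‖ < ε := by
  have h1 : f ∈ CC M S j ⊓ kr (bD M) := ⟨hf, mem_kr.2 hdf⟩
  rw [cyc_eq, h, sup_bot_eq] at h1
  have h2 : f ∈ closure ((im (bD M) (CC M S (j + 1)) : Submodule ℝ (HW M)) : Set (HW M)) := h1
  obtain ⟨y, hy, hd⟩ := Metric.mem_closure_iff.1 h2 ε hε
  obtain ⟨k, hk, rfl⟩ := mem_im.1 hy
  exact ⟨k, hk, by rwa [dist_eq_norm] at hd⟩

/-- the filtration -/
private def Fp (M : CoxeterMatrix V) (T : Finset V) (p : ℕ) : Submodule ℝ (HW M) where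
  carrier := {f | ∀ X : Finset V, (X ∩ T).card < p → ∀ g, f (X, g) = 0}
  add_mem' := by
    intro f h hf hh X hX g
    rw [ell_add, hf X hX, hh X hX, add_zero]
  zero_mem' := fun _ _ _ => rfl
  smul_mem' := by
    intro c f hf X hX g
    rw [ell_smul, hf X hX, mul_zero]

private theorem mem_Fp {p : ℕ} {f : HW M} :
    f ∈ Fp M T p ↔ ∀ X : Finset V, (X ∩ T).card < p → ∀ g, f (X, g) = 0 := Iff.rfl

/-- The transfer theorem. -/
theorem transfer (h : Tc M T) (hD : ∀ j, ∀ f ∈ CC M univ j, Pa M T f = f →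
    Pa M T (bD M f) = 0 → ∀ ε : ℝ, 0 < ε →
      ∃ k ∈ CC M univ (j + 1), Pa M T k = k ∧ ‖f - Pa M T (bD M k)‖ < ε) (j : ℕ) :
    HH M univ j = ⊥ := by
  obtain ⟨K, hK1, hK2, hK3⟩ := exists_K h
  refine hh_bot_of fun f hf hdf ε hε => ?_
  refine zig (C := fun j => CC M univ j) (F := Fp M T) (d := bD M) (P := Pa M T) (K := K)
    (m := T.card + 1) (fun j x hx => bD_mem hx) (fun x hx => bD_zero hx) bD_bD hK1
    (fun p x hx => mem_Fp.2 (hK2 p x (mem_Fp.1 hx))) ?_ ?_ ?_ ?_ (fun j x hx => Pa_mem h hx)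
    (Pa_Pa h) ?_ (fun j x hx => Pa_d_Pa h hx) hD j f hf hdf ε hε
  · intro j p x hx hF hdx hPx
    exact mem_Fp.2 (hK3 j p x hx (mem_Fp.1 hF) hdx hPx)
  · intro j x _ hx
    refine ell_ext fun q => ?_
    obtain ⟨X, g⟩ := q
    exact mem_Fp.1 hx X (Nat.lt_succ_of_le (Finset.card_le_card Finset.inter_subset_right)) g
  · intro x
    exact mem_Fp.2 fun X hX => absurd hX (Nat.not_lt_zero _)
  · intro p x hx
    exact mem_Fp.2 fun X hX => mem_Fp.1 hx X (Nat.lt_succ_of_lt hX)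
  · intro x hx
    refine ell_ext fun q => ?_
    obtain ⟨X, g⟩ := q
    rw [ell_zero]
    by_cases hX : Disjoint X T
    · rw [Pa_apply h x hX]
      have h1 : ∑ y ∈ wf M (TU M T X), x (X, g * y) = 0 := by
        refine Finset.sum_eq_zero fun y _ => mem_Fp.1 hx X ?_ _
        rw [Finset.disjoint_iff_inter_eq_empty.1 hX, Finset.card_empty]
        exact Nat.one_pos
      rw [h1, mul_zero]
    · exact Pa_zero M T x hX g

end LBL
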