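import Pool.Agent.LBL.Semi
import Pool.Agent.LBL.Lina

/-!
# Project LBL (architect helper40), module Wt: weights of simply laced Coxeter groups

The group of a simply laced Coxeter matrix acts on the integral functions on the nodes (weights); `ac_pos`:
positivity of roots; `tits`: stabilizers of dominant weights; `exists_dom`: every weight of a finite group is
conjugate to a dominant one.
-/

namespace LBL

open SCG Finset

variable {κ : Type} {m : CoxeterMatrix κ}

/-- simply laced -/
def SL (m : CoxeterMatrix κ) : Prop := ∀ s t, s ≠ t → m s t = 2 ∨ m s t = 3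

open Classical in
/-- the Cartan integers -/
noncomputable def cc (m : CoxeterMatrix κ) (s t : κ) : ℤ :=
  if s = t then 2 else if m s t = 3 then -1 else 0

theorem cc_self (s : κ) : cc m s s = 2 := if_pos rfl

theorem cc_three {s t : κ} (h : m s t = 3) : cc m s t = -1 := by
  unfold cc
  rw [if_neg, if_pos h]
  rintro rfl
  rw [m.diagonal] at h
  omega

theorem cc_two {s t : κ} (h : m s t = 2) : cc m s t = 0 := by
  unfold cc
  rw [if_neg, if_neg (by omega)]
  rintro rfl
  rw [m.diagonal] at h
  omega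

/-- the reflection of a weight -/
noncomputable def wr (m : CoxeterMatrix κ) (s : κ) (v : κ → ℤ) : κ → ℤ :=
  fun t => v t - cc m s t * v s

theorem wr_wr (s : κ) (v : κ → ℤ) : wr m s (wr m s v) = v := by
  ext t
  unfold wr
  rw [cc_self]
  ring

/-- the reflection as an automorphism -/
noncomputable def wre (m : CoxeterMatrix κ) (s : κ) : (κ → ℤ) ≃ₗ[ℤ] (κ → ℤ) where
  toFun := wr m s
  invFun := wr m s
  left_inv := wr_wr s
  right_inv := wr_wr s
  map_add' v w := by
    ext t
    change v t + w t - cc m s t * (v s + w s) = v t - cc m s t * v s + (w t - cc m s t * w s)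
    ring
  map_smul' c v := by
    ext t
    change c * v t - cc m s t * (c * v s) = c * (v t - cc m s t * v s)
    ring

theorem wre_apply (s : κ) (v : κ → ℤ) : wre m s v = wr m s v := rfl

theorem wre_rel (h : SL m) (s t : κ) : (wre m s * wre m t) ^ m s t = 1 := by
  by_cases hst : s = t
  · subst hst
    rw [m.diagonal, pow_one]
    refine LinearEquiv.ext fun v => ?_
    exact wr_wr s v
  · rcases h s t hst with h2 | h3
    · rw [h2]
      have e1 := cc_two h2
      have e2 := cc_two ((m.symmetric t s).trans h2)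
      refine LinearEquiv.ext fun v => funext fun x => ?_
      rw [pow_two]
      change wr m s (wr m t (wr m s (wr m t v))) x = v x
      simp only [wr, cc_self, e1, e2]
      ring
    · rw [h3]
      have e1 := cc_three h3
      have e2 := cc_three ((m.symmetric t s).trans h3)
      refine LinearEquiv.ext fun v => funext fun x => ?_
      rw [pow_succ, pow_two]
      change wr m s (wr m t (wr m s (wr m t (wr m s (wr m t v))))) x = v x
      simp only [wr, cc_self, e1, e2]
      ring

/-- the action on the weights -/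
noncomputable def ac (h : SL m) : m.Group →* ((κ → ℤ) ≃ₗ[ℤ] (κ → ℤ)) :=
  m.toCoxeterSystem.lift ⟨wre m, wre_rel h⟩

theorem ac_gn (h : SL m) (s : κ) (v : κ → ℤ) : ac h (gn m s) v = wr m s v := by
  unfold ac
  rw [m.toCoxeterSystem.lift_apply_simple]
  rfl

theorem ac_mul (h : SL m) (g g' : m.Group) (v : κ → ℤ) :
    ac h (g * g') v = ac h g (ac h g' v) := by
  rw [map_mul]
  rfl

theorem ac_one (h : SL m) (v : κ → ℤ) : ac h 1 v = v := by
  rw [map_one]
  rfl

theorem ac_inv (h : SL m) (g : m.Group) (v : κ → ℤ) : ac h g⁻¹ (ac h g v) = v := by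
  rw [← ac_mul, inv_mul_cancel, ac_one]

theorem ac_gn_self (h : SL m) (s : κ) (v : κ → ℤ) : ac h (gn m s) v s = - v s := by
  rw [ac_gn]
  unfold wr
  rw [cc_self]
  ring

theorem exists_desc {g : m.Group} (hg : g ≠ 1) : ∃ t, ln m (g * gn m t) + 1 = ln m g := by
  obtain ⟨η, h1, h2⟩ := exists_red g
  rcases List.eq_nil_or_concat η with rfl | ⟨η', t, rfl⟩
  · rw [wp_nil] at h1
    exact absurd h1.symm hg
  · refine ⟨t, ?_⟩
    rw [List.concat_eq_append] at h1 h2
    rw [wp_append, wp_cons, wp_nil, mul_one] at h1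
    rw [List.length_append, List.length_singleton] at h2
    have h3 : g * gn m t = wp m η' := by
      rw [← h1, mul_assoc, gn_mul_self, mul_one]
    have h4 := ln_wp_le (M := m) η'
    rcases ln_mul_gn g t with h5 | h5
    · rw [h3] at h5
      omega
    · exact h5

/-- Positivity of roots. -/
theorem ac_pos (h : SL m) : ∀ (n : ℕ) (g : m.Group), ln m g = n → ∀ s,
    ln m g < ln m (g * gn m s) → ∀ v : κ → ℤ, (∀ t, 0 ≤ v t) → 0 ≤ ac h g⁻¹ v s := by
  intro n
  induction n using Nat.strong_induction_on with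
  | _ n ih =>
    intro g hn s hs v hv
    by_cases hg : g = 1
    · rw [hg, inv_one, ac_one]
      exact hv s
    obtain ⟨t, ht⟩ := exists_desc hg
    obtain ⟨g', hg'⟩ : ∃ g', g' = g * gn m t := ⟨_, rfl⟩
    have hgg : g = g' * gn m t := by
      rw [hg', mul_assoc, gn_mul_self, mul_one]
    rw [← hg'] at ht
    have hst : s ≠ t := by
      rintro rfl
      rw [← hg'] at hs
      omega
    have hinv : ac h g⁻¹ v = wr m t (ac h g'⁻¹ v) := by
      rw [hgg, mul_inv_rev, gn_inv, ac_mul, ac_gn]
    have hgs : ln m (g * gn m s) = ln m g + 1 := (ln_mul_gn g s).resolve_right (by omega)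
    rcases h s t hst with h2 | h3
    · have h4 : g * gn m s = g' * gn m s * gn m t := by
        rw [hgg, mul_assoc, mul_assoc, gn_comm h2]
      have h5 : ln m g' < ln m (g' * gn m s) := by
        rcases ln_mul_gn (g' * gn m s) t with h6 | h6 <;>
          rcases ln_mul_gn g' s with h7 | h7 <;> rw [← h4] at h6 <;> omega
      have h6 := ih (ln m g') (by omega) g' rfl s h5 v hv
      rw [hinv]
      unfold wr
      rw [cc_two ((m.symmetric t s).trans h2)]
      linarith
    · have e1 := cc_three h3
      have e2 := cc_three ((m.symmetric t s).trans h3)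
      by_cases h5 : ln m g' < ln m (g' * gn m s)
      · have h6 := ih (ln m g') (by omega) g' rfl s h5 v hv
        have h7 := ih (ln m g') (by omega) g' rfl t (by
          rw [← hgg]
          omega) v hv
        rw [hinv]
        unfold wr
        rw [e2]
        linarith
      · have h6 : ln m (g' * gn m s) + 1 = ln m g' := (ln_mul_gn g' s).resolve_left (by omega)
        obtain ⟨g'', hg''⟩ : ∃ g'', g'' = g' * gn m s := ⟨_, rfl⟩
        have hgg' : g' = g'' * gn m s := by
          rw [hg'', mul_assoc, gn_mul_self, mul_one]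
        rw [← hg''] at h6
        have h7 : ln m g'' < ln m (g'' * gn m t) := by
          by_contra h8
          have h9 : ln m (g'' * gn m t) + 1 = ln m g'' := (ln_mul_gn g'' t).resolve_left (by omega)
          have hb : gn m t * gn m s * gn m t = gn m s * gn m t * gn m s := by
            have h10 := m.toCoxeterSystem.simple_mul_simple_pow t s
            rw [(m.symmetric t s).trans h3, pow_succ, pow_two] at h10
            change gn m t * gn m s * (gn m t * gn m s) * (gn m t * gn m s) = 1 at h10
            have h11 : gn m t * gn m s * gn m t * (gn m s * gn m t * gn m s) = 1 := by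
              rw [← h10]
              group
            rw [eq_inv_of_mul_eq_one_left h11, mul_inv_rev, mul_inv_rev, gn_inv, gn_inv, mul_assoc]
          have h10 : g * gn m s = g'' * gn m t * (gn m s * gn m t) := by
            rw [hgg, hgg']
            calc g'' * gn m s * gn m t * gn m s = g'' * (gn m s * gn m t * gn m s) := by group
              _ = g'' * gn m t * (gn m s * gn m t) := by
                rw [← hb]
                group
          have h11 := ln_mul_le (M := m) (g'' * gn m t) (gn m s * gn m t)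
          have h12 := ln_mul_le (M := m) (gn m s) (gn m t)
          rw [ln_gn, ln_gn] at h12
          rw [← h10] at h11
          omega
        have h8 := ih (ln m g'') (by omega) g'' rfl t h7 v hv
        rw [hinv, hgg', mul_inv_rev, gn_inv, ac_mul, ac_gn]
        have h9 : wr m t (wr m s (ac h g''⁻¹ v)) s = ac h g''⁻¹ v t := by
          simp only [wr, cc_self, e1, e2]
          ring
        rw [h9]
        exact h8

/-- Stabilizers of dominant weights. -/
theorem tits (h : SL m) : ∀ (n : ℕ) (g : m.Group), ln m g = n → ∀ v : κ → ℤ, (∀ t, 0 ≤ v t) →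
    (∀ t, 0 ≤ ac h g v t) → ac h g v = v ∧ g ∈ WT m {t | v t = 0} := by
  intro n
  induction n with
  | zero =>
    intro g hg v _ _
    rw [ln_eq_zero] at hg
    rw [hg]
    exact ⟨ac_one h v, one_mem _⟩
  | succ n ih =>
    intro g hg v hv hv'
    have hne : g⁻¹ ≠ 1 := by
      intro h1
      rw [inv_eq_one] at h1
      rw [h1, ln_one] at hg
      omega
    obtain ⟨s, hs⟩ := exists_desc hne
    obtain ⟨g', hg'⟩ : ∃ g', g' = gn m s * g := ⟨_, rfl⟩
    have hgg : g = gn m s * g' := by
      rw [hg', ← mul_assoc, gn_mul_self, one_mul]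
    have h1 : g⁻¹ * gn m s = g'⁻¹ := by
      rw [hg', mul_inv_rev, gn_inv]
    rw [h1, ln_inv, ln_inv] at hs
    have h2 : ln m g'⁻¹ < ln m (g'⁻¹ * gn m s) := by
      rw [← h1, mul_assoc, gn_mul_self, mul_one, h1, ln_inv, ln_inv]
      omega
    have h3 := ac_pos h _ g'⁻¹ rfl s h2 v hv
    rw [inv_inv] at h3
    have h4 : ac h g v = wr m s (ac h g' v) := by
      rw [hgg, ac_mul, ac_gn]
    have h5 : ac h g v s = - ac h g' v s := by
      rw [hgg, ac_mul, ac_gn_self]
    have h6 : ac h g' v s = 0 := by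
      have := hv' s
      omega
    have h7 : ac h g v = ac h g' v := by
      rw [h4]
      ext t
      unfold wr
      rw [h6]
      ring
    obtain ⟨h8, h9⟩ := ih g' (by omega) v hv (by
      intro t
      rw [← h7]
      exact hv' t)
    refine ⟨h7.trans h8, ?_⟩
    rw [hgg]
    refine Subgroup.mul_mem _ (gn_mem ?_) h9
    change v s = 0
    rw [← h8]
    exact h6

theorem tits' (h : SL m) {g : m.Group} {v : κ → ℤ} (hv : ∀ t, 0 ≤ v t)
    (hv' : ∀ t, 0 ≤ ac h g v t) : ac h g v = v ∧ g ∈ WT m {t | v t = 0} :=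
  tits h _ g rfl v hv hv'

theorem ac_fix (h : SL m) {g : m.Group} {v : κ → ℤ} (hg : g ∈ WT m {t | v t = 0}) :
    ac h g v = v := by
  obtain ⟨η, h1, rfl⟩ := exists_word hg
  clear hg
  induction η with
  | nil => rw [wp_nil, ac_one]
  | cons s η ih =>
    rw [wp_cons, ac_mul, ih fun t ht => h1 t (List.mem_cons_of_mem _ ht), ac_gn]
    have h2 : v s = 0 := h1 s List.mem_cons_self
    ext t
    unfold wr
    rw [h2]
    ring

/-- Every weight of a finite group is conjugate to a dominant one. -/
theorem exists_dom [Fintype κ] (h : SL m) (hf : Finite m.Group) (v : κ → ℤ) :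
    ∃ g, ∀ t, 0 ≤ ac h g v t := by
  classical
  have i1 : Fintype m.Group := Fintype.ofFinite _
  obtain ⟨ip, hip⟩ : ∃ ip : (κ → ℤ) → (κ → ℤ) → ℤ, ∀ a b, ip a b = ∑ g : m.Group, ∑ t,
      ac h g a t * ac h g b t := ⟨_, fun _ _ => rfl⟩
  have hgeo : ∀ g a b, ip (ac h g a) (ac h g b) = ip a b := by
    intro g a b
    rw [hip, hip]
    refine Fintype.sum_equiv (Equiv.mulRight g) _ _ fun g' => ?_
    refine sum_congr rfl fun t _ => ?_
    rw [Equiv.coe_mulRight, ac_mul, ac_mul]
  have hadd : ∀ a a' b, ip (a + a') b = ip a b + ip a' b := by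
    intro a a' b
    rw [hip, hip, hip, ← sum_add_distrib]
    refine sum_congr rfl fun g _ => ?_
    rw [← sum_add_distrib]
    refine sum_congr rfl fun t _ => ?_
    rw [map_add, Pi.add_apply]
    ring
  have hsmul : ∀ (c : ℤ) a b, ip (c • a) b = c * ip a b := by
    intro c a b
    rw [hip, hip, mul_sum]
    refine sum_congr rfl fun g _ => ?_
    rw [mul_sum]
    refine sum_congr rfl fun t _ => ?_
    rw [map_smul, Pi.smul_apply, smul_eq_mul]
    ring
  have hcomm : ∀ a b, ip a b = ip b a := by
    intro a b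
    rw [hip, hip]
    refine sum_congr rfl fun g _ => sum_congr rfl fun t _ => ?_
    ring
  obtain ⟨δ, hδ⟩ : ∃ δ : κ → ℤ, ∀ s, δ s = 1 := ⟨fun _ => 1, fun _ => rfl⟩
  obtain ⟨g, -, hg⟩ := exists_max_image (univ : Finset m.Group) (fun g => ip (ac h g v) δ)
    ⟨1, mem_univ _⟩
  refine ⟨g, fun s => ?_⟩
  obtain ⟨a, ha⟩ : ∃ a : κ → ℤ, a = cc m s := ⟨_, rfl⟩
  have h1 : ∀ w : κ → ℤ, wr m s w = w + (- w s) • a := by
    intro w
    ext t
    rw [Pi.add_apply, Pi.smul_apply, smul_eq_mul, ha]
    unfold wr
    ring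
  have has : a s = 2 := by rw [ha, cc_self]
  have hpos : 0 < ip a a := by
    rw [hip]
    refine sum_pos' (fun g _ => sum_nonneg fun t _ => mul_self_nonneg _) ⟨1, mem_univ _, ?_⟩
    refine sum_pos' (fun t _ => mul_self_nonneg _) ⟨s, mem_univ _, ?_⟩
    rw [ac_one, has]
    norm_num
  have h2 : 2 * ip a δ = ip a a := by
    have h3 := hgeo (gn m s) a δ
    rw [ac_gn, ac_gn, h1, h1, has, hδ, hadd, hsmul, hcomm a, hadd, hcomm δ a, hsmul] at h3
    linarith
  have h3 := hg (gn m s * g) (mem_univ _)
  rw [ac_mul, ac_gn, h1, hadd, hsmul] at h3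
  have h4 : 0 ≤ ac h g v s * ip a δ := by linarith
  have h5 : 0 < ip a δ := by linarith
  exact nonneg_of_mul_nonneg_left h4 h5

/-- a system of multiples of the fundamental weights -/
structure Fw (wt : κ → κ → ℤ) : Prop where
  pos : ∀ i, 0 < wt i i
  zero : ∀ i j, j ≠ i → wt i j = 0

theorem Fw.nonneg {wt : κ → κ → ℤ} (w : Fw wt) (i j : κ) : 0 ≤ wt i j := by
  by_cases hj : j = i
  · rw [hj]
    exact (w.pos i).le
  · rw [w.zero i j hj]

theorem Fw.set {wt : κ → κ → ℤ} (w : Fw wt) (i : κ) : {t | wt i t = 0} = ({i}ᶜ : Set κ) := by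
  ext t
  change wt i t = 0 ↔ t ≠ i
  constructor
  · rintro h1 rfl
    exact (w.pos t).ne' h1
  · exact w.zero i t

theorem Fw.eq_iff (h : SL m) {wt : κ → κ → ℤ} (w : Fw wt) {i j : κ} {g g' : m.Group} :
    ac h g (wt i) = ac h g' (wt j) ↔ vx m i g = vx m j g' := by
  constructor
  · intro h1
    have h2 : ac h (g'⁻¹ * g) (wt i) = wt j := by
      rw [ac_mul, h1, ac_inv]
    obtain ⟨h3, h4⟩ := tits' h (w.nonneg i) (fun t => by
      rw [h2]
      exact w.nonneg j t)
    rw [w.set] at h4
    have h5 : i = j := by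
      by_contra hij
      have h6 := congrFun (h2.symm.trans h3) j
      rw [w.zero i j (fun e => hij e.symm)] at h6
      exact (w.pos j).ne' h6
    subst h5
    rw [vx_eq]
    have h6 := Subgroup.inv_mem _ h4
    rwa [mul_inv_rev, inv_inv] at h6
  · intro h1
    have h5 : i = j := congrArg Sigma.fst h1
    subst h5
    rw [vx_eq, ← w.set i] at h1
    have h2 := ac_fix h h1
    rw [ac_mul] at h2
    have h3 := congrArg (ac h g) h2
    rw [← ac_mul, mul_inv_cancel, ac_one] at h3
    exact h3.symm

/-- Adjacency of vertices by an invariant relation. -/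
theorem Fw.cch [Fintype κ] (h : SL m) (hf : Finite m.Group) {wt : κ → κ → ℤ} (w : Fw wt)
    (R : (κ → ℤ) → (κ → ℤ) → Prop) (hR : ∀ g a b, R a b → R (ac h g a) (ac h g b))
    (hs : ∀ a b s, R a b → 0 ≤ a s * b s) {i j : κ} {g g' : m.Group}
    (hr : R (ac h g (wt i)) (ac h g' (wt j))) : ∃ z, vx m i g = vx m i z ∧ vx m j g' = vx m j z := by
  obtain ⟨z, hz⟩ := exists_dom h hf (ac h g (wt i) + ac h g' (wt j))
  have h1 := hR z _ _ hr
  obtain ⟨a, ha⟩ : ∃ a, a = ac h z (ac h g (wt i)) := ⟨_, rfl⟩
  obtain ⟨b, hb⟩ : ∃ b, b = ac h z (ac h g' (wt j)) := ⟨_, rfl⟩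
  rw [← ha, ← hb] at h1
  have h2 : ∀ t, 0 ≤ a t ∧ 0 ≤ b t := by
    intro t
    have h3 := hz t
    rw [map_add, Pi.add_apply, ← ha, ← hb] at h3
    have h4 := hs a b t h1
    by_contra h5
    rw [not_and_or, not_le, not_le] at h5
    rcases h5 with h5 | h5
    · have h6 : 0 < b t := by omega
      nlinarith
    · have h6 : 0 < a t := by omega
      nlinarith
  have key : ∀ (k : κ) (u : m.Group), (∀ t, 0 ≤ ac h z (ac h u (wt k)) t) →
      vx m k u = vx m k z⁻¹ := by
    intro k u hk
    rw [← ac_mul] at hk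
    obtain ⟨-, h4⟩ := tits' h (w.nonneg k) hk
    rw [w.set] at h4
    rw [vx_eq]
    have h5 := Subgroup.inv_mem _ h4
    rwa [mul_inv_rev] at h5
  refine ⟨z⁻¹, key i g fun t => ?_, key j g' fun t => ?_⟩
  · rw [← ha]
    exact (h2 t).1
  · rw [← hb]
    exact (h2 t).2

end LBL
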